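import Pool.Agent.HUR.Defs2

namespace Pool.Agent.HUR

open MvPolynomial Pool.Agent.HCH Pool.Agent.HCF

variable {ι P : Type} [Fintype P] {Γ : ι → ι → Prop} {N : ι → Prop} {c : P → ι}

/-
PROOF. a m := φ (mk (X (some (inl m)))), y m := φ (mk (X (some (inr m)))). Put
z := φ (mk (X none)). φ ∘ mk kills rel Γ N c x for every x (Ideal.subset_span). For x = none and
map_ds (as in the proof of aeval_rel in Defs2) this says z * ds a = 1. If a m = a l with m ≠ l then
ds a = 0 (Finset.prod_eq_zero with the pair (m, l)), a contradiction: a is injective. For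
x = some m (split_ifs, map_nb) one gets sq and one. Finally ev h = φ: both are determined by
their values on mk (X v) (Ideal.Quotient.algHom_ext, MvPolynomial.algHom_ext; ev_mk, aeval_X); for
v = none use z = (ds a)⁻¹.
-/
theorem pnt_of_hom {k : Type} [Field k] [Algebra ℂ k] (φ : HR Γ N c →ₐ[ℂ] k) :
    ∃ (a y : P → k) (h : Pnt Γ N c a y), ev h = φ := by
  classical
  obtain ⟨ψ, hψ⟩ : ∃ ψ : MvPolynomial (Option (P ⊕ P)) ℂ →ₐ[ℂ] k,
      ∀ p, ψ p = φ (Ideal.Quotient.mk _ p) :=
    ⟨φ.comp (Ideal.Quotient.mkₐ ℂ _), fun p => rfl⟩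
  have hrel : ∀ x, ψ (rel Γ N c x) = 0 := by
    intro x
    rw [hψ, Ideal.Quotient.eq_zero_iff_mem.2 (Ideal.subset_span (Set.mem_range_self x)), map_zero]
  have h0 : ψ (X none) * ds (fun m => ψ (X (some (Sum.inl m)))) = 1 := by
    have h1 := hrel none
    have h2 := map_ds (ψ : MvPolynomial (Option (P ⊕ P)) ℂ →+* k)
      (fun m => X (some (Sum.inl m)))
    simp only [RingHom.coe_coe] at h2
    simp only [rel, map_sub, map_mul, map_one, h2] at h1
    exact sub_eq_zero.1 h1
  have hinj : Function.Injective (fun m => ψ (X (some (Sum.inl m)))) := by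
    intro m l hml
    by_contra hne
    have h1 : ds (fun m => ψ (X (some (Sum.inl m)))) = 0 := by
      unfold ds
      refine Finset.prod_eq_zero (i := (m, l)) ?_ ?_
      · simp only [Finset.mem_filter, Finset.mem_univ, true_and]
        exact hne
      · exact sub_eq_zero.2 hml
    rw [h1, mul_zero] at h0
    exact zero_ne_one h0
  have h : Pnt Γ N c (fun m => ψ (X (some (Sum.inl m)))) (fun m => ψ (X (some (Sum.inr m)))) := by
    refine ⟨hinj, ?_, ?_⟩
    · intro m hm
      have h1 := hrel (some m)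
      have h2 := map_nb Γ c (ψ : MvPolynomial (Option (P ⊕ P)) ℂ →+* k)
        (fun m => X (some (Sum.inl m))) m
      simp only [RingHom.coe_coe] at h2
      simp only [rel, if_pos hm, map_sub, map_pow, h2] at h1
      exact sub_eq_zero.1 h1
    · intro m hm
      have h1 := hrel (some m)
      simp only [rel, if_neg hm, map_sub, map_one] at h1
      exact sub_eq_zero.1 h1
  refine ⟨_, _, h, ?_⟩
  have h3 : aeval (vl (fun m => ψ (X (some (Sum.inl m)))) (fun m => ψ (X (some (Sum.inr m))))) = ψ := by
    apply MvPolynomial.algHom_ext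
    intro v
    rw [aeval_X]
    rcases v with _ | v | v
    · exact (eq_inv_of_mul_eq_one_left h0).symm
    · rfl
    · rfl
  apply AlgHom.ext
  intro x
  obtain ⟨p, rfl⟩ := Ideal.Quotient.mk_surjective x
  rw [ev_mk, h3, hψ]

end Pool.Agent.HUR
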