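import Pool.Agent.HUR.Defs2

namespace Pool.Agent.HUR

open MvPolynomial Pool.Agent.HCH Pool.Agent.HCF

variable {ι P : Type} [Fintype P] {Γ : ι → ι → Prop} {N : ι → Prop} {c : P → ι}

/-
PROOF. g.right⁻¹ preserves c (see the proof of mul_mem' of MG). inj: a is injective and g.right⁻¹
is injective. sq: if N (c m), then N (c (g.right⁻¹ m)), ((g.left m : ℤ) : k) ^ 2 = 1
(Int.units_sq / Int.units_eq_one_or), and nb_comp with σ = g.right⁻¹. one: if ¬ N (c m) then
g.left m = 1 and y (g.right⁻¹ m) = 1.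
-/
theorem Pnt.mv {k : Type} [Field k] {a y : P → k} (h : Pnt Γ N c a y) {U : Set P} {g : Mv P}
    (hg : g ∈ MG N c U) : Pnt Γ N c (mvA g a) (mvY g y) := by
  obtain ⟨g1, g2, -⟩ := hg
  have hinv : ∀ m, c (g.right⁻¹ m) = c m := fun m => by
    have := g2 (g.right⁻¹ m)
    rw [show g.right (g.right⁻¹ m) = m from g.right.apply_symm_apply m] at this
    exact this.symm
  refine ⟨?_, ?_, ?_⟩
  · exact h.inj.comp (g.right⁻¹).injective
  · intro m hm
    have h1 := h.sq (g.right⁻¹ m) (by rw [hinv]; exact hm)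
    have h2 := nb_comp Γ c a g.right⁻¹ hinv m
    change (((g.left m : ℤ) : k) * y (g.right⁻¹ m)) ^ 2 = nb Γ c (fun l => a (g.right⁻¹ l)) m
    rw [h2, mul_pow, h1]
    rcases Int.units_eq_one_or (g.left m) with h3 | h3
    · rw [h3, Units.val_one, Int.cast_one, one_pow, one_mul]
    · rw [h3, Units.val_neg, Units.val_one, Int.cast_neg, Int.cast_one, neg_one_sq, one_mul]
  · intro m hm
    change ((g.left m : ℤ) : k) * y (g.right⁻¹ m) = 1
    rw [g1 m hm, h.one _ (by rw [hinv]; exact hm), Units.val_one, Int.cast_one, one_mul]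

/- PROOF. (g * h).right⁻¹ m = h.right⁻¹ (g.right⁻¹ m). -/
theorem mvA_mul {k : Type} (g h : Mv P) (a : P → k) : mvA (g * h) a = mvA g (mvA h a) := by
  funext m
  change a ((g * h).right⁻¹ m) = a (h.right⁻¹ (g.right⁻¹ m))
  rw [SemidirectProduct.mul_right, mul_inv_rev, Equiv.Perm.mul_apply]

/- PROOF. (g * h).left m = g.left m * h.left (g.right⁻¹ m). -/
theorem mvY_mul {k : Type} [CommRing k] (g h : Mv P) (y : P → k) :
    mvY (g * h) y = mvY g (mvY h y) := by
  funext m
  change (((g * h).left m : ℤ) : k) * y ((g * h).right⁻¹ m) =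
    ((g.left m : ℤ) : k) * (((h.left (g.right⁻¹ m) : ℤ) : k) * y (h.right⁻¹ (g.right⁻¹ m)))
  have e1 : (g * h).left m = g.left m * h.left (g.right⁻¹ m) := rfl
  rw [SemidirectProduct.mul_right, mul_inv_rev, Equiv.Perm.mul_apply, e1, Units.val_mul, Int.cast_mul, mul_assoc]

theorem mvA_one {k : Type} (a : P → k) : mvA (1 : Mv P) a = a := rfl

theorem mvY_one {k : Type} [CommRing k] (y : P → k) : mvY (1 : Mv P) y = y := by
  funext m
  change (((1 : ℤˣ) : ℤ) : k) * y m = y m
  rw [Units.val_one, Int.cast_one, one_mul]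

/-
PROOF. (g * h).left m = g.left m * h.left (g.right⁻¹ m); the product over I of
h.left (g.right⁻¹ m) is the product of h.left over I, because g.right preserves I
(Finset.prod_bij / Finset.prod_equiv).
-/
theorem chi_mul (I : Finset P) (g h : Mv P) (hg : ∀ m, g.right m ∈ I ↔ m ∈ I) :
    chi I (g * h) = chi I g * chi I h := by
  have e1 : ∀ m, (g * h).left m = g.left m * h.left (g.right⁻¹ m) := fun _ => rfl
  unfold chi
  simp only [e1, Finset.prod_mul_distrib]
  congr 1
  refine Finset.prod_equiv g.right⁻¹ ?_ (fun _ _ => rfl)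
  intro m
  have h1 := hg (g.right⁻¹ m)
  rw [show g.right (g.right⁻¹ m) = m from g.right.apply_symm_apply m] at h1
  exact h1

end Pool.Agent.HUR
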