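import Pool.Agent.HUR.A2

namespace Pool.Agent.HUR

open MvPolynomial Pool.Agent.HCH Pool.Agent.HCF

variable {ι P : Type} [Fintype P] {Γ : ι → ι → Prop} {N : ι → Prop} {c : P → ι}

/-- the images of the variables -/
private noncomputable def a3v (g : Mv P) : Option (P ⊕ P) → MvPolynomial (Option (P ⊕ P)) ℂ
  | none => X none
  | some (Sum.inl m) => X (some (Sum.inl (g.right⁻¹ m)))
  | some (Sum.inr m) => C ((g.left m : ℤ) : ℂ) * X (some (Sum.inr (g.right⁻¹ m)))

private theorem a3_comp (g h : Mv P) : (aeval (a3v h)).comp (aeval (a3v g)) = aeval (a3v (g * h)) := by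
  apply MvPolynomial.algHom_ext
  intro v
  rw [AlgHom.comp_apply, aeval_X, aeval_X]
  rcases v with _ | v | v
  · change aeval (a3v h) (X none) = X none
    rw [aeval_X]
    rfl
  · change aeval (a3v h) (X (some (Sum.inl (g.right⁻¹ v)))) = X (some (Sum.inl ((g * h).right⁻¹ v)))
    rw [aeval_X, SemidirectProduct.mul_right, mul_inv_rev, Equiv.Perm.mul_apply]
    rfl
  · change aeval (a3v h) (C ((g.left v : ℤ) : ℂ) * X (some (Sum.inr (g.right⁻¹ v)))) =
      C (((g * h).left v : ℤ) : ℂ) * X (some (Sum.inr ((g * h).right⁻¹ v)))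
    have e1 : (g * h).left v = g.left v * h.left (g.right⁻¹ v) := rfl
    rw [map_mul, aeval_X, aeval_C, SemidirectProduct.mul_right, mul_inv_rev, Equiv.Perm.mul_apply, e1]
    change C ((g.left v : ℤ) : ℂ) * (C ((h.left (g.right⁻¹ v) : ℤ) : ℂ) * X (some (Sum.inr (h.right⁻¹ (g.right⁻¹ v))))) = _
    rw [Units.val_mul, Int.cast_mul, map_mul, mul_assoc]

private theorem a3_one : aeval (a3v (1 : Mv P)) = AlgHom.id ℂ (MvPolynomial (Option (P ⊕ P)) ℂ) := by
  apply MvPolynomial.algHom_ext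
  intro v
  rw [aeval_X, AlgHom.id_apply]
  rcases v with _ | v | v
  · rfl
  · rfl
  · change C (((1 : ℤˣ) : ℤ) : ℂ) * X (some (Sum.inr v)) = _
    rw [Units.val_one, Int.cast_one, map_one, one_mul]

private theorem a3_rel {U : Set P} {g : Mv P} (hg : g ∈ MG N c U) (x : Option P) :
    aeval (a3v g) (rel Γ N c x) = rel Γ N c (x.map ⇑(g.right⁻¹ : Equiv.Perm P)) := by
  obtain ⟨g1, g2, -⟩ := hg
  have hinv : ∀ m, c (g.right⁻¹ m) = c m := fun m => by
    have := g2 (g.right⁻¹ m)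
    rw [show g.right (g.right⁻¹ m) = m from g.right.apply_symm_apply m] at this
    exact this.symm
  have hX : ∀ v, aeval (a3v g) (X v : MvPolynomial (Option (P ⊕ P)) ℂ) = a3v g v := fun v => aeval_X _ _
  cases x with
  | none =>
    have h1 := map_ds ((aeval (a3v g) : MvPolynomial (Option (P ⊕ P)) ℂ →ₐ[ℂ]
      MvPolynomial (Option (P ⊕ P)) ℂ) : MvPolynomial (Option (P ⊕ P)) ℂ →+*
      MvPolynomial (Option (P ⊕ P)) ℂ) (fun m => X (some (Sum.inl m)))
    simp only [RingHom.coe_coe, hX] at h1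
    simp only [rel, Option.map_none, map_sub, map_mul, map_one, hX, h1]
    have h2 := ds_comp (fun m : P => (X (some (Sum.inl m)) : MvPolynomial (Option (P ⊕ P)) ℂ)) g.right⁻¹
    simp only [a3v]
    rw [h2]
  | some m =>
    have h1 := map_nb Γ c ((aeval (a3v g) : MvPolynomial (Option (P ⊕ P)) ℂ →ₐ[ℂ]
      MvPolynomial (Option (P ⊕ P)) ℂ) : MvPolynomial (Option (P ⊕ P)) ℂ →+*
      MvPolynomial (Option (P ⊕ P)) ℂ) (fun m => X (some (Sum.inl m))) m
    simp only [RingHom.coe_coe, hX] at h1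
    have h2 := nb_comp Γ c (fun m : P => (X (some (Sum.inl m)) : MvPolynomial (Option (P ⊕ P)) ℂ))
      g.right⁻¹ hinv m
    simp only [rel, Option.map_some]
    rw [hinv]
    by_cases h : N (c m)
    · simp only [if_pos h, map_sub, map_pow, hX, h1]
      simp only [a3v]
      rw [h2, mul_pow, ← map_pow]
      have h3 : (((g.left m : ℤ) : ℂ)) ^ 2 = 1 := by
        rcases Int.units_eq_one_or (g.left m) with h3 | h3
        · rw [h3, Units.val_one, Int.cast_one, one_pow]
        · rw [h3, Units.val_neg, Units.val_one, Int.cast_neg, Int.cast_one, neg_one_sq]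
      rw [h3, map_one, one_mul]
    · simp only [if_neg h, map_sub, map_one, hX]
      simp only [a3v]
      rw [g1 m h, Units.val_one, Int.cast_one, map_one, one_mul]

private theorem a3_le {U : Set P} {g : Mv P} (hg : g ∈ MG N c U) :
    Ideal.span (Set.range (rel Γ N c)) ≤ (Ideal.span (Set.range (rel Γ N c))).comap
      (aeval (a3v g) : MvPolynomial (Option (P ⊕ P)) ℂ →ₐ[ℂ] MvPolynomial (Option (P ⊕ P)) ℂ) := by
  rw [Ideal.span_le]
  rintro _ ⟨x, rfl⟩
  change aeval (a3v g) (rel Γ N c x) ∈ Ideal.span (Set.range (rel Γ N c))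
  rw [a3_rel hg x]
  exact Ideal.subset_span (Set.mem_range_self _)

private noncomputable def a3t (Γ : ι → ι → Prop) {U : Set P} {g : Mv P} (hg : g ∈ MG N c U) : HR Γ N c →ₐ[ℂ] HR Γ N c :=
  Ideal.quotientMapₐ _ (aeval (a3v g)) (a3_le hg)

private theorem a3t_mk {U : Set P} {g : Mv P} (hg : g ∈ MG N c U) (p : MvPolynomial (Option (P ⊕ P)) ℂ) :
    a3t Γ hg (Ideal.Quotient.mk _ p) = Ideal.Quotient.mk _ (aeval (a3v g) p) := rfl

private theorem a3t_inv {U : Set P} {g h : Mv P} (hg : g ∈ MG N c U) (hh : h ∈ MG N c U) (hgh : h * g = 1) :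
    (a3t Γ hg).comp (a3t Γ hh) = AlgHom.id ℂ (HR Γ N c) := by
  apply AlgHom.ext
  intro x
  obtain ⟨p, rfl⟩ := Ideal.Quotient.mk_surjective x
  rw [AlgHom.comp_apply, a3t_mk, a3t_mk, AlgHom.id_apply]
  have h1 := a3_comp h g
  rw [hgh, a3_one] at h1
  have h2 := DFunLike.congr_fun h1 p
  rw [AlgHom.comp_apply, AlgHom.id_apply] at h2
  rw [h2]

/-
PROOF. For g ∈ MG put T g : MvPolynomial →ₐ MvPolynomial, X none ↦ X none,
X (some (inl m)) ↦ X (some (inl (g.right⁻¹ m))),
X (some (inr m)) ↦ C (g.left m : ℂ) * X (some (inr (g.right⁻¹ m))). It maps rel none to itself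
(map_ds, ds_comp) and rel (some m) to rel (some (g.right⁻¹ m)) (as in rename_rel of Defs, with
(g.left m) ^ 2 = 1, and g.left m = 1 if ¬ N (c m)). So it induces t g : HR → HR
(Ideal.quotientMapₐ), and t g ∘ t g⁻¹ = id = t g⁻¹ ∘ t g (check on the variables;
Ideal.Quotient.algHom_ext, MvPolynomial.algHom_ext): an AlgEquiv τ. On points:
ev h' = (ev h).comp τ, because both agree on the variables: (ev h) (τ (mk (X (inl m)))) =
a (g.right⁻¹ m) = mvA g a m, (ev h) (τ (mk (X (inr m)))) = g.left m * y (g.right⁻¹ m) = mvY g y m,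
and for none: ds (mvA g a) = ds a (ds_comp). Hence kr h' = comap τ (kr h) (PrimeSpectrum.ext;
RingHom.comap_ker).
-/
theorem act_equiv {U : Set P} {g : Mv P} (hg : g ∈ MG N c U) :
    ∃ τ : HR Γ N c ≃ₐ[ℂ] HR Γ N c, ∀ (k : Type) [Field k] [Algebra ℂ k] (a y : P → k)
      (h : Pnt Γ N c a y) (h' : Pnt Γ N c (mvA g a) (mvY g y)),
      kr h' = PrimeSpectrum.comap (τ : HR Γ N c →+* HR Γ N c) (kr h) := by
  have hg' : g⁻¹ ∈ MG N c U := (MG N c U).inv_mem hg
  refine ⟨AlgEquiv.ofAlgHom (a3t Γ hg) (a3t Γ hg') (a3t_inv hg hg' (inv_mul_cancel g))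
    (a3t_inv hg' hg (mul_inv_cancel g)), ?_⟩
  intro k _ _ a y h h'
  have key : ∀ p : MvPolynomial (Option (P ⊕ P)) ℂ, aeval (vl (mvA g a) (mvY g y)) p = aeval (vl a y) (aeval (a3v g) p) := by
    have h1 : aeval (vl (mvA g a) (mvY g y)) = (aeval (vl a y)).comp (aeval (a3v g) :
        MvPolynomial (Option (P ⊕ P)) ℂ →ₐ[ℂ] MvPolynomial (Option (P ⊕ P)) ℂ) := by
      apply MvPolynomial.algHom_ext
      intro v
      rw [AlgHom.comp_apply, aeval_X, aeval_X]
      rcases v with _ | v | v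
      · change (ds (mvA g a))⁻¹ = aeval (vl a y) (X none)
        rw [aeval_X]
        change (ds (fun l => a (g.right⁻¹ l)))⁻¹ = (ds a)⁻¹
        rw [ds_comp]
      · change a (g.right⁻¹ v) = aeval (vl a y) (X (some (Sum.inl (g.right⁻¹ v))))
        rw [aeval_X]
        rfl
      · change ((g.left v : ℤ) : k) * y (g.right⁻¹ v) =
          aeval (vl a y) (C ((g.left v : ℤ) : ℂ) * X (some (Sum.inr (g.right⁻¹ v))))
        rw [map_mul, aeval_X, aeval_C, map_intCast]
        rfl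
    intro p
    rw [h1, AlgHom.comp_apply]
  apply PrimeSpectrum.ext
  apply Ideal.ext
  intro x
  obtain ⟨p, rfl⟩ := Ideal.Quotient.mk_surjective x
  change ev h' (Ideal.Quotient.mk _ p) = 0 ↔ ev h (a3t Γ hg (Ideal.Quotient.mk _ p)) = 0
  rw [a3t_mk, ev_mk, ev_mk, key]

end Pool.Agent.HUR
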