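import Pool.Agent.HUR.Defs2

namespace Pool.Agent.HUR

open Pool.Agent.HCH Pool.Agent.HCF

variable {R : Type} [CommRing R] [Algebra ℂ R]

/-
PROOF. τ induces an isomorphism of ℂ-algebras R / comap P = R / P
(Ideal.quotientEquivAlg or HCH.dm_comap of Pool.Agent.HCH.B2, which is exactly this for a
surjective φ : R →ₐ[K] R').
-/
theorem dm_equiv (τ : R ≃ₐ[ℂ] R) (p : PrimeSpectrum R) :
    dm ℂ (PrimeSpectrum.comap (τ : R →+* R) p).asIdeal = dm ℂ p.asIdeal :=
  dm_comap (τ : R →ₐ[ℂ] R) τ.surjective p.asIdeal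

private theorem a5_bij (τ : R ≃ₐ[ℂ] R) (Q : PrimeSpectrum R) :
    PrimeSpectrum.comap (τ : R →+* R) (PrimeSpectrum.comap (τ.symm : R →+* R) Q) = Q := by
  apply PrimeSpectrum.ext
  apply Ideal.ext
  intro x
  change τ.symm (τ x) ∈ Q.asIdeal ↔ x ∈ Q.asIdeal
  rw [AlgEquiv.symm_apply_apply]

private theorem a5_inj (τ : R ≃ₐ[ℂ] R) :
    Function.Injective (PrimeSpectrum.comap (τ : R →+* R)) := by
  intro P Q h
  have h1 := a5_bij τ.symm P
  have h2 := a5_bij τ.symm Q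
  rw [AlgEquiv.symm_symm] at h1 h2
  rw [← h1, ← h2, h]

private theorem a5_fdiv [Algebra.FiniteType ℂ R] (τ : R ≃ₐ[ℂ] R) (e : ℕ) (W : PrimeSpectrum R) (g : R)
    (hd : dm ℂ W.asIdeal = e + 1) (hg : g ∉ W.asIdeal) :
    (fdiv ℂ W.asIdeal g e).mapDomain (PrimeSpectrum.comap (τ : R →+* R)) =
      fdiv ℂ (PrimeSpectrum.comap (τ : R →+* R) W).asIdeal (τ.symm g) e := by
  have hd' : dm ℂ (PrimeSpectrum.comap (τ : R →+* R) W).asIdeal = e + 1 := by rw [dm_equiv, hd]
  have hg' : τ.symm g ∉ (PrimeSpectrum.comap (τ : R →+* R) W).asIdeal := by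
    intro h
    apply hg
    change τ (τ.symm g) ∈ W.asIdeal at h
    rw [AlgEquiv.apply_symm_apply] at h
    exact h
  have i1 := W.isPrime
  have i2 := (PrimeSpectrum.comap (τ : R →+* R) W).isPrime
  ext Q
  rw [← a5_bij τ Q, Finsupp.mapDomain_apply (a5_inj τ), fdiv_eq _ _ hg _ hd, fdiv_eq _ _ hg' _ hd']
  generalize PrimeSpectrum.comap (τ.symm : R →+* R) Q = P
  unfold adiv
  rw [dm_equiv]
  have h1 : od (W.asIdeal ⊔ Ideal.span {g}) P =
      od ((PrimeSpectrum.comap (τ : R →+* R) W).asIdeal ⊔ Ideal.span {τ.symm g}) (PrimeSpectrum.comap (τ : R →+* R) P) := by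
    unfold od
    have hτ : Function.Surjective (τ : R →+* R) := τ.surjective
    have h2 := mlt_surj (τ : R →+* R) hτ ((PrimeSpectrum.comap (τ : R →+* R) W).asIdeal ⊔ Ideal.span {τ.symm g})
      (by
        intro x hx
        have h3 : τ x = 0 := hx
        have h4 : x = 0 := by
          rw [← τ.symm_apply_apply x, h3, map_zero]
        rw [h4]
        exact zero_mem _) P
    rw [← h2]
    have h3 : ((PrimeSpectrum.comap (τ : R →+* R) W).asIdeal ⊔ Ideal.span {τ.symm g}).map (τ : R →+* R) =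
        W.asIdeal ⊔ Ideal.span {g} := by
      rw [Ideal.map_sup, Ideal.map_span, Set.image_singleton]
      have h4 : (τ : R →+* R) (τ.symm g) = g := τ.apply_symm_apply g
      rw [h4]
      congr 1
      exact Ideal.map_comap_of_surjective (τ : R →+* R) hτ W.asIdeal
    rw [h3]
  rw [h1]

/-
PROOF. Rt is an AddSubgroup.closure: AddSubgroup.closure_induction, with
Finsupp.mapDomain.addMonoidHom. For a generator z = fdiv ℂ W.asIdeal g e put
W' = comap τ W, g' = τ.symm g; then g' ∉ W', dm W' = e + 1 (dm_equiv) and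
mapDomain (comap τ) z = fdiv ℂ W'.asIdeal g' e: both are functions (fdiv_eq / fdiv_apply of
HCF.B0 give the values adiv; adiv is od (W ⊔ (g)) P if dm P = e and 0 otherwise). Evaluate at
P' = comap τ P (every prime is of this form, comap τ is bijective with inverse comap τ.symm;
Finsupp.mapDomain_apply): W' ⊔ (g') is the comap (= map under τ.symm) of W ⊔ (g), and
od (comap J) (comap P) = od J P by HCH.mlt_surj (Pool.Agent.HCH.A2) for φ = τ:
mlt (J.map φ) P' = mlt J (comap φ P').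
-/
theorem rt_comap [Algebra.FiniteType ℂ R] (τ : R ≃ₐ[ℂ] R) (e : ℕ) (z : PrimeSpectrum R →₀ ℤ)
    (hz : z ∈ Rt ℂ (⊥ : Ideal R) e) :
    z.mapDomain (PrimeSpectrum.comap (τ : R →+* R)) ∈ Rt ℂ (⊥ : Ideal R) e := by
  unfold Rt at hz
  induction hz using AddSubgroup.closure_induction with
  | mem z hz =>
    obtain ⟨W, g, hI, hd, hg, rfl⟩ := hz
    rw [a5_fdiv τ e W g hd hg]
    refine fdiv_mem_Rt ⊥ e _ _ bot_le (by rw [dm_equiv, hd]) ?_
    intro h
    apply hg
    change τ (τ.symm g) ∈ W.asIdeal at h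
    rw [AlgEquiv.apply_symm_apply] at h
    exact h
  | zero =>
    rw [Finsupp.mapDomain_zero]
    exact zero_mem _
  | add a b _ _ ha hb =>
    rw [Finsupp.mapDomain_add]
    exact add_mem ha hb
  | neg a _ ha =>
    have h1 : (-a).mapDomain (PrimeSpectrum.comap (τ : R →+* R)) =
        -(a.mapDomain (PrimeSpectrum.comap (τ : R →+* R))) :=
      map_neg (Finsupp.mapDomain.addMonoidHom (M := ℤ) (PrimeSpectrum.comap (τ : R →+* R))) a
    rw [h1]
    exact neg_mem ha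

/- PROOF. n • z ∈ Rt, apply rt_comap and Finsupp.mapDomain_smul. -/
theorem rs_comap [Algebra.FiniteType ℂ R] (τ : R ≃ₐ[ℂ] R) (e : ℕ) (z : PrimeSpectrum R →₀ ℤ)
    (hz : z ∈ RS R e) : z.mapDomain (PrimeSpectrum.comap (τ : R →+* R)) ∈ RS R e := by
  obtain ⟨n, hn, h⟩ := hz
  refine ⟨n, hn, ?_⟩
  have h1 := rt_comap τ e _ h
  rw [Finsupp.mapDomain_smul] at h1
  exact h1

/- PROOF. m • (n • z) = (m * n) • z. -/
theorem rs_of_smul (e : ℕ) (z : PrimeSpectrum R →₀ ℤ) (n : ℤ) (hn : n ≠ 0)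
    (hz : n • z ∈ RS R e) : z ∈ RS R e := by
  obtain ⟨m, hm, h⟩ := hz
  refine ⟨m * n.natAbs, Nat.mul_pos hm (Int.natAbs_pos.2 hn), ?_⟩
  rw [smul_smul] at h
  rcases Int.natAbs_eq n with h1 | h1
  · have h2 : ((m * n.natAbs : ℕ) : ℤ) = (m : ℤ) * n := by
      rw [Nat.cast_mul, ← h1]
    rw [h2]
    exact h
  · have h2 : ((m * n.natAbs : ℕ) : ℤ) = -((m : ℤ) * n) := by
      rw [Nat.cast_mul]
      nth_rewrite 2 [h1]
      ring
    rw [h2, neg_smul]
    exact neg_mem h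

end Pool.Agent.HUR
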