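import Pool.Agent.HUR.A3
import Pool.Agent.HUR.A5

namespace Pool.Agent.HUR

open Pool.Agent.HCH Pool.Agent.HCF

variable {ι P : Type} [Fintype P] {Γ : ι → ι → Prop} {N : ι → Prop} {c : P → ι}

/- PROOF. act_equiv and dm_equiv. -/
theorem dm_mv {U : Set P} {g : Mv P} (hg : g ∈ MG N c U) {k : Type} [Field k] [Algebra ℂ k]
    {a y : P → k} (h : Pnt Γ N c a y) (h' : Pnt Γ N c (mvA g a) (mvY g y)) :
    dm ℂ (kr h').asIdeal = dm ℂ (kr h).asIdeal := by
  obtain ⟨τ, hτ⟩ := act_equiv (Γ := Γ) hg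
  rw [hτ k a y h h', dm_equiv]

private theorem a6_cl {U : Set P} {g : Mv P} (hg : g ∈ MG N c U) (τ : HR Γ N c ≃ₐ[ℂ] HR Γ N c)
    (hτ : ∀ (k : Type) [Field k] [Algebra ℂ k] (a y : P → k)
      (h : Pnt Γ N c a y) (h' : Pnt Γ N c (mvA g a) (mvY g y)),
      kr h' = PrimeSpectrum.comap (τ : HR Γ N c →+* HR Γ N c) (kr h))
    {k : Type} [Field k] [Algebra ℂ k] (a y : P → k) :
    cl Γ N c (mvA g a) (mvY g y) =
      (cl Γ N c a y).mapDomain (PrimeSpectrum.comap (τ : HR Γ N c →+* HR Γ N c)) := by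
  by_cases h : Pnt Γ N c a y
  · have h' := h.mv hg
    unfold cl
    rw [dif_pos h, dif_pos h', Finsupp.mapDomain_single, hτ k a y h h']
  · have h' : ¬ Pnt Γ N c (mvA g a) (mvY g y) := by
      intro h'
      apply h
      have h2 := h'.mv ((MG N c U).inv_mem hg)
      rw [← mvA_mul, ← mvY_mul, inv_mul_cancel, mvA_one, mvY_one] at h2
      exact h2
    unfold cl
    rw [dif_neg h, dif_neg h', Finsupp.mapDomain_zero]

/-
PROOF. With τ of act_equiv, cl (mvA g a) (mvY g y) = mapDomain (comap τ) (cl a y) for all a, y: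
if Pnt a y, both are single (Pnt.mv, act_equiv, Finsupp.mapDomain_single); otherwise Pnt
(mvA g a) (mvY g y) is false as well, since applying Pnt.mv with g⁻¹ and mvA_mul, mvY_mul, mvA_one,
mvY_one gives Pnt a y; both sides are 0. Then use rs_comap for the sum (map_sum,
Finsupp.mapDomain_finset_sum, Finsupp.mapDomain_smul).
-/
theorem cl_mv {U : Set P} {g : Mv P} (hg : g ∈ MG N c U) {k : Type} [Field k] [Algebra ℂ k]
    {s : Type} (t : Finset s) (b : s → ℤ) (a y : s → P → k) (e : ℕ)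
    (h : ∑ i ∈ t, b i • cl Γ N c (a i) (y i) ∈ RS (HR Γ N c) e) :
    ∑ i ∈ t, b i • cl Γ N c (mvA g (a i)) (mvY g (y i)) ∈ RS (HR Γ N c) e := by
  obtain ⟨τ, hτ⟩ := act_equiv (Γ := Γ) hg
  have h1 := rs_comap τ e _ h
  rw [Finsupp.mapDomain_finsetSum] at h1
  have h2 : ∀ i, (b i • cl Γ N c (a i) (y i)).mapDomain (PrimeSpectrum.comap (τ : HR Γ N c →+* HR Γ N c)) =
      b i • cl Γ N c (mvA g (a i)) (mvY g (y i)) := by
    intro i
    rw [Finsupp.mapDomain_smul, a6_cl hg τ hτ]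
  simp only [h2] at h1
  exact h1

end Pool.Agent.HUR
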