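import Pool.Agent.HUR.A1
import Pool.Agent.HCH.B3

namespace Pool.Agent.HUR

open Pool.Agent.HCH Pool.Agent.HCF

variable {ι P : Type} [Fintype P] {Γ : ι → ι → Prop} {N : ι → Prop} {c : P → ι}

/-
PROOF. L := AlgebraicClosure (FractionRing (HR Γ N c ⧸ p.asIdeal)) (instances: Algebra ℂ via the
tower HR/p → FractionRing → AlgebraicClosure; give it as a composite algebraMap / Algebra instance
and IsScalarTower as needed). φ : HR → HR/p → L is injective modulo p, so ker φ = p. pnt_of_hom
gives the point with ev h = φ, hence kr h = p. Transcendence degree: trdeg ℂ (HR/p) is a natural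
number (FiniteType; Algebra.trdeg of a finitely generated algebra is finite, e.g. it is at most the
number of variables, `Algebra.trdeg_le_cardinalMk`-type lemmas or trdeg of MvPolynomial; compare
Pool.Agent.HCH.B) and its toNat is e, trdeg ℂ (FractionRing A) = trdeg ℂ A
(Algebra.IsAlgebraic A (FractionRing A), `Algebra.IsAlgebraic.trdeg_le...`; see
HCH.trdeg_alg_top of Pool.Agent.HCH.B3: f : A →ₐ B injective, B algebraic over A, then
trdeg A = trdeg B; it applies directly to A = HR/p and B = L).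
-/
theorem exists_point (p : PrimeSpectrum (HR Γ N c)) (e : ℕ) (hd : dm ℂ p.asIdeal = e) :
    ∃ (L : Type) (_ : Field L) (_ : Algebra ℂ L) (_ : IsAlgClosed L) (a y : P → L)
      (h : Pnt Γ N c a y), Algebra.trdeg ℂ L = e ∧ kr h = p := by
  have hp := p.2
  let A := HR Γ N c ⧸ p.asIdeal
  let F := FractionRing A
  let L := AlgebraicClosure F
  have hft : Algebra.FiniteType ℂ A := by
    change Algebra.FiniteType ℂ (HR Γ N c ⧸ p.asIdeal)
    infer_instance
  let φ₁ : A →ₐ[ℂ] F := IsScalarTower.toAlgHom ℂ A F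
  let φ₂ : F →ₐ[ℂ] L := IsScalarTower.toAlgHom ℂ F L
  have h1 : Function.Injective φ₁ := IsFractionRing.injective A F
  have h2 : Function.Injective φ₂ := φ₂.toRingHom.injective
  let ψ : A →ₐ[ℂ] L := φ₂.comp φ₁
  have hψ : Function.Injective ψ := h2.comp h1
  obtain ⟨a, y, h, hev⟩ := pnt_of_hom (ψ.comp (Ideal.Quotient.mkₐ ℂ p.asIdeal))
  refine ⟨L, inferInstance, inferInstance, inferInstance, a, y, h, ?_, ?_⟩
  · have h3 : Algebra.trdeg ℂ A = Algebra.trdeg ℂ L := by
      refine trdeg_alg_top ℂ A L ψ hψ ?_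
      intro b
      have h4 : IsAlgebraic F b := Algebra.IsAlgebraic.isAlgebraic b
      have h5 : IsAlgebraic A b := (IsFractionRing.isAlgebraic_iff A F L).2 h4
      obtain ⟨q, hq0, hq⟩ := h5
      refine ⟨q, hq0, ?_⟩
      rw [Polynomial.aeval_def] at hq
      exact hq
    have h6 : Algebra.trdeg ℂ A < Cardinal.aleph0 := trdeg_lt_aleph0_of_finiteType
    rw [← h3, ← hd, dm, Cardinal.cast_toNat_of_lt_aleph0 h6]
  · refine PrimeSpectrum.ext ?_
    ext x
    change ev h x = 0 ↔ x ∈ p.asIdeal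
    rw [hev]
    change ψ (Ideal.Quotient.mk p.asIdeal x) = 0 ↔ x ∈ p.asIdeal
    rw [map_eq_zero_iff ψ hψ, Ideal.Quotient.eq_zero_iff_mem]

end Pool.Agent.HUR
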