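import Pool.Agent.HUR.Defs2

namespace Pool.Agent.HUR

open MvPolynomial Pool.Agent.HCH Pool.Agent.HCF

variable {ι P : Type} [Fintype P] {Γ : ι → ι → Prop} {N : ι → Prop} {c : P → ι}

private theorem A9_prod {Ω κ : Type} [Field Ω] (𝒪 : ValuationSubring Ω) (s : Finset κ) (g : κ → Ω)
    (hle : ∀ p ∈ s, 𝒪.valuation (g p) ≤ 1) (h1 : 1 ≤ 𝒪.valuation (∏ p ∈ s, g p)) :
    ∀ p ∈ s, 𝒪.valuation (g p) = 1 := by
  classical
  intro p hp
  refine le_antisymm (hle p hp) ?_
  rw [← Finset.mul_prod_erase s g hp, map_mul] at h1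
  refine h1.trans ?_
  have h2 : 𝒪.valuation (∏ q ∈ s.erase p, g q) ≤ 1 := by
    rw [map_prod]
    exact Finset.prod_le_one' (fun q hq => hle q (Finset.mem_of_mem_erase hq))
  calc 𝒪.valuation (g p) * 𝒪.valuation (∏ q ∈ s.erase p, g q)
      ≤ 𝒪.valuation (g p) * 1 := by gcongr
    _ = 𝒪.valuation (g p) := mul_one _

/-
PROOF. ev h (algebraMap z) = algebraMap z, ev h (mk (X (inl m))) = a m, ev h (mk (X (inr m))) = y m,
ev h (mk (X none)) = (ds a)⁻¹ (ev_mk, aeval_X, vl). So all differences have valuation ≤ 1 and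
(ds a)⁻¹ has valuation ≤ 1, i.e. the valuation of ds a = ∏ of the differences is ≥ 1 (map_prod,
map_inv₀); a product of elements ≤ 1 with value ≥ 1 has all factors = 1
(Finset.prod_le_one' / if one factor is < 1 then the product is < 1:
Finset.prod_lt_one' or write the product as factor * rest). 𝒪.valuation_le_one_iff :
𝒪.valuation x ≤ 1 ↔ x ∈ 𝒪.
-/
theorem unit_diff {Ω : Type} [Field Ω] [Algebra ℂ Ω] {a y : P → Ω} (h : Pnt Γ N c a y)
    (𝒪 : ValuationSubring Ω) (hΘ : ∀ r, ev h r ∈ 𝒪) :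
    (∀ z : ℂ, algebraMap ℂ Ω z ∈ 𝒪) ∧ (∀ m, a m ∈ 𝒪) ∧ (∀ m, y m ∈ 𝒪) ∧
      ∀ m l, m ≠ l → 𝒪.valuation (a m - a l) = 1 := by
  classical
  have h0 : ∀ v, vl a y v ∈ 𝒪 := by
    intro v
    have h1 := hΘ (Ideal.Quotient.mk _ (X v))
    rw [ev_mk, aeval_X] at h1
    exact h1
  have ha : ∀ m, a m ∈ 𝒪 := fun m => h0 (some (Sum.inl m))
  refine ⟨fun z => ?_, ha, fun m => h0 (some (Sum.inr m)), ?_⟩
  · have h1 := hΘ (algebraMap ℂ _ z)
    rwa [AlgHom.commutes] at h1
  · intro m l hml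
    have h1 : 𝒪.valuation (ds a)⁻¹ ≤ 1 := (𝒪.valuation_le_one_iff _).mpr (h0 none)
    have h2 : 1 ≤ 𝒪.valuation (ds a) := by
      rw [map_inv₀] at h1
      have h3 : 𝒪.valuation (ds a) ≠ 0 := (Valuation.ne_zero_iff _).mpr (ds_ne_zero a h.inj)
      rwa [inv_le_one₀ (zero_lt_iff.mpr h3)] at h1
    exact A9_prod 𝒪 _ (fun p : P × P => a p.1 - a p.2)
      (fun p _ => (𝒪.valuation_le_one_iff _).mpr (sub_mem (ha _) (ha _))) h2 (m, l)
      (by simp [hml])

private theorem A9_mul {Ω : Type} [Field Ω] (𝒪 : ValuationSubring Ω) {x x' z z' : Ω}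
    (hx : x ∈ 𝒪) (hz : z ∈ 𝒪) (h1 : 𝒪.valuation (x - x') < 1) (h2 : 𝒪.valuation (z - z') < 1) :
    𝒪.valuation (x * z - x' * z') < 1 := by
  have hx' : 𝒪.valuation x' ≤ 1 := by
    have : x' = x - (x - x') := by ring
    rw [this]
    exact (Valuation.map_sub _ _ _).trans (max_le ((𝒪.valuation_le_one_iff _).mpr hx) h1.le)
  have e : x * z - x' * z' = (x - x') * z + x' * (z - z') := by ring
  rw [e]
  refine Valuation.map_add_lt _ ?_ ?_
  · rw [map_mul]
    exact mul_lt_one_of_lt_of_le h1 ((𝒪.valuation_le_one_iff _).mpr hz)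
  · rw [map_mul, mul_comm]
    exact mul_lt_one_of_lt_of_le h2 hx'

private theorem A9_ds {Ω κ : Type} [Field Ω] (𝒪 : ValuationSubring Ω) (s : Finset κ) (g g' : κ → Ω)
    (hg : ∀ p ∈ s, g p ∈ 𝒪) (hd : ∀ p ∈ s, 𝒪.valuation (g p - g' p) < 1) :
    𝒪.valuation (∏ p ∈ s, g p - ∏ p ∈ s, g' p) < 1 := by
  classical
  induction s using Finset.induction_on with
  | empty => simp
  | insert p s hp ih =>
    rw [Finset.prod_insert hp, Finset.prod_insert hp]
    refine A9_mul 𝒪 (hg p (Finset.mem_insert_self _ _)) ?_ (hd p (Finset.mem_insert_self _ _)) ?_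
    · exact prod_mem (fun q hq => hg q (Finset.mem_insert_of_mem hq))
    · exact ih (fun q hq => hg q (Finset.mem_insert_of_mem hq))
        (fun q hq => hd q (Finset.mem_insert_of_mem hq))

/-
PROOF. The set of all polynomials p such that aeval (vl b w) p ∈ 𝒪 and
𝒪.valuation (aeval (vl b w) p - aeval (vl a y) p) < 1 is closed under +, * and contains the
constants (MvPolynomial.induction_on). The variables: inl m and inr m by hypothesis. none:
(ds b)⁻¹ has valuation 1, since all differences b m - b l have valuation 1;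
ds b - ds a has valuation < 1 (product of congruent elements, all in 𝒪; induction over the finset),
so ds a has valuation 1 as well and (ds b)⁻¹ - (ds a)⁻¹ = (ds a - ds b) / (ds a * ds b).
Every r : HR is mk p (Ideal.Quotient.mk_surjective), ev_mk.
-/
theorem ev_congr {Ω : Type} [Field Ω] [Algebra ℂ Ω] {a y b w : P → Ω} (h : Pnt Γ N c a y)
    (h' : Pnt Γ N c b w) (𝒪 : ValuationSubring Ω) (hC : ∀ z : ℂ, algebraMap ℂ Ω z ∈ 𝒪)
    (hb : ∀ m, b m ∈ 𝒪) (hw : ∀ m, w m ∈ 𝒪)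
    (hd : ∀ m l, m ≠ l → 𝒪.valuation (b m - b l) = 1)
    (ha : ∀ m, 𝒪.valuation (b m - a m) < 1) (hy : ∀ m, 𝒪.valuation (w m - y m) < 1)
    (r : HR Γ N c) : ev h' r ∈ 𝒪 ∧ 𝒪.valuation (ev h' r - ev h r) < 1 := by
  classical
  obtain ⟨p, rfl⟩ := Ideal.Quotient.mk_surjective r
  rw [ev_mk, ev_mk]
  have hdb : 𝒪.valuation (ds b) = 1 := by
    unfold ds
    rw [map_prod]
    refine Finset.prod_eq_one ?_
    intro q hq
    simp only [Finset.mem_filter, Finset.mem_univ, true_and] at hq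
    exact hd _ _ hq
  have hdd : 𝒪.valuation (ds b - ds a) < 1 := by
    unfold ds
    refine A9_ds 𝒪 _ (fun p : P × P => b p.1 - b p.2) (fun p : P × P => a p.1 - a p.2)
      (fun q _ => sub_mem (hb _) (hb _)) ?_
    intro q _
    have e : b q.1 - b q.2 - (a q.1 - a q.2) = (b q.1 - a q.1) - (b q.2 - a q.2) := by ring
    rw [e]
    exact (Valuation.map_sub _ _ _).trans_lt (max_lt (ha _) (ha _))
  have hda : 𝒪.valuation (ds a) = 1 := by
    have e : ds a = ds b - (ds b - ds a) := by ring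
    rw [e, Valuation.map_sub_eq_of_lt_left _ (by rw [hdb]; exact hdd), hdb]
  have ha0 : ds a ≠ 0 := fun e => by rw [e, map_zero] at hda; exact zero_ne_one hda
  have hb0 : ds b ≠ 0 := fun e => by rw [e, map_zero] at hdb; exact zero_ne_one hdb
  have hv : ∀ v, vl b w v ∈ 𝒪 ∧ 𝒪.valuation (vl b w v - vl a y v) < 1 := by
    intro v
    match v with
    | none =>
      refine ⟨(𝒪.valuation_le_one_iff _).mp ?_, ?_⟩
      · change 𝒪.valuation (ds b)⁻¹ ≤ 1
        rw [map_inv₀, hdb, inv_one]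
      · change 𝒪.valuation ((ds b)⁻¹ - (ds a)⁻¹) < 1
        have e : (ds b)⁻¹ - (ds a)⁻¹ = (ds a * ds b)⁻¹ * (ds a - ds b) := by
          field_simp
        rw [e, map_mul, map_inv₀, map_mul, hda, hdb, mul_one, inv_one, one_mul,
          Valuation.map_sub_swap]
        exact hdd
    | some (Sum.inl m) => exact ⟨hb m, ha m⟩
    | some (Sum.inr m) => exact ⟨hw m, hy m⟩
  induction p using MvPolynomial.induction_on with
  | C z =>
    rw [← MvPolynomial.algebraMap_eq, AlgHom.commutes, AlgHom.commutes]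
    refine ⟨hC z, ?_⟩
    rw [sub_self, map_zero]
    exact zero_lt_one
  | add p q hp hq =>
    rw [map_add, map_add]
    refine ⟨add_mem hp.1 hq.1, ?_⟩
    have e : aeval (vl b w) p + aeval (vl b w) q - (aeval (vl a y) p + aeval (vl a y) q) =
      (aeval (vl b w) p - aeval (vl a y) p) + (aeval (vl b w) q - aeval (vl a y) q) := by ring
    rw [e]
    exact Valuation.map_add_lt _ hp.2 hq.2
  | mul_X p v hp =>
    rw [map_mul, map_mul, aeval_X, aeval_X]
    exact ⟨mul_mem hp.1 (hv v).1, A9_mul 𝒪 hp.1 (hv v).1 hp.2 (hv v).2⟩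

end Pool.Agent.HUR
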