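import Pool.Agent.HUR.BD

namespace Pool.Agent.HUR

open Pool.Agent.HCH Pool.Agent.HCF

variable {R Ω : Type} [CommRing R] [Field Ω] [Algebra ℂ R] [Algebra ℂ Ω]

/-- The shift `v ↦ (0, v)`. -/
private def B1_cons (R : Type) [CommRing R] (n : ℕ) : (Fin n → R) →ₗ[R] (Fin (n + 1) → R) where
  toFun v := Fin.cons 0 v
  map_add' u v := by
    ext i
    refine Fin.cases ?_ (fun j => ?_) i
    · simp
    · simp
  map_smul' r v := by
    ext i
    refine Fin.cases ?_ (fun j => ?_) i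
    · simp
    · simp

private theorem B1_mem (Θ : R →ₐ[ℂ] Ω) (f : Ω) (hf : f ≠ 0) (n : ℕ) (v : Fin n → R) :
    B1_cons R n v ∈ Kn Θ f (n + 1) ↔ v ∈ Kn Θ f n := by
  change ∑ i, Θ (Fin.cons (α := fun _ => R) 0 v i) * f ^ (i : ℕ) = 0 ↔
    ∑ i, Θ (v i) * f ^ (i : ℕ) = 0
  rw [Fin.sum_univ_succ]
  simp only [Fin.cons_zero, map_zero, zero_mul, zero_add, Fin.cons_succ, Fin.val_succ, pow_succ]
  have e : ∑ i : Fin n, Θ (v i) * (f ^ (i : ℕ) * f) = (∑ i : Fin n, Θ (v i) * f ^ (i : ℕ)) * f := by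
    rw [Finset.sum_mul]
    exact Finset.sum_congr rfl fun i _ => (mul_assoc _ _ _).symm
  rw [e, mul_eq_zero, or_iff_left hf]

private theorem B1_le (Θ : R →ₐ[ℂ] Ω) (f : Ω) (n : ℕ) : Kn Θ f (n + 1) ≤
    Submodule.comap (LinearMap.proj 0 : (Fin (n + 1) → R) →ₗ[R] R) (Ki Θ f (n + 1) 0) :=
  fun _ hv => Submodule.mem_map_of_mem hv

/-
PROOF. Multiplication by f: u is induced by v ↦ Fin.cons 0 v (linear; ∑ over Fin (n+1) of the
shifted vector is f * ∑, Fin.sum_univ_succ, Fin.cons_zero, Fin.cons_succ, pow_succ), so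
v ∈ Kn n iff Fin.cons 0 v ∈ Kn (n + 1) (f ≠ 0): u = Submodule.mapQ (or liftQ) is well defined and
injective. g is induced by v ↦ mk (v 0) (Submodule.liftQ; Kn (n+1) maps into Ki (n+1) 0); it is
surjective (take v = Pi.single 0 r). Exactness: g (mk v) = 0 iff v 0 ∈ Ki, i.e. there is
k ∈ Kn (n + 1) with k 0 = v 0; then mk v = mk (v - k) and (v - k) 0 = 0, so
v - k = Fin.cons 0 (Fin.tail (v - k)) is in the image of u. Conversely g ∘ u = 0.
-/
theorem seq0 (Θ : R →ₐ[ℂ] Ω) (f : Ω) (hf : f ≠ 0) (n : ℕ) :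
    ∃ (u : ((Fin n → R) ⧸ Kn Θ f n) →ₗ[R] ((Fin (n + 1) → R) ⧸ Kn Θ f (n + 1)))
      (g : ((Fin (n + 1) → R) ⧸ Kn Θ f (n + 1)) →ₗ[R] (R ⧸ Ki Θ f (n + 1) 0)),
      Function.Injective u ∧ Function.Surjective g ∧ Function.Exact u g := by
  have hu : Kn Θ f n ≤ Submodule.comap (B1_cons R n) (Kn Θ f (n + 1)) :=
    fun v hv => (B1_mem Θ f hf n v).2 hv
  refine ⟨Submodule.mapQ _ _ (B1_cons R n) hu, Submodule.mapQ _ _ _ (B1_le Θ f n), ?_, ?_, ?_⟩
  · rw [← LinearMap.ker_eq_bot, LinearMap.ker_eq_bot']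
    intro x hx
    obtain ⟨v, rfl⟩ := Submodule.Quotient.mk_surjective _ x
    rw [Submodule.mapQ_apply, Submodule.Quotient.mk_eq_zero] at hx
    rw [Submodule.Quotient.mk_eq_zero]
    exact (B1_mem Θ f hf n v).1 hx
  · intro x
    obtain ⟨r, rfl⟩ := Submodule.Quotient.mk_surjective _ x
    refine ⟨Submodule.Quotient.mk (Pi.single 0 r), ?_⟩
    rw [Submodule.mapQ_apply]
    simp
  · intro x
    obtain ⟨v, rfl⟩ := Submodule.Quotient.mk_surjective _ x
    rw [Submodule.mapQ_apply, Submodule.Quotient.mk_eq_zero]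
    constructor
    · intro hv
      obtain ⟨k, hk, e⟩ := (Submodule.mem_map).1 hv
      have e' : k 0 = v 0 := e
      refine ⟨Submodule.Quotient.mk (Fin.tail (v - k)), ?_⟩
      rw [Submodule.mapQ_apply]
      have h1 : B1_cons R n (Fin.tail (v - k)) = v - k := by
        change Fin.cons 0 (Fin.tail (v - k)) = v - k
        have h0 : (v - k) 0 = 0 := by rw [Pi.sub_apply, e', sub_self]
        rw [← h0, Fin.cons_self_tail]
      rw [h1, Submodule.Quotient.mk_sub, (Submodule.Quotient.mk_eq_zero _).2 hk, sub_zero]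
    · rintro ⟨y, hy⟩
      obtain ⟨w, rfl⟩ := Submodule.Quotient.mk_surjective _ y
      rw [Submodule.mapQ_apply, Submodule.Quotient.eq] at hy
      have h2 : (LinearMap.proj 0 : (Fin (n + 1) → R) →ₗ[R] R) (B1_cons R n w - v) ∈
          Ki Θ f (n + 1) 0 := Submodule.mem_map_of_mem hy
      have h3 : (LinearMap.proj 0 : (Fin (n + 1) → R) →ₗ[R] R) (B1_cons R n w - v) = - v 0 := by
        rw [LinearMap.proj_apply, Pi.sub_apply]
        change (0 : R) - v 0 = - v 0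
        rw [zero_sub]
      rw [h3] at h2
      exact (neg_mem_iff).1 h2

end Pool.Agent.HUR
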