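import Pool.Agent.HUR.BD

namespace Pool.Agent.HUR

open Pool.Agent.HCH Pool.Agent.HCF

variable {R Ω : Type} [CommRing R] [Field Ω] [Algebra ℂ R] [Algebra ℂ Ω]

/-- The extension `v ↦ (v, 0)`. -/
private def B2_snoc (R : Type) [CommRing R] (n : ℕ) : (Fin n → R) →ₗ[R] (Fin (n + 1) → R) where
  toFun v := Fin.snoc v 0
  map_add' u v := by
    ext i
    refine Fin.lastCases ?_ (fun j => ?_) i
    · simp
    · simp
  map_smul' r v := by
    ext i
    refine Fin.lastCases ?_ (fun j => ?_) i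
    · simp
    · simp

private theorem B2_mem (Θ : R →ₐ[ℂ] Ω) (f : Ω) (n : ℕ) (v : Fin n → R) :
    B2_snoc R n v ∈ Kn Θ f (n + 1) ↔ v ∈ Kn Θ f n := by
  change ∑ i, Θ (Fin.snoc (α := fun _ => R) v 0 i) * f ^ (i : ℕ) = 0 ↔
    ∑ i, Θ (v i) * f ^ (i : ℕ) = 0
  rw [Fin.sum_univ_castSucc]
  simp only [Fin.snoc_last, map_zero, zero_mul, add_zero, Fin.snoc_castSucc, Fin.val_castSucc]

private theorem B2_le (Θ : R →ₐ[ℂ] Ω) (f : Ω) (n : ℕ) : Kn Θ f (n + 1) ≤
    Submodule.comap (LinearMap.proj (Fin.last n) : (Fin (n + 1) → R) →ₗ[R] R)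
      (Ki Θ f (n + 1) (Fin.last n)) :=
  fun _ hv => Submodule.mem_map_of_mem hv

/-
PROOF. The inclusion: u is induced by v ↦ Fin.snoc v 0 (Fin.sum_univ_castSucc, Fin.snoc_castSucc,
Fin.snoc_last), so v ∈ Kn n iff Fin.snoc v 0 ∈ Kn (n + 1). g is induced by v ↦ mk (v (Fin.last n)).
Exactness as in seq0: if v (last) = k (last) with k ∈ Kn (n+1), then
v - k = Fin.snoc (Fin.init (v - k)) 0.
-/
theorem seqi (Θ : R →ₐ[ℂ] Ω) (f : Ω) (n : ℕ) :
    ∃ (u : ((Fin n → R) ⧸ Kn Θ f n) →ₗ[R] ((Fin (n + 1) → R) ⧸ Kn Θ f (n + 1)))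
      (g : ((Fin (n + 1) → R) ⧸ Kn Θ f (n + 1)) →ₗ[R] (R ⧸ Ki Θ f (n + 1) (Fin.last n))),
      Function.Injective u ∧ Function.Surjective g ∧ Function.Exact u g := by
  have hu : Kn Θ f n ≤ Submodule.comap (B2_snoc R n) (Kn Θ f (n + 1)) :=
    fun v hv => (B2_mem Θ f n v).2 hv
  refine ⟨Submodule.mapQ _ _ (B2_snoc R n) hu, Submodule.mapQ _ _ _ (B2_le Θ f n), ?_, ?_, ?_⟩
  · rw [← LinearMap.ker_eq_bot, LinearMap.ker_eq_bot']
    intro x hx
    obtain ⟨v, rfl⟩ := Submodule.Quotient.mk_surjective _ x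
    rw [Submodule.mapQ_apply, Submodule.Quotient.mk_eq_zero] at hx
    rw [Submodule.Quotient.mk_eq_zero]
    exact (B2_mem Θ f n v).1 hx
  · intro x
    obtain ⟨r, rfl⟩ := Submodule.Quotient.mk_surjective _ x
    refine ⟨Submodule.Quotient.mk (Pi.single (Fin.last n) r), ?_⟩
    rw [Submodule.mapQ_apply]
    simp
  · intro x
    obtain ⟨v, rfl⟩ := Submodule.Quotient.mk_surjective _ x
    rw [Submodule.mapQ_apply, Submodule.Quotient.mk_eq_zero]
    constructor
    · intro hv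
      obtain ⟨k, hk, e⟩ := (Submodule.mem_map).1 hv
      have e' : k (Fin.last n) = v (Fin.last n) := e
      refine ⟨Submodule.Quotient.mk (Fin.init (v - k)), ?_⟩
      rw [Submodule.mapQ_apply]
      have h1 : B2_snoc R n (Fin.init (v - k)) = v - k := by
        change Fin.snoc (Fin.init (v - k)) 0 = v - k
        have h0 : (v - k) (Fin.last n) = 0 := by rw [Pi.sub_apply, e', sub_self]
        rw [← h0, Fin.snoc_init_self]
      rw [h1, Submodule.Quotient.mk_sub, (Submodule.Quotient.mk_eq_zero _).2 hk, sub_zero]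
    · rintro ⟨y, hy⟩
      obtain ⟨w, rfl⟩ := Submodule.Quotient.mk_surjective _ y
      rw [Submodule.mapQ_apply, Submodule.Quotient.eq] at hy
      have h2 : (LinearMap.proj (Fin.last n) : (Fin (n + 1) → R) →ₗ[R] R) (B2_snoc R n w - v) ∈
          Ki Θ f (n + 1) (Fin.last n) := Submodule.mem_map_of_mem hy
      have h3 : (LinearMap.proj (Fin.last n) : (Fin (n + 1) → R) →ₗ[R] R) (B2_snoc R n w - v) =
          - v (Fin.last n) := by
        rw [LinearMap.proj_apply, Pi.sub_apply]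
        change Fin.snoc (α := fun _ => R) w 0 (Fin.last n) - v (Fin.last n) = - v (Fin.last n)
        rw [Fin.snoc_last, zero_sub]
      rw [h3] at h2
      exact (neg_mem_iff).1 h2

end Pool.Agent.HUR
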