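import Pool.Agent.HUR.BD

namespace Pool.Agent.HUR

open Pool.Agent.HCH Pool.Agent.HCF

variable {R Ω : Type} [CommRing R] [Field Ω] [Algebra ℂ R] [Algebra ℂ Ω]

private theorem B3_mem_Kn (Θ : R →ₐ[ℂ] Ω) (f : Ω) (n : ℕ) (v : Fin n → R) :
    v ∈ Kn Θ f n ↔ ∑ i, Θ (v i) * f ^ (i : ℕ) = 0 := Iff.rfl

private theorem B3_mem_Ki (Θ : R →ₐ[ℂ] Ω) (f : Ω) (n : ℕ) (i : Fin n) (b : R) :
    b ∈ Ki Θ f n i ↔ ∃ v, v ∈ Kn Θ f n ∧ v i = b := Submodule.mem_map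

private theorem B3_mono (Θ : R →ₐ[ℂ] Ω) (f : Ω) (n : ℕ) :
    Ki Θ f (n + 1) 0 ≤ Ki Θ f (n + 1 + 1) 0 := by
  intro b hb
  obtain ⟨v, hv, e⟩ := (B3_mem_Ki Θ f _ _ b).1 hb
  refine (B3_mem_Ki Θ f _ _ b).2 ⟨Fin.snoc (α := fun _ => R) v 0, ?_, ?_⟩
  · rw [B3_mem_Kn] at hv ⊢
    rw [Fin.sum_univ_castSucc]
    simp only [Fin.snoc_last, map_zero, zero_mul, add_zero, Fin.snoc_castSucc, Fin.val_castSucc]
    exact hv
  · rw [← e, ← Fin.castSucc_zero, Fin.snoc_castSucc]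

/-
PROOF. J0 Θ f is the image of the kernel under the surjection constantCoeff
(Ideal.mem_map_iff_of_surjective): b ∈ J0 iff there is g : R[X] with g.eval₂ Θ f = 0 and
g.coeff 0 = b. If v ∈ Kn (n + 1), then g = ∑ i, C (v i) * X ^ i has g.eval₂ = ∑ Θ (v i) f ^ i = 0 and
constant term v 0; conversely a polynomial g of degree ≤ n gives v i = g.coeff i
(Polynomial.eval₂_eq_sum_range' ). So b ∈ J0 iff b ∈ Ki Θ f (n + 1) 0 for some n, and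
Ki Θ f (n + 1) 0 is monotone in n (extend v by 0, Fin.snoc v 0).
-/
theorem mem_J0 (Θ : R →ₐ[ℂ] Ω) (f : Ω) (b : R) :
    b ∈ J0 Θ f ↔ ∃ n, b ∈ Ki Θ f (n + 1) 0 := by
  have hsur : Function.Surjective (Polynomial.constantCoeff : Polynomial R →+* R) := fun r =>
    ⟨Polynomial.C r, by rw [Polynomial.constantCoeff_apply, Polynomial.coeff_C_zero]⟩
  constructor
  · intro hb
    obtain ⟨g, hg, rfl⟩ := (Ideal.mem_map_iff_of_surjective _ hsur).1 hb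
    have h0 : Polynomial.eval₂ (Θ : R →+* Ω) f g = 0 := hg
    refine ⟨g.natDegree, (B3_mem_Ki Θ f _ _ _).2 ⟨fun i => g.coeff i, ?_, ?_⟩⟩
    · rw [B3_mem_Kn]
      rw [Polynomial.eval₂_eq_sum_range, Finset.sum_range] at h0
      exact h0
    · rfl
  · rintro ⟨n, hb⟩
    obtain ⟨v, hv, e⟩ := (B3_mem_Ki Θ f _ _ b).1 hb
    refine (Ideal.mem_map_iff_of_surjective _ hsur).2
      ⟨∑ i, Polynomial.C (v i) * Polynomial.X ^ (i : ℕ), ?_, ?_⟩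
    · change Polynomial.eval₂ (Θ : R →+* Ω) f _ = 0
      rw [Polynomial.eval₂_finsetSum]
      rw [← (B3_mem_Kn Θ f (n + 1) v).1 hv]
      refine Finset.sum_congr rfl fun i _ => ?_
      rw [Polynomial.eval₂_mul, Polynomial.eval₂_C, Polynomial.eval₂_pow, Polynomial.eval₂_X]
      rfl
    · rw [map_sum, Fin.sum_univ_succ, Finset.sum_eq_zero]
      · simp [e]
      · intro i _
        simp

private theorem B3_le (Θ : R →ₐ[ℂ] Ω) (f : Ω) (n : ℕ) : Ki Θ f (n + 1) 0 ≤ J0 Θ f :=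
  fun b hb => (mem_J0 Θ f b).2 ⟨n, hb⟩

/-
PROOF. The ideals Ki Θ f (n + 1) 0 are monotone in n with union J0 Θ f (mem_J0); R is Noetherian
(monotone_stabilizes_iff_noetherian, or J0 is finitely generated and each generator lies in some
Ki).
-/
theorem stab0 [IsNoetherianRing R] (Θ : R →ₐ[ℂ] Ω) (f : Ω) :
    ∃ n₀, ∀ n ≥ n₀, Ki Θ f (n + 1) 0 = J0 Θ f := by
  have hm : Monotone (fun n => Ki Θ f (n + 1) 0) := monotone_nat_of_le_succ (B3_mono Θ f)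
  obtain ⟨n₀, hn⟩ := monotone_stabilizes_iff_noetherian.2 (inferInstance : IsNoetherian R R)
    ⟨fun n => Ki Θ f (n + 1) 0, hm⟩
  have hn' : ∀ m, n₀ ≤ m → Ki Θ f (n₀ + 1) 0 = Ki Θ f (m + 1) 0 := hn
  refine ⟨n₀, fun n h => le_antisymm (B3_le Θ f n) fun b hb => ?_⟩
  obtain ⟨k, hk⟩ := (mem_J0 Θ f b).1 hb
  have h1 : b ∈ Ki Θ f (max k n + 1) 0 := hm (le_max_left k n) hk
  rw [← hn' n h, hn' (max k n) (h.trans (le_max_right k n))]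
  exact h1

private theorem B3_rev (Θ : R →ₐ[ℂ] Ω) (f : Ω) (hf : f ≠ 0) (n : ℕ) :
    Ki Θ f (n + 1) (Fin.last n) = Ki Θ f⁻¹ (n + 1) 0 := by
  have key : ∀ (g : Ω), g ≠ 0 → ∀ v : Fin (n + 1) → R, v ∈ Kn Θ g (n + 1) →
      (fun i => v (Fin.rev i)) ∈ Kn Θ g⁻¹ (n + 1) := by
    intro g hg v hv
    rw [B3_mem_Kn] at hv ⊢
    have e1 : ∑ i : Fin (n + 1), Θ (v (Fin.rev i)) * g⁻¹ ^ (i : ℕ) =
        ∑ i : Fin (n + 1), Θ (v i) * g⁻¹ ^ ((Fin.rev i : Fin (n + 1)) : ℕ) := by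
      rw [← Equiv.sum_comp Fin.revPerm]
      refine Finset.sum_congr rfl fun i _ => ?_
      simp only [Fin.revPerm_apply, Fin.rev_rev]
    rw [e1]
    have e2 : ∀ i : Fin (n + 1), g⁻¹ ^ ((Fin.rev i : Fin (n + 1)) : ℕ) = g⁻¹ ^ n * g ^ (i : ℕ) := by
      intro i
      have h1 : ((Fin.rev i : Fin (n + 1)) : ℕ) + (i : ℕ) = n := by
        rw [Fin.val_rev]
        have := i.2
        omega
      have h2 : g⁻¹ ^ n = g⁻¹ ^ ((Fin.rev i : Fin (n + 1)) : ℕ) * g⁻¹ ^ (i : ℕ) := by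
        rw [← pow_add, h1]
      rw [h2, mul_assoc, ← mul_pow, inv_mul_cancel₀ hg, one_pow, mul_one]
    have e3 : ∑ i : Fin (n + 1), Θ (v i) * g⁻¹ ^ ((Fin.rev i : Fin (n + 1)) : ℕ) =
        g⁻¹ ^ n * ∑ i : Fin (n + 1), Θ (v i) * g ^ (i : ℕ) := by
      rw [Finset.mul_sum]
      refine Finset.sum_congr rfl fun i _ => ?_
      rw [e2 i]
      ring
    rw [e3, hv, mul_zero]
  ext b
  rw [B3_mem_Ki, B3_mem_Ki]
  constructor
  · rintro ⟨v, hv, e⟩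
    refine ⟨fun i => v (Fin.rev i), key f hf v hv, ?_⟩
    rw [← e]
    simp
  · rintro ⟨v, hv, e⟩
    refine ⟨fun i => v (Fin.rev i), ?_, ?_⟩
    · have := key f⁻¹ (inv_ne_zero hf) v hv
      rwa [inv_inv] at this
    · rw [← e]
      simp

/-
PROOF. v ∈ Kn Θ f (n + 1) iff v ∘ Fin.rev ∈ Kn Θ f⁻¹ (n + 1) (multiply by f⁻¹ ^ n or f ^ n;
Fin.revPerm, Equiv.sum_comp; f ^ n * f⁻¹ ^ i = f ^ (n - i) for i ≤ n), and v (Fin.last n) is the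
coordinate 0 of v ∘ Fin.rev. So Ki Θ f (n + 1) (Fin.last n) = Ki Θ f⁻¹ (n + 1) 0; use stab0 for f⁻¹.
-/
theorem stabi [IsNoetherianRing R] (Θ : R →ₐ[ℂ] Ω) (f : Ω) (hf : f ≠ 0) :
    ∃ n₀, ∀ n ≥ n₀, Ki Θ f (n + 1) (Fin.last n) = J0 Θ f⁻¹ := by
  obtain ⟨n₀, hn⟩ := stab0 Θ f⁻¹
  exact ⟨n₀, fun n h => (B3_rev Θ f hf n).trans (hn n h)⟩

end Pool.Agent.HUR
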