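import Pool.Agent.HUR.B1
import Pool.Agent.HUR.B2
import Pool.Agent.HUR.B3

namespace Pool.Agent.HUR

open Pool.Agent.HCH Pool.Agent.HCF

variable {R Ω : Type} [CommRing R] [Field Ω] [Algebra ℂ R] [Algebra ℂ Ω]

private theorem B4_ann (Θ : R →ₐ[ℂ] Ω) (f : Ω) (n : ℕ) :
    RingHom.ker (Θ : R →+* Ω) ≤ Module.annihilator R ((Fin n → R) ⧸ Kn Θ f n) := by
  intro r hr
  rw [Module.mem_annihilator]
  intro x
  obtain ⟨v, rfl⟩ := Submodule.Quotient.mk_surjective _ x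
  rw [← Submodule.Quotient.mk_smul, Submodule.Quotient.mk_eq_zero]
  change ∑ i, Θ ((r • v) i) * f ^ (i : ℕ) = 0
  have h0 : Θ r = 0 := hr
  simp [h0]

private theorem B4_J0 (Θ : R →ₐ[ℂ] Ω) (f : Ω) : RingHom.ker (Θ : R →+* Ω) ≤ J0 Θ f := by
  intro r hr
  have h : Polynomial.C r ∈ RingHom.ker (Polynomial.eval₂RingHom (Θ : R →+* Ω) f) := by
    rw [RingHom.mem_ker]
    simp only [Polynomial.coe_eval₂RingHom, Polynomial.eval₂_C]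
    exact hr
  have := Ideal.mem_map_of_mem (Polynomial.constantCoeff : Polynomial R →+* R) h
  simpa [J0] using this

/-
PROOF. Take n beyond both bounds of stab0 and stabi. Put G := Rt ℂ ⊥ e and S := Gd ℂ G e.
Every prime P ≥ ker Θ satisfies S: dm P ≤ dm (ker Θ) ≤ e + 1 (HCH.dm_le), and if dm P = e + 1 then
fdiv_mem_Rt. The annihilator of M_n := (Fin n → R) ⧸ Kn Θ f n contains ker Θ (if Θ r = 0 then
r • v ∈ Kn), and so do the annihilators of the two quotients. Fil.exists (HCF.F2) gives Fil S for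
M_n with w, and for R ⧸ Ki (n+1) 0 = R ⧸ J0 Θ f with w0, for R ⧸ J0 Θ f⁻¹ with wi
(the annihilator of R ⧸ J is J, Ideal.annihilator_quotient; J0 ≥ ker Θ since a constant polynomial
C r is in the kernel); apply Fil.exists for the property S P ∧ J0 Θ f ≤ P so that also the
statement of the theorem follows by Fil.mono. Fil.exact (HCF.F0) for seq0 and seqi: M_{n+1} has
filtrations with cycles w + w0 and w + wi. Fil.uniq (HCF.C3): pt ℂ e ((w + w0) - (w + wi)) ∈ G.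
-/
theorem fam [Algebra.FiniteType ℂ R] (Θ : R →ₐ[ℂ] Ω) (f : Ω) (hf : f ≠ 0) (e : ℕ)
    (hk : dm ℂ (RingHom.ker (Θ : R →+* Ω)) ≤ e + 1) :
    ∃ w0 wi : PrimeSpectrum R →₀ ℤ,
      (∃ n, Fil (fun q => J0 Θ f ≤ q.asIdeal) n (R ⧸ J0 Θ f) w0) ∧
      (∃ n, Fil (fun q => J0 Θ f⁻¹ ≤ q.asIdeal) n (R ⧸ J0 Θ f⁻¹) wi) ∧
      pt ℂ e (w0 - wi) ∈ Rt ℂ (⊥ : Ideal R) e := by
  have : IsNoetherianRing R := Algebra.FiniteType.isNoetherianRing ℂ R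
  obtain ⟨n0, h0⟩ := stab0 Θ f
  obtain ⟨ni, hi⟩ := stabi Θ f hf
  obtain ⟨n, hn0, hni⟩ : ∃ n, n0 ≤ n ∧ ni ≤ n := ⟨max n0 ni, le_max_left _ _, le_max_right _ _⟩
  have hS : ∀ P : PrimeSpectrum R, RingHom.ker (Θ : R →+* Ω) ≤ P.asIdeal →
      Gd ℂ (Rt ℂ (⊥ : Ideal R) e) e P := by
    intro P hP
    have : (RingHom.ker (Θ : R →+* Ω)).IsPrime := RingHom.ker_isPrime _
    have := P.isPrime
    refine ⟨(dm_le _ _ hP).trans hk, ?_⟩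
    intro hd x hx
    exact fdiv_mem_Rt _ _ _ _ bot_le hd hx
  obtain ⟨a, w, hw⟩ := Fil.exists (S := Gd ℂ (Rt ℂ (⊥ : Ideal R) e) e)
    ((Fin n → R) ⧸ Kn Θ f n) (fun P hP => hS P ((B4_ann Θ f n).trans hP))
  obtain ⟨a0, w0, hw0⟩ := Fil.exists
    (S := fun P => Gd ℂ (Rt ℂ (⊥ : Ideal R) e) e P ∧ J0 Θ f ≤ P.asIdeal) (R ⧸ J0 Θ f)
    (fun P hP => by
      rw [Ideal.annihilator_quotient] at hP
      exact ⟨hS P ((B4_J0 Θ f).trans hP), hP⟩)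
  obtain ⟨ai, wi, hwi⟩ := Fil.exists
    (S := fun P => Gd ℂ (Rt ℂ (⊥ : Ideal R) e) e P ∧ J0 Θ f⁻¹ ≤ P.asIdeal) (R ⧸ J0 Θ f⁻¹)
    (fun P hP => by
      rw [Ideal.annihilator_quotient] at hP
      exact ⟨hS P ((B4_J0 Θ f⁻¹).trans hP), hP⟩)
  refine ⟨w0, wi, ⟨a0, Fil.mono (fun P h => h.2) hw0⟩, ⟨ai, Fil.mono (fun P h => h.2) hwi⟩, ?_⟩
  obtain ⟨u, g, hu, hg, hug⟩ := seq0 Θ f hf n
  obtain ⟨u', g', hu', hg', hug'⟩ := seqi Θ f n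
  have e0 := h0 n hn0
  have ei := hi n hni
  have F0 : Fil (Gd ℂ (Rt ℂ (⊥ : Ideal R) e) e) a0 (R ⧸ Ki Θ f (n + 1) 0) w0 := by
    rw [e0]
    exact Fil.mono (fun P h => h.1) hw0
  have Fi : Fil (Gd ℂ (Rt ℂ (⊥ : Ideal R) e) e) ai (R ⧸ Ki Θ f (n + 1) (Fin.last n)) wi := by
    rw [ei]
    exact Fil.mono (fun P h => h.1) hwi
  have E0 := Fil.exact u g hu hg hug hw F0
  have Ei := Fil.exact u' g' hu' hg' hug' hw Fi
  have := Fil.uniq (K := ℂ) (Rt ℂ (⊥ : Ideal R) e) e E0 Ei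
  rwa [add_sub_add_left_eq_sub] at this

end Pool.Agent.HUR
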