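import Pool.Agent.HUR.B4

namespace Pool.Agent.HUR

open Pool.Agent.HCH Pool.Agent.HCF

variable {R Ω : Type} [CommRing R] [Field Ω] [Algebra ℂ R] [Algebra ℂ Ω]

private theorem B5_one [Algebra.FiniteType ℂ R] (J : Ideal R) (e : ℕ) (S0 : Set (PrimeSpectrum R))
    (hS0 : ∀ P ∈ S0, dm ℂ P.asIdeal = e)
    (h0 : ∀ q : PrimeSpectrum R, J ≤ q.asIdeal → ∃ P ∈ S0, P.asIdeal ≤ q.asIdeal) {n : ℕ}
    {w : PrimeSpectrum R →₀ ℤ} (F : Fil (fun q => J ≤ q.asIdeal) n (R ⧸ J) w) :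
    (∀ P, 0 ≤ pt ℂ e w P) ∧ (∀ P, pt ℂ e w P ≠ 0 → P ∈ S0) ∧
      ((∃ P ∈ S0, J ≤ P.asIdeal) → pt ℂ e w ≠ 0) := by
  refine ⟨fun P => ?_, fun P hP => ?_, ?_⟩
  · by_cases hd : dm ℂ P.asIdeal = e
    · rw [pt_apply e w P hd]
      exact (F.supp P).1
    · rw [pt_apply_ne e w P hd]
  · by_cases hd : dm ℂ P.asIdeal = e
    · rw [pt_apply e w P hd] at hP
      obtain ⟨s, hs, hsP⟩ := h0 P ((F.supp P).2 hP)
      have h1 : s = P := eq_of_le (K := ℂ) s P hsP (by rw [hS0 s hs, hd])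
      rwa [← h1]
    · exact absurd (pt_apply_ne e w P hd) hP
  · rintro ⟨s, hs, hJs⟩ hz
    have hQ : ∀ P : PrimeSpectrum R, J ≤ P.asIdeal → P.asIdeal ≤ s.asIdeal → P = s := by
      intro P hP hPs
      obtain ⟨s', hs', hs'P⟩ := h0 P hP
      have h1 : s' = s := eq_of_le (K := ℂ) s' s (hs'P.trans hPs) (by rw [hS0 s hs, hS0 s' hs'])
      rw [h1] at hs'P
      exact PrimeSpectrum.ext (le_antisymm hPs hs'P)
    obtain ⟨k, hk1, hk2⟩ := F.length s hQ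
    have h2 : w s = 0 := by
      rw [← pt_apply e w s (hS0 s hs), hz]
      rfl
    have h3 : k = 0 := by
      have : (k : ℤ) = 0 := by rw [← hk1, h2]
      exact_mod_cast this
    rw [h3, Nat.cast_zero, Module.length_eq_zero_iff, LocalizedModule.subsingleton_iff] at hk2
    obtain ⟨r, hr, hr2⟩ := hk2 (Ideal.Quotient.mk J 1)
    have h4 : r • (Ideal.Quotient.mk J 1) = Ideal.Quotient.mk J r := by
      rw [← mul_one (Ideal.Quotient.mk J r), ← map_one (Ideal.Quotient.mk J), ← map_mul]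
      rfl
    rw [h4, Ideal.Quotient.eq_zero_iff_mem] at hr2
    exact hr (hJs hr2)

/-
PROOF. b0 := pt ℂ e w0, bi := pt ℂ e wi with w0, wi of fam. pt is Finsupp.filterAddHom: its value
at P is w0 P if dm P = e and 0 otherwise (pt_apply, pt_apply_ne of HCF.B0). Nonnegative:
Fil.supp. If b0 P ≠ 0, then dm P = e and J0 ≤ P (Fil.supp), so some s ∈ S0 has s ≤ P and
dm s = e = dm P: s = P (eq_of_le of HCF.F4). For the s ∈ S0 with J0 ≤ s: w0 s ≠ 0. Indeed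
Fil.length (HCF.F3) with Q = s (every P with J0 ≤ P ≤ s contains some s' ∈ S0 and
s' ≤ P ≤ s forces s' = P = s by dimension) gives w0 s = length of the localisation
(R ⧸ J0)_s, which is not 0 because J0 ≤ s (LocalizedModule of R ⧸ J0 at s is not trivial: the
annihilator J0 is contained in s; or use Fil.quot: w0 s = od J0 s, and mlt J0 s ≠ 0: the ring
Localization.AtPrime s ⧸ J0.map is nontrivial because J0.map ≤ maximal ideal).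
-/
theorem fam_sets [Algebra.FiniteType ℂ R] (Θ : R →ₐ[ℂ] Ω) (f : Ω) (hf : f ≠ 0) (e : ℕ)
    (hk : dm ℂ (RingHom.ker (Θ : R →+* Ω)) ≤ e + 1) (S0 Si : Set (PrimeSpectrum R))
    (hS0 : ∀ P ∈ S0, dm ℂ P.asIdeal = e) (hSi : ∀ P ∈ Si, dm ℂ P.asIdeal = e)
    (h0 : ∀ q : PrimeSpectrum R, J0 Θ f ≤ q.asIdeal → ∃ P ∈ S0, P.asIdeal ≤ q.asIdeal)
    (hi : ∀ q : PrimeSpectrum R, J0 Θ f⁻¹ ≤ q.asIdeal → ∃ P ∈ Si, P.asIdeal ≤ q.asIdeal)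
    (hn : ∃ P ∈ S0, J0 Θ f ≤ P.asIdeal) :
    ∃ b0 bi : PrimeSpectrum R →₀ ℤ, (∀ P, 0 ≤ b0 P) ∧ (∀ P, 0 ≤ bi P) ∧
      (∀ P, b0 P ≠ 0 → P ∈ S0) ∧ (∀ P, bi P ≠ 0 → P ∈ Si) ∧ b0 ≠ 0 ∧
      b0 - bi ∈ Rt ℂ (⊥ : Ideal R) e := by
  obtain ⟨w0, wi, ⟨n0, F0⟩, ⟨ni, Fi⟩, hG⟩ := fam Θ f hf e hk
  obtain ⟨a1, a2, a3⟩ := B5_one (J0 Θ f) e S0 hS0 h0 F0
  obtain ⟨b1, b2, -⟩ := B5_one (J0 Θ f⁻¹) e Si hSi hi Fi
  refine ⟨pt ℂ e w0, pt ℂ e wi, a1, b1, a2, b2, a3 hn, ?_⟩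
  rw [← map_sub]
  exact hG

end Pool.Agent.HUR
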