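import Pool.Agent.HUR.BD

namespace Pool.Agent.HUR

open Pool.Agent.HCH Pool.Agent.HCF

variable {R Ω : Type} [CommRing R] [Field Ω] [Algebra ℂ R] [Algebra ℂ Ω]

/-- A valuation subring over a subring of a field with a given prime as centre. -/
private theorem B6_dom (A : Subring Ω) (P : Ideal A) [P.IsPrime] :
    ∃ 𝒪 : ValuationSubring Ω, ∀ x : A, (x : Ω) ∈ 𝒪 ∧ (x ∈ P ↔ 𝒪.valuation (x : Ω) < 1) := by
  obtain ⟨𝒪, h1, h2⟩ := (LocalSubring.ofPrime A P).exists_le_valuationSubring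
  refine ⟨𝒪, fun x => ?_⟩
  have hx : (x : Ω) ∈ 𝒪 := h1 (LocalSubring.le_ofPrime A P x.2)
  refine ⟨hx, ?_⟩
  have e1 : x ∈ P ↔ ¬ IsUnit (algebraMap A (LocalSubring.ofPrime A P).toSubring x) := by
    rw [IsLocalization.AtPrime.isUnit_to_map_iff (LocalSubring.ofPrime A P).toSubring P x]
    exact not_not.symm
  have e2 : IsUnit (algebraMap A (LocalSubring.ofPrime A P).toSubring x) ↔
      IsUnit (⟨(x : Ω), hx⟩ : 𝒪) := by
    constructor
    · intro hu
      exact hu.map (Subring.inclusion h1)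
    · intro hu
      exact h2.1 (algebraMap A (LocalSubring.ofPrime A P).toSubring x) hu
  rw [e1, e2, ← mem_nonunits_iff, ← IsLocalRing.mem_maximalIdeal]
  exact 𝒪.valuation_lt_one_iff ⟨(x : Ω), hx⟩

/-
PROOF. Let ψ := Polynomial.eval₂RingHom Θ f : R[X] → Ω, A := ψ.range (a subring of Ω), and
Q := q.asIdeal.comap Polynomial.constantCoeff : Ideal R[X], a prime with ker ψ ≤ Q (an element g of
ker ψ has constantCoeff g ∈ J0 ≤ q). So the image of Q under ψ.rangeRestrict is a prime ideal 𝔭 of A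
with ψ.rangeRestrict g ∈ 𝔭 ↔ g ∈ Q (Ideal.map_isPrime_of_surjective, Ideal.comap_map_of_surjective).
Take the local subring LocalSubring.ofPrime A 𝔭 (Mathlib.RingTheory.LocalRing.LocalSubring) and a
valuation subring 𝒪 dominating it (LocalSubring.exists_le_valuationSubring or similar in
Mathlib.RingTheory.Valuation.LocalSubring). Then A ≤ 𝒪 and for x ∈ A : x ∈ 𝔭 ↔ x is not a unit of
𝒪 ↔ 𝒪.valuation x < 1 (ValuationSubring.valuation_lt_one_iff). With x = Θ b = ψ (C b):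
C b ∈ Q ↔ b ∈ q; with x = f = ψ X: X ∈ Q.
-/
theorem exists_val (Θ : R →ₐ[ℂ] Ω) (f : Ω) (q : PrimeSpectrum R) (h : J0 Θ f ≤ q.asIdeal) :
    ∃ 𝒪 : ValuationSubring Ω, (∀ r, Θ r ∈ 𝒪) ∧ 𝒪.valuation f < 1 ∧
      ∀ r, r ∈ q.asIdeal ↔ 𝒪.valuation (Θ r) < 1 := by
  let ψ : Polynomial R →+* Ω := Polynomial.eval₂RingHom (Θ : R →+* Ω) f
  let Q : Ideal (Polynomial R) := q.asIdeal.comap (Polynomial.constantCoeff : Polynomial R →+* R)
  have hker : RingHom.ker ψ ≤ Q := fun g hg => h (Ideal.mem_map_of_mem _ hg)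
  have hkr : RingHom.ker ψ.rangeRestrict ≤ Q := by
    rw [RingHom.ker_rangeRestrict]
    exact hker
  haveI hQp : Q.IsPrime := Ideal.comap_isPrime _ _
  have hsur : Function.Surjective ψ.rangeRestrict := ψ.rangeRestrict_surjective
  haveI hp : (Q.map ψ.rangeRestrict).IsPrime := Ideal.map_isPrime_of_surjective hsur hkr
  have hmem : ∀ g, ψ.rangeRestrict g ∈ Q.map ψ.rangeRestrict ↔ g ∈ Q := by
    intro g
    constructor
    · intro hg
      obtain ⟨g', hg', e⟩ := (Ideal.mem_map_iff_of_surjective _ hsur).1 hg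
      have h1 : g - g' ∈ RingHom.ker ψ.rangeRestrict := by
        rw [RingHom.mem_ker, map_sub, e, sub_self]
      have h2 := Q.add_mem (hkr h1) hg'
      rwa [sub_add_cancel] at h2
    · exact fun hg => Ideal.mem_map_of_mem _ hg
  obtain ⟨𝒪, hO⟩ := B6_dom ψ.range (Q.map ψ.rangeRestrict)
  have hC : ∀ r, ((ψ.rangeRestrict (Polynomial.C r) : ψ.range) : Ω) = Θ r := fun r => by
    change Polynomial.eval₂ (Θ : R →+* Ω) f (Polynomial.C r) = Θ r
    rw [Polynomial.eval₂_C]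
    rfl
  have hX : ((ψ.rangeRestrict Polynomial.X : ψ.range) : Ω) = f := by
    change Polynomial.eval₂ (Θ : R →+* Ω) f Polynomial.X = f
    rw [Polynomial.eval₂_X]
  refine ⟨𝒪, fun r => ?_, ?_, fun r => ?_⟩
  · have := (hO (ψ.rangeRestrict (Polynomial.C r))).1
    rwa [hC] at this
  · have := (hO (ψ.rangeRestrict Polynomial.X)).2
    rw [hX, hmem] at this
    refine this.1 ?_
    change Polynomial.constantCoeff (Polynomial.X : Polynomial R) ∈ q.asIdeal
    rw [Polynomial.constantCoeff_apply, Polynomial.coeff_X_zero]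
    exact zero_mem _
  · have := (hO (ψ.rangeRestrict (Polynomial.C r))).2
    rw [hC, hmem] at this
    rw [← this]
    change _ ↔ Polynomial.constantCoeff (Polynomial.C r) ∈ q.asIdeal
    rw [Polynomial.constantCoeff_apply, Polynomial.coeff_C_zero]

/-
PROOF. By Ideal.mem_map_iff_of_surjective there is g : R[X] with g.eval₂ Θ f = 0 and g.coeff 0 = r.
g.eval₂ Θ f = Θ (g.coeff 0) + f * (∑ over the higher terms, an element of 𝒪) (Polynomial.divX_mul_X_add:
g = g.divX * X + C (g.coeff 0)), so Θ r = - f * x with x ∈ 𝒪.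
-/
theorem val_J0 (Θ : R →ₐ[ℂ] Ω) (f : Ω) (𝒪 : ValuationSubring Ω) (hΘ : ∀ r, Θ r ∈ 𝒪)
    (hf : 𝒪.valuation f < 1) (r : R) (hr : r ∈ J0 Θ f) : 𝒪.valuation (Θ r) < 1 := by
  have hsur : Function.Surjective (Polynomial.constantCoeff : Polynomial R →+* R) := fun r =>
    ⟨Polynomial.C r, by rw [Polynomial.constantCoeff_apply, Polynomial.coeff_C_zero]⟩
  obtain ⟨g, hg, rfl⟩ := (Ideal.mem_map_iff_of_surjective _ hsur).1 hr
  have hfO : f ∈ 𝒪 := (𝒪.valuation_le_one_iff f).1 hf.le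
  have hev : ∀ p : Polynomial R, Polynomial.eval₂ (Θ : R →+* Ω) f p ∈ 𝒪 := by
    intro p
    rw [Polynomial.eval₂_eq_sum_range]
    exact sum_mem fun i _ => mul_mem (hΘ _) (pow_mem hfO i)
  have h0 : Polynomial.eval₂ (Θ : R →+* Ω) f g = 0 := hg
  have h1 : Θ (g.coeff 0) = - (Polynomial.eval₂ (Θ : R →+* Ω) f g.divX * f) := by
    have h2 := congrArg (Polynomial.eval₂ (Θ : R →+* Ω) f) (Polynomial.divX_mul_X_add g)
    rw [h0, Polynomial.eval₂_add, Polynomial.eval₂_mul, Polynomial.eval₂_X,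
      Polynomial.eval₂_C] at h2
    exact eq_neg_of_add_eq_zero_right h2
  rw [Polynomial.constantCoeff_apply, h1, Valuation.map_neg, map_mul]
  calc 𝒪.valuation (Polynomial.eval₂ (Θ : R →+* Ω) f g.divX) * 𝒪.valuation f
      ≤ 1 * 𝒪.valuation f :=
        mul_le_mul_left ((𝒪.valuation_le_one_iff _).2 (hev _)) _
    _ = 𝒪.valuation f := one_mul _
    _ < 1 := hf

end Pool.Agent.HUR
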