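import Pool.Agent.HUR.B5
import Pool.Agent.HUR.B6

namespace Pool.Agent.HUR

open Pool.Agent.HCH Pool.Agent.HCF

variable {R Ω : Type} [CommRing R] [Field Ω] [Algebra ℂ R] [Algebra ℂ Ω]

/-
PROOF. fam_sets: h0 and hi from exists_val (for f and f⁻¹), hn from val_J0.
dm (ker Θ) ≤ e + 1: R ⧸ ker Θ embeds into Ω as a ℂ-algebra (Ideal.kerLiftAlg /
Ideal.Quotient.liftₐ, injective), so trdeg ℂ (R ⧸ ker Θ) ≤ trdeg ℂ Ω = e + 1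
(trdeg_le_of_injective or similar) and toNat is monotone on finite cardinals.
-/
theorem fam_val [Algebra.FiniteType ℂ R] (Θ : R →ₐ[ℂ] Ω) (f : Ω) (hf : f ≠ 0) (e : ℕ)
    (hk : Algebra.trdeg ℂ Ω = ((e + 1 : ℕ) : Cardinal)) (S0 Si : Set (PrimeSpectrum R))
    (hS0 : ∀ P ∈ S0, dm ℂ P.asIdeal = e) (hSi : ∀ P ∈ Si, dm ℂ P.asIdeal = e)
    (h0 : ∀ 𝒪 : ValuationSubring Ω, (∀ r, Θ r ∈ 𝒪) → 𝒪.valuation f < 1 →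
      ∃ P ∈ S0, ∀ r ∈ P.asIdeal, 𝒪.valuation (Θ r) < 1)
    (hi : ∀ 𝒪 : ValuationSubring Ω, (∀ r, Θ r ∈ 𝒪) → 𝒪.valuation f⁻¹ < 1 →
      ∃ P ∈ Si, ∀ r ∈ P.asIdeal, 𝒪.valuation (Θ r) < 1)
    (hn : ∃ P ∈ S0, ∃ 𝒪 : ValuationSubring Ω, (∀ r, Θ r ∈ 𝒪) ∧ 𝒪.valuation f < 1 ∧
      ∀ r, 𝒪.valuation (Θ r) < 1 → r ∈ P.asIdeal) :
    ∃ b0 bi : PrimeSpectrum R →₀ ℤ, (∀ P, 0 ≤ b0 P) ∧ (∀ P, 0 ≤ bi P) ∧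
      (∀ P, b0 P ≠ 0 → P ∈ S0) ∧ (∀ P, bi P ≠ 0 → P ∈ Si) ∧ b0 ≠ 0 ∧
      b0 - bi ∈ Rt ℂ (⊥ : Ideal R) e := by
  have hk' : dm ℂ (RingHom.ker (Θ : R →+* Ω)) ≤ e + 1 := by
    have h1 : Algebra.trdeg ℂ (R ⧸ RingHom.ker (Θ : R →+* Ω)) ≤ Algebra.trdeg ℂ Ω :=
      trdeg_le_of_injective (Ideal.kerLiftAlg Θ) (Ideal.kerLiftAlg_injective Θ)
    rw [hk] at h1
    have h2 := Cardinal.toNat_le_toNat h1 (Cardinal.natCast_lt_aleph0)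
    rw [Cardinal.toNat_natCast] at h2
    exact h2
  refine fam_sets Θ f hf e hk' S0 Si hS0 hSi ?_ ?_ ?_
  · intro q hq
    obtain ⟨𝒪, hΘ, hf1, hiff⟩ := exists_val Θ f q hq
    obtain ⟨P, hP, hP1⟩ := h0 𝒪 hΘ hf1
    exact ⟨P, hP, fun r hr => (hiff r).2 (hP1 r hr)⟩
  · intro q hq
    obtain ⟨𝒪, hΘ, hf1, hiff⟩ := exists_val Θ f⁻¹ q hq
    obtain ⟨P, hP, hP1⟩ := hi 𝒪 hΘ hf1
    exact ⟨P, hP, fun r hr => (hiff r).2 (hP1 r hr)⟩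
  · obtain ⟨P, hP, 𝒪, hΘ, hf1, hr⟩ := hn
    exact ⟨P, hP, fun r hr1 => hr r (val_J0 Θ f 𝒪 hΘ hf1 r hr1)⟩

end Pool.Agent.HUR
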