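import Pool.Agent.HUR.Defs2

/-!
The finitely generated modules of a family: the span of `1, f, ..., f ^ (n - 1)`.
-/

namespace Pool.Agent.HUR

open Pool.Agent.HCH Pool.Agent.HCF

variable {R Ω : Type} [CommRing R] [Field Ω] [Algebra ℂ R] [Algebra ℂ Ω]

/-- The relations between `1, f, ..., f ^ (n - 1)` over `R`. -/
noncomputable def Kn (Θ : R →ₐ[ℂ] Ω) (f : Ω) (n : ℕ) : Submodule R (Fin n → R) where
  carrier := {v | ∑ i, Θ (v i) * f ^ (i : ℕ) = 0}
  add_mem' := by
    intro u v hu hv
    simp only [Set.mem_setOf_eq, Pi.add_apply, map_add, add_mul, Finset.sum_add_distrib] at *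
    rw [hu, hv, add_zero]
  zero_mem' := by simp
  smul_mem' := by
    intro r v hv
    simp only [Set.mem_setOf_eq, Pi.smul_apply, smul_eq_mul, map_mul, mul_assoc] at *
    rw [← Finset.mul_sum, hv, mul_zero]

/-- The ideal of the coefficients with index `i` of the relations. -/
noncomputable def Ki (Θ : R →ₐ[ℂ] Ω) (f : Ω) (n : ℕ) (i : Fin n) : Ideal R :=
  (Kn Θ f n).map (LinearMap.proj i : (Fin n → R) →ₗ[R] R)

end Pool.Agent.HUR
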