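import Pool.Agent.HUR.Defs2

namespace Pool.Agent.HUR

open Pool.Agent.HCH Pool.Agent.HCF

variable {P : Type} [Fintype P]

omit [Fintype P] in
private theorem c1_prod {Ω : Type} [Field Ω] (𝒪 : ValuationSubring Ω) (U : Finset P) (b : P → Ω)
    (hb : ∀ m ∈ U, b m ∈ 𝒪) (i : ℕ) : 𝒪.valuation ((pol U b).coeff i) ≤ 1 := by
  classical
  unfold pol
  induction U using Finset.induction_on generalizing i with
  | empty =>
    rw [Finset.prod_empty, Polynomial.coeff_one]
    split_ifs
    · simp
    · simp
  | insert m U hm ih =>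
    rw [Finset.prod_insert hm, sub_mul, Polynomial.coeff_sub, Polynomial.coeff_C_mul]
    have ih' := ih (fun l hl => hb l (Finset.mem_insert_of_mem hl))
    have h1 : 𝒪.valuation ((Polynomial.X * ∏ m ∈ U, (Polynomial.X - Polynomial.C (b m))).coeff i)
        ≤ 1 := by
      cases i with
      | zero => rw [Polynomial.mul_coeff_zero, Polynomial.coeff_X_zero, zero_mul, map_zero]
                exact zero_le_one
      | succ i => rw [Polynomial.coeff_X_mul]; exact ih' i
    have h2 : 𝒪.valuation (b m * (∏ m ∈ U, (Polynomial.X - Polynomial.C (b m))).coeff i) ≤ 1 := by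
      rw [map_mul]
      exact mul_le_one' ((𝒪.valuation_le_one_iff _).2 (hb m (Finset.mem_insert_self m U))) (ih' i)
    exact 𝒪.valuation.map_sub_le h1 h2

/-
PROOF. pol U b is monic with coefficients in 𝒪 (product of the X - C (b m), b m ∈ 𝒪), the
coefficients of pol U b - pol U a are in 𝒪 (valuation < 1 implies membership), so pol U a is monic
with coefficients in 𝒪. For m ∈ U the element a m is a root of it, hence integral over 𝒪, and 𝒪
is integrally closed in Ω: a m ∈ 𝒪. (Or directly: if v (a m) > 1, then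
a m ^ d = - ∑ i < d, coeff i * a m ^ i has valuation at most v (a m) ^ (d - 1), contradiction.)
For m ∈ U: ∏ l ∈ U, (b m - a l) = (pol U a).eval (b m) = - (pol U b - pol U a).eval (b m), and this
has valuation < 1 (eval_eq_sum, all terms have valuation < 1, b m ∈ 𝒪; map_sum_lt). So there is
l ∈ U with v (b m - a l) < 1 (otherwise all factors have valuation ≥ 1, and so the product);
choose τ m := l. τ is injective on U: if τ m = τ m' then v (b m - b m') < 1, so m = m' by hd.
So τ is a permutation of U, extend it by the identity to σ (e.g. σ = Equiv.Perm.ofSubtype of the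
permutation of {m // m ∈ U}, or Equiv.ofBijective of fun m => if m ∈ U then τ m else m, a function
P → P which is injective; Finite.injective_iff_bijective).
-/
theorem roots_match {Ω : Type} [Field Ω] (𝒪 : ValuationSubring Ω) (U : Finset P) (a b : P → Ω)
    (hb : ∀ m ∈ U, b m ∈ 𝒪) (hd : ∀ m ∈ U, ∀ l ∈ U, m ≠ l → 𝒪.valuation (b m - b l) = 1)
    (hc : ∀ i, 𝒪.valuation ((pol U b - pol U a).coeff i) < 1) :
    (∀ m ∈ U, a m ∈ 𝒪) ∧ ∃ σ : Equiv.Perm P, (∀ m, m ∉ U → σ m = m) ∧
      ∀ m ∈ U, 𝒪.valuation (b m - a (σ m)) < 1 := by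
  classical
  have hca : ∀ i, 𝒪.valuation ((pol U a).coeff i) ≤ 1 := by
    intro i
    have e : (pol U a).coeff i = (pol U b).coeff i - (pol U b - pol U a).coeff i := by
      rw [Polynomial.coeff_sub]; ring
    rw [e]
    exact 𝒪.valuation.map_sub_le (c1_prod 𝒪 U b hb i) (hc i).le
  have hev : ∀ (c : P → Ω) (x : Ω), (pol U c).eval x = ∏ m ∈ U, (x - c m) := by
    intro c x
    unfold pol
    rw [Polynomial.eval_prod]
    simp only [Polynomial.eval_sub, Polynomial.eval_X, Polynomial.eval_C]
  have hmon : (pol U a).Monic := Polynomial.monic_prod_of_monic _ _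
    (fun m _ => Polynomial.monic_X_sub_C _)
  have hA : ∀ m ∈ U, a m ∈ 𝒪 := by
    intro m hm
    rw [← 𝒪.valuation_le_one_iff]
    by_contra hgt
    rw [not_le] at hgt
    have h0 : (pol U a).eval (a m) = 0 := by
      rw [hev]
      exact Finset.prod_eq_zero hm (sub_self _)
    rw [hmon.as_sum] at h0
    simp only [Polynomial.eval_add, Polynomial.eval_pow, Polynomial.eval_X,
      Polynomial.eval_finsetSum, Polynomial.eval_mul, Polynomial.eval_C] at h0
    have hne : (𝒪.valuation (a m)) ^ (pol U a).natDegree ≠ 0 :=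
      pow_ne_zero _ (lt_trans zero_lt_one hgt).ne'
    have h1 : 𝒪.valuation (∑ i ∈ Finset.range (pol U a).natDegree, (pol U a).coeff i * a m ^ i) <
        (𝒪.valuation (a m)) ^ (pol U a).natDegree := by
      refine Valuation.map_sum_lt _ hne ?_
      intro i hi
      rw [map_mul, map_pow]
      calc 𝒪.valuation ((pol U a).coeff i) * 𝒪.valuation (a m) ^ i
          ≤ 1 * 𝒪.valuation (a m) ^ i := mul_le_mul_left (hca i) _
        _ = 𝒪.valuation (a m) ^ i := one_mul _
        _ < _ := pow_lt_pow_right₀ hgt (Finset.mem_range.1 hi)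
    have h2 : a m ^ (pol U a).natDegree =
        - ∑ i ∈ Finset.range (pol U a).natDegree, (pol U a).coeff i * a m ^ i :=
      eq_neg_of_add_eq_zero_left h0
    have h3 : 𝒪.valuation (a m ^ (pol U a).natDegree) < 𝒪.valuation (a m) ^ (pol U a).natDegree := by
      rw [h2, Valuation.map_neg]
      exact h1
    rw [map_pow] at h3
    exact lt_irrefl _ h3
  refine ⟨hA, ?_⟩
  have hex : ∀ m ∈ U, ∃ l ∈ U, 𝒪.valuation (b m - a l) < 1 := by
    intro m hm
    by_contra hno
    push Not at hno
    have h1 : 1 ≤ 𝒪.valuation (∏ l ∈ U, (b m - a l)) := by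
      rw [map_prod]
      exact Finset.one_le_prod' hno
    have h2 : ∏ l ∈ U, (b m - a l) = - (pol U b - pol U a).eval (b m) := by
      have hz : ∏ l ∈ U, (b m - b l) = 0 := Finset.prod_eq_zero hm (sub_self _)
      rw [Polynomial.eval_sub, hev b, hz, hev a]
      ring
    have h3 : 𝒪.valuation ((pol U b - pol U a).eval (b m)) < 1 := by
      rw [Polynomial.eval_eq_sum_range]
      refine Valuation.map_sum_lt _ one_ne_zero ?_
      intro i _
      rw [map_mul, map_pow]
      have hb1 : 𝒪.valuation (b m) ^ i ≤ 1 := pow_le_one' ((𝒪.valuation_le_one_iff _).2 (hb m hm)) i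
      calc 𝒪.valuation ((pol U b - pol U a).coeff i) * 𝒪.valuation (b m) ^ i
          ≤ 𝒪.valuation ((pol U b - pol U a).coeff i) * 1 := mul_le_mul_right hb1 _
        _ < 1 := by rw [mul_one]; exact hc i
    rw [h2, Valuation.map_neg] at h1
    exact absurd h3 (not_lt.2 h1)
  choose! τ hτU hτ using hex
  have hinj : ∀ m ∈ U, ∀ l ∈ U, τ m = τ l → m = l := by
    intro m hm l hl e
    by_contra hne
    have h1 := hd m hm l hl hne
    have h2 : b m - b l = (b m - a (τ m)) - (b l - a (τ l)) := by rw [e]; ring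
    rw [h2] at h1
    have h3 : 𝒪.valuation ((b m - a (τ m)) - (b l - a (τ l))) < 1 :=
      lt_of_le_of_lt (Valuation.map_sub _ _ _) (max_lt (hτ m hm) (hτ l hl))
    rw [h1] at h3
    exact lt_irrefl _ h3
  have hbij : Function.Bijective (fun m => if m ∈ U then τ m else m) := by
    rw [← Finite.injective_iff_bijective]
    intro m l e
    simp only at e
    split_ifs at e with h1 h2 h2
    · exact hinj m h1 l h2 e
    · exact absurd (e ▸ hτU m h1) h2
    · exact absurd (e ▸ hτU l h2) h1
    · exact e
  refine ⟨Equiv.ofBijective _ hbij, ?_, ?_⟩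
  · intro m hm
    simp only [Equiv.ofBijective_apply, if_neg hm]
  · intro m hm
    simp only [Equiv.ofBijective_apply, if_pos hm]
    exact hτ m hm

end Pool.Agent.HUR
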