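import Pool.Agent.HUR.Defs2

namespace Pool.Agent.HUR

variable {ι P : Type} [Fintype P] {Γ : ι → ι → Prop} {N : ι → Prop} {c : P → ι}

private theorem C10_prod_congr {Ω : Type} [Field Ω] (𝒪 : ValuationSubring Ω) {s : Type}
    (t : Finset s) (f g : s → Ω) (hf : ∀ i, f i ∈ 𝒪) (hg : ∀ i, g i ∈ 𝒪)
    (h : ∀ i, 𝒪.valuation (f i - g i) < 1) :
    (∏ i ∈ t, f i) ∈ 𝒪 ∧ (∏ i ∈ t, g i) ∈ 𝒪 ∧
      𝒪.valuation (∏ i ∈ t, f i - ∏ i ∈ t, g i) < 1 := by
  classical
  induction t using Finset.induction_on with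
  | empty =>
    simp only [Finset.prod_empty, sub_self, map_zero]
    exact ⟨one_mem _, one_mem _, zero_lt_one⟩
  | insert i t hi ih =>
    obtain ⟨h1, h2, h3⟩ := ih
    rw [Finset.prod_insert hi, Finset.prod_insert hi]
    refine ⟨mul_mem (hf i) h1, mul_mem (hg i) h2, ?_⟩
    have e : f i * ∏ x ∈ t, f x - g i * ∏ x ∈ t, g x =
        f i * (∏ x ∈ t, f x - ∏ x ∈ t, g x) + (f i - g i) * ∏ x ∈ t, g x := by ring
    rw [e]
    refine Valuation.map_add_lt _ ?_ ?_
    · rw [map_mul]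
      exact (mul_le_of_le_one_left' ((𝒪.valuation_le_one_iff _).2 (hf i))).trans_lt h3
    · rw [map_mul]
      exact (mul_le_of_le_one_right' ((𝒪.valuation_le_one_iff _).2 h2)).trans_lt (h i)

/-
PROOF. Write v for 𝒪.valuation. v 2 = 1. v (b m - b l) = 1 for m ≠ l (b m - b l differs from
a m - a l by an element of valuation < 1), so b is injective. If ¬ N (c m) put w m := 1 (y m = 1).
If N (c m): choose t with t ^ 2 = nb Γ c b m (IsAlgClosed). nb Γ c b m - nb Γ c a m has
valuation < 1 (products with congruent factors in 𝒪), and nb Γ c a m = y m ^ 2, so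
v ((t - y m) * (t + y m)) < 1 and one of the factors has valuation < 1: w m := t or - t.
-/
theorem sign_lift {Ω : Type} [Field Ω] [Algebra ℂ Ω] [IsAlgClosed Ω] {a y : P → Ω}
    (pa : Pnt Γ N c a y) (𝒪 : ValuationSubring Ω) (ha : ∀ m, a m ∈ 𝒪) (hy : ∀ m, y m ∈ 𝒪)
    (hd : ∀ m l, m ≠ l → 𝒪.valuation (a m - a l) = 1) (b : P → Ω)
    (hb : ∀ m, 𝒪.valuation (b m - a m) < 1) :
    ∃ w : P → Ω, Pnt Γ N c b w ∧ ∀ m, 𝒪.valuation (w m - y m) < 1 := by
  classical
  have hbO : ∀ m, b m ∈ 𝒪 := by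
    intro m
    have h1 : b m - a m ∈ 𝒪 := (𝒪.valuation_le_one_iff _).1 (hb m).le
    have h2 := add_mem h1 (ha m)
    rwa [sub_add_cancel] at h2
  have hdiff : ∀ m l, 𝒪.valuation ((b m - b l) - (a m - a l)) < 1 := by
    intro m l
    have e : (b m - b l) - (a m - a l) = (b m - a m) - (b l - a l) := by ring
    rw [e]
    exact (Valuation.map_sub _ _ _).trans_lt (max_lt (hb m) (hb l))
  have hinj : Function.Injective b := by
    intro m l hml
    by_contra hne
    have h1 := hdiff m l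
    rw [hml, sub_self, zero_sub, Valuation.map_neg, hd m l hne] at h1
    exact lt_irrefl _ h1
  have hnb : ∀ m, 𝒪.valuation (nb Γ c b m - nb Γ c a m) < 1 := by
    intro m
    unfold nb
    exact (C10_prod_congr 𝒪 _ (fun l => b m - b l) (fun l => a m - a l)
      (fun l => sub_mem (hbO m) (hbO l)) (fun l => sub_mem (ha m) (ha l))
      (fun l => hdiff m l)).2.2
  have hw : ∀ m, ∃ w : Ω, (N (c m) → w ^ 2 = nb Γ c b m) ∧ (¬ N (c m) → w = 1) ∧
      𝒪.valuation (w - y m) < 1 := by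
    intro m
    by_cases hm : N (c m)
    · obtain ⟨t, ht⟩ := IsAlgClosed.exists_pow_nat_eq (nb Γ c b m) (n := 2) (by norm_num)
      have h1 : 𝒪.valuation ((t - y m) * (t + y m)) < 1 := by
        have e : (t - y m) * (t + y m) = nb Γ c b m - nb Γ c a m := by
          rw [← ht, ← pa.sq m hm]; ring
        rw [e]
        exact hnb m
      rcases lt_or_ge (𝒪.valuation (t - y m)) 1 with h2 | h2
      · exact ⟨t, fun _ => ht, fun h => absurd hm h, h2⟩
      · rcases lt_or_ge (𝒪.valuation (t + y m)) 1 with h3 | h3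
        · refine ⟨-t, fun _ => by rw [neg_sq, ht], fun h => absurd hm h, ?_⟩
          rw [show -t - y m = -(t + y m) by ring, Valuation.map_neg]
          exact h3
        · exfalso
          rw [map_mul] at h1
          exact absurd (one_le_mul h2 h3) (not_le.2 h1)
    · refine ⟨1, fun h => absurd h hm, fun _ => rfl, ?_⟩
      rw [pa.one m hm, sub_self, map_zero]
      exact zero_lt_one
  choose w hw1 hw2 hw3 using hw
  exact ⟨w, ⟨hinj, fun m hm => hw1 m hm, fun m hm => hw2 m hm⟩, hw3⟩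

end Pool.Agent.HUR
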