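import Pool.Agent.HUR.Defs2

namespace Pool.Agent.HUR

variable {ι P : Type} [Fintype P] {Γ : ι → ι → Prop} {c : P → ι}

omit [Fintype P] in
private theorem C4_eval {k : Type} [Field k] (U : Finset P) (a : P → k) (t : k) :
    (pol U a).eval t = ∏ m ∈ U, (t - a m) := by
  unfold pol
  rw [Polynomial.eval_prod]
  simp only [Polynomial.eval_sub, Polynomial.eval_X, Polynomial.eval_C]

omit [Fintype P] in
private theorem C4_eval' {k : Type} [Field k] (U : Finset P) (a : P → k) (t : k) :
    ∏ m ∈ U, (a m - t) = (-1) ^ U.card * (pol U a).eval t := by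
  rw [C4_eval, ← Finset.prod_const, ← Finset.prod_mul_distrib]
  refine Finset.prod_congr rfl (fun m _ => ?_)
  ring

open Classical in
private theorem C4_out {k : Type} [Field k] (hs : ∀ i j, Γ i j → Γ j i)
    (U : Finset P) (j : ι) (hU : ∀ m ∈ U, c m = j) (a : P → k) (m : P) :
    nb Γ c a m = (∏ l ∈ Finset.univ.filter (fun l => Γ (c m) (c l) ∧ l ∉ U), (a m - a l)) *
      (if Γ j (c m) then (pol U a).eval (a m) else 1) := by
  unfold nb
  have h1 := Finset.prod_filter_mul_prod_filter_not
    (Finset.univ.filter (fun l => Γ (c m) (c l))) (fun l => l ∉ U) (fun l => a m - a l)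
  rw [Finset.filter_filter, Finset.filter_filter] at h1
  rw [← h1]
  congr 1
  split_ifs with h
  · rw [C4_eval]
    refine Finset.prod_congr ?_ (fun _ _ => rfl)
    ext l
    simp only [Finset.mem_filter, Finset.mem_univ, true_and, not_not]
    constructor
    · exact fun h => h.2
    · intro hl
      exact ⟨by rw [hU l hl]; exact hs _ _ h, hl⟩
  · rw [Finset.filter_eq_empty_iff.2, Finset.prod_empty]
    intro l _ hl
    rw [not_not] at hl
    exact h (by rw [← hU l hl.2]; exact hs _ _ hl.1)

open Classical in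
private theorem C4_mid {k : Type} [Field k] (hs : ∀ i j, Γ i j → Γ j i) (hi : ∀ j, ¬ Γ j j)
    (I U : Finset P) (j : ι) (hU : ∀ m ∈ U, c m = j) (a : P → k) :
    ∏ m ∈ I.filter (fun m => m ∉ U), nb Γ c a m =
      (∏ m ∈ I.filter (fun m => m ∉ U),
        ∏ l ∈ Finset.univ.filter (fun l => Γ (c m) (c l) ∧ l ∉ U), (a m - a l)) *
      ∏ m ∈ I.filter (fun m => Γ j (c m)), (pol U a).eval (a m) := by
  have h1 : ∏ m ∈ I.filter (fun m => m ∉ U), nb Γ c a m =
      ∏ m ∈ I.filter (fun m => m ∉ U),
        ((∏ l ∈ Finset.univ.filter (fun l => Γ (c m) (c l) ∧ l ∉ U), (a m - a l)) *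
      (if Γ j (c m) then (pol U a).eval (a m) else 1)) :=
    Finset.prod_congr rfl (fun m _ => C4_out hs U j hU a m)
  rw [h1, Finset.prod_mul_distrib, ← Finset.prod_filter, Finset.filter_filter]
  congr 1
  refine Finset.prod_congr ?_ (fun _ _ => rfl)
  ext m
  simp only [Finset.mem_filter]
  constructor
  · exact fun h => ⟨h.1, h.2.2⟩
  · intro h
    refine ⟨h.1, fun hm => ?_, h.2⟩
    have := h.2
    rw [hU m hm] at this
    exact hi j this

/-
PROOF. For a : P → k let S be the finset of the pairs (m, l) with m ∈ I and Γ (c m) (c l), so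
∏ m ∈ I, nb Γ c a m = ∏ p ∈ S, (a p.1 - a p.2) (Finset.prod_sigma' / prod_product' with filter).
Split S in three parts: S0 (m ∉ U and l ∉ U), S1 (m ∈ U), S2 (l ∈ U). m ∈ U and l ∈ U is
impossible (c m = c l = j, hi). The product over S0 is the same for a and b (hab).
S2: m ∈ I, Γ (c m) j, i.e. Γ j (c m) (hs): if s holds these are the m ∈ co, otherwise the
m ∈ cr (look at the definitions), and l ∈ U is arbitrary; the product over S2 is
∏ m, ∏ l ∈ U, (a m - a l) = ∏ m, (pol U a).eval (a m) (Polynomial.eval_prod).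
S1: empty if s does not hold (m ∈ U implies m ∉ I). If s holds, all m ∈ U are in I and l runs
through all points with Γ j (c l), the disjoint union of cr and co; the product is
∏ l, ∏ m ∈ U, (a m - a l) = ∏ l, (- 1) ^ U.card * (pol U a).eval (a l).
Points l ∈ cr or co are not in U (hi), so b l = a l for them.
So if s holds: ∏ m ∈ I, nb Γ c a m = Z * ∏ l ∈ cr, (- 1) ^ d * (pol U a).eval (a l) *
∏ l ∈ co, (- 1) ^ d * (pol U a).eval (a l) ^ 2 with the same Z for a and b; if s does not hold:
co is empty and ∏ m ∈ I, nb Γ c a m = Z * ∏ l ∈ cr, (pol U a).eval (a l). In both cases the claim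
follows by ring.
-/
theorem nb_ratio {k : Type} [Field k] (hs : ∀ i j, Γ i j → Γ j i) (hi : ∀ j, ¬ Γ j j)
    (I U : Finset P) (j : ι) (s : Prop) (hU : ∀ m ∈ U, c m = j ∧ (m ∈ I ↔ s)) (a b : P → k)
    (hab : ∀ m, m ∉ U → b m = a m) :
    (∏ m ∈ I, nb Γ c b m) * (∏ l ∈ cr Γ c I j s, (pol U a).eval (a l)) *
        (∏ l ∈ co Γ c I j s, (pol U a).eval (a l)) ^ 2 =
      (∏ m ∈ I, nb Γ c a m) * (∏ l ∈ cr Γ c I j s, (pol U b).eval (a l)) *
        (∏ l ∈ co Γ c I j s, (pol U b).eval (a l)) ^ 2 := by
  classical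
  have hU1 : ∀ m ∈ U, c m = j := fun m hm => (hU m hm).1
  -- points outside
  have hout : ∀ l, Γ j (c l) → b l = a l := fun l hl => hab l (fun hm => by
    rw [hU1 l hm] at hl; exact hi j hl)
  have hZ : (∏ m ∈ I.filter (fun m => m ∉ U),
        ∏ l ∈ Finset.univ.filter (fun l => Γ (c m) (c l) ∧ l ∉ U), (b m - b l)) =
      (∏ m ∈ I.filter (fun m => m ∉ U),
        ∏ l ∈ Finset.univ.filter (fun l => Γ (c m) (c l) ∧ l ∉ U), (a m - a l)) := by
    refine Finset.prod_congr rfl (fun m hm => Finset.prod_congr rfl (fun l hl => ?_))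
    rw [Finset.mem_filter] at hm hl
    rw [hab m hm.2, hab l hl.2.2]
  have hA := C4_mid (c := c) hs hi I U j hU1 a
  have hB := C4_mid (c := c) hs hi I U j hU1 b
  rw [hZ] at hB
  have hbI : ∏ m ∈ I.filter (fun m => Γ j (c m)), (pol U b).eval (b m) =
      ∏ m ∈ I.filter (fun m => Γ j (c m)), (pol U b).eval (a m) := by
    refine Finset.prod_congr rfl (fun m hm => ?_)
    rw [Finset.mem_filter] at hm
    rw [hout m hm.2]
  rw [hbI] at hB
  have sA := Finset.prod_filter_mul_prod_filter_not I (fun m => m ∉ U) (fun m => nb Γ c a m)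
  have sB := Finset.prod_filter_mul_prod_filter_not I (fun m => m ∉ U) (fun m => nb Γ c b m)
  rw [hA] at sA
  rw [hB] at sB
  by_cases h : s
  · -- all points of `U` are in `I`
    have hIU : I.filter (fun m => ¬ (m ∉ U)) = U := by
      ext m
      simp only [Finset.mem_filter, not_not]
      exact ⟨fun h => h.2, fun hm => ⟨(hU m hm).2.2 h, hm⟩⟩
    have hcr : cr Γ c I j s = (Finset.univ.filter (fun l => Γ j (c l))).filter (fun l => l ∉ I) := by
      unfold cr
      rw [Finset.filter_filter]
      refine Finset.filter_congr (fun l _ => ?_)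
      simp only [h, not_true, iff_false]
    have hco : co Γ c I j s = (Finset.univ.filter (fun l => Γ j (c l))).filter
        (fun l => ¬ (l ∉ I)) := by
      unfold co
      rw [Finset.filter_filter]
      refine Finset.filter_congr (fun l _ => ?_)
      simp only [h, and_true, not_not]
    have hco' : co Γ c I j s = I.filter (fun m => Γ j (c m)) := by
      rw [hco, Finset.filter_filter]
      ext m
      simp only [Finset.mem_filter, Finset.mem_univ, true_and, not_not]
      exact And.comm
    have key : ∀ x : P → k, (∀ l, Γ j (c l) → x l = a l) → ∏ m ∈ U, nb Γ c x m =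
        (∏ l ∈ cr Γ c I j s, ((-1) ^ U.card * (pol U x).eval (a l))) *
        (∏ l ∈ co Γ c I j s, ((-1) ^ U.card * (pol U x).eval (a l))) := by
      intro x hx
      rw [hcr, hco, Finset.prod_filter_mul_prod_filter_not]
      have e1 : ∏ m ∈ U, nb Γ c x m =
          ∏ m ∈ U, ∏ l ∈ Finset.univ.filter (fun l => Γ j (c l)), (x m - x l) := by
        refine Finset.prod_congr rfl (fun m hm => ?_)
        unfold nb
        rw [hU1 m hm]
      rw [e1, Finset.prod_comm]
      refine Finset.prod_congr rfl (fun l hl => ?_)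
      rw [Finset.mem_filter] at hl
      rw [C4_eval', hx l hl.2]
    rw [hIU] at sA sB
    rw [key a (fun _ _ => rfl), ← hco'] at sA
    rw [key b hout, ← hco'] at sB
    simp only [Finset.prod_mul_distrib] at sA sB
    rw [← sA, ← sB]
    ring
  · have hIU : I.filter (fun m => ¬ (m ∉ U)) = ∅ := by
      rw [Finset.filter_eq_empty_iff]
      intro m hm hm'
      rw [not_not] at hm'
      exact h ((hU m hm').2.1 hm)
    have hcr : cr Γ c I j s = I.filter (fun m => Γ j (c m)) := by
      unfold cr
      ext m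
      simp only [Finset.mem_filter, Finset.mem_univ, true_and, h, not_false_iff, iff_true]
      exact And.comm
    have hco : co Γ c I j s = ∅ := by
      unfold co
      rw [Finset.filter_eq_empty_iff]
      intro m _ hm
      exact h hm.2.2
    rw [hIU, Finset.prod_empty, mul_one, ← hcr] at sA sB
    rw [hco, Finset.prod_empty, Finset.prod_empty, ← sA, ← sB]
    ring

end Pool.Agent.HUR
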