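import Pool.Agent.HUR.B6
import Pool.Agent.HCH.B3

namespace Pool.Agent.HUR

open Pool.Agent.HCH Pool.Agent.HCF

theorem fld_exists (L : Type) [Field L] [Algebra ℂ L] (n : ℕ)
    (hn : Algebra.trdeg ℂ L = (n : Cardinal)) :
    ∃ (Ω : Type) (_ : Field Ω) (_ : Algebra ℂ Ω) (_ : IsAlgClosed Ω) (φ : L →ₐ[ℂ] Ω) (f : Ω)
      (𝒪 : ValuationSubring Ω), Algebra.trdeg ℂ Ω = ((n + 1 : ℕ) : Cardinal) ∧ f ≠ 0 ∧
        𝒪.valuation f < 1 ∧ ∀ x, φ x ∈ 𝒪 := by
  let A := Polynomial L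
  let F := FractionRing A
  let Ω := AlgebraicClosure F
  let φ₀ : L →ₐ[ℂ] A := IsScalarTower.toAlgHom ℂ L A
  let φ₁ : A →ₐ[ℂ] F := IsScalarTower.toAlgHom ℂ A F
  let φ₂ : F →ₐ[ℂ] Ω := IsScalarTower.toAlgHom ℂ F Ω
  have h1 : Function.Injective φ₁ := IsFractionRing.injective A F
  have h2 : Function.Injective φ₂ := φ₂.toRingHom.injective
  let ψ : A →ₐ[ℂ] Ω := φ₂.comp φ₁
  have hψ : Function.Injective ψ := h2.comp h1
  let φ : L →ₐ[ℂ] Ω := ψ.comp φ₀
  let f : Ω := ψ Polynomial.X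
  have h3 : Algebra.trdeg ℂ A = Algebra.trdeg ℂ Ω := by
    refine trdeg_alg_top ℂ A Ω ψ hψ ?_
    intro b
    have h4 : IsAlgebraic F b := Algebra.IsAlgebraic.isAlgebraic b
    have h5 : IsAlgebraic A b := (IsFractionRing.isAlgebraic_iff A F Ω).2 h4
    obtain ⟨q, hq0, hq⟩ := h5
    refine ⟨q, hq0, ?_⟩
    rw [Polynomial.aeval_def] at hq
    exact hq
  have h4 : Algebra.trdeg ℂ A = ((n + 1 : ℕ) : Cardinal) := by
    have e1 : Algebra.trdeg L (Polynomial L) = 1 := Polynomial.trdeg_of_isDomain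
    have : FaithfulSMul ℂ L := (faithfulSMul_iff_algebraMap_injective _ _).mpr (algebraMap ℂ L).injective
    have e2 := trdeg_add_eq ℂ L (A := Polynomial L)
    rw [e1, hn] at e2
    change Algebra.trdeg ℂ (Polynomial L) = _
    rw [← e2]
    push_cast
    rfl
  have hcomp : ∀ p : Polynomial L, Polynomial.eval₂ (φ : L →+* Ω) f p = ψ p := by
    intro p
    induction p using Polynomial.induction_on' with
    | add p q hp hq => rw [Polynomial.eval₂_add, hp, hq, map_add]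
    | monomial k a =>
      rw [Polynomial.eval₂_monomial, ← Polynomial.C_mul_X_pow_eq_monomial, map_mul, map_pow]
      rfl
  have hJ : J0 φ f ≤ (⊥ : Ideal L) := by
    have e1 : RingHom.ker (Polynomial.eval₂RingHom (φ : L →+* Ω) f) = ⊥ := by
      rw [eq_bot_iff]
      intro p hp
      have e2 : Polynomial.eval₂ (φ : L →+* Ω) f p = 0 := hp
      rw [hcomp] at e2
      exact (map_eq_zero_iff ψ hψ).1 e2
    unfold J0
    rw [e1, Ideal.map_bot]
  obtain ⟨𝒪, h5, h6, -⟩ := exists_val φ f ⟨(⊥ : Ideal L), Ideal.isPrime_bot⟩ hJ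
  refine ⟨Ω, inferInstance, inferInstance, inferInstance, φ, f, 𝒪, h3 ▸ h4, ?_, h6, h5⟩
  intro h0
  exact Polynomial.X_ne_zero ((map_eq_zero_iff ψ hψ).1 h0)

end Pool.Agent.HUR
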