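import Pool.Agent.HUR.C5

namespace Pool.Agent.HUR

variable {P : Type} [Fintype P]

/-
PROOF. R := rp S ρ a. Choose for m ∈ U an element t m with t m ^ 2 = R.eval (a m)
(IsAlgClosed.exists_pow_nat_eq or exists_eq_mul_self) and V := Lagrange.interpolate U a t:
degree V < U.card (Lagrange.degree_interpolate_lt), V.eval (a m) = t m
(Lagrange.eval_interpolate_at_node); U is not empty (1 ≤ S.card ≤ 2 * U.card as ρ ∈ S), so
natDegree V < U.card. V ^ 2 - R vanishes at the a m, m ∈ U, so it is divisible by pol U a =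
∏ (X - C (a m)) (Finset.prod_dvd_of_coprime with pairwise_coprime_X_sub_C, dvd_iff_isRoot): this is
W. Degrees: natDegree (V ^ 2 - R) ≤ 2 * U.card - 1 (natDegree V ^ 2 ≤ 2 (U.card - 1),
natDegree R ≤ S.card - 1 ≤ 2 U.card - 1), and if W ≠ 0 then natDegree (pol U a * W) = U.card +
natDegree W (pol_monic), so natDegree W < U.card.
-/
theorem poly_exists {L : Type} [Field L] [IsAlgClosed L] (S U : Finset P) (ρ : P) (a : P → L)
    (ha : Function.Injective a) (hρ : ρ ∈ S) (hcard : S.card ≤ 2 * U.card) :
    ∃ V W : Polynomial L, V.natDegree < U.card ∧ W.natDegree < U.card ∧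
      pol U a * W = V ^ 2 - rp S ρ a := by
  classical
  have hinj : Set.InjOn a U := fun m _ l _ e => ha e
  have hex : ∀ m : P, ∃ t : L, t ^ 2 = (rp S ρ a).eval (a m) := fun m =>
    IsAlgClosed.exists_pow_nat_eq _ two_pos
  choose t ht using hex
  have hSpos : 0 < S.card := Finset.card_pos.2 ⟨ρ, hρ⟩
  have hUpos : 0 < U.card := by omega
  let V : Polynomial L := Lagrange.interpolate U a t
  have hVd : V.degree < U.card := Lagrange.degree_interpolate_lt t hinj
  have hVn : V.natDegree < U.card := by
    by_cases h0 : V = 0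
    · rw [h0, Polynomial.natDegree_zero]; exact hUpos
    · exact (Polynomial.natDegree_lt_iff_degree_lt h0).2 hVd
  have hVe : ∀ m ∈ U, V.eval (a m) = t m := fun m hm =>
    Lagrange.eval_interpolate_at_node t hinj hm
  have hdvd : pol U a ∣ V ^ 2 - rp S ρ a := by
    unfold pol
    refine Finset.prod_dvd_of_coprime ?_ ?_
    · exact (Polynomial.pairwise_coprime_X_sub_C ha).set_pairwise _
    · intro m hm
      rw [Polynomial.dvd_iff_isRoot, Polynomial.IsRoot.def, Polynomial.eval_sub,
        Polynomial.eval_pow, hVe m hm, ht m, sub_self]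
  obtain ⟨W, hW⟩ := hdvd
  refine ⟨V, W, hVn, ?_, hW.symm⟩
  by_cases hW0 : W = 0
  · rw [hW0, Polynomial.natDegree_zero]; exact hUpos
  have h1 : (V ^ 2 - rp S ρ a).natDegree = U.card + W.natDegree := by
    rw [hW, (pol_monic U a).1.natDegree_mul' hW0, (pol_monic U a).2]
  have h2 : (V ^ 2 - rp S ρ a).natDegree ≤ 2 * U.card - 1 := by
    refine (Polynomial.natDegree_sub_le _ _).trans (max_le ?_ ?_)
    · refine Polynomial.natDegree_pow_le.trans ?_
      omega
    · unfold rp
      refine (Polynomial.natDegree_C_mul_le _ _).trans ?_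
      rw [(pol_monic (S.erase ρ) a).2, Finset.card_erase_of_mem hρ]
      omega
  omega

/- PROOF. Polynomial.map of products, C and X; map_inv₀, map_prod. -/
theorem pol_map {L Ω : Type} [Field L] [Field Ω] (φ : L →+* Ω) (U : Finset P) (a : P → L) :
    (pol U a).map φ = pol U (fun m => φ (a m)) := by
  unfold pol
  rw [Polynomial.map_prod]
  refine Finset.prod_congr rfl (fun m _ => ?_)
  rw [Polynomial.map_sub, Polynomial.map_X, Polynomial.map_C]

theorem rp_map {L Ω : Type} [Field L] [Field Ω] (φ : L →+* Ω) (S : Finset P) (ρ : P)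
    (a : P → L) : (rp S ρ a).map φ = rp S ρ (fun m => φ (a m)) := by
  classical
  unfold rp
  rw [Polynomial.map_mul, Polynomial.map_C, pol_map, map_inv₀, map_prod]
  simp only [map_sub]

/- PROOF. The constant is the inverse of the value of the product, which is not 0. -/
theorem rp_eval {L : Type} [Field L] (S : Finset P) (ρ : P) (a : P → L)
    (ha : Function.Injective a) : (rp S ρ a).eval (a ρ) = 1 := by
  classical
  unfold rp pol
  rw [Polynomial.eval_mul, Polynomial.eval_C, Polynomial.eval_prod]
  simp only [Polynomial.eval_sub, Polynomial.eval_X, Polynomial.eval_C]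
  refine inv_mul_cancel₀ (Finset.prod_ne_zero_iff.2 (fun l hl => ?_))
  exact sub_ne_zero.2 (fun e => (Finset.mem_erase.1 hl).1 (ha e).symm)

/- PROOF. The factor X - C (a l) vanishes. -/
theorem rp_eval_ne {L : Type} [Field L] (S : Finset P) (ρ l : P) (a : P → L) (hl : l ∈ S)
    (hne : l ≠ ρ) : (rp S ρ a).eval (a l) = 0 := by
  classical
  unfold rp pol
  have h0 : ∏ j ∈ S.erase ρ, Polynomial.eval (a l) (Polynomial.X - Polynomial.C (a j)) = 0 :=
    Finset.prod_eq_zero (Finset.mem_erase.2 ⟨hne, hl⟩) (by simp)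
  rw [Polynomial.eval_mul, Polynomial.eval_prod, h0, mul_zero]

end Pool.Agent.HUR
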