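import Pool.Agent.HUR.C5

namespace Pool.Agent.HUR

variable {P : Type} [Fintype P]

/-
PROOF. Write v for 𝒪.valuation. Q2 splits: Q2 = (Q2.roots.map (fun r => X - C r)).prod
(IsAlgClosed.splits, Q2 monic) and Q2.roots.card = U.card. Q2 has coefficients in 𝒪 (pol_int). For
m ∈ U: Q2.eval (a m) = (Q2 - pol U a).eval (a m) has valuation < 1 (a m ∈ 𝒪, hc), and it is the
product of the a m - r, r ∈ Q2.roots. So some root r has v (a m - r) < 1 (otherwise all factors have
valuation ≥ 1): put b m := r, and b m := a m for m ∉ U. b is injective on U: if b m = b l then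
v (a m - a l) < 1. So the b m, m ∈ U, are U.card different roots: U.val.map b ≤ Q2.roots
(Multiset.le_iff_subset of a nodup multiset) and they have the same cardinality, hence are equal
(Multiset.eq_of_le_of_card_le), and Q2 = ∏ m ∈ U, (X - C (b m)) = pol U b.
-/
theorem roots_lift {Ω : Type} [Field Ω] [IsAlgClosed Ω] (𝒪 : ValuationSubring Ω) (U : Finset P)
    (a : P → Ω) (ha : ∀ m ∈ U, a m ∈ 𝒪)
    (hd : ∀ m ∈ U, ∀ l ∈ U, m ≠ l → 𝒪.valuation (a m - a l) = 1) (Q2 : Polynomial Ω)
    (hm : Q2.Monic) (hdeg : Q2.natDegree = U.card)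
    (hc : ∀ i, 𝒪.valuation ((Q2 - pol U a).coeff i) < 1) :
    ∃ b : P → Ω, (∀ m, m ∉ U → b m = a m) ∧ (∀ m, 𝒪.valuation (b m - a m) < 1) ∧
      pol U b = Q2 := by
  classical
  have hsp : Q2.Splits := IsAlgClosed.splits Q2
  -- small values
  have hval : ∀ m ∈ U, 𝒪.valuation (Q2.eval (a m)) < 1 := by
    intro m hmU
    have h0 : (pol U a).eval (a m) = 0 := by
      unfold pol
      rw [Polynomial.eval_prod]
      apply Finset.prod_eq_zero hmU
      simp
    have h1 : Q2.eval (a m) = (Q2 - pol U a).eval (a m) := by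
      rw [Polynomial.eval_sub, h0, sub_zero]
    rw [h1, Polynomial.eval_eq_sum_range]
    apply Valuation.map_sum_lt _ one_ne_zero
    intro i _
    rw [map_mul, map_pow]
    have h2 : 𝒪.valuation (a m) ≤ 1 := (𝒪.valuation_le_one_iff (a m)).2 (ha m hmU)
    calc 𝒪.valuation ((Q2 - pol U a).coeff i) * 𝒪.valuation (a m) ^ i
        ≤ 𝒪.valuation ((Q2 - pol U a).coeff i) * 1 := by
          gcongr
          exact pow_le_one' h2 i
      _ < 1 := by rw [mul_one]; exact hc i
  -- a close root
  have hroot : ∀ m ∈ U, ∃ r ∈ Q2.roots, 𝒪.valuation (a m - r) < 1 := by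
    intro m hmU
    by_contra hcon
    push Not at hcon
    have h1 := hval m hmU
    rw [hsp.eval_eq_prod_roots_of_monic hm] at h1
    have h2 : ∀ s : Multiset Ω, (∀ r ∈ s, 1 ≤ 𝒪.valuation (a m - r)) →
        1 ≤ 𝒪.valuation ((s.map (fun r => a m - r)).prod) := by
      intro s
      induction s using Multiset.induction_on with
      | empty => intro _; simp
      | cons r s ih =>
        intro hs
        rw [Multiset.map_cons, Multiset.prod_cons, map_mul]
        exact one_le_mul (hs r (Multiset.mem_cons_self r s))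
          (ih fun r' hr' => hs r' (Multiset.mem_cons_of_mem hr'))
    exact absurd (h2 Q2.roots hcon) (not_le.2 h1)
  choose! g hg1 hg2 using hroot
  refine ⟨fun m => if m ∈ U then g m else a m, ?_, ?_, ?_⟩
  · intro m hmU
    simp [hmU]
  · intro m
    by_cases hmU : m ∈ U
    · simp only [hmU, if_true]
      rw [Valuation.map_sub_swap]
      exact hg2 m hmU
    · simp only [hmU, if_false, sub_self, map_zero]
      exact zero_lt_one
  · have hinj : ∀ m ∈ U, ∀ l ∈ U, g m = g l → m = l := by
      intro m hmU l hlU h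
      by_contra hne
      have h1 : a m - a l = (a m - g m) - (a l - g l) := by rw [h]; ring
      have h2 : 𝒪.valuation (a m - a l) < 1 := by
        rw [h1]
        exact Valuation.map_sub_lt _ (hg2 m hmU) (hg2 l hlU)
      rw [hd m hmU l hlU hne] at h2
      exact lt_irrefl _ h2
    have hnd : (U.val.map g).Nodup :=
      Multiset.Nodup.map_on (fun m hmU l hlU h => hinj m hmU l hlU h) U.nodup
    have hle : U.val.map g ≤ Q2.roots := by
      rw [Multiset.le_iff_subset hnd]
      intro r hr
      obtain ⟨m, hmU, rfl⟩ := Multiset.mem_map.1 hr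
      exact hg1 m hmU
    have heq : U.val.map g = Q2.roots := by
      apply Multiset.eq_of_le_of_card_le hle
      rw [Multiset.card_map, ← hsp.natDegree_eq_card_roots, hdeg]
      exact le_rfl
    have h3 : pol U (fun m => if m ∈ U then g m else a m) = pol U g := by
      unfold pol
      apply Finset.prod_congr rfl
      intro m hmU
      simp [hmU]
    rw [h3]
    conv_rhs => rw [hsp.eq_prod_roots_of_monic hm, ← heq]
    unfold pol
    rw [Multiset.map_map]
    rfl

end Pool.Agent.HUR
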