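import Pool.Agent.HUR.C3
import Pool.Agent.HUR.C4
import Pool.Agent.HUR.C7
import Pool.Agent.HUR.C8
import Pool.Agent.HUR.C9
import Pool.Agent.HUR.C10

namespace Pool.Agent.HUR

open Pool.Agent.HCH Pool.Agent.HCF

variable {ι P : Type} [Fintype P] {Γ : ι → ι → Prop} {N : ι → Prop} {c : P → ι}

private theorem c11_mul_lt {Ω : Type} [Field Ω] (𝒪 : ValuationSubring Ω) {x y : Ω} (hx : x ∈ 𝒪)
    (hy : 𝒪.valuation y < 1) : 𝒪.valuation (x * y) < 1 := by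
  rw [map_mul]
  exact lt_of_le_of_lt (mul_le_of_le_one_left' ((𝒪.valuation_le_one_iff x).2 hx)) hy

private theorem c11_prod {Ω : Type} [Field Ω] (𝒪 : ValuationSubring Ω) {s : Type} (t : Finset s)
    (x z : s → Ω) (hx : ∀ i ∈ t, x i ∈ 𝒪) (hz : ∀ i ∈ t, z i ∈ 𝒪)
    (h : ∀ i ∈ t, 𝒪.valuation (x i - z i) < 1) :
    𝒪.valuation (∏ i ∈ t, x i - ∏ i ∈ t, z i) < 1 := by
  classical
  induction t using Finset.induction_on with
  | empty =>
    rw [Finset.prod_empty, Finset.prod_empty, sub_self, map_zero]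
    exact zero_lt_one
  | insert i t hi ih =>
    rw [Finset.prod_insert hi, Finset.prod_insert hi]
    have h1 := ih (fun j hj => hx j (Finset.mem_insert_of_mem hj)) (fun j hj => hz j (Finset.mem_insert_of_mem hj))
      (fun j hj => h j (Finset.mem_insert_of_mem hj))
    have e1 : x i * ∏ j ∈ t, x j - z i * ∏ j ∈ t, z j =
        x i * (∏ j ∈ t, x j - ∏ j ∈ t, z j) + (∏ j ∈ t, z j) * (x i - z i) := by ring
    rw [e1]
    apply Valuation.map_add_lt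
    · exact c11_mul_lt 𝒪 (hx i (Finset.mem_insert_self i t)) h1
    · refine c11_mul_lt 𝒪 ?_ (h i (Finset.mem_insert_self i t))
      exact prod_mem (fun j hj => hz j (Finset.mem_insert_of_mem hj))

private theorem c11_sgn {Ω : Type} [Field Ω] (𝒪 : ValuationSubring Ω) (x z t : Ω) (h : x ^ 2 = z ^ 2)
    (hx : 𝒪.valuation (x - t) < 1) (hz : 𝒪.valuation (z - t) < 1) (ht : 𝒪.valuation t = 1)
    (h2 : 𝒪.valuation (2 : Ω) = 1) : x = z := by
  rcases sq_eq_sq_iff_eq_or_eq_neg.1 h with h1 | h1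
  · exact h1
  · exfalso
    have e1 : (2 : Ω) * t = -((x - t) + (z - t)) := by rw [h1]; ring
    have e2 : 𝒪.valuation ((2 : Ω) * t) < 1 := by
      rw [e1, Valuation.map_neg]
      exact Valuation.map_add_lt _ hx hz
    rw [map_mul, h2, ht, mul_one] at e2
    exact lt_irrefl _ e2

private theorem c11_sq {Ω : Type} [Field Ω] (S : Finset P) (ρ : P) (hρ : ρ ∈ S) (q q2 A : P → Ω) (f : Ω)
    (h1 : ∀ l ∈ S, l ≠ ρ → q l * q2 l = A l ^ 2)
    (h2 : (1 + f ^ 2) ^ 2 * (q ρ * q2 ρ) = (1 - f ^ 2) ^ 2 * A ρ ^ 2) :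
    (1 + f ^ 2) ^ 2 * ((∏ l ∈ S, q l) * ∏ l ∈ S, q2 l) = (1 - f ^ 2) ^ 2 * (∏ l ∈ S, A l) ^ 2 := by
  classical
  rw [← Finset.prod_mul_distrib, ← Finset.prod_pow, ← Finset.mul_prod_erase S (fun l => q l * q2 l) hρ,
    ← Finset.mul_prod_erase S (fun l => A l ^ 2) hρ]
  have h3 : ∏ l ∈ S.erase ρ, q l * q2 l = ∏ l ∈ S.erase ρ, A l ^ 2 :=
    Finset.prod_congr rfl fun l hl => h1 l (Finset.mem_of_mem_erase hl) (Finset.ne_of_mem_erase hl)
  rw [h3]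
  linear_combination (∏ l ∈ S.erase ρ, A l ^ 2) * h2

/-
PROOF. fld_exists gives Ω, φ, f, 𝒪. φ x ∈ 𝒪 for all x ∈ L, so v (φ x) = 1 for x ≠ 0 (x⁻¹). a1 := φ ∘ a,
y1 := φ ∘ y is a point (map_nb of Defs, injectivity of φ), with differences of valuation 1.
poly_exists over L with S = cr gives V0, W0; V := V0.map φ, W := W0.map φ: coefficients in 𝒪,
pol U a1 * W = V ^ 2 - rp cr ρ a1 (pol_map, rp_map), natDegree V < U.card. x := a1 ρ,
Q := pol U a1. u := 1 + f ^ 2 - 2 f V.eval x, v u = 1, κ := 2 f Q.eval x / u, v κ < 1, and kap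
holds. Q2 := Q + C (2 κ) * V + C (κ ^ 2) * W is monic of degree U.card (V and W have natDegree <
U.card: Monic.add_of_left, natDegree_add_eq_left_of_degree_lt ...) and Q2 - Q has coefficients of
valuation < 1. roots_lift gives b; sign_lift gives w with v (w m - y1 m) < 1, Pnt b w.
Then pa, pb, out, rho, deg, vw, kap, q2 hold. sgn: let L1, R1 be the two sides.
(i) L1 ^ 2 = R1 ^ 2: (∏ I w) ^ 2 = ∏ I nb b, (∏ I y1) ^ 2 = ∏ I nb a1 (hI: all classes in I satisfy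
N; Finset.prod_pow), nb_ratio, and for l ∈ cr: Q (a l) * Q2 (a l) = A (a l) ^ 2 if l ≠ ρ (con_alg,
second identity, rp_eval_ne), (1 + f ^ 2) ^ 2 * (Q x * Q2 x) = (1 - f ^ 2) ^ 2 * A x ^ 2 for l = ρ
(con_alg, fifth identity, rp_eval), so
(1 + f ^ 2) ^ 2 * ∏ cr Q * ∏ cr Q2 = (1 - f ^ 2) ^ 2 * (∏ cr A) ^ 2 (Finset.mul_prod_erase). Hence
L1 ^ 2 = (∏ I nb b) (1 + f ^ 2) ^ 2 (∏ cr Q) ^ 2 (∏ co Q) ^ 2
 = (∏ I nb a1) (∏ cr Q2) (∏ co Q2) ^ 2 (1 + f ^ 2) ^ 2 (∏ cr Q) = R1 ^ 2.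
(ii) so L1 = R1 or L1 = - R1. Both L1 and R1 are congruent to T := (∏ I y1) (∏ cr Q) (∏ co Q) modulo
the maximal ideal of 𝒪 (w ≡ y1, f ≡ 0, A ≡ Q ≡ Q2 at the points a1 l ∈ 𝒪), and v T = 1: Q (a1 l) is a
product of differences a1 l - a1 m with l ∉ U, and v (y1 m) = 1 since y1 m = φ (y m) ≠ 0
(y m ^ 2 = nb a m ≠ 0 by injectivity and hi, or y m = 1). If L1 = - R1 then v (2 T) < 1, but
v 2 = 1 (2 = φ 2), contradiction.
-/
theorem con_exists (hs : ∀ i j, Γ i j → Γ j i) (hi : ∀ j, ¬ Γ j j) {L : Type} [Field L]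
    [Algebra ℂ L] [IsAlgClosed L] {a y : P → L} (h : Pnt Γ N c a y) (e : ℕ)
    (hL : Algebra.trdeg ℂ L = (e : Cardinal)) (I U : Finset P) (hI : ∀ m ∈ I, N (c m)) (j : ι)
    (s : Prop) (hU : ∀ m ∈ U, c m = j ∧ (m ∈ I ↔ s)) (ρ : P) (hρ : ρ ∈ cr Γ c I j s)
    (hcard : (cr Γ c I j s).card ≤ 2 * U.card) :
    ∃ (Ω : Type) (_ : Field Ω) (_ : Algebra ℂ Ω) (φ : L →ₐ[ℂ] Ω) (b w : P → Ω) (f κ : Ω)
      (V W : Polynomial Ω) (𝒪 : ValuationSubring Ω),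
      Con Γ N c I U j s ρ (fun m => φ (a m)) (fun m => φ (y m)) b w f κ V W ∧
      Algebra.trdeg ℂ Ω = ((e + 1 : ℕ) : Cardinal) ∧ f ≠ 0 ∧ 𝒪.valuation f < 1 ∧
      (∀ x, φ x ∈ 𝒪) ∧ (∀ m, 𝒪.valuation (b m - φ (a m)) < 1) ∧
      ∀ m, 𝒪.valuation (w m - φ (y m)) < 1 := by
  classical
  obtain ⟨Ω, i1, i2, i3, φ, f, 𝒪, hΩ, hf0, hf, hφ⟩ := fld_exists L e hL
  have hφ1 : ∀ x, x ≠ 0 → 𝒪.valuation (φ x) = 1 := by
    intro x hx
    apply le_antisymm ((𝒪.valuation_le_one_iff _).2 (hφ x))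
    have h1 := (𝒪.valuation_le_one_iff _).2 (hφ x⁻¹)
    rw [map_inv₀, map_inv₀] at h1
    have h2 : 𝒪.valuation (φ x) ≠ 0 := by
      rw [Valuation.ne_zero_iff]
      exact (map_ne_zero φ).2 hx
    exact (inv_le_one₀ (zero_lt_iff.2 h2)).1 h1
  have pa : Pnt Γ N c (fun m => φ (a m)) (fun m => φ (y m)) := by
    refine ⟨φ.toRingHom.injective.comp h.inj, ?_, ?_⟩
    · intro m hm
      have h1 := map_nb Γ c (φ : L →+* Ω) a m
      simp only [RingHom.coe_coe] at h1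
      rw [← h1, ← h.sq m hm, map_pow]
    · intro m hm
      rw [h.one m hm, map_one]
  have hd : ∀ m l, m ≠ l → 𝒪.valuation (φ (a m) - φ (a l)) = 1 := by
    intro m l hml
    rw [← map_sub]
    exact hφ1 _ (sub_ne_zero.2 fun h1 => hml (h.inj h1))
  have h2v : 𝒪.valuation (2 : Ω) = 1 := by
    have h3 := hφ1 2 (by
      have h4 : (2 : L) = algebraMap ℂ L 2 := (map_ofNat (algebraMap ℂ L) 2).symm
      rw [h4]
      exact (map_ne_zero (algebraMap ℂ L)).2 two_ne_zero)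
    rw [map_ofNat] at h3
    exact h3
  have h2m : (2 : Ω) ∈ 𝒪 := (𝒪.valuation_le_one_iff _).1 h2v.le
  have hfm : f ∈ 𝒪 := (𝒪.valuation_le_one_iff _).1 hf.le
  have hf2 : 𝒪.valuation (f ^ 2) < 1 := by
    rw [pow_two]
    exact c11_mul_lt 𝒪 hfm hf
  -- the polynomials
  obtain ⟨V0, W0, hV0, hW0, hvw0⟩ := poly_exists (cr Γ c I j s) U ρ a h.inj hρ hcard
  have hev : ∀ (p : Polynomial L) (t : L), (p.map (φ : L →+* Ω)).eval (φ t) = φ (p.eval t) := by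
    intro p t
    rw [Polynomial.eval_map]
    exact Polynomial.eval₂_at_apply (φ : L →+* Ω) t
  have hpol : pol U (fun m => φ (a m)) = (pol U a).map (φ : L →+* Ω) := (pol_map (φ : L →+* Ω) U a).symm
  have hrp : rp (cr Γ c I j s) ρ (fun m => φ (a m)) = (rp (cr Γ c I j s) ρ a).map (φ : L →+* Ω) :=
    (rp_map (φ : L →+* Ω) _ ρ a).symm
  obtain ⟨V, hV⟩ : ∃ V, V = V0.map (φ : L →+* Ω) := ⟨_, rfl⟩
  obtain ⟨W, hW⟩ : ∃ W, W = W0.map (φ : L →+* Ω) := ⟨_, rfl⟩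
  have hVc : ∀ i, V.coeff i ∈ 𝒪 := by
    intro i
    rw [hV, Polynomial.coeff_map]
    exact hφ _
  have hWc : ∀ i, W.coeff i ∈ 𝒪 := by
    intro i
    rw [hW, Polynomial.coeff_map]
    exact hφ _
  have hVd : V.natDegree < U.card := by
    rw [hV]
    exact lt_of_le_of_lt Polynomial.natDegree_map_le hV0
  have hWd : W.natDegree < U.card := by
    rw [hW]
    exact lt_of_le_of_lt Polynomial.natDegree_map_le hW0
  have hvw : pol U (fun m => φ (a m)) * W = V ^ 2 - rp (cr Γ c I j s) ρ (fun m => φ (a m)) := by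
    rw [hpol, hrp, hV, hW, ← Polynomial.map_mul, hvw0, Polynomial.map_sub, Polynomial.map_pow]
  have hVx : ∀ t, V.eval (φ t) ∈ 𝒪 := by
    intro t
    rw [hV, hev]
    exact hφ _
  have hWx : ∀ t, W.eval (φ t) ∈ 𝒪 := by
    intro t
    rw [hW, hev]
    exact hφ _
  have hQx : ∀ t, (pol U (fun m => φ (a m))).eval (φ t) = φ ((pol U a).eval t) := by
    intro t
    rw [hpol, hev]
  -- the constant
  have hu : 𝒪.valuation (1 + f ^ 2 - 2 * f * V.eval (φ (a ρ))) = 1 := by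
    have h1 : 𝒪.valuation (f ^ 2 - 2 * f * V.eval (φ (a ρ))) < 1 := by
      apply Valuation.map_sub_lt _ hf2
      have h3 : 2 * f * V.eval (φ (a ρ)) = (2 * V.eval (φ (a ρ))) * f := by ring
      rw [h3]
      exact c11_mul_lt 𝒪 (mul_mem h2m (hVx _)) hf
    have h2 : (1 : Ω) + f ^ 2 - 2 * f * V.eval (φ (a ρ)) = 1 + (f ^ 2 - 2 * f * V.eval (φ (a ρ))) := by ring
    rw [h2]
    exact Valuation.map_one_add_of_lt _ h1
  have hu0 : (1 + f ^ 2 - 2 * f * V.eval (φ (a ρ))) ≠ 0 := by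
    intro h1
    rw [h1, map_zero] at hu
    exact zero_ne_one hu
  obtain ⟨κ, hκ⟩ : ∃ κ, κ = 2 * f * (pol U (fun m => φ (a m))).eval (φ (a ρ)) /
      (1 + f ^ 2 - 2 * f * V.eval (φ (a ρ))) := ⟨_, rfl⟩
  have hkap : κ * (1 + f ^ 2 - 2 * f * V.eval (φ (a ρ))) =
      2 * f * (pol U (fun m => φ (a m))).eval (φ (a ρ)) := by
    rw [hκ, div_mul_cancel₀ _ hu0]
  have hκv : 𝒪.valuation κ < 1 := by
    rw [hκ, map_div₀, hu, div_one]
    have h3 : 2 * f * (pol U (fun m => φ (a m))).eval (φ (a ρ)) =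
        (2 * (pol U (fun m => φ (a m))).eval (φ (a ρ))) * f := by ring
    rw [h3]
    refine c11_mul_lt 𝒪 (mul_mem h2m ?_) hf
    rw [hQx]
    exact hφ _
  have hκm : κ ∈ 𝒪 := (𝒪.valuation_le_one_iff _).1 hκv.le
  have hκ2 : 𝒪.valuation (κ ^ 2) < 1 := by
    rw [pow_two]
    exact c11_mul_lt 𝒪 hκm hκv
  -- the polynomial Q2
  obtain ⟨Q, hQ⟩ : ∃ Q, Q = pol U (fun m => φ (a m)) := ⟨_, rfl⟩
  have hQm : Q.Monic := by rw [hQ]; exact (pol_monic U _).1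
  have hQd : Q.natDegree = U.card := by rw [hQ]; exact (pol_monic U _).2
  have hdd : (Polynomial.C (2 * κ) * V + Polynomial.C (κ ^ 2) * W).degree < Q.degree := by
    rw [Polynomial.degree_eq_natDegree hQm.ne_zero, hQd, Polynomial.degree_lt_iff_coeff_zero]
    intro m hm
    rw [Polynomial.coeff_add, Polynomial.coeff_C_mul, Polynomial.coeff_C_mul,
      Polynomial.coeff_eq_zero_of_natDegree_lt (lt_of_lt_of_le hVd hm),
      Polynomial.coeff_eq_zero_of_natDegree_lt (lt_of_lt_of_le hWd hm), mul_zero, mul_zero, add_zero]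
  have hQ2e : Q + Polynomial.C (2 * κ) * V + Polynomial.C (κ ^ 2) * W =
      Q + (Polynomial.C (2 * κ) * V + Polynomial.C (κ ^ 2) * W) := by ring
  have hQ2m : (Q + Polynomial.C (2 * κ) * V + Polynomial.C (κ ^ 2) * W).Monic := by
    rw [hQ2e]
    exact hQm.add_of_left hdd
  have hQ2d : (Q + Polynomial.C (2 * κ) * V + Polynomial.C (κ ^ 2) * W).natDegree = U.card := by
    rw [hQ2e, Polynomial.natDegree_add_eq_left_of_degree_lt hdd, hQd]
  have hQ2c : ∀ i, 𝒪.valuation ((Q + Polynomial.C (2 * κ) * V + Polynomial.C (κ ^ 2) * W -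
      pol U (fun m => φ (a m))).coeff i) < 1 := by
    intro i
    rw [← hQ, hQ2e, add_sub_cancel_left, Polynomial.coeff_add, Polynomial.coeff_C_mul, Polynomial.coeff_C_mul]
    apply Valuation.map_add_lt
    · have h3 : 2 * κ * V.coeff i = (2 * V.coeff i) * κ := by ring
      rw [h3]
      exact c11_mul_lt 𝒪 (mul_mem h2m (hVc i)) hκv
    · rw [mul_comm]
      exact c11_mul_lt 𝒪 (hWc i) hκ2
  obtain ⟨b, hbo, hba, hbQ⟩ := roots_lift 𝒪 U (fun m => φ (a m)) (fun m _ => hφ _) (fun m _ l _ hml => hd m l hml)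
    _ hQ2m hQ2d hQ2c
  obtain ⟨w, pb, hw⟩ := sign_lift pa 𝒪 (fun m => hφ _) (fun m => hφ _) hd b hba
  refine ⟨Ω, i1, i2, φ, b, w, f, κ, V, W, 𝒪, ⟨pa, pb, hbo, hρ, hVd, hvw, hkap, by rw [hbQ, hQ], ?_⟩,
    hΩ, hf0, hf, hφ, hba, hw⟩
  -- the sign
  have hwm : ∀ m, w m ∈ 𝒪 := by
    intro m
    have h1 : (w m - φ (y m)) + φ (y m) = w m := by ring
    rw [← h1]
    exact add_mem ((𝒪.valuation_le_one_iff _).1 (hw m).le) (hφ _)
  have hR1 : (rp (cr Γ c I j s) ρ (fun m => φ (a m))).eval (φ (a ρ)) = 1 :=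
    rp_eval (cr Γ c I j s) ρ (fun m => φ (a m)) pa.inj
  obtain ⟨-, alg2, -, -, alg5⟩ := con_alg (pol U (fun m => φ (a m))) V W
    (rp (cr Γ c I j s) ρ (fun m => φ (a m))) f κ (φ (a ρ)) hvw hR1 hkap
  rw [← hQ, ← hbQ] at alg2 alg5
  have hcross : (1 + f ^ 2) ^ 2 * ((∏ l ∈ cr Γ c I j s, Q.eval (φ (a l))) *
      ∏ l ∈ cr Γ c I j s, (pol U b).eval (φ (a l))) =
      (1 - f ^ 2) ^ 2 * (∏ l ∈ cr Γ c I j s, (Q + Polynomial.C κ * V).eval (φ (a l))) ^ 2 := by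
    apply c11_sq (cr Γ c I j s) ρ hρ (fun l => Q.eval (φ (a l))) (fun l => (pol U b).eval (φ (a l)))
      (fun l => (Q + Polynomial.C κ * V).eval (φ (a l))) f
    · intro l hl hlρ
      have h1 := congrArg (Polynomial.eval (φ (a l))) alg2
      rw [Polynomial.eval_mul, Polynomial.eval_sub, Polynomial.eval_pow, Polynomial.eval_mul,
        rp_eval_ne (cr Γ c I j s) ρ l (fun m => φ (a m)) hl hlρ, mul_zero, sub_zero] at h1
      exact h1
    · exact alg5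
  have hrat := nb_ratio hs hi I U j s hU (fun m => φ (a m)) b hbo
  rw [← hQ] at hrat
  have s1 : (∏ m ∈ I, φ (y m)) ^ 2 = ∏ m ∈ I, nb Γ c (fun m => φ (a m)) m := by
    rw [← Finset.prod_pow]
    exact Finset.prod_congr rfl fun m hm => pa.sq m (hI m hm)
  have s2 : (∏ m ∈ I, w m) ^ 2 = ∏ m ∈ I, nb Γ c b m := by
    rw [← Finset.prod_pow]
    exact Finset.prod_congr rfl fun m hm => pb.sq m (hI m hm)
  rw [← s1, ← s2] at hrat
  have hQe : ∀ l, Q.eval (φ (a l)) = φ ((pol U a).eval (a l)) := by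
    intro l
    rw [hQ, hQx]
  have hQe2 : ∀ l, Q.eval (φ (a l)) ∈ 𝒪 := fun l => by rw [hQe]; exact hφ _
  have hAe : ∀ l, 𝒪.valuation ((Q + Polynomial.C κ * V).eval (φ (a l)) - Q.eval (φ (a l))) < 1 := by
    intro l
    rw [Polynomial.eval_add, add_sub_cancel_left, Polynomial.eval_mul, Polynomial.eval_C, mul_comm]
    exact c11_mul_lt 𝒪 (hVx _) hκv
  have hAm : ∀ l, (Q + Polynomial.C κ * V).eval (φ (a l)) ∈ 𝒪 := by
    intro l
    rw [Polynomial.eval_add, Polynomial.eval_mul, Polynomial.eval_C]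
    exact add_mem (hQe2 l) (mul_mem hκm (hVx _))
  have hBe : ∀ l, 𝒪.valuation ((pol U b).eval (φ (a l)) - Q.eval (φ (a l))) < 1 := by
    intro l
    rw [hbQ, hQ2e, Polynomial.eval_add, add_sub_cancel_left, Polynomial.eval_add, Polynomial.eval_mul,
      Polynomial.eval_C, Polynomial.eval_mul, Polynomial.eval_C]
    apply Valuation.map_add_lt
    · have h3 : 2 * κ * V.eval (φ (a l)) = (2 * V.eval (φ (a l))) * κ := by ring
      rw [h3]
      exact c11_mul_lt 𝒪 (mul_mem h2m (hVx _)) hκv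
    · rw [mul_comm]
      exact c11_mul_lt 𝒪 (hWx _) hκ2
  have hBm : ∀ l, (pol U b).eval (φ (a l)) ∈ 𝒪 := by
    intro l
    have h1 : ((pol U b).eval (φ (a l)) - Q.eval (φ (a l))) + Q.eval (φ (a l)) = (pol U b).eval (φ (a l)) := by
      ring
    rw [← h1]
    exact add_mem ((𝒪.valuation_le_one_iff _).1 (hBe l).le) (hQe2 l)
  have v1 := c11_prod 𝒪 (cr Γ c I j s) _ _ (fun l _ => hAm l) (fun l _ => hQe2 l) (fun l _ => hAe l)
  have v2 := c11_prod 𝒪 (co Γ c I j s) _ _ (fun l _ => hBm l) (fun l _ => hQe2 l) (fun l _ => hBe l)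
  have v3 := c11_prod 𝒪 I _ _ (fun m _ => hwm m) (fun m _ => hφ (y m)) (fun m _ => hw m)
  have m1 : ∏ l ∈ cr Γ c I j s, Q.eval (φ (a l)) ∈ 𝒪 := prod_mem fun l _ => hQe2 l
  have m2 : ∏ l ∈ co Γ c I j s, Q.eval (φ (a l)) ∈ 𝒪 := prod_mem fun l _ => hQe2 l
  have m3 : ∏ l ∈ cr Γ c I j s, (Q + Polynomial.C κ * V).eval (φ (a l)) ∈ 𝒪 := prod_mem fun l _ => hAm l
  have m4 : ∏ l ∈ co Γ c I j s, (pol U b).eval (φ (a l)) ∈ 𝒪 := prod_mem fun l _ => hBm l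
  have m5 : ∏ m ∈ I, w m ∈ 𝒪 := prod_mem fun m _ => hwm m
  have m6 : ∏ m ∈ I, φ (y m) ∈ 𝒪 := prod_mem fun m _ => hφ (y m)
  have hT : 𝒪.valuation ((∏ m ∈ I, φ (y m)) * (∏ l ∈ cr Γ c I j s, Q.eval (φ (a l))) *
      ∏ l ∈ co Γ c I j s, Q.eval (φ (a l))) = 1 := by
    have hne : ∀ l, l ∉ U → (pol U a).eval (a l) ≠ 0 := by
      intro l hl
      rw [pol, Polynomial.eval_prod, Finset.prod_ne_zero_iff]
      intro m hm
      rw [Polynomial.eval_sub, Polynomial.eval_X, Polynomial.eval_C]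
      exact sub_ne_zero.2 fun h1 => hl (by rw [h.inj h1]; exact hm)
    have hcrU : ∀ l ∈ cr Γ c I j s, l ∉ U := by
      intro l hl hlU
      have h1 : Γ j (c l) := (Finset.mem_filter.1 hl).2.1
      rw [(hU l hlU).1] at h1
      exact hi j h1
    have hcoU : ∀ l ∈ co Γ c I j s, l ∉ U := by
      intro l hl hlU
      have h1 : Γ j (c l) := (Finset.mem_filter.1 hl).2.1
      rw [(hU l hlU).1] at h1
      exact hi j h1
    have hyne : ∀ m ∈ I, y m ≠ 0 := by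
      intro m hm h1
      have h3 := h.sq m (hI m hm)
      rw [h1, zero_pow two_ne_zero] at h3
      have h4 : nb Γ c a m ≠ 0 := by
        unfold nb
        rw [Finset.prod_ne_zero_iff]
        intro l hl
        refine sub_ne_zero.2 fun h5 => ?_
        have h6 := (Finset.mem_filter.1 hl).2
        rw [h.inj h5] at h6
        exact hi _ h6
      exact h4 h3.symm
    rw [map_mul, map_mul, map_prod, map_prod, map_prod,
      Finset.prod_eq_one (fun m hm => hφ1 _ (hyne m hm)),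
      Finset.prod_eq_one (fun l hl => by rw [hQe]; exact hφ1 _ (hne l (hcrU l hl))),
      Finset.prod_eq_one (fun l hl => by rw [hQe]; exact hφ1 _ (hne l (hcoU l hl))), mul_one, mul_one]
  rw [← hQ]
  refine c11_sgn 𝒪 _ _ ((∏ m ∈ I, φ (y m)) * (∏ l ∈ cr Γ c I j s, Q.eval (φ (a l))) *
      ∏ l ∈ co Γ c I j s, Q.eval (φ (a l))) ?_ ?_ ?_ hT h2v
  · generalize (∏ l ∈ cr Γ c I j s, Q.eval (φ (a l))) = X1 at *
    generalize (∏ l ∈ co Γ c I j s, Q.eval (φ (a l))) = X2 at *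
    generalize (∏ l ∈ cr Γ c I j s, (Q + Polynomial.C κ * V).eval (φ (a l))) = X3 at *
    generalize (∏ l ∈ co Γ c I j s, (pol U b).eval (φ (a l))) = X4 at *
    generalize (∏ l ∈ cr Γ c I j s, (pol U b).eval (φ (a l))) = X5 at *
    generalize (∏ m ∈ I, w m) = X6 at *
    generalize (∏ m ∈ I, φ (y m)) = X7 at *
    linear_combination ((1 + f ^ 2) ^ 2 * X1) * hrat + (X7 ^ 2 * X4 ^ 2) * hcross
  · have e1 : (∏ m ∈ I, w m) * (1 + f ^ 2) * (∏ l ∈ cr Γ c I j s, Q.eval (φ (a l))) *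
        (∏ l ∈ co Γ c I j s, Q.eval (φ (a l))) -
        (∏ m ∈ I, φ (y m)) * (∏ l ∈ cr Γ c I j s, Q.eval (φ (a l))) *
          (∏ l ∈ co Γ c I j s, Q.eval (φ (a l))) =
        ((∏ l ∈ cr Γ c I j s, Q.eval (φ (a l))) * (∏ l ∈ co Γ c I j s, Q.eval (φ (a l)))) *
          ((∏ m ∈ I, w m - ∏ m ∈ I, φ (y m)) + (∏ m ∈ I, w m) * f ^ 2) := by ring
    rw [e1]
    exact c11_mul_lt 𝒪 (mul_mem m1 m2) (Valuation.map_add_lt _ v3 (c11_mul_lt 𝒪 m5 hf2))
  · have e1 : (∏ m ∈ I, φ (y m)) * (1 - f ^ 2) *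
        (∏ l ∈ cr Γ c I j s, (Q + Polynomial.C κ * V).eval (φ (a l))) *
        (∏ l ∈ co Γ c I j s, (pol U b).eval (φ (a l))) -
        (∏ m ∈ I, φ (y m)) * (∏ l ∈ cr Γ c I j s, Q.eval (φ (a l))) *
          (∏ l ∈ co Γ c I j s, Q.eval (φ (a l))) =
        (∏ m ∈ I, φ (y m)) *
          (((∏ l ∈ cr Γ c I j s, (Q + Polynomial.C κ * V).eval (φ (a l))) *
            (∏ l ∈ co Γ c I j s, (pol U b).eval (φ (a l)) - ∏ l ∈ co Γ c I j s, Q.eval (φ (a l))) +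
            (∏ l ∈ co Γ c I j s, Q.eval (φ (a l))) *
            (∏ l ∈ cr Γ c I j s, (Q + Polynomial.C κ * V).eval (φ (a l)) -
              ∏ l ∈ cr Γ c I j s, Q.eval (φ (a l)))) -
            ((∏ l ∈ cr Γ c I j s, (Q + Polynomial.C κ * V).eval (φ (a l))) *
              (∏ l ∈ co Γ c I j s, (pol U b).eval (φ (a l)))) * f ^ 2) := by ring
    rw [e1]
    refine c11_mul_lt 𝒪 m6 (Valuation.map_sub_lt _ (Valuation.map_add_lt _ ?_ ?_) ?_)
    · exact c11_mul_lt 𝒪 m3 v2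
    · exact c11_mul_lt 𝒪 m2 v1
    · exact c11_mul_lt 𝒪 (mul_mem m3 m4) hf2

end Pool.Agent.HUR
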