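import Mathlib

/-!
The numerical condition on the numbers of branch points and the condition on the spectral radius.
-/

namespace Pool.Agent.HUR

variable {ι : Type} [Fintype ι]

open Classical in
/-- The number of points counted by `q` whose class does not commute with the class `j`. -/
noncomputable def rr (Γ : ι → ι → Prop) (q : ι → ℕ) (j : ι) : ℕ :=
  ∑ i ∈ Finset.univ.filter (fun i => Γ j i), q i

/-- The numerical condition on the numbers `n i` of branch points: if `p i ≤ n i` points of class
`i` are marked for every `i` such that a marked and an unmarked point do not commute, then there is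
a class `j` such that either at least half as many points of class `j` are marked as there are
unmarked points which do not commute with `j`, and the latter exist, or the same is true with
marked and unmarked exchanged. -/
def Adm (Γ : ι → ι → Prop) (n : ι → ℕ) : Prop :=
  ∀ p : ι → ℕ, (∀ i, p i ≤ n i) → (∃ i j, Γ i j ∧ 0 < p i ∧ p j < n j) →
    ∃ j, (0 < rr Γ (fun i => n i - p i) j ∧ rr Γ (fun i => n i - p i) j ≤ 2 * p j) ∨
      (0 < rr Γ p j ∧ rr Γ p j ≤ 2 * (n j - p j))

open Classical in
/-- The spectral radius of the graph `Γ` is at most two. -/
def Spec2 (Γ : ι → ι → Prop) : Prop :=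
  ∀ x : ι → ℝ, ∑ i, ∑ j, (if Γ i j then x i * x j else 0) ≤ 2 * ∑ i, x i ^ 2

end Pool.Agent.HUR
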