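import Pool.Agent.HUR.Defs2
import Pool.Agent.HUR.Num

/-!
Finiteness of the groups of signed permutations and the affine families.
-/

namespace Pool.Agent.HUR

open MvPolynomial Pool.Agent.HCH Pool.Agent.HCF

section Moves

variable {ι P : Type} [Fintype P]

instance : Finite (Mv P) :=
  Finite.of_injective (fun g : Mv P => (g.left, g.right)) (fun g h e => by
    have e1 : g.left = h.left := congrArg Prod.fst e
    have e2 : g.right = h.right := congrArg Prod.snd e
    exact SemidirectProduct.ext e1 e2)

noncomputable instance (N : ι → Prop) (c : P → ι) (U : Set P) : Fintype (MG N c U) :=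
  Fintype.ofFinite _

end Moves

section Affine

variable {ι P : Type} [Fintype P] (Γ : ι → ι → Prop) (N : ι → Prop) (c : P → ι)

/-- The data of an affine family: `b = a + f v`, and the product of the signs over `I` divided by
a product of differences does not change. -/
structure Aff {Ω : Type} [Field Ω] [Algebra ℂ Ω] (I : Finset P) (E : Finset (P × P)) (v : P → ℂ)
    (a y b w : P → Ω) (f : Ω) : Prop where
  pa : Pnt Γ N c a y
  pb : Pnt Γ N c b w
  mv : ∀ m, b m = a m + f * algebraMap ℂ Ω (v m)
  sgn : (∏ m ∈ I, w m) * (∏ p ∈ E, (a p.1 - a p.2)) =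
    (∏ m ∈ I, y m) * (∏ p ∈ E, (b p.1 - b p.2))

end Affine

end Pool.Agent.HUR
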