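import Pool.Agent.HUR.A6
import Pool.Agent.HUR.B7
import Pool.Agent.HUR.Defs3

namespace Pool.Agent.HUR

open Pool.Agent.HCH Pool.Agent.HCF

variable {ι P : Type} [Fintype P] {Γ : ι → ι → Prop} {N : ι → Prop} {c : P → ι}

private theorem c12_ev {L Ω : Type} [Field L] [Algebra ℂ L] [Field Ω] [Algebra ℂ Ω] (φ : L →ₐ[ℂ] Ω)
    {a y : P → L} (h : Pnt Γ N c a y) {a' y' : P → Ω} (ha : ∀ m, a' m = φ (a m)) (hy : ∀ m, y' m = φ (y m))
    (h' : Pnt Γ N c a' y') (r : HR Γ N c) : ev h' r = φ (ev h r) := by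
  obtain rfl : a' = fun m => φ (a m) := funext ha
  obtain rfl : y' = fun m => φ (y m) := funext hy
  obtain ⟨p, rfl⟩ := Ideal.Quotient.mk_surjective r
  rw [ev_mk, ev_mk]
  have h1 : MvPolynomial.aeval (vl (fun m => φ (a m)) (fun m => φ (y m))) =
      φ.comp (MvPolynomial.aeval (vl a y)) := by
    apply MvPolynomial.algHom_ext
    intro x
    rw [AlgHom.comp_apply, MvPolynomial.aeval_X, MvPolynomial.aeval_X]
    rcases x with _ | x | x
    · change (ds (fun m => φ (a m)))⁻¹ = φ (ds a)⁻¹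
      have h2 := map_ds (φ : L →+* Ω) a
      simp only [RingHom.coe_coe] at h2
      rw [map_inv₀, h2]
    · rfl
    · rfl
  rw [h1, AlgHom.comp_apply]

private theorem c12_map {L Ω : Type} [Field L] [Algebra ℂ L] [Field Ω] [Algebra ℂ Ω] (φ : L →ₐ[ℂ] Ω)
    {a y : P → L} (h : Pnt Γ N c a y) {a' y' : P → Ω} (ha : ∀ m, a' m = φ (a m)) (hy : ∀ m, y' m = φ (y m)) :
    Pnt Γ N c a' y' := by
  obtain rfl : a' = fun m => φ (a m) := funext ha
  obtain rfl : y' = fun m => φ (y m) := funext hy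
  refine ⟨φ.toRingHom.injective.comp h.inj, ?_, ?_⟩
  · intro m hm
    have h1 := map_nb Γ c (φ : L →+* Ω) a m
    simp only [RingHom.coe_coe] at h1
    rw [← h1, ← h.sq m hm, map_pow]
  · intro m hm
    rw [h.one m hm, map_one]

private theorem c12_kr {L : Type} [Field L] [Algebra ℂ L] {a y a' y' : P → L} (h : Pnt Γ N c a y)
    (h' : Pnt Γ N c a' y') (ha : a = a') (hy : y = y') : kr h = kr h' := by
  subst ha hy
  rfl

private theorem c12_sum {G X : Type} [Fintype G] (K : G → X) (g0 : X → G) (Cnd : G → Prop) (b0 : X →₀ ℤ)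
    (h : ∀ p, b0 p ≠ 0 → Cnd (g0 p) ∧ K (g0 p) = p) (F : G → ℤ)
    (hF : ∀ g, (Cnd g ∧ g0 (K g) = g → F g = b0 (K g)) ∧ (¬ (Cnd g ∧ g0 (K g) = g) → F g = 0)) :
    ∑ g, F g • Finsupp.single (K g) (1 : ℤ) = b0 := by
  classical
  ext p
  rw [Finsupp.finsetSum_apply]
  simp only [Finsupp.smul_apply, smul_eq_mul, Finsupp.single_apply]
  by_cases hp : b0 p = 0
  · rw [hp]
    apply Finset.sum_eq_zero
    intro g _
    by_cases h1 : K g = p
    · by_cases h2 : Cnd g ∧ g0 (K g) = g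
      · rw [(hF g).1 h2, h1, hp, zero_mul]
      · rw [(hF g).2 h2, zero_mul]
    · rw [if_neg h1, mul_zero]
  · obtain ⟨h1, h2⟩ := h p hp
    rw [Finset.sum_eq_single (g0 p)]
    · have h3 : Cnd (g0 p) ∧ g0 (K (g0 p)) = g0 p := ⟨h1, by rw [h2]⟩
      rw [(hF _).1 h3, if_pos h2, mul_one, h2]
    · intro g _ hg
      by_cases h3 : K g = p
      · have h4 : ¬ (Cnd g ∧ g0 (K g) = g) := by
          rintro ⟨_, h5⟩
          rw [h3] at h5
          exact hg h5.symm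
        rw [(hF g).2 h4, zero_mul]
      · rw [if_neg h3, mul_zero]
    · intro h3
      exact absurd (Finset.mem_univ _) h3

/-
PROOF. HR is of finite type over ℂ (quotient of MvPolynomial over a finite set of variables). For
g ∈ MG let hg := h.mv hg : Pnt (mvA g a) (mvY g y) over L. S0 := {kr hg | g ∈ MG, chi I g = 1},
Si := {kr hg | g ∈ MG, chi I g = -1}; all have dimension e (dm_mv). fam_val with R = HR, Θ = ev pb,
f: (h0) for 𝒪 take g from h0. The point h' : Pnt (mvA g (φ ∘ a)) (mvY g (φ ∘ y)) over Ω exists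
(Pnt of a homomorphic image; φ commutes with mvA, mvY) and ev h' r = φ (ev hg r) (both are algebra
homomorphisms with the same values on the variables, see A1 / A3; φ (ds a)⁻¹ = (ds (φ ∘ a))⁻¹). If
r ∈ kr hg then ev hg r = 0, so ev h' r = 0 and v (ev pb r) < 1. (hi) the same with -1.
(hn) P := kr h, g = 1 (mvA_one, mvY_one, chi I 1 = 1): if v (ev pb r) < 1 then
v (φ (ev h r)) < 1; but if ev h r ≠ 0 then φ (ev h r) and its inverse φ (ev h r)⁻¹ are in 𝒪, so its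
valuation is 1. So ev h r = 0.
This gives b0, bi. For every P ∈ S0 choose g0 P ∈ MG with chi = 1 and kr = P, for P ∈ Si choose
gi P with chi = -1. Put bc g := (if chi I g = 1 ∧ g0 (kr hg) = g then b0 (kr hg) else 0) -
(if chi I g = -1 ∧ gi (kr hg) = g then bi (kr hg) else 0). Then bc g * chi I g ≥ 0, bc is not 0
(b0 P ≠ 0 for some P, it is in S0, take g = g0 P), and ∑ bc g • cl (mvA g a) (mvY g y) =
∑ bc g • single (kr hg) 1 = b0 - bi (evaluate at P: exactly one g contributes to b0 P if P ∈ S0,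
none otherwise and then b0 P = 0). b0 - bi ∈ Rt, so it is in RS (n = 1).
-/
theorem fam_rel {L : Type} [Field L] [Algebra ℂ L] {a y : P → L} (h : Pnt Γ N c a y) (e : ℕ)
    (hd : dm ℂ (kr h).asIdeal = e) (I : Finset P) (U : Set P) {Ω : Type} [Field Ω] [Algebra ℂ Ω]
    (hΩ : Algebra.trdeg ℂ Ω = ((e + 1 : ℕ) : Cardinal)) (φ : L →ₐ[ℂ] Ω) {b w : P → Ω}
    (pb : Pnt Γ N c b w) (f : Ω) (hf0 : f ≠ 0)
    (h0 : ∀ 𝒪 : ValuationSubring Ω, (∀ r, ev pb r ∈ 𝒪) → 𝒪.valuation f < 1 →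
      ∃ g ∈ MG N c U, chi I g = 1 ∧
        ∀ (h' : Pnt Γ N c (mvA g (fun m => φ (a m))) (mvY g (fun m => φ (y m)))) r,
          𝒪.valuation (ev pb r - ev h' r) < 1)
    (hi : ∀ 𝒪 : ValuationSubring Ω, (∀ r, ev pb r ∈ 𝒪) → 𝒪.valuation f⁻¹ < 1 →
      ∃ g ∈ MG N c U, chi I g = -1 ∧
        ∀ (h' : Pnt Γ N c (mvA g (fun m => φ (a m))) (mvY g (fun m => φ (y m)))) r,
          𝒪.valuation (ev pb r - ev h' r) < 1)
    (hn : ∃ 𝒪 : ValuationSubring Ω, (∀ r, ev pb r ∈ 𝒪) ∧ 𝒪.valuation f < 1 ∧ (∀ x, φ x ∈ 𝒪) ∧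
      ∀ r, 𝒪.valuation (ev pb r - φ (ev h r)) < 1) :
    ∃ bc : MG N c U → ℤ, (∀ g, 0 ≤ bc g * ((chi I g.1 : ℤˣ) : ℤ)) ∧ (∃ g, bc g ≠ 0) ∧
      ∑ g, bc g • cl Γ N c (mvA g.1 a) (mvY g.1 y) ∈ RS (HR Γ N c) e := by
  classical
  have hK : ∀ g : MG N c U, Pnt Γ N c (mvA g.1 a) (mvY g.1 y) := fun g => h.mv g.2
  have hdK : ∀ g : MG N c U, dm ℂ (kr (hK g)).asIdeal = e := fun g => by
    rw [dm_mv g.2 h (hK g), hd]
  have key : ∀ (𝒪 : ValuationSubring Ω) (g : MG N c U),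
      (∀ (h' : Pnt Γ N c (mvA g.1 (fun m => φ (a m))) (mvY g.1 (fun m => φ (y m)))) (r : HR Γ N c),
        𝒪.valuation (ev pb r - ev h' r) < 1) →
      ∀ r ∈ (kr (hK g)).asIdeal, 𝒪.valuation (ev pb r) < 1 := by
    intro 𝒪 g hg r hr
    have e1 : ∀ m, mvA g.1 (fun m => φ (a m)) m = φ (mvA g.1 a m) := fun _ => rfl
    have e2 : ∀ m, mvY g.1 (fun m => φ (y m)) m = φ (mvY g.1 y m) := by
      intro m
      change ((g.1.left m : ℤ) : Ω) * φ (y (g.1.right⁻¹ m)) = φ (((g.1.left m : ℤ) : L) * y (g.1.right⁻¹ m))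
      rw [map_mul, map_intCast]
    have h' := c12_map φ (hK g) e1 e2
    have h1 := hg h' r
    rw [c12_ev φ (hK g) e1 e2 h' r] at h1
    have h2 : ev (hK g) r = 0 := hr
    rw [h2, map_zero, sub_zero] at h1
    exact h1
  obtain ⟨b0, bi, hb0, hbi, hS0, hSi, hne, hRt⟩ := fam_val (ev pb) f hf0 e hΩ
    {p | ∃ g : MG N c U, chi I g.1 = 1 ∧ kr (hK g) = p} {p | ∃ g : MG N c U, chi I g.1 = -1 ∧ kr (hK g) = p}
    (by rintro p ⟨g, -, rfl⟩; exact hdK g) (by rintro p ⟨g, -, rfl⟩; exact hdK g)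
    (by
      intro 𝒪 hΘ hf
      obtain ⟨g, hg, hchi, hgr⟩ := h0 𝒪 hΘ hf
      exact ⟨kr (hK ⟨g, hg⟩), ⟨⟨g, hg⟩, hchi, rfl⟩, key 𝒪 ⟨g, hg⟩ hgr⟩)
    (by
      intro 𝒪 hΘ hf
      obtain ⟨g, hg, hchi, hgr⟩ := hi 𝒪 hΘ hf
      exact ⟨kr (hK ⟨g, hg⟩), ⟨⟨g, hg⟩, hchi, rfl⟩, key 𝒪 ⟨g, hg⟩ hgr⟩)
    (by
      obtain ⟨𝒪, hΘ, hf, hφ, hr⟩ := hn
      refine ⟨kr h, ⟨1, ?_, c12_kr _ _ (mvA_one a) (mvY_one y)⟩, 𝒪, hΘ, hf, ?_⟩
      · exact Finset.prod_eq_one fun _ _ => rfl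
      · intro r hlt
        change ev h r = 0
        by_contra hne
        have h1 : 𝒪.valuation (φ (ev h r)) < 1 := by
          have e1 : φ (ev h r) = ev pb r - (ev pb r - φ (ev h r)) := by ring
          rw [e1]
          exact Valuation.map_sub_lt _ hlt (hr r)
        have h2 := (𝒪.valuation_le_one_iff _).2 (hφ (ev h r)⁻¹)
        rw [map_inv₀, map_inv₀] at h2
        have h3 : 𝒪.valuation (φ (ev h r)) ≠ 0 := by
          rw [Valuation.ne_zero_iff]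
          exact (map_ne_zero φ).2 hne
        exact not_lt.2 ((inv_le_one₀ (zero_lt_iff.2 h3)).1 h2) h1)
  have c0 : ∀ p, ∃ g : MG N c U, b0 p ≠ 0 → chi I g.1 = 1 ∧ kr (hK g) = p := by
    intro p
    by_cases hp : b0 p = 0
    · exact ⟨1, fun h1 => absurd hp h1⟩
    · obtain ⟨g, hg⟩ := hS0 p hp
      exact ⟨g, fun _ => hg⟩
  have ci : ∀ p, ∃ g : MG N c U, bi p ≠ 0 → chi I g.1 = -1 ∧ kr (hK g) = p := by
    intro p
    by_cases hp : bi p = 0
    · exact ⟨1, fun h1 => absurd hp h1⟩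
    · obtain ⟨g, hg⟩ := hSi p hp
      exact ⟨g, fun _ => hg⟩
  choose g0 hg0 using c0
  choose gi hgi using ci
  have hpm : (1 : ℤˣ) ≠ -1 := by decide
  refine ⟨fun g => (if chi I g.1 = 1 ∧ g0 (kr (hK g)) = g then b0 (kr (hK g)) else 0) -
    (if chi I g.1 = -1 ∧ gi (kr (hK g)) = g then bi (kr (hK g)) else 0), ?_, ?_, ?_⟩
  · intro g
    rcases Int.units_eq_one_or (chi I g.1) with h1 | h1
    · have h2 : ¬ (chi I g.1 = -1 ∧ gi (kr (hK g)) = g) := by
        rintro ⟨h3, -⟩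
        rw [h1] at h3
        exact hpm h3
      dsimp only
      rw [if_neg h2, h1, Units.val_one, mul_one, sub_zero]
      split_ifs
      · exact hb0 _
      · exact le_refl _
    · have h2 : ¬ (chi I g.1 = 1 ∧ g0 (kr (hK g)) = g) := by
        rintro ⟨h3, -⟩
        rw [h1] at h3
        exact hpm h3.symm
      dsimp only
      rw [if_neg h2, h1, Units.val_neg, Units.val_one, zero_sub, mul_neg, mul_one, neg_neg]
      split_ifs
      · exact hbi _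
      · exact le_refl _
  · obtain ⟨p, hp⟩ : ∃ p, b0 p ≠ 0 := by
      by_contra hcon
      push Not at hcon
      exact hne (Finsupp.ext hcon)
    obtain ⟨h1, h2⟩ := hg0 p hp
    refine ⟨g0 p, ?_⟩
    have h3 : ¬ (chi I (g0 p).1 = -1 ∧ gi (kr (hK (g0 p))) = g0 p) := by
      rintro ⟨h3, -⟩
      rw [h1] at h3
      exact hpm h3
    have h4 : chi I (g0 p).1 = 1 ∧ g0 (kr (hK (g0 p))) = g0 p := ⟨h1, by rw [h2]⟩
    dsimp only
    rw [if_neg h3, if_pos h4, sub_zero, h2]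
    exact hp
  · refine ⟨1, one_pos, ?_⟩
    rw [Nat.cast_one, one_smul]
    have hcl : ∀ g : MG N c U, cl Γ N c (mvA g.1 a) (mvY g.1 y) = Finsupp.single (kr (hK g)) 1 := by
      intro g
      unfold cl
      rw [dif_pos (hK g)]
    have hsum : ∑ g : MG N c U, ((if chi I g.1 = 1 ∧ g0 (kr (hK g)) = g then b0 (kr (hK g)) else 0) -
        (if chi I g.1 = -1 ∧ gi (kr (hK g)) = g then bi (kr (hK g)) else 0)) •
          cl Γ N c (mvA g.1 a) (mvY g.1 y) = b0 - bi := by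
      simp only [hcl, sub_smul, Finset.sum_sub_distrib]
      congr 1
      · apply c12_sum (fun g : MG N c U => kr (hK g)) g0 (fun g => chi I g.1 = 1) b0 hg0
        intro g
        exact ⟨fun h1 => if_pos h1, fun h1 => if_neg h1⟩
      · apply c12_sum (fun g : MG N c U => kr (hK g)) gi (fun g => chi I g.1 = -1) bi hgi
        intro g
        exact ⟨fun h1 => if_pos h1, fun h1 => if_neg h1⟩
    rw [hsum]
    exact hRt

end Pool.Agent.HUR
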