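import Pool.Agent.HUR.C6
import Pool.Agent.HUR.C11
import Pool.Agent.HUR.C12

namespace Pool.Agent.HUR

open Pool.Agent.HCH Pool.Agent.HCF

variable {ι P : Type} [Fintype P] {Γ : ι → ι → Prop} {N : ι → Prop} {c : P → ι}

private theorem c13_ev {L Ω : Type} [Field L] [Algebra ℂ L] [Field Ω] [Algebra ℂ Ω] (φ : L →ₐ[ℂ] Ω)
    {a y : P → L} (h : Pnt Γ N c a y) (pa : Pnt Γ N c (fun m => φ (a m)) (fun m => φ (y m)))
    (r : HR Γ N c) : ev pa r = φ (ev h r) := by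
  obtain ⟨p, rfl⟩ := Ideal.Quotient.mk_surjective r
  rw [ev_mk, ev_mk]
  have h1 : MvPolynomial.aeval (vl (fun m => φ (a m)) (fun m => φ (y m))) =
      φ.comp (MvPolynomial.aeval (vl a y)) := by
    apply MvPolynomial.algHom_ext
    intro x
    rw [AlgHom.comp_apply, MvPolynomial.aeval_X, MvPolynomial.aeval_X]
    rcases x with _ | x | x
    · change (ds (fun m => φ (a m)))⁻¹ = φ (ds a)⁻¹
      have h2 := map_ds (φ : L →+* Ω) a
      simp only [RingHom.coe_coe] at h2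
      rw [map_inv₀, h2]
    · rfl
    · rfl
  rw [h1, AlgHom.comp_apply]

/-
PROOF. con_exists, then fam_rel with pb = the pb of Con. h0 and hi are con_an with δ = 1 and δ = -1.
hn: the 𝒪 of con_exists; v (φ x) = 1 for x ≠ 0, so the differences φ (a m) - φ (a l) have valuation 1
and the differences b m - b l too; b m, w m ∈ 𝒪 (b m = φ (a m) + (b m - φ (a m))); ev_congr (A9) for the
points (φ ∘ a, φ ∘ y) (the pa of Con) and (b, w): ev pb r ∈ 𝒪 and v (ev pb r - ev pa r) < 1, and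
ev pa r = φ (ev h r) (two algebra homomorphisms HR → Ω which agree on the variables).
-/
theorem conic_rel (hs : ∀ i j, Γ i j → Γ j i) (hi : ∀ j, ¬ Γ j j) {L : Type} [Field L]
    [Algebra ℂ L] [IsAlgClosed L] {a y : P → L} (h : Pnt Γ N c a y) (e : ℕ)
    (hL : Algebra.trdeg ℂ L = (e : Cardinal)) (hd : dm ℂ (kr h).asIdeal = e) (I U : Finset P)
    (hI : ∀ m ∈ I, N (c m)) (j : ι) (s : Prop) (hU : ∀ m ∈ U, c m = j ∧ (m ∈ I ↔ s))
    (hne : (cr Γ c I j s).Nonempty) (hcard : (cr Γ c I j s).card ≤ 2 * U.card) :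
    ∃ bc : MG N c (U : Set P) → ℤ, (∀ g, 0 ≤ bc g * ((chi I g.1 : ℤˣ) : ℤ)) ∧
      (∃ g, bc g ≠ 0) ∧
      ∑ g, bc g • cl Γ N c (mvA g.1 a) (mvY g.1 y) ∈ RS (HR Γ N c) e := by
  obtain ⟨ρ, hρ⟩ := hne
  obtain ⟨Ω, i1, i2, φ, b, w, f, κ, V, W, 𝒪, hcon, hΩ, hf0, hf, hφ, hba, hwy⟩ :=
    con_exists hs hi h e hL I U hI j s hU ρ hρ hcard
  have hφ1 : ∀ x, x ≠ 0 → 𝒪.valuation (φ x) = 1 := by
    intro x hx
    apply le_antisymm ((𝒪.valuation_le_one_iff _).2 (hφ x))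
    have h1 := (𝒪.valuation_le_one_iff _).2 (hφ x⁻¹)
    rw [map_inv₀, map_inv₀] at h1
    have h2 : 𝒪.valuation (φ x) ≠ 0 := by
      rw [Valuation.ne_zero_iff]
      exact (map_ne_zero φ).2 hx
    exact (inv_le_one₀ (zero_lt_iff.2 h2)).1 h1
  have hC : ∀ z : ℂ, algebraMap ℂ Ω z ∈ 𝒪 := by
    intro z
    rw [← φ.commutes z]
    exact hφ _
  have hb : ∀ m, b m ∈ 𝒪 := by
    intro m
    have h1 : (b m - φ (a m)) + φ (a m) = b m := by ring
    rw [← h1]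
    exact add_mem ((𝒪.valuation_le_one_iff _).1 (hba m).le) (hφ _)
  have hw : ∀ m, w m ∈ 𝒪 := by
    intro m
    have h1 : (w m - φ (y m)) + φ (y m) = w m := by ring
    rw [← h1]
    exact add_mem ((𝒪.valuation_le_one_iff _).1 (hwy m).le) (hφ _)
  have hdb : ∀ m l, m ≠ l → 𝒪.valuation (b m - b l) = 1 := by
    intro m l hml
    have h1 : b m - b l = φ (a m - a l) + ((b m - φ (a m)) - (b l - φ (a l))) := by
      rw [map_sub]; ring
    have h2 := hφ1 (a m - a l) (sub_ne_zero.2 fun h3 => hml (h.inj h3))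
    have h3 : 𝒪.valuation ((b m - φ (a m)) - (b l - φ (a l))) < 𝒪.valuation (φ (a m - a l)) := by
      rw [h2]
      exact Valuation.map_sub_lt _ (hba m) (hba l)
    rw [h1, Valuation.map_add_eq_of_lt_left _ h3, h2]
  refine fam_rel h e hd I (U : Set P) hΩ φ hcon.pb f hf0 ?_ ?_ ⟨𝒪, ?_, hf, hφ, ?_⟩
  · intro 𝒪' hΘ hf'
    exact con_an hi hU hcon hf0 𝒪' hΘ 1 (Or.inl ⟨rfl, hf'⟩)
  · intro 𝒪' hΘ hf'
    exact con_an hi hU hcon hf0 𝒪' hΘ (-1) (Or.inr ⟨rfl, hf'⟩)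
  · intro r
    exact (ev_congr hcon.pa hcon.pb 𝒪 hC hb hw hdb hba hwy r).1
  · intro r
    have h1 := (ev_congr hcon.pa hcon.pb 𝒪 hC hb hw hdb hba hwy r).2
    rw [c13_ev φ h hcon.pa r] at h1
    exact h1

end Pool.Agent.HUR
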