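import Pool.Agent.HUR.Defs2

namespace Pool.Agent.HUR

open Pool.Agent.HCH Pool.Agent.HCF

variable {ι P : Type} [Fintype P] {Γ : ι → ι → Prop} {N : ι → Prop} {c : P → ι}

/- PROOF. y m ^ 2 = nb Γ c a m ∈ 𝒪 (a product of differences) if N (c m), so v (y m) ^ 2 ≤ 1, and
y m = 1 otherwise. -/
theorem y_int {Ω : Type} [Field Ω] {a y : P → Ω} (h : Pnt Γ N c a y) (𝒪 : ValuationSubring Ω)
    (ha : ∀ m, a m ∈ 𝒪) (m : P) : y m ∈ 𝒪 := by
  by_cases hN : N (c m)
  · have h1 : y m ^ 2 ∈ 𝒪 := by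
      rw [h.sq m hN]
      unfold nb
      exact prod_mem (fun l _ => sub_mem (ha m) (ha l))
    rw [← 𝒪.valuation_le_one_iff] at h1 ⊢
    rw [map_pow] at h1
    exact (pow_le_one_iff (two_ne_zero)).1 h1
  · rw [h.one m hN]
    exact one_mem _

omit [Fintype P] in
private theorem c2_prod {Ω : Type} [Field Ω] (𝒪 : ValuationSubring Ω) (s : Finset P) (f g : P → Ω)
    (hf : ∀ l ∈ s, 𝒪.valuation (f l) ≤ 1) (hg : ∀ l ∈ s, 𝒪.valuation (g l) ≤ 1)
    (hfg : ∀ l ∈ s, 𝒪.valuation (f l - g l) < 1) :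
    𝒪.valuation (∏ l ∈ s, f l - ∏ l ∈ s, g l) < 1 := by
  classical
  induction s using Finset.induction_on with
  | empty => simp
  | insert m s hm ih =>
    rw [Finset.prod_insert hm, Finset.prod_insert hm]
    have e : f m * ∏ l ∈ s, f l - g m * ∏ l ∈ s, g l =
        f m * (∏ l ∈ s, f l - ∏ l ∈ s, g l) + (f m - g m) * ∏ l ∈ s, g l := by ring
    rw [e]
    have ih' := ih (fun l hl => hf l (Finset.mem_insert_of_mem hl))
      (fun l hl => hg l (Finset.mem_insert_of_mem hl))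
      (fun l hl => hfg l (Finset.mem_insert_of_mem hl))
    refine Valuation.map_add_lt _ ?_ ?_
    · rw [map_mul]
      calc 𝒪.valuation (f m) * 𝒪.valuation (∏ l ∈ s, f l - ∏ l ∈ s, g l)
          ≤ 1 * 𝒪.valuation (∏ l ∈ s, f l - ∏ l ∈ s, g l) :=
            mul_le_mul_left (hf m (Finset.mem_insert_self m s)) _
        _ < 1 := by rw [one_mul]; exact ih'
    · rw [map_mul]
      have h1 : 𝒪.valuation (∏ l ∈ s, g l) ≤ 1 := by
        rw [map_prod]
        exact Finset.prod_le_one' (fun l hl => hg l (Finset.mem_insert_of_mem hl))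
      calc 𝒪.valuation (f m - g m) * 𝒪.valuation (∏ l ∈ s, g l)
          ≤ 𝒪.valuation (f m - g m) * 1 := mul_le_mul_right h1 _
        _ < 1 := by rw [mul_one]; exact hfg m (Finset.mem_insert_self m s)

private theorem c2_unit {Ω : Type} [Field Ω] (𝒪 : ValuationSubring Ω) (e : ℤˣ) :
    𝒪.valuation (((e : ℤ) : Ω)) = 1 := by
  rcases Int.units_eq_one_or e with h | h
  · rw [h]; simp
  · rw [h]; simp

/-
PROOF. v 2 = 1 since 2 and 2⁻¹ are in 𝒪 (images of complex numbers). (1) v (w m) = 1 for all m: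
w m ^ 2 = nb Γ c b m is a product of differences b m - b l with Γ (c m) (c l), so l ≠ m (hi), each
of valuation 1; or w m = 1. (2) For N (c m) (then N (c (σ m)) too):
y (σ m) ^ 2 = nb Γ c a (σ m) = nb Γ c (a ∘ σ) m (nb_comp of Defs) and
v (nb Γ c b m - nb Γ c (a ∘ σ) m) < 1 (products of elements of 𝒪 with congruent factors; induction
over the finset: x x' - z z' = x (x' - z') + (x - z) z'). So
v ((w m - y (σ m)) * (w m + y (σ m))) < 1, and one of the two factors has valuation < 1: ε m := 1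
or - 1. For ¬ N (c m) put ε m := 1 (w m = 1 = y (σ m), valuation of 0).
(3) ∏ m ∈ I, w m ≡ ∏ m ∈ I, (ε m * y (σ m)) = (∏ ε m) * ∏ m ∈ I, y (σ m) modulo the maximal ideal,
and ∏ m ∈ I, y (σ m) = ∏ m ∈ I, y m =: Y since σ permutes I (hI). v Y = 1: v (y (σ m)) = v (w m) = 1.
With hδ: v ((∏ ε - δ) * Y) < 1, so v (∏ ε - δ) < 1; if ∏ ε ≠ δ then the difference is ± 2, of
valuation 1 (Int.units_eq_one_or).
-/
theorem signs {Ω : Type} [Field Ω] [Algebra ℂ Ω] (hi : ∀ j, ¬ Γ j j) {a y b w : P → Ω}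
    (pa : Pnt Γ N c a y) (pb : Pnt Γ N c b w) (𝒪 : ValuationSubring Ω)
    (hC : ∀ z : ℂ, algebraMap ℂ Ω z ∈ 𝒪) (ha : ∀ m, a m ∈ 𝒪) (hb : ∀ m, b m ∈ 𝒪)
    (hd : ∀ m l, m ≠ l → 𝒪.valuation (b m - b l) = 1)
    (σ : Equiv.Perm P) (hσ : ∀ m, c (σ m) = c m) (hab : ∀ m, 𝒪.valuation (b m - a (σ m)) < 1)
    (I : Finset P) (hI : ∀ m, σ m ∈ I ↔ m ∈ I) (δ : ℤˣ)
    (hδ : 𝒪.valuation (∏ m ∈ I, w m - ((δ : ℤ) : Ω) * ∏ m ∈ I, y m) < 1) :
    ∃ ε : P → ℤˣ, (∀ m, ¬ N (c m) → ε m = 1) ∧ ∏ m ∈ I, ε m = δ ∧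
      ∀ m, 𝒪.valuation (w m - ((ε m : ℤ) : Ω) * y (σ m)) < 1 := by
  classical
  have hle : ∀ x, x ∈ 𝒪 → 𝒪.valuation x ≤ 1 := fun x hx => (𝒪.valuation_le_one_iff x).2 hx
  -- the valuation of 2
  have h2 : 𝒪.valuation (2 : Ω) = 1 := by
    have e1 : 𝒪.valuation (2 : Ω) ≤ 1 := hle _ (by
      have := hC 2
      rwa [map_ofNat] at this)
    have e2 : 𝒪.valuation ((2 : Ω)⁻¹) ≤ 1 := hle _ (by
      have := hC 2⁻¹
      rwa [map_inv₀, map_ofNat] at this)
    have h20 : (2 : Ω) ≠ 0 := by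
      have := (algebraMap ℂ Ω).injective.ne (a₁ := (2 : ℂ)) (a₂ := 0) two_ne_zero
      rwa [map_ofNat, map_zero] at this
    rw [map_inv₀] at e2
    refine le_antisymm e1 ?_
    have hpos : 0 < 𝒪.valuation (2 : Ω) := (Valuation.pos_iff _).2 h20
    exact (inv_le_one₀ hpos).1 e2
  -- step 1
  have hw : ∀ m, 𝒪.valuation (w m) = 1 := by
    intro m
    by_cases hN : N (c m)
    · have h1 : 𝒪.valuation (w m ^ 2) = 1 := by
        rw [pb.sq m hN]
        unfold nb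
        rw [map_prod]
        refine Finset.prod_eq_one (fun l hl => hd m l ?_)
        rintro rfl
        exact hi _ (Finset.mem_filter.1 hl).2
      rw [map_pow] at h1
      exact (pow_eq_one_iff_of_nonneg zero_le two_ne_zero).1 h1
    · rw [pb.one m hN, map_one]
  -- step 2
  have hex : ∀ m, ∃ e : ℤˣ, (¬ N (c m) → e = 1) ∧
      𝒪.valuation (w m - ((e : ℤ) : Ω) * y (σ m)) < 1 := by
    intro m
    by_cases hN : N (c m)
    · have hN' : N (c (σ m)) := by rw [hσ]; exact hN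
      have e1 : w m ^ 2 = nb Γ c b m := pb.sq m hN
      have e2 : y (σ m) ^ 2 = nb Γ c (fun l => a (σ l)) m := by
        rw [nb_comp Γ c a σ hσ m]
        exact pa.sq _ hN'
      have h3 : 𝒪.valuation (nb Γ c b m - nb Γ c (fun l => a (σ l)) m) < 1 := by
        unfold nb
        refine c2_prod 𝒪 _ _ _ (fun l _ => hle _ (sub_mem (hb m) (hb l)))
          (fun l _ => hle _ (sub_mem (ha _) (ha _))) (fun l _ => ?_)
        have e : b m - b l - (a (σ m) - a (σ l)) = (b m - a (σ m)) - (b l - a (σ l)) := by ring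
        rw [e]
        exact lt_of_le_of_lt (Valuation.map_sub _ _ _) (max_lt (hab m) (hab l))
      rw [← e1, ← e2] at h3
      have e3 : w m ^ 2 - y (σ m) ^ 2 = (w m - y (σ m)) * (w m + y (σ m)) := by ring
      rw [e3, map_mul] at h3
      by_cases h4 : 𝒪.valuation (w m - y (σ m)) < 1
      · refine ⟨1, fun h => absurd hN h, ?_⟩
        rw [Units.val_one, Int.cast_one, one_mul]
        exact h4
      · refine ⟨-1, fun h => absurd hN h, ?_⟩
        rw [Units.val_neg, Units.val_one, Int.cast_neg, Int.cast_one, neg_one_mul, sub_neg_eq_add]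
        by_contra h5
        exact absurd h3 (not_lt.2 (one_le_mul (not_lt.1 h4) (not_lt.1 h5)))
    · refine ⟨1, fun _ => rfl, ?_⟩
      have hN' : ¬ N (c (σ m)) := by rw [hσ]; exact hN
      rw [pb.one m hN, pa.one _ hN', Units.val_one, Int.cast_one, one_mul, sub_self, map_zero]
      exact zero_lt_one
  choose ε hε1 hε2 using hex
  refine ⟨ε, hε1, ?_, hε2⟩
  -- step 3
  have hy : ∀ m, 𝒪.valuation (y (σ m)) = 1 := by
    intro m
    have h3 : 𝒪.valuation (((ε m : ℤ) : Ω) * y (σ m)) = 𝒪.valuation (w m) := by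
      have h4 : 𝒪.valuation (w m - ((ε m : ℤ) : Ω) * y (σ m)) < 𝒪.valuation (w m) := by
        rw [hw m]; exact hε2 m
      have h5 := Valuation.map_sub_eq_of_lt_right 𝒪.valuation h4
      have e : w m - ((ε m : ℤ) : Ω) * y (σ m) - w m = -(((ε m : ℤ) : Ω) * y (σ m)) := by ring
      rw [e, Valuation.map_neg] at h5
      exact h5
    rw [map_mul, c2_unit, one_mul, hw] at h3
    exact h3
  have hprod : ∏ m ∈ I, y (σ m) = ∏ m ∈ I, y m := by
    refine Finset.prod_bij (fun m _ => σ m) (fun m hm => (hI m).2 hm)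
      (fun m _ l _ e => σ.injective e) (fun l hl => ⟨σ.symm l, ?_, σ.apply_symm_apply l⟩)
      (fun m _ => rfl)
    rw [← hI, σ.apply_symm_apply]
    exact hl
  have hY : 𝒪.valuation (∏ m ∈ I, y m) = 1 := by
    rw [← hprod, map_prod]
    exact Finset.prod_eq_one (fun m _ => hy m)
  have h6 : 𝒪.valuation (∏ m ∈ I, w m - ∏ m ∈ I, (((ε m : ℤ) : Ω) * y (σ m))) < 1 := by
    refine c2_prod 𝒪 I _ _ (fun m _ => (hw m).le) (fun m _ => ?_) (fun m _ => hε2 m)
    rw [map_mul, c2_unit, one_mul, hy]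
  rw [Finset.prod_mul_distrib, hprod] at h6
  have h7 : ∏ m ∈ I, ((ε m : ℤ) : Ω) = (((∏ m ∈ I, ε m : ℤˣ) : ℤ) : Ω) := by
    rw [Units.coe_prod, Int.cast_prod]
  rw [h7] at h6
  have h8 : 𝒪.valuation (((((∏ m ∈ I, ε m : ℤˣ) : ℤ) : Ω) - ((δ : ℤ) : Ω)) * ∏ m ∈ I, y m) < 1 := by
    have e : ((((∏ m ∈ I, ε m : ℤˣ) : ℤ) : Ω) - ((δ : ℤ) : Ω)) * ∏ m ∈ I, y m =
        (∏ m ∈ I, w m - ((δ : ℤ) : Ω) * ∏ m ∈ I, y m) -
        (∏ m ∈ I, w m - (((∏ m ∈ I, ε m : ℤˣ) : ℤ) : Ω) * ∏ m ∈ I, y m) := by ring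
    rw [e]
    exact lt_of_le_of_lt (Valuation.map_sub _ _ _) (max_lt hδ h6)
  rw [map_mul, hY, mul_one] at h8
  generalize (∏ m ∈ I, ε m : ℤˣ) = E at h8 ⊢
  rcases Int.units_eq_one_or E with h | h <;> rcases Int.units_eq_one_or δ with h' | h' <;>
    subst h <;> subst h'
  · rfl
  · exfalso
    have e : (((1 : ℤˣ) : ℤ) : Ω) - (((-1 : ℤˣ) : ℤ) : Ω) = 2 := by
      rw [Units.val_neg, Units.val_one, Int.cast_neg, Int.cast_one]; norm_num
    rw [e, h2] at h8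
    exact lt_irrefl _ h8
  · exfalso
    have e : (((-1 : ℤˣ) : ℤ) : Ω) - (((1 : ℤˣ) : ℤ) : Ω) = -2 := by
      rw [Units.val_neg, Units.val_one, Int.cast_neg, Int.cast_one]; norm_num
    rw [e, Valuation.map_neg, h2] at h8
    exact lt_irrefl _ h8
  · rfl

end Pool.Agent.HUR
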