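import Pool.Agent.HUR.Defs2

namespace Pool.Agent.HUR

open Polynomial

/-
PROOF. Polynomial identities. With A = Q + κ V, Q2 = Q + 2 κ V + κ ^ 2 W and V2 = - V - κ W:
Q2 * W = Q W + 2 κ V W + κ ^ 2 W ^ 2 = V ^ 2 - R + 2 κ V W + κ ^ 2 W ^ 2 = V2 ^ 2 - R
(linear_combination vw after C_mul, C_pow; write everything with k = C κ and C 2 = 2).
Q * Q2 = Q ^ 2 + 2 κ Q V + κ ^ 2 (V ^ 2 - R) = A ^ 2 - κ ^ 2 R (linear_combination (C κ ^ 2) * vw).
Third: κ (1 + f ^ 2 - 2 f V2 x) - 2 f Q2 x = κ (1 + f ^ 2 - 2 f V x) - 2 f Q x (eval, ring).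
Fourth: κ (1 + f ^ 2) = 2 f Q x + 2 f κ V x = 2 f A x. Fifth: Q x * Q2 x = A x ^ 2 - κ ^ 2 (from the
second with R x = 1) and (1 + f ^ 2) ^ 2 κ ^ 2 = 4 f ^ 2 A x ^ 2 (the square of the fourth), and
(1 + f ^ 2) ^ 2 - 4 f ^ 2 = (1 - f ^ 2) ^ 2.
-/
theorem con_alg {Ω : Type} [Field Ω] (Q V W R : Polynomial Ω) (f κ x : Ω)
    (vw : Q * W = V ^ 2 - R) (hR : R.eval x = 1)
    (kap : κ * (1 + f ^ 2 - 2 * f * V.eval x) = 2 * f * Q.eval x) :
    (Q + C (2 * κ) * V + C (κ ^ 2) * W) * W = (-V - C κ * W) ^ 2 - R ∧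
    Q * (Q + C (2 * κ) * V + C (κ ^ 2) * W) = (Q + C κ * V) ^ 2 - C (κ ^ 2) * R ∧
    κ * (1 + f ^ 2 - 2 * f * (-V - C κ * W).eval x) =
      2 * f * (Q + C (2 * κ) * V + C (κ ^ 2) * W).eval x ∧
    κ * (1 + f ^ 2) = 2 * f * (Q + C κ * V).eval x ∧
    (1 + f ^ 2) ^ 2 * (Q.eval x * (Q + C (2 * κ) * V + C (κ ^ 2) * W).eval x) =
      (1 - f ^ 2) ^ 2 * (Q + C κ * V).eval x ^ 2 := by
  have e2 : (C (2 * κ) : Polynomial Ω) = 2 * C κ := by
    rw [C_mul]; rfl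
  have e3 : (C (κ ^ 2) : Polynomial Ω) = C κ ^ 2 := by rw [C_pow]
  have h1 : (Q + C (2 * κ) * V + C (κ ^ 2) * W) * W = (-V - C κ * W) ^ 2 - R := by
    rw [e2, e3]
    linear_combination vw
  have h2 : Q * (Q + C (2 * κ) * V + C (κ ^ 2) * W) = (Q + C κ * V) ^ 2 - C (κ ^ 2) * R := by
    rw [e2, e3]
    linear_combination (C κ ^ 2) * vw
  have h4 : κ * (1 + f ^ 2) = 2 * f * (Q + C κ * V).eval x := by
    simp only [eval_add, eval_mul, eval_C]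
    linear_combination kap
  have h3 : κ * (1 + f ^ 2 - 2 * f * (-V - C κ * W).eval x) =
      2 * f * (Q + C (2 * κ) * V + C (κ ^ 2) * W).eval x := by
    simp only [eval_add, eval_mul, eval_C, eval_neg, eval_sub]
    linear_combination kap
  refine ⟨h1, h2, h3, h4, ?_⟩
  have h5 := congrArg (eval x) h2
  simp only [eval_mul, eval_sub, eval_pow, hR, eval_C] at h5
  rw [h5]
  linear_combination (-(κ * (1 + f ^ 2) + 2 * f * (Q + C κ * V).eval x)) * h4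

/-
PROOF. If v f < 1: u := 1 + f ^ 2 - 2 f x2 has v (u - 1) < 1 so v u = 1
(Valuation.map_one_add_of_lt or map_sub_eq_of_lt...), and v κ = v (2 f z) < 1. If v f⁻¹ < 1 put
g = f⁻¹ and multiply the equation by g ^ 2: κ (g ^ 2 + 1 - 2 g x2) = 2 g z (field_simp), and the
same argument.
-/
theorem kap_small {Ω : Type} [Field Ω] (𝒪 : ValuationSubring Ω) (f κ x2 z : Ω)
    (h2 : (2 : Ω) ∈ 𝒪) (hx : x2 ∈ 𝒪) (hz : z ∈ 𝒪) (hf0 : f ≠ 0)
    (hk : κ * (1 + f ^ 2 - 2 * f * x2) = 2 * f * z)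
    (hf : 𝒪.valuation f < 1 ∨ 𝒪.valuation f⁻¹ < 1) : 𝒪.valuation κ < 1 := by
  have key : ∀ g : Ω, 𝒪.valuation g < 1 → κ * (1 + g ^ 2 - 2 * g * x2) = 2 * g * z →
      𝒪.valuation κ < 1 := by
    intro g hg hk
    have hv2 : 𝒪.valuation 2 ≤ 1 := (ValuationSubring.valuation_le_one_iff _ _).2 h2
    have hvx : 𝒪.valuation x2 ≤ 1 := (ValuationSubring.valuation_le_one_iff _ _).2 hx
    have hvz : 𝒪.valuation z ≤ 1 := (ValuationSubring.valuation_le_one_iff _ _).2 hz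
    have hu : 𝒪.valuation (g ^ 2 - 2 * g * x2) < 1 := by
      refine lt_of_le_of_lt (Valuation.map_sub _ _ _) (max_lt ?_ ?_)
      · rw [map_pow]
        exact pow_lt_one₀ zero_le' hg two_ne_zero
      · rw [map_mul, map_mul]
        calc 𝒪.valuation 2 * 𝒪.valuation g * 𝒪.valuation x2 ≤ 1 * 𝒪.valuation g * 1 :=
              mul_le_mul' (mul_le_mul' hv2 le_rfl) hvx
          _ = 𝒪.valuation g := by rw [one_mul, mul_one]
          _ < 1 := hg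
    have hu1 : 𝒪.valuation (1 + g ^ 2 - 2 * g * x2) = 1 := by
      rw [add_sub_assoc]
      exact Valuation.map_one_add_of_lt _ hu
    have h3 : 𝒪.valuation κ = 𝒪.valuation (2 * g * z) := by
      rw [← hk, map_mul, hu1, mul_one]
    rw [h3, map_mul, map_mul]
    calc 𝒪.valuation 2 * 𝒪.valuation g * 𝒪.valuation z ≤ 1 * 𝒪.valuation g * 1 :=
          mul_le_mul' (mul_le_mul' hv2 le_rfl) hvz
      _ = 𝒪.valuation g := by rw [one_mul, mul_one]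
      _ < 1 := hg
  rcases hf with hf | hf
  · exact key f hf hk
  · refine key f⁻¹ hf ?_
    have hi : f * f⁻¹ = 1 := mul_inv_cancel₀ hf0
    linear_combination (f⁻¹ ^ 2) * hk + (-κ * f * f⁻¹ - κ + 2 * x2 * κ * f⁻¹ + 2 * z * f⁻¹) * hi

end Pool.Agent.HUR
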