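import Pool.Agent.HUR.Defs2

namespace Pool.Agent.HUR

variable {P : Type} [Fintype P]

private def intP {Ω : Type} [Field Ω] (𝒪 : ValuationSubring Ω) : Subring (Polynomial Ω) where
  carrier := {p | ∀ i, p.coeff i ∈ 𝒪}
  zero_mem' := fun i => by rw [Polynomial.coeff_zero]; exact zero_mem _
  one_mem' := fun i => by
    rw [Polynomial.coeff_one]
    split_ifs
    · exact one_mem _
    · exact zero_mem _
  add_mem' := fun {p q} hp hq i => by
    rw [Polynomial.coeff_add]; exact add_mem (hp i) (hq i)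
  neg_mem' := fun {p} hp i => by
    rw [Polynomial.coeff_neg]; exact neg_mem (hp i)
  mul_mem' := fun {p q} hp hq i => by
    rw [Polynomial.coeff_mul]
    exact sum_mem (fun x _ => mul_mem (hp _) (hq _))

private theorem intP_C {Ω : Type} [Field Ω] (𝒪 : ValuationSubring Ω) (x : Ω) (hx : x ∈ 𝒪) :
    Polynomial.C x ∈ intP 𝒪 := fun i => by
  rw [Polynomial.coeff_C]
  split_ifs
  · exact hx
  · exact zero_mem _

private theorem intP_X {Ω : Type} [Field Ω] (𝒪 : ValuationSubring Ω) :
    (Polynomial.X : Polynomial Ω) ∈ intP 𝒪 := fun i => by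
  rw [Polynomial.coeff_X]
  split_ifs
  · exact one_mem _
  · exact zero_mem _

/-
PROOF. Lagrange: V = ∑ m ∈ U, C (V.eval (b m)) * Lagrange.basis U b m
(Lagrange.eq_interpolate_of_eval_eq / Lagrange.eq_interpolate, b is injective on U since the
differences have valuation 1, so they are not 0). basis U b m = ∏ l ∈ U.erase m,
C (b m - b l)⁻¹ * (X - C (b l)) (Lagrange.basis, basisDivisor). The polynomials with all
coefficients in 𝒪 form a subring (image of 𝒪[X]; Polynomial.lifts, or coeff_mul / coeff_add), it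
contains C (V.eval (b m)), C (b m - b l)⁻¹ (valuation 1) and X - C (b l).
-/
theorem interp_int {Ω : Type} [Field Ω] (𝒪 : ValuationSubring Ω) (U : Finset P) (b : P → Ω)
    (V : Polynomial Ω) (hb : ∀ m ∈ U, b m ∈ 𝒪)
    (hd : ∀ m ∈ U, ∀ l ∈ U, m ≠ l → 𝒪.valuation (b m - b l) = 1)
    (hdeg : V.degree < U.card) (hV : ∀ m ∈ U, V.eval (b m) ∈ 𝒪) (i : ℕ) : V.coeff i ∈ 𝒪 := by
  classical
  have hinj : Set.InjOn b U := by
    intro m hm l hl e
    by_contra hne
    have := hd m hm l hl hne
    rw [e, sub_self, map_zero] at this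
    exact zero_ne_one this
  have h1 : V = Lagrange.interpolate U b (fun m => V.eval (b m)) :=
    Lagrange.eq_interpolate hinj hdeg
  have h2 : V ∈ intP 𝒪 := by
    rw [h1, Lagrange.interpolate_apply]
    refine sum_mem (fun m hm => mul_mem (intP_C 𝒪 _ (hV m hm)) ?_)
    unfold Lagrange.basis
    refine prod_mem (fun l hl => ?_)
    unfold Lagrange.basisDivisor
    have hne : m ≠ l := fun e => (Finset.mem_erase.1 hl).1 e.symm
    have hl' := (Finset.mem_erase.1 hl).2
    refine mul_mem (intP_C 𝒪 _ ?_) (sub_mem (intP_X 𝒪) (intP_C 𝒪 _ (hb l hl')))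
    rw [← ValuationSubring.valuation_le_one_iff, map_inv₀, hd m hm l hl' hne, inv_one]
  exact h2 i

/-
PROOF. Q = map Q', Z = map Z' for polynomials over 𝒪 (Polynomial.lifts or Polynomial.toSubring with
𝒪.toSubring), Q' monic (the map is injective). Z /ₘ Q = W and (Z' /ₘ Q').map = Z /ₘ Q
(Polynomial.map_divByMonic). Or by descending induction on i: if i is the largest index with
W.coeff i ∉ 𝒪, then the coefficient of Q * W at Q.natDegree + i is W.coeff i plus elements of 𝒪.
-/
theorem quot_int {Ω : Type} [Field Ω] (𝒪 : ValuationSubring Ω) (Q W Z : Polynomial Ω)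
    (hQ : Q.Monic) (hQi : ∀ i, Q.coeff i ∈ 𝒪) (hZ : ∀ i, Z.coeff i ∈ 𝒪) (h : Q * W = Z) (i : ℕ) :
    W.coeff i ∈ 𝒪 := by
  classical
  by_contra hcon
  -- the largest bad index
  have hlt : ∀ j, W.coeff j ∉ 𝒪 → j ≤ W.natDegree := by
    intro j hj
    by_contra h'
    apply hj
    rw [Polynomial.coeff_eq_zero_of_natDegree_lt (by omega)]
    exact zero_mem _
  let T := (Finset.range (W.natDegree + 1)).filter (fun j => W.coeff j ∉ 𝒪)
  have hT : T.Nonempty := ⟨i, by
    simp only [T, Finset.mem_filter, Finset.mem_range]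
    exact ⟨Nat.lt_succ_of_le (hlt i hcon), hcon⟩⟩
  obtain ⟨m, hm, hmax⟩ := T.exists_max_image id hT
  have hmb : W.coeff m ∉ 𝒪 := (Finset.mem_filter.1 hm).2
  have hgt : ∀ j, m < j → W.coeff j ∈ 𝒪 := by
    intro j hj
    by_contra h'
    have h2 : j ∈ T := by
      simp only [T, Finset.mem_filter, Finset.mem_range]
      exact ⟨Nat.lt_succ_of_le (hlt j h'), h'⟩
    have := hmax j h2
    simp only [id] at this
    omega
  apply hmb
  have h3 := hZ (Q.natDegree + m)
  rw [← h, Polynomial.coeff_mul] at h3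
  have hmem : (Q.natDegree, m) ∈ Finset.HasAntidiagonal.antidiagonal (Q.natDegree + m) := by
    rw [Finset.HasAntidiagonal.mem_antidiagonal]
  rw [← Finset.add_sum_erase _ _ hmem] at h3
  have h4 : ∑ x ∈ (Finset.HasAntidiagonal.antidiagonal (Q.natDegree + m)).erase (Q.natDegree, m),
      Q.coeff x.1 * W.coeff x.2 ∈ 𝒪 := by
    refine sum_mem (fun x hx => ?_)
    obtain ⟨hx1, hx2⟩ := Finset.mem_erase.1 hx
    rw [Finset.HasAntidiagonal.mem_antidiagonal] at hx2
    rcases lt_trichotomy x.1 Q.natDegree with h5 | h5 | h5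
    · exact mul_mem (hQi _) (hgt _ (by omega))
    · exact absurd (Prod.ext h5 (by show x.2 = m; omega)) hx1
    · rw [Polynomial.coeff_eq_zero_of_natDegree_lt h5, zero_mul]
      exact zero_mem _
  have h5 : Q.coeff Q.natDegree = 1 := hQ
  simp only [h5, one_mul] at h3
  have h6 := sub_mem h3 h4
  rwa [add_sub_cancel_right] at h6

/- PROOF. Products of X - C (b m). -/
theorem pol_int {Ω : Type} [Field Ω] (𝒪 : ValuationSubring Ω) (U : Finset P) (b : P → Ω)
    (hb : ∀ m ∈ U, b m ∈ 𝒪) (i : ℕ) : (pol U b).coeff i ∈ 𝒪 := by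
  have h : pol U b ∈ intP 𝒪 := by
    unfold pol
    exact prod_mem (fun m hm => sub_mem (intP_X 𝒪) (intP_C 𝒪 _ (hb m hm)))
  exact h i

/- PROOF. Finset.prod: monic_prod_of_monic, monic_X_sub_C; natDegree_prod_of_monic. -/
theorem pol_monic {Ω : Type} [Field Ω] (U : Finset P) (b : P → Ω) :
    (pol U b).Monic ∧ (pol U b).natDegree = U.card := by
  unfold pol
  refine ⟨Polynomial.monic_prod_of_monic _ _ (fun m _ => Polynomial.monic_X_sub_C _), ?_⟩
  rw [Polynomial.natDegree_prod_of_monic _ _ (fun m _ => Polynomial.monic_X_sub_C _)]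
  simp only [Polynomial.natDegree_X_sub_C, Finset.sum_const, smul_eq_mul, mul_one]

end Pool.Agent.HUR
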