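import Pool.Agent.HUR.A9
import Pool.Agent.HUR.C1
import Pool.Agent.HUR.C2
import Pool.Agent.HUR.C3
import Pool.Agent.HUR.C5

namespace Pool.Agent.HUR

open Pool.Agent.HCH Pool.Agent.HCF

variable {ι P : Type} [Fintype P] {Γ : ι → ι → Prop} {N : ι → Prop} {c : P → ι}

theorem C6_mul_lt {Ω : Type} [Field Ω] (𝒪 : ValuationSubring Ω) {x y : Ω} (hx : x ∈ 𝒪)
    (hy : 𝒪.valuation y < 1) : 𝒪.valuation (x * y) < 1 := by
  rw [map_mul]
  have h1 : 𝒪.valuation x ≤ 1 := (𝒪.valuation_le_one_iff x).2 hx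
  calc 𝒪.valuation x * 𝒪.valuation y ≤ 1 * 𝒪.valuation y := mul_le_mul_left h1 _
    _ = 𝒪.valuation y := one_mul _
    _ < 1 := hy

theorem C6_mem {Ω : Type} [Field Ω] (𝒪 : ValuationSubring Ω) {x : Ω}
    (hx : 𝒪.valuation x < 1) : x ∈ 𝒪 := (𝒪.valuation_le_one_iff x).1 hx.le

theorem C6_add {Ω : Type} [Field Ω] (𝒪 : ValuationSubring Ω) {x y : Ω}
    (hx : 𝒪.valuation x < 1) (hy : 𝒪.valuation y < 1) : 𝒪.valuation (x + y) < 1 :=
  𝒪.valuation.map_add_lt hx hy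

theorem C6_neg {Ω : Type} [Field Ω] (𝒪 : ValuationSubring Ω) {x : Ω}
    (hx : 𝒪.valuation x < 1) : 𝒪.valuation (-x) < 1 := by
  rwa [Valuation.map_neg]

theorem C6_sub {Ω : Type} [Field Ω] (𝒪 : ValuationSubring Ω) {x y : Ω}
    (hx : 𝒪.valuation x < 1) (hy : 𝒪.valuation y < 1) : 𝒪.valuation (x - y) < 1 := by
  rw [sub_eq_add_neg]
  exact C6_add 𝒪 hx (C6_neg 𝒪 hy)

theorem C6_eval_mem {Ω : Type} [Field Ω] (𝒪 : ValuationSubring Ω) {p : Polynomial Ω} {x : Ω}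
    (hp : ∀ i, p.coeff i ∈ 𝒪) (hx : x ∈ 𝒪) : p.eval x ∈ 𝒪 := by
  rw [Polynomial.eval_eq_sum_range]
  exact sum_mem fun i _ => mul_mem (hp i) (pow_mem hx i)

theorem C6_eval_lt {Ω : Type} [Field Ω] (𝒪 : ValuationSubring Ω) {p : Polynomial Ω} {x : Ω}
    (hp : ∀ i, 𝒪.valuation (p.coeff i) < 1) (hx : x ∈ 𝒪) : 𝒪.valuation (p.eval x) < 1 := by
  rw [Polynomial.eval_eq_sum_range]
  refine Valuation.map_sum_lt _ one_ne_zero fun i _ => ?_
  rw [mul_comm]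
  exact C6_mul_lt 𝒪 (pow_mem hx i) (hp i)

theorem C6_prod {Ω P : Type} [Field Ω] (𝒪 : ValuationSubring Ω) (S : Finset P) (F G : P → Ω)
    (hF : ∀ l ∈ S, F l ∈ 𝒪) (hG : ∀ l ∈ S, G l ∈ 𝒪) (h : ∀ l ∈ S, 𝒪.valuation (F l - G l) < 1) :
    𝒪.valuation (∏ l ∈ S, F l - ∏ l ∈ S, G l) < 1 := by
  classical
  induction S using Finset.induction_on with
  | empty => simp
  | insert l S hl ih =>
    rw [Finset.prod_insert hl, Finset.prod_insert hl]
    have e : F l * ∏ m ∈ S, F m - G l * ∏ m ∈ S, G m =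
        F l * (∏ m ∈ S, F m - ∏ m ∈ S, G m) + (∏ m ∈ S, G m) * (F l - G l) := by ring
    rw [e]
    refine C6_add 𝒪 (C6_mul_lt 𝒪 (hF l (Finset.mem_insert_self _ _)) (ih ?_ ?_ ?_))
      (C6_mul_lt 𝒪 (prod_mem fun m hm => hG m (Finset.mem_insert_of_mem hm))
        (h l (Finset.mem_insert_self _ _)))
    · exact fun m hm => hF m (Finset.mem_insert_of_mem hm)
    · exact fun m hm => hG m (Finset.mem_insert_of_mem hm)
    · exact fun m hm => h m (Finset.mem_insert_of_mem hm)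

theorem C6_sq_mem {Ω : Type} [Field Ω] (𝒪 : ValuationSubring Ω) {x : Ω} (h : x ^ 2 ∈ 𝒪) :
    x ∈ 𝒪 := by
  rw [← 𝒪.valuation_le_one_iff] at h ⊢
  rw [map_pow] at h
  exact (pow_le_one_iff_of_nonneg zero_le (by norm_num)).1 h

theorem C6_eval_pol {Ω P : Type} [Field Ω] (U : Finset P) (a : P → Ω) (x : Ω) :
    (pol U a).eval x = ∏ m ∈ U, (x - a m) := by
  unfold pol
  rw [Polynomial.eval_prod]
  exact Finset.prod_congr rfl fun m _ => by simp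

theorem C6_unit_prod {Ω P : Type} [Field Ω] (𝒪 : ValuationSubring Ω) (S : Finset P) (F : P → Ω)
    (h : ∀ l ∈ S, 𝒪.valuation (F l) = 1) : 𝒪.valuation (∏ l ∈ S, F l) = 1 := by
  rw [map_prod]
  exact Finset.prod_eq_one h

/-- the final step of (5) -/
theorem C6_fin {Ω : Type} [Field Ω] (𝒪 : ValuationSubring Ω) {Wp Yp X1 X2 E f : Ω} (δ : ℤˣ)
    (hW : Wp ∈ 𝒪) (hY : Yp ∈ 𝒪) (hE : 𝒪.valuation E = 1) (h1 : 𝒪.valuation (X1 - E) < 1)
    (h2 : 𝒪.valuation (X2 - E) < 1) (hf0 : f ≠ 0)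
    (hf : (δ = 1 ∧ 𝒪.valuation f < 1) ∨ (δ = -1 ∧ 𝒪.valuation f⁻¹ < 1))
    (h : Wp * (1 + f ^ 2) * X1 = Yp * (1 - f ^ 2) * X2) :
    𝒪.valuation (Wp - ((δ : ℤ) : Ω) * Yp) < 1 := by
  have hEO : E ∈ 𝒪 := (𝒪.valuation_le_one_iff E).1 hE.le
  have hX1 : X1 ∈ 𝒪 := by
    have := add_mem (C6_mem 𝒪 h1) hEO
    rwa [sub_add_cancel] at this
  have hX2 : X2 ∈ 𝒪 := by
    have := add_mem (C6_mem 𝒪 h2) hEO
    rwa [sub_add_cancel] at this
  have key : 𝒪.valuation ((Wp - ((δ : ℤ) : Ω) * Yp) * E) < 1 := by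
    rcases hf with ⟨rfl, hf⟩ | ⟨rfl, hf⟩
    · have hf2 : 𝒪.valuation (f ^ 2) < 1 := by
        rw [pow_two]
        exact C6_mul_lt 𝒪 (C6_mem 𝒪 hf) hf
      have e : (Wp - (((1 : ℤˣ) : ℤ) : Ω) * Yp) * E =
          Wp * (-(X1 - E) - X1 * f ^ 2) + Yp * ((X2 - E) - X2 * f ^ 2) := by
        push_cast
        linear_combination h
      rw [e]
      exact C6_add 𝒪 (C6_mul_lt 𝒪 hW (C6_sub 𝒪 (C6_neg 𝒪 h1) (C6_mul_lt 𝒪 hX1 hf2)))
        (C6_mul_lt 𝒪 hY (C6_sub 𝒪 h2 (C6_mul_lt 𝒪 hX2 hf2)))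
    · have hf2 : 𝒪.valuation (f⁻¹ ^ 2) < 1 := by
        rw [pow_two]
        exact C6_mul_lt 𝒪 (C6_mem 𝒪 hf) hf
      have hg : f⁻¹ ^ 2 * f ^ 2 = 1 := by
        rw [← mul_pow, inv_mul_cancel₀ hf0, one_pow]
      have e : (Wp - (((-1 : ℤˣ) : ℤ) : Ω) * Yp) * E =
          Wp * (-(X1 - E) - X1 * f⁻¹ ^ 2) + Yp * (-(X2 - E) + X2 * f⁻¹ ^ 2) := by
        push_cast
        linear_combination (f⁻¹ ^ 2) * h - (Wp * X1 + Yp * X2) * hg
      rw [e]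
      exact C6_add 𝒪 (C6_mul_lt 𝒪 hW (C6_sub 𝒪 (C6_neg 𝒪 h1) (C6_mul_lt 𝒪 hX1 hf2)))
        (C6_mul_lt 𝒪 hY (C6_add 𝒪 (C6_neg 𝒪 h2) (C6_mul_lt 𝒪 hX2 hf2)))
  rwa [map_mul, hE, mul_one] at key

/-
PROOF. Write v for 𝒪.valuation, x ≡ y for v (x - y) < 1, x := a ρ, Q := pol U a, Q2 := pol U b,
R := rp (cr Γ c I j s) ρ a, A := Q + C κ * V.
(1) unit_diff for h.pb: ℂ, b, w are in 𝒪, v (b m - b l) = 1 for m ≠ l.
(2) every l ∈ cr or co satisfies Γ j (c l), so l ∉ U (hU, hi) and b l = a l (h.out); ρ ∈ cr. So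
R.eval x = 1 and the coefficients of R are in 𝒪 (the differences a ρ - a l = b ρ - b l have
valuation 1). Q2 is monic with coefficients in 𝒪 (pol_int, pol_monic).
(3) V2 := - V - C κ * W. con_alg (with h.vw, h.kap, h.q2): Q2 * W = V2 ^ 2 - R. κ ≠ 0: otherwise
0 = 2 * f * Q.eval x by h.kap, but Q.eval x = ∏ m ∈ U, (a ρ - a m) ≠ 0 and 2 ≠ 0 (Algebra ℂ Ω).
degree V2 < U.card: C κ * V2 = C κ * V - (Q2 - Q) by h.q2, and Q2 - Q has degree < U.card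
(Polynomial.degree_sub_lt, both are monic of degree U.card), degree V < U.card by h.deg (U is not
empty since h.deg : V.natDegree < U.card). For m ∈ U: V2.eval (b m) ^ 2 = R.eval (b m) ∈ 𝒪
(Q2.eval (b m) = 0), so V2.eval (b m) ∈ 𝒪. interp_int: V2 has coefficients in 𝒪; quot_int: W too.
(4) kap_small with x2 = V2.eval x, z = Q2.eval x (con_alg): v κ < 1. Q2 - Q = - C (2 κ) * V2 -
C (κ ^ 2) * W (from h.q2 and the definition of V2), so all its coefficients have valuation < 1, and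
roots_match gives a m ∈ 𝒪 for m ∈ U (and a m = b m for m ∉ U) and σ. For m ∉ U:
b m - a (σ m) = 0. σ maps U to U, so c (σ m) = c m and σ m ∈ I ↔ m ∈ I for all m (hU).
(5) y_int: y m ∈ 𝒪. For l ∈ cr ∪ co: Q2.eval (a l) = ∏ m ∈ U, (b l - b m) has valuation 1,
Q.eval (a l) ≡ Q2.eval (a l), A.eval (a l) = Q2.eval (a l) + κ V2.eval (a l) ≡ Q2.eval (a l).
With E := ∏ l ∈ cr, Q2.eval (a l) * ∏ l ∈ co, Q2.eval (a l), v E = 1, h.sgn reads
(∏ I w) * (1 + f ^ 2) * X1 = (∏ I y) * (1 - f ^ 2) * X2 with X1 ≡ E ≡ X2 in 𝒪. If v f < 1 this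
gives ∏ I w * E ≡ ∏ I y * E, so ∏ I w ≡ ∏ I y = δ * ∏ I y. If v f⁻¹ < 1 multiply by (f⁻¹) ^ 2:
(∏ I w) * (f⁻¹ ^ 2 + 1) * X1 = (∏ I y) * (f⁻¹ ^ 2 - 1) * X2 gives ∏ I w ≡ - ∏ I y.
(6) signs gives ε. g := ⟨ε, σ⁻¹⟩ (so g.right⁻¹ = σ): g ∈ MG, chi I g = ∏ ε = δ,
mvA g a m = a (σ m), mvY g y m = ε m * y (σ m). ev_congr with the points (mvA g a, mvY g y), h' and
(b, w), h.pb.
-/
theorem con_an {I U : Finset P} {j : ι} {s : Prop} {ρ : P}
    (hi : ∀ j, ¬ Γ j j) (hU : ∀ m ∈ U, c m = j ∧ (m ∈ I ↔ s))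
    {Ω : Type} [Field Ω] [Algebra ℂ Ω] {a y b w : P → Ω} {f κ : Ω} {V W : Polynomial Ω}
    (h : Con Γ N c I U j s ρ a y b w f κ V W) (hf0 : f ≠ 0) (𝒪 : ValuationSubring Ω)
    (hΘ : ∀ r, ev h.pb r ∈ 𝒪) (δ : ℤˣ)
    (hf : (δ = 1 ∧ 𝒪.valuation f < 1) ∨ (δ = -1 ∧ 𝒪.valuation f⁻¹ < 1)) :
    ∃ g ∈ MG N c (U : Set P), chi I g = δ ∧
      ∀ (h' : Pnt Γ N c (mvA g a) (mvY g y)) (r : HR Γ N c),
        𝒪.valuation (ev h.pb r - ev h' r) < 1 := by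
  classical
  obtain ⟨hC, hb, hw, hd⟩ := unit_diff h.pb 𝒪 hΘ
  have h2O : (2 : Ω) ∈ 𝒪 := by
    have := hC 2
    rwa [map_ofNat] at this
  have h20 : (2 : Ω) ≠ 0 := by
    intro h0
    have h1 : algebraMap ℂ Ω 2 = 0 := by rw [map_ofNat]; exact h0
    exact two_ne_zero ((algebraMap ℂ Ω).injective (h1.trans (map_zero _).symm))
  -- (2)
  have hnU : ∀ l, Γ j (c l) → l ∉ U := by
    intro l hl hlU
    rw [(hU l hlU).1] at hl
    exact hi j hl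
  have hcr : ∀ l ∈ cr Γ c I j s, l ∉ U := by
    intro l hl
    rw [cr, Finset.mem_filter] at hl
    exact hnU l hl.2.1
  have hco : ∀ l ∈ co Γ c I j s, l ∉ U := by
    intro l hl
    rw [co, Finset.mem_filter] at hl
    exact hnU l hl.2.1
  have hρU : ρ ∉ U := hcr ρ h.rho
  have hbρ : b ρ = a ρ := h.out ρ hρU
  have haρ : a ρ ∈ 𝒪 := hbρ ▸ hb ρ
  have hprod : ∏ l ∈ (cr Γ c I j s).erase ρ, (a ρ - a l) = ∏ l ∈ (cr Γ c I j s).erase ρ, (b ρ - b l) := by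
    refine Finset.prod_congr rfl fun l hl => ?_
    rw [hbρ, h.out l (hcr l (Finset.mem_of_mem_erase hl))]
  have hprod1 : 𝒪.valuation (∏ l ∈ (cr Γ c I j s).erase ρ, (a ρ - a l)) = 1 := by
    rw [hprod]
    exact C6_unit_prod 𝒪 _ _ fun l hl => hd ρ l (Finset.ne_of_mem_erase hl).symm
  have hprod0 : ∏ l ∈ (cr Γ c I j s).erase ρ, (a ρ - a l) ≠ 0 := by
    intro h0
    rw [h0, map_zero] at hprod1
    exact zero_ne_one hprod1
  have hR1 : (rp (cr Γ c I j s) ρ a).eval (a ρ) = 1 := by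
    rw [rp, Polynomial.eval_mul, Polynomial.eval_C, C6_eval_pol]
    exact inv_mul_cancel₀ hprod0
  have hpolab : pol ((cr Γ c I j s).erase ρ) a = pol ((cr Γ c I j s).erase ρ) b := by
    unfold pol
    refine Finset.prod_congr rfl fun l hl => ?_
    rw [h.out l (hcr l (Finset.mem_of_mem_erase hl))]
  have hRO : ∀ i, (rp (cr Γ c I j s) ρ a).coeff i ∈ 𝒪 := by
    intro i
    rw [rp, Polynomial.coeff_C_mul, hpolab]
    refine mul_mem ?_ (pol_int 𝒪 _ b (fun m _ => hb m) i)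
    rw [← 𝒪.valuation_le_one_iff, map_inv₀, hprod1, inv_one]
  obtain ⟨e1, -, e3, -, -⟩ := con_alg (pol U a) V W (rp (cr Γ c I j s) ρ a) f κ (a ρ) h.vw hR1 h.kap
  rw [← h.q2] at e1 e3
  obtain ⟨hQ2m, hQ2d⟩ := pol_monic U b
  obtain ⟨hQm, hQd⟩ := pol_monic U a
  have hQ2O := pol_int 𝒪 U b fun m _ => hb m
  -- (3)
  have hκ0 : κ ≠ 0 := by
    intro h0
    have h1 := h.kap
    rw [h0, zero_mul, C6_eval_pol] at h1
    have h3 : ∏ m ∈ U, (a ρ - a m) ≠ 0 := by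
      rw [Finset.prod_ne_zero_iff]
      intro m hm h4
      exact hρU ((h.pa.inj (sub_eq_zero.1 h4)) ▸ hm)
    exact mul_ne_zero (mul_ne_zero h20 hf0) h3 h1.symm
  set V2 : Polynomial Ω := -V - Polynomial.C κ * W with hV2
  have hcV2 : Polynomial.C κ * V2 = Polynomial.C κ * V - (pol U b - pol U a) := by
    rw [hV2, h.q2, Polynomial.C_mul, Polynomial.C_pow]
    have h3 : (Polynomial.C (2 : Ω)) = 2 := Polynomial.C_ofNat 2
    rw [h3]
    ring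
  have hdU : ((pol U b - pol U a)).degree < U.card := by
    have h3 : (pol U b).degree = U.card := by
      rw [Polynomial.degree_eq_natDegree hQ2m.ne_zero, hQ2d]
    have h4 : (pol U a).degree = U.card := by
      rw [Polynomial.degree_eq_natDegree hQm.ne_zero, hQd]
    have h5 := Polynomial.degree_sub_lt_left (h3.trans h4.symm) hQ2m.ne_zero
      (hQ2m.leadingCoeff.trans hQm.leadingCoeff.symm)
    rwa [h3] at h5
  have hdV : (Polynomial.C κ * V).degree < U.card := by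
    rw [Polynomial.degree_C_mul hκ0]
    exact (Polynomial.degree_le_natDegree).trans_lt (by exact_mod_cast h.deg)
  have hdeg : V2.degree < U.card := by
    rw [← Polynomial.degree_C_mul hκ0, hcV2]
    exact (Polynomial.degree_sub_le _ _).trans_lt (max_lt hdV hdU)
  have hV2b : ∀ m ∈ U, V2.eval (b m) ∈ 𝒪 := by
    intro m hm
    apply C6_sq_mem
    have h3 := congrArg (Polynomial.eval (b m)) e1
    rw [Polynomial.eval_mul, C6_eval_pol, Finset.prod_eq_zero hm (sub_self _), zero_mul,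
      Polynomial.eval_sub, Polynomial.eval_pow] at h3
    rw [sub_eq_zero.1 h3.symm]
    exact C6_eval_mem 𝒪 hRO (hb m)
  have hV2O := interp_int 𝒪 U b V2 (fun m _ => hb m) (fun m _ l _ hml => hd m l hml) hdeg hV2b
  have hZ : ∀ i, (V2 ^ 2 - rp (cr Γ c I j s) ρ a).coeff i ∈ 𝒪 := by
    intro i
    rw [Polynomial.coeff_sub, pow_two, Polynomial.coeff_mul]
    exact sub_mem (sum_mem fun p _ => mul_mem (hV2O _) (hV2O _)) (hRO i)
  have hWO := quot_int 𝒪 (pol U b) W _ hQ2m hQ2O hZ e1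
  -- (4)
  have hκ : 𝒪.valuation κ < 1 := by
    refine kap_small 𝒪 f κ (V2.eval (a ρ)) ((pol U b).eval (a ρ)) h2O (C6_eval_mem 𝒪 hV2O haρ)
      (C6_eval_mem 𝒪 hQ2O haρ) hf0 e3 ?_
    rcases hf with ⟨-, hf⟩ | ⟨-, hf⟩
    · exact Or.inl hf
    · exact Or.inr hf
  have hκO : κ ∈ 𝒪 := C6_mem 𝒪 hκ
  have hdiff : pol U b - pol U a = -(Polynomial.C (2 * κ) * V2) - Polynomial.C (κ ^ 2) * W := by
    have h3 : (Polynomial.C (2 : Ω)) = 2 := Polynomial.C_ofNat 2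
    rw [h.q2, hV2, Polynomial.C_mul, Polynomial.C_pow, h3]
    ring
  have hc : ∀ i, 𝒪.valuation ((pol U b - pol U a).coeff i) < 1 := by
    intro i
    rw [hdiff, Polynomial.coeff_sub, Polynomial.coeff_neg, Polynomial.coeff_C_mul,
      Polynomial.coeff_C_mul]
    refine C6_sub 𝒪 (C6_neg 𝒪 ?_) ?_
    · have e : 2 * κ * V2.coeff i = (2 * V2.coeff i) * κ := by ring
      rw [e]
      exact C6_mul_lt 𝒪 (mul_mem h2O (hV2O i)) hκ
    · have e : κ ^ 2 * W.coeff i = (κ * W.coeff i) * κ := by ring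
      rw [e]
      exact C6_mul_lt 𝒪 (mul_mem hκO (hWO i)) hκ
  obtain ⟨haU, σ, hσU, hσab⟩ := roots_match 𝒪 U a b (fun m _ => hb m)
    (fun m _ l _ hml => hd m l hml) hc
  have ha : ∀ m, a m ∈ 𝒪 := by
    intro m
    by_cases hm : m ∈ U
    · exact haU m hm
    · rw [← h.out m hm]
      exact hb m
  have hab : ∀ m, 𝒪.valuation (b m - a (σ m)) < 1 := by
    intro m
    by_cases hm : m ∈ U
    · exact hσab m hm
    · rw [hσU m hm, h.out m hm, sub_self, map_zero]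
      exact zero_lt_one
  have hσm : ∀ m ∈ U, σ m ∈ U := by
    intro m hm
    by_contra hn
    exact hn ((σ.injective (hσU _ hn)).symm ▸ hm)
  have hσc : ∀ m, c (σ m) = c m := by
    intro m
    by_cases hm : m ∈ U
    · rw [(hU m hm).1, (hU _ (hσm m hm)).1]
    · rw [hσU m hm]
  have hσI : ∀ m, σ m ∈ I ↔ m ∈ I := by
    intro m
    by_cases hm : m ∈ U
    · exact (hU _ (hσm m hm)).2.trans (hU m hm).2.symm
    · rw [hσU m hm]
  -- (5)
  have hy := y_int h.pa 𝒪 ha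
  have hval : ∀ l, l ∉ U → 𝒪.valuation ((pol U b).eval (a l)) = 1 ∧
      𝒪.valuation ((pol U a).eval (a l) - (pol U b).eval (a l)) < 1 ∧
      𝒪.valuation ((pol U a + Polynomial.C κ * V).eval (a l) - (pol U b).eval (a l)) < 1 := by
    intro l hl
    refine ⟨?_, ?_, ?_⟩
    · rw [C6_eval_pol, ← h.out l hl]
      exact C6_unit_prod 𝒪 _ _ fun m hm => hd l m (fun e => hl (e ▸ hm))
    · have h3 := C6_neg 𝒪 (C6_eval_lt 𝒪 hc (ha l))
      rwa [Polynomial.eval_sub, neg_sub] at h3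
    · have e : pol U a + Polynomial.C κ * V = pol U b + Polynomial.C κ * V2 := by
        rw [h.q2, hV2, Polynomial.C_mul, Polynomial.C_pow]
        have h3 : (Polynomial.C (2 : Ω)) = 2 := Polynomial.C_ofNat 2
        rw [h3]
        ring
      rw [e, Polynomial.eval_add, add_sub_cancel_left, Polynomial.eval_mul, Polynomial.eval_C,
        mul_comm]
      exact C6_mul_lt 𝒪 (C6_eval_mem 𝒪 hV2O (ha l)) hκ
  have hO2 : ∀ l, l ∉ U → (pol U b).eval (a l) ∈ 𝒪 := fun l hl =>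
    (𝒪.valuation_le_one_iff _).1 (hval l hl).1.le
  have hO1 : ∀ l, l ∉ U → (pol U a).eval (a l) ∈ 𝒪 := by
    intro l hl
    have h3 := add_mem (C6_mem 𝒪 (hval l hl).2.1) (hO2 l hl)
    rwa [sub_add_cancel] at h3
  have hO3 : ∀ l, l ∉ U → (pol U a + Polynomial.C κ * V).eval (a l) ∈ 𝒪 := by
    intro l hl
    have h3 := add_mem (C6_mem 𝒪 (hval l hl).2.2) (hO2 l hl)
    rwa [sub_add_cancel] at h3
  have hδ : 𝒪.valuation (∏ m ∈ I, w m - ((δ : ℤ) : Ω) * ∏ m ∈ I, y m) < 1 := by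
    refine C6_fin 𝒪 (X1 := (∏ l ∈ cr Γ c I j s, (pol U a).eval (a l)) *
        (∏ l ∈ co Γ c I j s, (pol U a).eval (a l)))
      (X2 := (∏ l ∈ cr Γ c I j s, (pol U a + Polynomial.C κ * V).eval (a l)) *
        (∏ l ∈ co Γ c I j s, (pol U b).eval (a l)))
      (E := (∏ l ∈ cr Γ c I j s, (pol U b).eval (a l)) *
        (∏ l ∈ co Γ c I j s, (pol U b).eval (a l))) δ
      (prod_mem fun m _ => hw m) (prod_mem fun m _ => hy m) ?_ ?_ ?_ hf0 hf ?_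
    · rw [map_mul, C6_unit_prod 𝒪 _ _ fun l hl => (hval l (hcr l hl)).1,
        C6_unit_prod 𝒪 _ _ fun l hl => (hval l (hco l hl)).1, one_mul]
    · have e : ∀ x y z t : Ω, x * y - z * t = x * (y - t) + t * (x - z) := fun x y z t => by ring
      rw [e]
      exact C6_add 𝒪
        (C6_mul_lt 𝒪 (prod_mem fun l hl => hO1 l (hcr l hl)) (C6_prod 𝒪 _ _ _
          (fun l hl => hO1 l (hco l hl)) (fun l hl => hO2 l (hco l hl))
          fun l hl => (hval l (hco l hl)).2.1))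
        (C6_mul_lt 𝒪 (prod_mem fun l hl => hO2 l (hco l hl)) (C6_prod 𝒪 _ _ _
          (fun l hl => hO1 l (hcr l hl)) (fun l hl => hO2 l (hcr l hl))
          fun l hl => (hval l (hcr l hl)).2.1))
    · have e : ∀ x y z : Ω, x * y - z * y = y * (x - z) := fun x y z => by ring
      rw [e]
      exact C6_mul_lt 𝒪 (prod_mem fun l hl => hO2 l (hco l hl)) (C6_prod 𝒪 _ _ _
          (fun l hl => hO3 l (hcr l hl)) (fun l hl => hO2 l (hcr l hl))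
          fun l hl => (hval l (hcr l hl)).2.2)
    · rw [← mul_assoc, ← mul_assoc]
      exact h.sgn
  -- (6)
  obtain ⟨ε, hε1, hε2, hε3⟩ := signs hi h.pa h.pb 𝒪 hC ha hb hd σ hσc hab I hσI δ hδ
  refine ⟨⟨ε, σ⁻¹⟩, ⟨hε1, fun m => ?_, fun m hm => ?_⟩, hε2, fun h' r => ?_⟩
  · have h3 := hσc (σ⁻¹ m)
    rw [show σ (σ⁻¹ m) = m from σ.apply_symm_apply m] at h3
    exact h3.symm
  · change σ⁻¹ m = m
    rw [Equiv.Perm.inv_eq_iff_eq]
    exact (hσU m hm).symm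
  · refine (ev_congr h' h.pb 𝒪 hC hb hw hd (fun m => ?_) (fun m => ?_) r).2
    · change 𝒪.valuation (b m - a ((σ⁻¹)⁻¹ m)) < 1
      rw [inv_inv]
      exact hab m
    · change 𝒪.valuation (w m - ((ε m : ℤ) : Ω) * y ((σ⁻¹)⁻¹ m)) < 1
      rw [inv_inv]
      exact hε3 m

end Pool.Agent.HUR
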