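import Pool.Agent.HUR.Defs2

namespace Pool.Agent.HUR

variable {ι P : Type} [Fintype P] {Γ : ι → ι → Prop} {c : P → ι}

/-
PROOF. S := the pairs (m, l) with m ∈ I and Γ (c m) (c l); then l ∈ I too (hI), m ≠ l (hi), and
(l, m) ∈ S (hs). ∏ m ∈ I, nb Γ c a m = ∏ p ∈ S, (a p.1 - a p.2). Take a linear order on P (classically,
e.g. compare the images under Fintype.equivFin P), E := the pairs of S with p.1 < p.2. S is the
disjoint union of E and its image under Prod.swap, and (a m - a l) (a l - a m) = - (a m - a l) ^ 2.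
-/
theorem pair_set (hs : ∀ i j, Γ i j → Γ j i) (hi : ∀ j, ¬ Γ j j) (I : Finset P)
    (hI : ∀ m l, Γ (c m) (c l) → (m ∈ I ↔ l ∈ I)) :
    ∃ E : Finset (P × P), (∀ p ∈ E, p.1 ≠ p.2) ∧ ∀ (k : Type) [Field k] (a : P → k),
      ∏ m ∈ I, nb Γ c a m = (-1) ^ E.card * (∏ p ∈ E, (a p.1 - a p.2)) ^ 2 := by
  classical
  let e := Fintype.equivFin P
  let S : Finset (P × P) := (I ×ˢ Finset.univ).filter (fun p => Γ (c p.1) (c p.2))
  have hS : ∀ p, p ∈ S ↔ p.1 ∈ I ∧ Γ (c p.1) (c p.2) := by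
    intro p
    simp only [S, Finset.mem_filter, Finset.mem_product, Finset.mem_univ, and_true]
  have hne : ∀ p ∈ S, p.1 ≠ p.2 := by
    intro p hp h
    have h1 := ((hS p).1 hp).2
    rw [h] at h1
    exact hi _ h1
  refine ⟨S.filter (fun p => e p.1 < e p.2), fun p hp => hne p (Finset.mem_filter.1 hp).1, ?_⟩
  intro k _ a
  have h1 : ∏ m ∈ I, nb Γ c a m = ∏ p ∈ S, (a p.1 - a p.2) := by
    simp only [nb, S]
    rw [Finset.prod_filter, Finset.prod_product]
    apply Finset.prod_congr rfl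
    intro m _
    rw [Finset.prod_filter]
  have h2 : ∏ p ∈ S.filter (fun p => ¬ e p.1 < e p.2), (a p.1 - a p.2) =
      ∏ p ∈ S.filter (fun p => e p.1 < e p.2), (a p.2 - a p.1) := by
    refine Finset.prod_bij' (fun p _ => p.swap) (fun p _ => p.swap) ?_ ?_ ?_ ?_ ?_
    · intro p hp
      obtain ⟨hp1, hp2⟩ := Finset.mem_filter.1 hp
      have h3 := (hS p).1 hp1
      refine Finset.mem_filter.2 ⟨(hS _).2 ⟨(hI _ _ h3.2).1 h3.1, hs _ _ h3.2⟩, ?_⟩
      have h4 : e p.1 ≠ e p.2 := fun h => hne p hp1 (e.injective h)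
      exact lt_of_le_of_ne (not_lt.1 hp2) h4.symm
    · intro p hp
      obtain ⟨hp1, hp2⟩ := Finset.mem_filter.1 hp
      have h3 := (hS p).1 hp1
      exact Finset.mem_filter.2 ⟨(hS _).2 ⟨(hI _ _ h3.2).1 h3.1, hs _ _ h3.2⟩, not_lt.2 hp2.le⟩
    · intro p _; rfl
    · intro p _; rfl
    · intro p _; rfl
  rw [h1, ← Finset.prod_filter_mul_prod_filter_not S (fun p => e p.1 < e p.2), h2]
  have h3 : ∏ p ∈ S.filter (fun p => e p.1 < e p.2), (a p.2 - a p.1) =
      (-1) ^ (S.filter (fun p => e p.1 < e p.2)).card *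
        ∏ p ∈ S.filter (fun p => e p.1 < e p.2), (a p.1 - a p.2) := by
    rw [← Finset.prod_const, ← Finset.prod_mul_distrib]
    apply Finset.prod_congr rfl
    intro p _
    ring
  rw [h3]
  ring

end Pool.Agent.HUR
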