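import Pool.Agent.HUR.Defs3
import Pool.Agent.HUR.C7
import Pool.Agent.HUR.C10

namespace Pool.Agent.HUR

open Pool.Agent.HCH Pool.Agent.HCF

variable {ι P : Type} [Fintype P] {Γ : ι → ι → Prop} {N : ι → Prop} {c : P → ι}

private theorem d2_mul_lt {Ω : Type} [Field Ω] (𝒪 : ValuationSubring Ω) {x y : Ω} (hx : x ∈ 𝒪)
    (hy : 𝒪.valuation y < 1) : 𝒪.valuation (x * y) < 1 := by
  rw [map_mul]
  exact lt_of_le_of_lt (mul_le_of_le_one_left' ((𝒪.valuation_le_one_iff x).2 hx)) hy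

private theorem d2_prod {Ω : Type} [Field Ω] (𝒪 : ValuationSubring Ω) {s : Type} (t : Finset s)
    (x z : s → Ω) (hx : ∀ i ∈ t, x i ∈ 𝒪) (hz : ∀ i ∈ t, z i ∈ 𝒪)
    (h : ∀ i ∈ t, 𝒪.valuation (x i - z i) < 1) :
    𝒪.valuation (∏ i ∈ t, x i - ∏ i ∈ t, z i) < 1 := by
  classical
  induction t using Finset.induction_on with
  | empty =>
    rw [Finset.prod_empty, Finset.prod_empty, sub_self, map_zero]
    exact zero_lt_one
  | insert i t hi ih =>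
    rw [Finset.prod_insert hi, Finset.prod_insert hi]
    have h1 := ih (fun j hj => hx j (Finset.mem_insert_of_mem hj)) (fun j hj => hz j (Finset.mem_insert_of_mem hj))
      (fun j hj => h j (Finset.mem_insert_of_mem hj))
    have e1 : x i * ∏ j ∈ t, x j - z i * ∏ j ∈ t, z j =
        x i * (∏ j ∈ t, x j - ∏ j ∈ t, z j) + (∏ j ∈ t, z j) * (x i - z i) := by ring
    rw [e1]
    apply Valuation.map_add_lt
    · exact d2_mul_lt 𝒪 (hx i (Finset.mem_insert_self i t)) h1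
    · refine d2_mul_lt 𝒪 ?_ (h i (Finset.mem_insert_self i t))
      exact prod_mem (fun j hj => hz j (Finset.mem_insert_of_mem hj))

private theorem d2_sgn {Ω : Type} [Field Ω] (𝒪 : ValuationSubring Ω) (x z t : Ω) (h : x ^ 2 = z ^ 2)
    (hx : 𝒪.valuation (x - t) < 1) (hz : 𝒪.valuation (z - t) < 1) (ht : 𝒪.valuation t = 1)
    (h2 : 𝒪.valuation (2 : Ω) = 1) : x = z := by
  rcases sq_eq_sq_iff_eq_or_eq_neg.1 h with h1 | h1
  · exact h1
  · exfalso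
    have e1 : (2 : Ω) * t = -((x - t) + (z - t)) := by rw [h1]; ring
    have e2 : 𝒪.valuation ((2 : Ω) * t) < 1 := by
      rw [e1, Valuation.map_neg]
      exact Valuation.map_add_lt _ hx hz
    rw [map_mul, h2, ht, mul_one] at e2
    exact lt_irrefl _ e2

/-
PROOF. fld_exists gives Ω, φ, f, 𝒪 (v := 𝒪.valuation; v (φ x) = 1 for x ≠ 0). a1 := φ ∘ a,
y1 := φ ∘ y is a point (map_nb, injectivity of φ), b m := a1 m + f * algebraMap (v m); v (b m - a1 m)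
< 1 (the constants are in φ L, φ.commutes). sign_lift gives w. sgn: both sides
L1 = (∏ w) * ∏ E (a1 - a1), R1 = (∏ y1) * ∏ E (b - b) satisfy L1 ^ 2 = R1 ^ 2 (hE for b and a1:
(∏ I w) ^ 2 = ∏ I nb b = (-1) ^ k (∏ E b) ^ 2, (∏ I y1) ^ 2 = (-1) ^ k (∏ E a1) ^ 2), and both are
congruent to T = (∏ I y1) * ∏ E (a1 - a1), of valuation 1 (T = φ t, t ≠ 0: y m ≠ 0 since
(∏ I y) ^ 2 = ± (∏ E (a - a)) ^ 2 ≠ 0 by hE for a). L1 = - R1 would give v (2 T) < 1.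
-/
theorem aff_exists {L : Type} [Field L] [Algebra ℂ L] {a y : P → L} (h : Pnt Γ N c a y) (e : ℕ)
    (hL : Algebra.trdeg ℂ L = (e : Cardinal)) (I : Finset P) (hI : ∀ m ∈ I, N (c m))
    (E : Finset (P × P)) (hE0 : ∀ p ∈ E, p.1 ≠ p.2)
    (hE : ∀ (k : Type) [Field k] (a : P → k),
      ∏ m ∈ I, nb Γ c a m = (-1) ^ E.card * (∏ p ∈ E, (a p.1 - a p.2)) ^ 2) (v : P → ℂ) :
    ∃ (Ω : Type) (_ : Field Ω) (_ : Algebra ℂ Ω) (φ : L →ₐ[ℂ] Ω) (b w : P → Ω) (f : Ω)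
      (𝒪 : ValuationSubring Ω),
      Aff Γ N c I E v (fun m => φ (a m)) (fun m => φ (y m)) b w f ∧
      Algebra.trdeg ℂ Ω = ((e + 1 : ℕ) : Cardinal) ∧ f ≠ 0 ∧ 𝒪.valuation f < 1 ∧
      (∀ x, φ x ∈ 𝒪) ∧ (∀ m, 𝒪.valuation (b m - φ (a m)) < 1) ∧
      ∀ m, 𝒪.valuation (w m - φ (y m)) < 1 := by
  obtain ⟨Ω, i1, i2, i3, φ, f, 𝒪, hΩ, hf0, hf, hφ⟩ := fld_exists L e hL
  have hC : ∀ z : ℂ, algebraMap ℂ Ω z ∈ 𝒪 := by
    intro z
    rw [← φ.commutes z]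
    exact hφ _
  have hφ1 : ∀ x, x ≠ 0 → 𝒪.valuation (φ x) = 1 := by
    intro x hx
    apply le_antisymm ((𝒪.valuation_le_one_iff _).2 (hφ x))
    have h1 := (𝒪.valuation_le_one_iff _).2 (hφ x⁻¹)
    rw [map_inv₀, map_inv₀] at h1
    have h2 : 𝒪.valuation (φ x) ≠ 0 := by
      rw [Valuation.ne_zero_iff]
      exact (map_ne_zero φ).2 hx
    exact (inv_le_one₀ (zero_lt_iff.2 h2)).1 h1
  have pa : Pnt Γ N c (fun m => φ (a m)) (fun m => φ (y m)) := by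
    refine ⟨φ.toRingHom.injective.comp h.inj, ?_, ?_⟩
    · intro m hm
      have h1 := map_nb Γ c (φ : L →+* Ω) a m
      simp only [RingHom.coe_coe] at h1
      rw [← h1, ← h.sq m hm, map_pow]
    · intro m hm
      rw [h.one m hm, map_one]
  have hd : ∀ m l, m ≠ l → 𝒪.valuation (φ (a m) - φ (a l)) = 1 := by
    intro m l hml
    rw [← map_sub]
    exact hφ1 _ (sub_ne_zero.2 fun h1 => hml (h.inj h1))
  have hba : ∀ m, 𝒪.valuation ((φ (a m) + f * algebraMap ℂ Ω (v m)) - φ (a m)) < 1 := by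
    intro m
    rw [add_sub_cancel_left, mul_comm]
    exact d2_mul_lt 𝒪 (hC _) hf
  obtain ⟨w, pb, hw⟩ := sign_lift pa 𝒪 (fun m => hφ _) (fun m => hφ _) hd
    (fun m => φ (a m) + f * algebraMap ℂ Ω (v m)) hba
  refine ⟨Ω, i1, i2, φ, fun m => φ (a m) + f * algebraMap ℂ Ω (v m), w, f, 𝒪, ⟨pa, pb, fun m => rfl, ?_⟩,
    hΩ, hf0, hf, hφ, hba, hw⟩
  have h2 : 𝒪.valuation (2 : Ω) = 1 := by
    have h3 := hφ1 2 (by
      have h4 : (2 : L) = algebraMap ℂ L 2 := (map_ofNat (algebraMap ℂ L) 2).symm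
      rw [h4]
      exact (map_ne_zero (algebraMap ℂ L)).2 two_ne_zero)
    rw [map_ofNat] at h3
    exact h3
  have hbm : ∀ m, φ (a m) + f * algebraMap ℂ Ω (v m) ∈ 𝒪 := by
    intro m
    exact add_mem (hφ _) (mul_mem ((𝒪.valuation_le_one_iff _).1 hf.le) (hC _))
  have hwm : ∀ m, w m ∈ 𝒪 := by
    intro m
    have h1 : (w m - φ (y m)) + φ (y m) = w m := by ring
    rw [← h1]
    exact add_mem ((𝒪.valuation_le_one_iff _).1 (hw m).le) (hφ _)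
  have hE1 := hE Ω (fun m => φ (a m))
  have hE2 := hE Ω (fun m => φ (a m) + f * algebraMap ℂ Ω (v m))
  have hE3 := hE L a
  have s1 : (∏ m ∈ I, φ (y m)) ^ 2 = ∏ m ∈ I, nb Γ c (fun m => φ (a m)) m := by
    rw [← Finset.prod_pow]
    exact Finset.prod_congr rfl fun m hm => pa.sq m (hI m hm)
  have s2 : (∏ m ∈ I, w m) ^ 2 = ∏ m ∈ I, nb Γ c (fun m => φ (a m) + f * algebraMap ℂ Ω (v m)) m := by
    rw [← Finset.prod_pow]
    exact Finset.prod_congr rfl fun m hm => pb.sq m (hI m hm)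
  have s3 : (∏ m ∈ I, y m) ^ 2 = ∏ m ∈ I, nb Γ c a m := by
    rw [← Finset.prod_pow]
    exact Finset.prod_congr rfl fun m hm => h.sq m (hI m hm)
  rw [hE1] at s1
  rw [hE2] at s2
  rw [hE3] at s3
  apply d2_sgn 𝒪 _ _ ((∏ m ∈ I, φ (y m)) * ∏ p ∈ E, (φ (a p.1) - φ (a p.2)))
  · rw [mul_pow, mul_pow, s1, s2]
    ring
  · rw [← sub_mul, mul_comm]
    refine d2_mul_lt 𝒪 (prod_mem fun p _ => sub_mem (hφ _) (hφ _)) ?_
    exact d2_prod 𝒪 I _ _ (fun m _ => hwm m) (fun m _ => hφ _) (fun m _ => hw m)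
  · rw [← mul_sub]
    refine d2_mul_lt 𝒪 (prod_mem fun m _ => hφ _) ?_
    refine d2_prod 𝒪 E _ _ (fun p _ => sub_mem (hbm _) (hbm _)) (fun p _ => sub_mem (hφ _) (hφ _)) ?_
    intro p _
    have e1 : φ (a p.1) + f * algebraMap ℂ Ω (v p.1) - (φ (a p.2) + f * algebraMap ℂ Ω (v p.2)) -
        (φ (a p.1) - φ (a p.2)) = (φ (a p.1) + f * algebraMap ℂ Ω (v p.1) - φ (a p.1)) -
        (φ (a p.2) + f * algebraMap ℂ Ω (v p.2) - φ (a p.2)) := by ring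
    rw [e1]
    exact Valuation.map_sub_lt _ (hba _) (hba _)
  · have h3 : (∏ m ∈ I, φ (y m)) * ∏ p ∈ E, (φ (a p.1) - φ (a p.2)) =
        φ ((∏ m ∈ I, y m) * ∏ p ∈ E, (a p.1 - a p.2)) := by
      rw [map_mul, map_prod, map_prod]
      simp only [map_sub]
    rw [h3]
    apply hφ1
    have h4 : ∏ p ∈ E, (a p.1 - a p.2) ≠ 0 := by
      rw [Finset.prod_ne_zero_iff]
      intro p hp
      exact sub_ne_zero.2 fun h5 => hE0 p hp (h.inj h5)
    apply mul_ne_zero _ h4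
    intro h5
    rw [h5, zero_pow two_ne_zero] at s3
    exact mul_ne_zero (pow_ne_zero _ (neg_ne_zero.2 one_ne_zero)) (pow_ne_zero 2 h4) s3.symm
  · exact h2

end Pool.Agent.HUR
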