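import Pool.Agent.HUR.Defs3
import Pool.Agent.HUR.A9
import Pool.Agent.HUR.C2

namespace Pool.Agent.HUR

open Pool.Agent.HCH Pool.Agent.HCF

variable {ι P : Type} [Fintype P] {Γ : ι → ι → Prop} {N : ι → Prop} {c : P → ι}

private theorem d3_mul_lt {Ω : Type} [Field Ω] (𝒪 : ValuationSubring Ω) {x y : Ω} (hx : x ∈ 𝒪)
    (hy : 𝒪.valuation y < 1) : 𝒪.valuation (x * y) < 1 := by
  rw [map_mul]
  exact lt_of_le_of_lt (mul_le_of_le_one_left' ((𝒪.valuation_le_one_iff x).2 hx)) hy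

private theorem d3_prod {Ω : Type} [Field Ω] (𝒪 : ValuationSubring Ω) {s : Type} (t : Finset s)
    (x z : s → Ω) (hx : ∀ i ∈ t, x i ∈ 𝒪) (hz : ∀ i ∈ t, z i ∈ 𝒪)
    (h : ∀ i ∈ t, 𝒪.valuation (x i - z i) < 1) :
    𝒪.valuation (∏ i ∈ t, x i - ∏ i ∈ t, z i) < 1 := by
  classical
  induction t using Finset.induction_on with
  | empty =>
    rw [Finset.prod_empty, Finset.prod_empty, sub_self, map_zero]
    exact zero_lt_one
  | insert i t hi ih =>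
    rw [Finset.prod_insert hi, Finset.prod_insert hi]
    have h1 := ih (fun j hj => hx j (Finset.mem_insert_of_mem hj)) (fun j hj => hz j (Finset.mem_insert_of_mem hj))
      (fun j hj => h j (Finset.mem_insert_of_mem hj))
    have e1 : x i * ∏ j ∈ t, x j - z i * ∏ j ∈ t, z j =
        x i * (∏ j ∈ t, x j - ∏ j ∈ t, z j) + (∏ j ∈ t, z j) * (x i - z i) := by ring
    rw [e1]
    apply Valuation.map_add_lt
    · exact d3_mul_lt 𝒪 (hx i (Finset.mem_insert_self i t)) h1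
    · refine d3_mul_lt 𝒪 ?_ (h i (Finset.mem_insert_self i t))
      exact prod_mem (fun j hj => hz j (Finset.mem_insert_of_mem hj))

/-
PROOF. unit_diff for h.pb: b, w, ℂ in 𝒪, differences of the b of valuation 1. a m = b m - f * v m is
in 𝒪 and congruent to b m. y_int: y m ∈ 𝒪. B := ∏ E (b - b) has valuation 1 (hE0) and is congruent to
∏ E (a - a); h.sgn gives (∏ I w - ∏ I y) * B ≡ 0, so signs with σ = 1, δ = 1 applies and gives ε.
g := ⟨ε, 1⟩ ∈ MG N c ∅, chi I g = 1, mvA g a = a, mvY g y m = ε m * y m. ev_congr.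
-/
theorem aff_an (hi : ∀ j, ¬ Γ j j) {I : Finset P} {E : Finset (P × P)}
    (hE0 : ∀ p ∈ E, p.1 ≠ p.2) {v : P → ℂ} {Ω : Type} [Field Ω] [Algebra ℂ Ω]
    {a y b w : P → Ω} {f : Ω} (h : Aff Γ N c I E v a y b w f) (𝒪 : ValuationSubring Ω)
    (hΘ : ∀ r, ev h.pb r ∈ 𝒪) (hf : 𝒪.valuation f < 1) :
    ∃ g ∈ MG N c (∅ : Set P), chi I g = 1 ∧
      ∀ (h' : Pnt Γ N c (mvA g a) (mvY g y)) (r : HR Γ N c),
        𝒪.valuation (ev h.pb r - ev h' r) < 1 := by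
  obtain ⟨hC, hb, hw, hd⟩ := unit_diff h.pb 𝒪 hΘ
  have hab : ∀ m, 𝒪.valuation (b m - a m) < 1 := by
    intro m
    rw [h.mv m, add_sub_cancel_left, mul_comm]
    exact d3_mul_lt 𝒪 (hC _) hf
  have ha : ∀ m, a m ∈ 𝒪 := by
    intro m
    have h1 : b m - (b m - a m) = a m := by ring
    rw [← h1]
    exact sub_mem (hb m) ((𝒪.valuation_le_one_iff _).1 (hab m).le)
  have hy : ∀ m, y m ∈ 𝒪 := fun m => y_int h.pa 𝒪 ha m
  have hB : 𝒪.valuation (∏ p ∈ E, (b p.1 - b p.2)) = 1 := by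
    rw [map_prod]
    apply Finset.prod_eq_one
    intro p hp
    exact hd _ _ (hE0 p hp)
  have hBA : 𝒪.valuation (∏ p ∈ E, (b p.1 - b p.2) - ∏ p ∈ E, (a p.1 - a p.2)) < 1 := by
    apply d3_prod
    · intro p _; exact sub_mem (hb _) (hb _)
    · intro p _; exact sub_mem (ha _) (ha _)
    · intro p _
      have e1 : b p.1 - b p.2 - (a p.1 - a p.2) = (b p.1 - a p.1) - (b p.2 - a p.2) := by ring
      rw [e1]
      exact Valuation.map_sub_lt _ (hab _) (hab _)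
  have hWY : 𝒪.valuation (∏ m ∈ I, w m - (((1 : ℤˣ) : ℤ) : Ω) * ∏ m ∈ I, y m) < 1 := by
    rw [Units.val_one, Int.cast_one, one_mul]
    have e1 : (∏ m ∈ I, w m - ∏ m ∈ I, y m) * ∏ p ∈ E, (b p.1 - b p.2) =
        (∏ m ∈ I, w m) * (∏ p ∈ E, (b p.1 - b p.2) - ∏ p ∈ E, (a p.1 - a p.2)) := by
      linear_combination h.sgn
    have e2 : 𝒪.valuation ((∏ m ∈ I, w m - ∏ m ∈ I, y m) * ∏ p ∈ E, (b p.1 - b p.2)) < 1 := by
      rw [e1]
      exact d3_mul_lt 𝒪 (prod_mem fun m _ => hw m) hBA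
    rw [map_mul, hB, mul_one] at e2
    exact e2
  obtain ⟨ε, hε1, hε2, hε3⟩ := signs hi h.pa h.pb 𝒪 hC ha hb hd (1 : Equiv.Perm P) (fun _ => rfl) hab I
    (fun _ => Iff.rfl) 1 hWY
  refine ⟨⟨ε, 1⟩, ⟨hε1, fun _ => rfl, fun _ _ => rfl⟩, hε2, ?_⟩
  intro h' r
  exact (ev_congr h' h.pb 𝒪 hC hb hw hd hab hε3 r).2

end Pool.Agent.HUR
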