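import Pool.Agent.HUR.Defs3

namespace Pool.Agent.HUR

open MvPolynomial

variable {P : Type} [Fintype P]

theorem D4_homog {k : Type} [CommRing k] (g : ℂ →+* k) (p : MvPolynomial P ℂ) (n : ℕ)
    (hp : p.IsHomogeneous n) (r : k) (x : P → k) :
    eval₂ g (fun m => r * x m) p = r ^ n * eval₂ g x p := by
  classical
  rw [eval₂_eq, eval₂_eq, Finset.mul_sum]
  refine Finset.sum_congr rfl fun d hd => ?_
  have h1 : d.degree = n := by
    have := hp (mem_support_iff.1 hd)
    simpa only [Finsupp.weight_apply, Pi.one_apply, smul_eq_mul, mul_one, Finsupp.sum,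
      Finsupp.degree_apply] using this
  have h2 : ∏ i ∈ d.support, (r * x i) ^ d i = r ^ n * ∏ i ∈ d.support, x i ^ d i := by
    simp only [mul_pow]
    rw [Finset.prod_mul_distrib, Finset.prod_pow_eq_pow_sum, ← h1]
    rfl
  rw [h2]
  ring

/-
PROOF. Write val for 𝒪.valuation and d for p.totalDegree. z m := a m / f = b m / f - v m: the elements
b m / f have valuation < 1, so z m ∈ 𝒪 and z m ≡ - v m. p = ∑ i ≤ d, p_i, the homogeneous components
(MvPolynomial.sum_homogeneousComponent), aeval a p_i = f ^ i * aeval z p_i (a = f z;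
IsHomogeneous.aeval / eval₂ or coefficientwise). So 0 = f⁻¹ ^ d * aeval a p =
∑ i ≤ d, f⁻¹ ^ (d - i) * aeval z p_i. All aeval z p_i are in 𝒪 (hC), so the terms with i < d have
valuation < 1, hence val (aeval z p_d) < 1. But aeval z p_d ≡ aeval (- v) p_d (congruent arguments in
𝒪; MvPolynomial.induction_on) = algebraMap (eval (- v) p_d) = algebraMap ((-1) ^ d * eval v p_d), a
nonzero complex number, which has valuation 1 (it and its inverse are in 𝒪). Contradiction.
-/
theorem aff_inf {Ω : Type} [Field Ω] [Algebra ℂ Ω] (p : MvPolynomial P ℂ) (v : P → ℂ)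
    (hv : eval v (homogeneousComponent p.totalDegree p) ≠ 0) (a b : P → Ω) (f : Ω)
    (hp : aeval a p = 0) (hb : ∀ m, b m = a m + f * algebraMap ℂ Ω (v m))
    (𝒪 : ValuationSubring Ω) (hC : ∀ z : ℂ, algebraMap ℂ Ω z ∈ 𝒪) (hbo : ∀ m, b m ∈ 𝒪)
    (hf0 : f ≠ 0) (hf : 𝒪.valuation f⁻¹ < 1) : False := by
  classical
  have hfi : f⁻¹ ∈ 𝒪 := (𝒪.valuation_le_one_iff _).1 hf.le
  have hza : ∀ m, a m * f⁻¹ ∈ 𝒪 := by
    intro m
    have e1 : a m * f⁻¹ = b m * f⁻¹ - algebraMap ℂ Ω (v m) := by
      rw [hb m]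
      field_simp
      ring
    rw [e1]
    exact sub_mem (mul_mem (hbo m) hfi) (hC _)
  obtain ⟨j, hj⟩ : ∃ j : ℂ →+* 𝒪, ∀ z, ((j z : 𝒪) : Ω) = algebraMap ℂ Ω z :=
    ⟨(algebraMap ℂ Ω).codRestrict 𝒪.toSubring hC, fun z => rfl⟩
  obtain ⟨res, hres⟩ : ∃ res : 𝒪 →+* IsLocalRing.ResidueField 𝒪,
      ∀ x : 𝒪, 𝒪.valuation (x : Ω) < 1 → res x = 0 := by
    refine ⟨IsLocalRing.residue 𝒪, fun x hx => ?_⟩
    rw [IsLocalRing.residue_eq_zero_iff]
    exact (𝒪.valuation_lt_one_iff x).2 hx
  set F : 𝒪 := ⟨f⁻¹, hfi⟩ with hF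
  set Z : P → 𝒪 := fun m => ⟨a m * f⁻¹, hza m⟩ with hZ
  have hresF : res F = 0 := hres F hf
  have hresZ : ∀ m, res (Z m) = (-1) * res (j (v m)) := by
    intro m
    have e1 : Z m = (⟨b m, hbo m⟩ : 𝒪) * F - j (v m) := by
      apply Subtype.ext
      have e2 : (((⟨b m, hbo m⟩ : 𝒪) * F - j (v m) : 𝒪) : Ω) = b m * f⁻¹ - algebraMap ℂ Ω (v m) := by
        rw [← hj]
        rfl
      rw [e2]
      show a m * f⁻¹ = _
      rw [hb m]
      field_simp
      ring
    rw [e1, map_sub, map_mul, hresF]
    ring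
  -- the relation in the valuation ring
  have h1 : ∑ i ∈ Finset.range (p.totalDegree + 1),
      F ^ (p.totalDegree - i) * eval₂ j Z (homogeneousComponent i p) = 0 := by
    apply Subtype.ext
    have h2 : ∀ q : MvPolynomial P ℂ, ((eval₂ j Z q : 𝒪) : Ω) =
        eval₂ (algebraMap ℂ Ω) (fun m => f⁻¹ * a m) q := by
      intro q
      have h3 := eval₂_comp_left (𝒪.subtype) j Z q
      have h4 : (𝒪.subtype).comp j = algebraMap ℂ Ω := RingHom.ext hj
      rw [h4] at h3
      refine h3.trans ?_
      congr 1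
      funext m
      exact mul_comm _ _
    have h5 : ((∑ i ∈ Finset.range (p.totalDegree + 1),
        F ^ (p.totalDegree - i) * eval₂ j Z (homogeneousComponent i p) : 𝒪) : Ω) =
        ∑ i ∈ Finset.range (p.totalDegree + 1), (f⁻¹) ^ (p.totalDegree - i) *
          eval₂ (algebraMap ℂ Ω) (fun m => f⁻¹ * a m) (homogeneousComponent i p) := by
      have h9 : ∀ x : 𝒪, (x : Ω) = 𝒪.subtype x := fun x => rfl
      rw [h9, map_sum]
      refine Finset.sum_congr rfl fun i _ => ?_
      rw [map_mul, map_pow, ← h9, ← h9, h2]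
    rw [h5]
    have h6 : ∀ i ∈ Finset.range (p.totalDegree + 1), (f⁻¹) ^ (p.totalDegree - i) *
          eval₂ (algebraMap ℂ Ω) (fun m => f⁻¹ * a m) (homogeneousComponent i p) =
        (f⁻¹) ^ p.totalDegree * eval₂ (algebraMap ℂ Ω) a (homogeneousComponent i p) := by
      intro i hi
      rw [D4_homog (algebraMap ℂ Ω) _ i (homogeneousComponent_isHomogeneous i p) f⁻¹ a, ← mul_assoc,
        ← pow_add, Nat.sub_add_cancel (Nat.lt_succ_iff.1 (Finset.mem_range.1 hi))]
    rw [Finset.sum_congr rfl h6, ← Finset.mul_sum]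
    have h7 : ∑ i ∈ Finset.range (p.totalDegree + 1),
        eval₂ (algebraMap ℂ Ω) a (homogeneousComponent i p) = 0 := by
      have h8 : ∀ i, eval₂ (algebraMap ℂ Ω) a (homogeneousComponent i p) =
        aeval a (homogeneousComponent i p) := fun i => rfl
      simp only [h8]
      rw [← map_sum, sum_homogeneousComponent, hp]
    rw [h7, mul_zero]
    rfl
  have h2 := congrArg res h1
  rw [map_zero, map_sum, Finset.sum_range_succ] at h2
  have h3 : ∑ i ∈ Finset.range p.totalDegree,
      res (F ^ (p.totalDegree - i) * eval₂ j Z (homogeneousComponent i p)) = 0 := by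
    refine Finset.sum_eq_zero fun i hi => ?_
    rw [map_mul, map_pow, hresF, zero_pow, zero_mul]
    have := Finset.mem_range.1 hi
    omega
  rw [h3, zero_add, map_mul, map_pow, Nat.sub_self, pow_zero, one_mul, eval₂_comp_left] at h2
  have h4 : (res ∘ Z) = fun m => (-1) * (res.comp j) (v m) := by
    funext m
    exact hresZ m
  rw [h4, D4_homog (res.comp j) _ _ (homogeneousComponent_isHomogeneous _ p) (-1)] at h2
  have h5 : eval₂ (res.comp j) (fun m => (res.comp j) (v m)) (homogeneousComponent p.totalDegree p)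
      = (res.comp j) (eval v (homogeneousComponent p.totalDegree p)) := by
    have := eval₂_comp_left (res.comp j) (RingHom.id ℂ) v (homogeneousComponent p.totalDegree p)
    rw [RingHom.comp_id] at this
    exact this.symm
  rw [h5] at h2
  have h6 : (res.comp j) (eval v (homogeneousComponent p.totalDegree p)) = 0 := by
    rcases mul_eq_zero.1 h2 with h | h
    · exact absurd h (pow_ne_zero _ (neg_ne_zero.2 one_ne_zero))
    · exact h
  exact hv ((map_eq_zero_iff (res.comp j) (res.comp j).injective).1 h6)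

/-
PROOF. The a m are algebraically dependent over ℂ: otherwise card P ≤ trdeg ℂ L
(AlgebraicIndependent.cardinalMk_le_trdeg, Cardinal.mk_fintype) = e < card P. So there is p ≠ 0 with
aeval a p = 0 (not AlgebraicIndependent: injectivity of aeval a fails). The homogeneous component of
degree totalDegree of p ≠ 0 is not 0 (p has a monomial d in the support with d.degree =
p.totalDegree; coeff_homogeneousComponent), and a nonzero polynomial over the infinite field ℂ has a
point v with nonzero value (MvPolynomial.funext).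
-/
theorem pol_dep {L : Type} [Field L] [Algebra ℂ L] (a : P → L) (e : ℕ)
    (hL : Algebra.trdeg ℂ L = (e : Cardinal)) (he : e < Fintype.card P) :
    ∃ (p : MvPolynomial P ℂ) (v : P → ℂ), aeval a p = 0 ∧
      eval v (homogeneousComponent p.totalDegree p) ≠ 0 := by
  classical
  have h1 : ¬ AlgebraicIndependent ℂ a := by
    intro h
    have h2 := h.cardinalMk_le_trdeg
    rw [hL, Cardinal.mk_fintype] at h2
    exact absurd (Nat.cast_le.1 h2) (not_le.2 he)
  rw [AlgebraicIndependent, injective_iff_map_eq_zero] at h1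
  push Not at h1
  obtain ⟨p, hp, hp0⟩ := h1
  have h3 : homogeneousComponent p.totalDegree p ≠ 0 := by
    intro h
    have hs : p.support.Nonempty := by
      rw [Finset.nonempty_iff_ne_empty]
      intro h'
      exact hp0 (support_eq_empty.1 h')
    obtain ⟨d, hd, hdeg⟩ := Finset.exists_mem_eq_sup p.support hs (fun d => d.sum fun _ e => e)
    have h4 : d.degree = p.totalDegree := hdeg.symm
    have h5 := coeff_homogeneousComponent p.totalDegree p d
    rw [h, if_pos h4, coeff_zero] at h5
    exact (mem_support_iff.1 hd) h5.symm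
  have h6 : ∃ v : P → ℂ, eval v (homogeneousComponent p.totalDegree p) ≠ 0 := by
    by_contra h7
    push Not at h7
    exact h3 (funext fun v => by rw [h7 v, map_zero])
  obtain ⟨v, hv⟩ := h6
  exact ⟨p, v, hp, hv⟩

end Pool.Agent.HUR
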