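import Pool.Agent.HUR.D1
import Pool.Agent.HUR.D2
import Pool.Agent.HUR.D3
import Pool.Agent.HUR.D4
import Pool.Agent.HUR.C12

namespace Pool.Agent.HUR

open Pool.Agent.HCH Pool.Agent.HCF

variable {ι P : Type} [Fintype P] {Γ : ι → ι → Prop} {N : ι → Prop} {c : P → ι}

private theorem D6_ev {L Ω : Type} [Field L] [Algebra ℂ L] [Field Ω] [Algebra ℂ Ω] (φ : L →ₐ[ℂ] Ω)
    {a y : P → L} (h : Pnt Γ N c a y) (pa : Pnt Γ N c (fun m => φ (a m)) (fun m => φ (y m)))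
    (r : HR Γ N c) : ev pa r = φ (ev h r) := by
  obtain ⟨q, rfl⟩ := Ideal.Quotient.mk_surjective r
  rw [ev_mk, ev_mk, MvPolynomial.comp_aeval_apply]
  congr 2
  funext x
  rcases x with _ | (m | m)
  · show (ds (fun m => φ (a m)))⁻¹ = φ (ds a)⁻¹
    have h1 := map_ds (φ : L →+* Ω) a
    rw [map_inv₀]
    congr 1
    exact h1.symm
  · rfl
  · rfl

/-
PROOF. pair_set gives E; pol_dep gives p, v; aff_exists; then fam_rel with U = ∅. h0 is aff_an; hi: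
aff_inf gives False (aeval (φ ∘ a) p = φ (aeval a p) = 0; b m ∈ 𝒪 and ℂ in 𝒪 by unit_diff). hn as in
C13: the 𝒪 of aff_exists, ev_congr for the points (φ ∘ a, φ ∘ y) and (b, w), and
ev pa r = φ (ev h r).
-/
theorem aff_rel (hs : ∀ i j, Γ i j → Γ j i) (hi : ∀ j, ¬ Γ j j) {L : Type} [Field L]
    [Algebra ℂ L] {a y : P → L} (h : Pnt Γ N c a y) (e : ℕ)
    (hL : Algebra.trdeg ℂ L = (e : Cardinal)) (hd : dm ℂ (kr h).asIdeal = e)
    (he : e < Fintype.card P) (I : Finset P) (hI : ∀ m ∈ I, N (c m))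
    (hc : ∀ m l, Γ (c m) (c l) → (m ∈ I ↔ l ∈ I)) :
    ∃ bc : MG N c (∅ : Set P) → ℤ, (∀ g, 0 ≤ bc g * ((chi I g.1 : ℤˣ) : ℤ)) ∧
      (∃ g, bc g ≠ 0) ∧
      ∑ g, bc g • cl Γ N c (mvA g.1 a) (mvY g.1 y) ∈ RS (HR Γ N c) e := by
  obtain ⟨E, hE0, hE⟩ := pair_set (Γ := Γ) (c := c) hs hi I hc
  obtain ⟨p, v, hpa, hv⟩ := pol_dep a e hL he
  obtain ⟨Ω, _, _, φ, b, w, f, 𝒪, hAff, hΩ, hf0, hf1, hφO, hb, hw⟩ :=
    aff_exists h e hL I hI E hE0 hE v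
  refine fam_rel h e hd I ∅ hΩ φ hAff.pb f hf0 ?_ ?_ ?_
  · intro 𝒪' hΘ hf
    exact aff_an hi hE0 hAff 𝒪' hΘ hf
  · intro 𝒪' hΘ hf
    exfalso
    obtain ⟨hC, hb', -, -⟩ := unit_diff hAff.pb 𝒪' hΘ
    refine aff_inf p v hv (fun m => φ (a m)) b f ?_ hAff.mv 𝒪' hC hb' hf0 hf
    rw [← MvPolynomial.comp_aeval_apply (f := a) φ p, hpa, map_zero]
  · have hmem : ∀ x : Ω, 𝒪.valuation x ≤ 1 → x ∈ 𝒪 := fun x hx => (𝒪.valuation_le_one_iff x).1 hx
    have hC : ∀ z : ℂ, algebraMap ℂ Ω z ∈ 𝒪 := by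
      intro z
      rw [← φ.commutes z]
      exact hφO _
    have hb1 : ∀ m, b m ∈ 𝒪 := by
      intro m
      have e1 : b m = φ (a m) + (b m - φ (a m)) := by ring
      rw [e1]
      exact add_mem (hφO _) (hmem _ (hb m).le)
    have hw1 : ∀ m, w m ∈ 𝒪 := by
      intro m
      have e1 : w m = φ (y m) + (w m - φ (y m)) := by ring
      rw [e1]
      exact add_mem (hφO _) (hmem _ (hw m).le)
    have hval : ∀ x : L, x ≠ 0 → 𝒪.valuation (φ x) = 1 := by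
      intro x hx
      have h1 : 𝒪.valuation (φ x) ≤ 1 := (𝒪.valuation_le_one_iff _).2 (hφO x)
      have h2 : 𝒪.valuation (φ x⁻¹) ≤ 1 := (𝒪.valuation_le_one_iff _).2 (hφO _)
      have h3 : 𝒪.valuation (φ x) * 𝒪.valuation (φ x⁻¹) = 1 := by
        rw [← map_mul, ← map_mul, mul_inv_cancel₀ hx, map_one, map_one]
      refine le_antisymm h1 ?_
      rw [← h3]
      exact mul_le_of_le_one_right' h2
    have hd1 : ∀ m l, m ≠ l → 𝒪.valuation (b m - b l) = 1 := by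
      intro m l hml
      have e1 : b m - b l = φ (a m - a l) + ((b m - φ (a m)) - (b l - φ (a l))) := by
        rw [map_sub]
        ring
      have h1 : 𝒪.valuation (φ (a m - a l)) = 1 := hval _ (sub_ne_zero.2 (fun e => hml (h.inj e)))
      have h2 : 𝒪.valuation ((b m - φ (a m)) - (b l - φ (a l))) < 𝒪.valuation (φ (a m - a l)) := by
        rw [h1]
        exact lt_of_le_of_lt (Valuation.map_sub _ _ _) (max_lt (hb m) (hb l))
      rw [e1, Valuation.map_add_eq_of_lt_left _ h2, h1]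
    have hcg := ev_congr hAff.pa hAff.pb 𝒪 hC hb1 hw1 hd1 hb hw
    refine ⟨𝒪, fun r => (hcg r).1, hf1, hφO, fun r => ?_⟩
    rw [← D6_ev φ h hAff.pa r]
    exact (hcg r).2

end Pool.Agent.HUR
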