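import Pool.Agent.HCF.F2
import Pool.Agent.HCF.F4
import Pool.Agent.HCF.C3

/-!
Hurwitz spaces for conjugacy classes with at most two elements, and Chow groups of affine varieties
with rational coefficients.

The model. Let `C i` be conjugacy classes with at most two elements. The Hurwitz space of covers of
the affine line with a trivialization at infinity is the covering of the space of labelled
configurations `a m` whose fibre is the set of tuples `g m ∈ C (c m)`; the half twist of two
neighbouring branch points maps `(g p, g q)` to `(g q, g q⁻¹ * g p * g q)`, so it exchanges the two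
labels, and it replaces `g p` by the other element of its class if and only if the classes of `p`
and `q` do not commute. This is the monodromy of the covering with the equations
`y m ^ 2 = ∏ (a m - a l)`, the product over the `l` whose class does not commute with the class of
`m`: write `y m = s m * ∏ sq (a m - a l)` over a real configuration, with `sq x = √x` for `x > 0` and
`sq x = i √|x|` for `x < 0`; the half twist exchanges the positions and changes the sign `s p` if and
only if the classes of `p` and `q` do not commute, because the argument of `a p - a q` goes from `π` to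
`2 π` and the argument of `a q - a p` goes from `0` to `π`.
-/

namespace Pool.Agent.HUR

open MvPolynomial Pool.Agent.HCH Pool.Agent.HCF

section Chow

variable (R : Type) [CommRing R] [Algebra ℂ R]

/-- The integral closed subschemes of dimension `e` of `Spec R`. -/
abbrev Sub (e : ℕ) : Type := {P : PrimeSpectrum R // dm ℂ P.asIdeal = e}

/-- The rational cycles of dimension `e` on `Spec R` which are rationally equivalent to zero: the
span of the divisors of the functions on the integral closed subschemes of dimension `e + 1`. -/
noncomputable def RatEq (e : ℕ) : Submodule ℚ (Sub R e →₀ ℚ) :=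
  Submodule.span ℚ {z | ∃ (W : Sub R (e + 1)) (g : R), g ∉ W.1.asIdeal ∧
    ∀ P : Sub R e, z P = ((od (W.1.asIdeal ⊔ Ideal.span {g}) P.1 : ℤ) : ℚ)}

/-- The Chow group of `Spec R` of cycles of dimension `e`, with rational coefficients. -/
abbrev Chow (e : ℕ) : Type := (Sub R e →₀ ℚ) ⧸ RatEq R e

end Chow

section Ordered

variable {ι P : Type} [Fintype P]

open Classical in
/-- The product of `a m - a l` over the points `l` whose class does not commute with the class
of `m`. -/
noncomputable def nb (Γ : ι → ι → Prop) (c : P → ι) {k : Type} [CommRing k] (a : P → k) (m : P) :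
    k :=
  ∏ l ∈ Finset.univ.filter (fun l => Γ (c m) (c l)), (a m - a l)

open Classical in
/-- The product of `a m - a l` over all pairs of different points. -/
noncomputable def ds {k : Type} [CommRing k] (a : P → k) : k :=
  ∏ p ∈ (Finset.univ : Finset (P × P)).filter (fun p => p.1 ≠ p.2), (a p.1 - a p.2)

open Classical in
/-- The equations of the ordered Hurwitz space. The variables are the positions `inl m` of the
branch points, the signs `inr m` and the inverse `none` of the discriminant. -/
noncomputable def rel (Γ : ι → ι → Prop) (N : ι → Prop) (c : P → ι) :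
    Option P → MvPolynomial (Option (P ⊕ P)) ℂ
  | none => X none * ds (fun m => X (some (Sum.inl m))) - 1
  | some m => if N (c m) then
      X (some (Sum.inr m)) ^ 2 - nb Γ c (fun l => X (some (Sum.inl l))) m
    else X (some (Sum.inr m)) - 1

/-- The coordinate ring of the ordered Hurwitz space: the positions `a m` are pairwise different,
`y m ^ 2 = nb Γ c a m` if the class of `m` has two elements and `y m = 1` otherwise. -/
abbrev HR (Γ : ι → ι → Prop) (N : ι → Prop) (c : P → ι) : Type :=
  MvPolynomial (Option (P ⊕ P)) ℂ ⧸ Ideal.span (Set.range (rel Γ N c))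

/-- The action of a permutation on the variables. -/
def pv (σ : Equiv.Perm P) : Option (P ⊕ P) → Option (P ⊕ P) := Option.map (Sum.map σ σ)

variable (Γ : ι → ι → Prop) (N : ι → Prop) (c : P → ι)

theorem nb_comp {k : Type} [CommRing k] (a : P → k) (σ : Equiv.Perm P)
    (hσ : ∀ m, c (σ m) = c m) (m : P) : nb Γ c (fun l => a (σ l)) m = nb Γ c a (σ m) := by
  classical
  unfold nb
  refine Finset.prod_bij' (fun l _ => σ l) (fun l _ => σ.symm l) ?_ ?_ ?_ ?_ ?_
  · intro l hl
    simp only [Finset.mem_filter, Finset.mem_univ, true_and] at hl ⊢
    rw [hσ, hσ]; exact hl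
  · intro l hl
    simp only [Finset.mem_filter, Finset.mem_univ, true_and] at hl ⊢
    rw [hσ] at hl
    have := hσ (σ.symm l)
    rw [Equiv.apply_symm_apply] at this
    rw [← this]; exact hl
  · intro l _; simp
  · intro l _; simp
  · intro l _; rfl

theorem ds_comp {k : Type} [CommRing k] (a : P → k) (σ : Equiv.Perm P) :
    ds (fun l => a (σ l)) = ds a := by
  classical
  unfold ds
  refine Finset.prod_bij' (fun p _ => (σ p.1, σ p.2)) (fun p _ => (σ.symm p.1, σ.symm p.2))
    ?_ ?_ ?_ ?_ ?_
  · intro p hp
    simp only [Finset.mem_filter, Finset.mem_univ, true_and] at hp ⊢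
    exact fun h => hp (σ.injective h)
  · intro p hp
    simp only [Finset.mem_filter, Finset.mem_univ, true_and] at hp ⊢
    exact fun h => hp (σ.symm.injective h)
  · intro p _; simp
  · intro p _; simp
  · intro p _; rfl

theorem map_nb {k k' : Type} [CommRing k] [CommRing k'] (φ : k →+* k') (a : P → k) (m : P) :
    φ (nb Γ c a m) = nb Γ c (fun l => φ (a l)) m := by
  unfold nb
  rw [map_prod]
  simp only [map_sub]

theorem map_ds {k k' : Type} [CommRing k] [CommRing k'] (φ : k →+* k') (a : P → k) :
    φ (ds a) = ds (fun l => φ (a l)) := by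
  unfold ds
  rw [map_prod]
  simp only [map_sub]

theorem rename_rel (σ : Equiv.Perm P) (hσ : ∀ m, c (σ m) = c m) (x : Option P) :
    rename (pv σ) (rel Γ N c x) = rel Γ N c (x.map σ) := by
  classical
  have hX : ∀ v, rename (pv σ) (X v : MvPolynomial (Option (P ⊕ P)) ℂ) = X (pv σ v) :=
    fun v => rename_X _ _
  cases x with
  | none =>
    have h1 := map_ds (AlgHom.toRingHom (rename (pv σ) : MvPolynomial (Option (P ⊕ P)) ℂ →ₐ[ℂ]
      MvPolynomial (Option (P ⊕ P)) ℂ)) (fun m => X (some (Sum.inl m)))
    simp only [AlgHom.toRingHom_eq_coe, RingHom.coe_coe, hX] at h1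
    simp only [rel, Option.map_none, map_sub, map_mul, map_one, hX, h1]
    have h2 := ds_comp (fun m : P => (X (some (Sum.inl m)) : MvPolynomial (Option (P ⊕ P)) ℂ)) σ
    simp only [pv, Option.map_some, Sum.map_inl, Option.map_none]
    rw [h2]
  | some m =>
    have h1 := map_nb Γ c (AlgHom.toRingHom (rename (pv σ) :
      MvPolynomial (Option (P ⊕ P)) ℂ →ₐ[ℂ] MvPolynomial (Option (P ⊕ P)) ℂ))
      (fun m => X (some (Sum.inl m))) m
    simp only [AlgHom.toRingHom_eq_coe, RingHom.coe_coe, hX] at h1
    have h2 := nb_comp Γ c (fun m : P => (X (some (Sum.inl m)) : MvPolynomial (Option (P ⊕ P)) ℂ))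
      σ hσ m
    simp only [rel, Option.map_some]
    rw [hσ]
    split_ifs with h
    · simp only [map_sub, map_pow, hX, h1]
      simp only [pv, Option.map_some, Sum.map_inl, Sum.map_inr]
      rw [h2]
    · simp only [map_sub, map_one, hX]
      simp only [pv, Option.map_some, Sum.map_inr]

/-- The action of a permutation of the branch points which preserves the classes. -/
noncomputable def pm (σ : Equiv.Perm P) (hσ : ∀ m, c (σ m) = c m) :
    HR Γ N c →ₐ[ℂ] HR Γ N c :=
  Ideal.quotientMapₐ _ (rename (pv σ)) (by
    rw [Ideal.span_le]
    rintro _ ⟨x, rfl⟩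
    simp only [Ideal.coe_comap, Set.mem_preimage, SetLike.mem_coe]
    have h := rename_rel Γ N c σ hσ x
    change rename (pv σ) (rel Γ N c x) ∈ _
    rw [h]
    exact Ideal.subset_span ⟨_, rfl⟩)

/-- The coordinate ring of the Hurwitz space: the functions on the ordered Hurwitz space which are
invariant under the permutations of the branch points with the same class. -/
noncomputable def HF : Subalgebra ℂ (HR Γ N c) where
  carrier := {a | ∀ (σ : Equiv.Perm P) (hσ : ∀ m, c (σ m) = c m), pm Γ N c σ hσ a = a}
  mul_mem' := fun ha hb σ hσ => by rw [map_mul, ha σ hσ, hb σ hσ]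
  add_mem' := fun ha hb σ hσ => by rw [map_add, ha σ hσ, hb σ hσ]
  algebraMap_mem' := fun r σ hσ => by rw [AlgHom.commutes]

end Ordered

section Group

variable {G : Type} [Group G] {ι : Type}

/-- The classes `C i` and `C j` do not commute. -/
def ncg (C : ι → ConjClasses G) (i j : ι) : Prop :=
  ∃ a ∈ (C i).carrier, ∃ b ∈ (C j).carrier, a * b ≠ b * a

/-- The class `C i` has more than one element. -/
def ncc (C : ι → ConjClasses G) (i : ι) : Prop :=
  ∃ a ∈ (C i).carrier, ∃ b ∈ (C i).carrier, a ≠ b

/-- The coordinate ring of the Hurwitz space of the classes `C i` with `n i` branch points of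
class `C i`, for classes with at most two elements. -/
abbrev HurRing (C : ι → ConjClasses G) (n : ι → ℕ) [Fintype ι] : Type :=
  HF (ncg C) (ncc C) (Sigma.fst : (Σ i, Fin (n i)) → ι)

end Group

end Pool.Agent.HUR
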