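import Pool.Agent.HUR.Pt

/-!
Points of the ordered Hurwitz space, the group of signed permutations, families over the
projective line and the conics of the key lemma.
-/

namespace Pool.Agent.HUR

open MvPolynomial Pool.Agent.HCH Pool.Agent.HCF

section Points

variable {ι P : Type} [Fintype P] (Γ : ι → ι → Prop) (N : ι → Prop) (c : P → ι)

/-- The values of the variables at a point. -/
noncomputable def vl {k : Type} [Field k] (a y : P → k) : Option (P ⊕ P) → k
  | none => (ds a)⁻¹
  | some (Sum.inl m) => a m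
  | some (Sum.inr m) => y m

theorem ds_ne_zero {k : Type} [Field k] (a : P → k) (h : Function.Injective a) : ds a ≠ 0 := by
  classical
  unfold ds
  rw [Finset.prod_ne_zero_iff]
  intro p hp
  simp only [Finset.mem_filter, Finset.mem_univ, true_and] at hp
  exact sub_ne_zero.2 (fun e => hp (h e))

variable {Γ N c} in
theorem aeval_rel {k : Type} [Field k] [Algebra ℂ k] {a y : P → k} (h : Pnt Γ N c a y)
    (x : Option P) : aeval (vl a y) (rel Γ N c x) = 0 := by
  classical
  cases x with
  | none =>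
    have h1 := map_ds (AlgHom.toRingHom (aeval (vl a y) : MvPolynomial (Option (P ⊕ P)) ℂ →ₐ[ℂ] k))
      (fun m => X (some (Sum.inl m)))
    simp only [AlgHom.toRingHom_eq_coe, RingHom.coe_coe, aeval_X] at h1
    simp only [rel, map_sub, map_mul, map_one, aeval_X, h1]
    simp only [vl]
    rw [inv_mul_cancel₀ (ds_ne_zero a h.inj), sub_self]
  | some m =>
    have h1 := map_nb Γ c (AlgHom.toRingHom (aeval (vl a y) :
      MvPolynomial (Option (P ⊕ P)) ℂ →ₐ[ℂ] k)) (fun m => X (some (Sum.inl m))) m
    simp only [AlgHom.toRingHom_eq_coe, RingHom.coe_coe, aeval_X] at h1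
    simp only [rel]
    split_ifs with hm
    · simp only [map_sub, map_pow, aeval_X, h1]
      simp only [vl]
      rw [h.sq m hm, sub_self]
    · simp only [map_sub, map_one, aeval_X]
      simp only [vl]
      rw [h.one m hm, sub_self]

/-- The homomorphism of a point. -/
noncomputable def ev {Γ : ι → ι → Prop} {N : ι → Prop} {c : P → ι} {k : Type} [Field k]
    [Algebra ℂ k] {a y : P → k} (h : Pnt Γ N c a y) : HR Γ N c →ₐ[ℂ] k :=
  Ideal.Quotient.liftₐ _ (aeval (vl a y)) (by
    intro x hx
    have h1 : Ideal.span (Set.range (rel Γ N c)) ≤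
        RingHom.ker ((aeval (vl a y) : MvPolynomial (Option (P ⊕ P)) ℂ →ₐ[ℂ] k) :
          MvPolynomial (Option (P ⊕ P)) ℂ →+* k) := by
      rw [Ideal.span_le]
      rintro _ ⟨x, rfl⟩
      exact aeval_rel h x
    exact h1 hx)

theorem ev_mk {Γ : ι → ι → Prop} {N : ι → Prop} {c : P → ι} {k : Type} [Field k]
    [Algebra ℂ k] {a y : P → k} (h : Pnt Γ N c a y) (p : MvPolynomial (Option (P ⊕ P)) ℂ) :
    ev h (Ideal.Quotient.mk _ p) = aeval (vl a y) p := rfl

/-- The prime of a point. -/
noncomputable def kr {Γ : ι → ι → Prop} {N : ι → Prop} {c : P → ι} {k : Type} [Field k]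
    [Algebra ℂ k] {a y : P → k} (h : Pnt Γ N c a y) : PrimeSpectrum (HR Γ N c) :=
  ⟨RingHom.ker (ev h : HR Γ N c →+* k), RingHom.ker_isPrime _⟩

open Classical in
/-- The cycle of the prime of a point. -/
noncomputable def cl {k : Type} [Field k] [Algebra ℂ k] (a y : P → k) :
    PrimeSpectrum (HR Γ N c) →₀ ℤ :=
  if h : Pnt Γ N c a y then Finsupp.single (kr h) 1 else 0

end Points

section Moves

variable {ι P : Type} [Fintype P]

/-- Signed permutations. -/
abbrev Mv (P : Type) : Type := (P → ℤˣ) ⋊[mulAutArrow] Equiv.Perm P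

/-- The action of a signed permutation on the positions. -/
def mvA {k : Type} (g : Mv P) (a : P → k) : P → k := fun m => a (g.right⁻¹ m)

/-- The action of a signed permutation on the signs. -/
def mvY {k : Type} [Ring k] (g : Mv P) (y : P → k) : P → k :=
  fun m => ((g.left m : ℤ) : k) * y (g.right⁻¹ m)

/-- The signed permutations which preserve the classes and the points outside `U`, with signs at
the points of non-central classes only. -/
def MG (N : ι → Prop) (c : P → ι) (U : Set P) : Subgroup (Mv P) where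
  carrier := {g | (∀ m, ¬ N (c m) → g.left m = 1) ∧ (∀ m, c (g.right m) = c m) ∧
    ∀ m, m ∉ U → g.right m = m}
  mul_mem' := by
    rintro g h ⟨g1, g2, g3⟩ ⟨h1, h2, h3⟩
    have hinv : ∀ m, c (g.right⁻¹ m) = c m := fun m => by
      have := g2 (g.right⁻¹ m)
      rw [show g.right (g.right⁻¹ m) = m from g.right.apply_symm_apply m] at this
      exact this.symm
    refine ⟨fun m hm => ?_, fun m => ?_, fun m hm => ?_⟩
    · have e1 : (g * h).left m = g.left m * h.left (g.right⁻¹ m) := rfl
      rw [e1, g1 m hm, h1 _ (by rw [hinv]; exact hm), mul_one]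
    · have e1 : (g * h).right m = g.right (h.right m) := rfl
      rw [e1, g2, h2]
    · have e1 : (g * h).right m = g.right (h.right m) := rfl
      rw [e1, h3 m hm, g3 m hm]
  one_mem' := ⟨fun _ _ => rfl, fun _ => rfl, fun _ _ => rfl⟩
  inv_mem' := by
    rintro g ⟨g1, g2, g3⟩
    refine ⟨fun m hm => ?_, fun m => ?_, fun m hm => ?_⟩
    · have e1 : (g⁻¹).left m = (g.left ((g.right⁻¹)⁻¹ m))⁻¹ := rfl
      rw [e1, inv_inv, g1 _ (by rw [g2]; exact hm), inv_one]
    · have e1 : (g⁻¹).right m = g.right⁻¹ m := rfl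
      have := g2 (g.right⁻¹ m)
      rw [show g.right (g.right⁻¹ m) = m from g.right.apply_symm_apply m] at this
      rw [e1, this]
    · have e1 : (g⁻¹).right m = g.right⁻¹ m := rfl
      rw [e1, Equiv.Perm.inv_eq_iff_eq, g3 m hm]

/-- The product of the signs over `I`. -/
def chi (I : Finset P) (g : Mv P) : ℤˣ := ∏ m ∈ I, g.left m

end Moves

section Family

/-- The cycles of dimension `e` which are torsion modulo rational equivalence. -/
noncomputable def RS (R : Type) [CommRing R] [Algebra ℂ R] (e : ℕ) :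
    AddSubgroup (PrimeSpectrum R →₀ ℤ) where
  carrier := {z | ∃ n : ℕ, 0 < n ∧ (n : ℤ) • z ∈ Rt ℂ (⊥ : Ideal R) e}
  zero_mem' := ⟨1, one_pos, by rw [smul_zero]; exact zero_mem _⟩
  add_mem' := by
    rintro x y ⟨n, hn, h⟩ ⟨m, hm, h'⟩
    refine ⟨n * m, Nat.mul_pos hn hm, ?_⟩
    have e1 : ((n * m : ℕ) : ℤ) • (x + y) = (m : ℤ) • ((n : ℤ) • x) + (n : ℤ) • ((m : ℤ) • y) := by
      rw [smul_add, smul_smul, smul_smul]
      push_cast
      rw [mul_comm (m : ℤ) n]
    rw [e1]
    exact add_mem (AddSubgroup.zsmul_mem _ h _) (AddSubgroup.zsmul_mem _ h' _)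
  neg_mem' := by
    rintro x ⟨n, hn, h⟩
    exact ⟨n, hn, by rw [smul_neg]; exact neg_mem h⟩

/-- The constant terms of the polynomials which vanish at `(Θ, f)`: the ideal of the fibre over
`0` of the closure of the graph. -/
noncomputable def J0 {R Ω : Type} [CommRing R] [Field Ω] [Algebra ℂ R] [Algebra ℂ Ω]
    (Θ : R →ₐ[ℂ] Ω) (f : Ω) : Ideal R :=
  (RingHom.ker (Polynomial.eval₂RingHom (Θ : R →+* Ω) f)).map
    (Polynomial.constantCoeff : Polynomial R →+* R)

end Family

section Conic

variable {ι P : Type} [Fintype P] (Γ : ι → ι → Prop) (N : ι → Prop) (c : P → ι)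

open Classical in
/-- The points which do not commute with the class `j`, outside `I` if `s` holds and inside `I`
otherwise. -/
noncomputable def cr (I : Finset P) (j : ι) (s : Prop) : Finset P :=
  Finset.univ.filter (fun l => Γ j (c l) ∧ (l ∈ I ↔ ¬ s))

open Classical in
/-- The points of `I` which do not commute with the class `j`, if `s` holds. -/
noncomputable def co (I : Finset P) (j : ι) (s : Prop) : Finset P :=
  Finset.univ.filter (fun l => Γ j (c l) ∧ l ∈ I ∧ s)

/-- The monic polynomial with the roots `a m`, `m ∈ U`. -/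
noncomputable def pol {k : Type} [Field k] (U : Finset P) (a : P → k) : Polynomial k :=
  ∏ m ∈ U, (Polynomial.X - Polynomial.C (a m))

open Classical in
/-- The polynomial `∏ (t - a l) / (a ρ - a l)` over the `l ∈ S` different from `ρ`. -/
noncomputable def rp {k : Type} [Field k] (S : Finset P) (ρ : P) (a : P → k) : Polynomial k :=
  Polynomial.C (∏ l ∈ S.erase ρ, (a ρ - a l))⁻¹ * pol (S.erase ρ) a

/-- The data of the key lemma: two points `(a, y)`, `(b, w)` on a conic. -/
structure Con {Ω : Type} [Field Ω] (I U : Finset P) (j : ι) (s : Prop) (ρ : P)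
    (a y b w : P → Ω) (f κ : Ω) (V W : Polynomial Ω) : Prop where
  pa : Pnt Γ N c a y
  pb : Pnt Γ N c b w
  out : ∀ m, m ∉ U → b m = a m
  rho : ρ ∈ cr Γ c I j s
  deg : V.natDegree < U.card
  vw : pol U a * W = V ^ 2 - rp (cr Γ c I j s) ρ a
  kap : κ * (1 + f ^ 2 - 2 * f * V.eval (a ρ)) = 2 * f * (pol U a).eval (a ρ)
  q2 : pol U b = pol U a + Polynomial.C (2 * κ) * V + Polynomial.C (κ ^ 2) * W
  sgn : (∏ m ∈ I, w m) * (1 + f ^ 2) * (∏ l ∈ cr Γ c I j s, (pol U a).eval (a l)) *
      (∏ l ∈ co Γ c I j s, (pol U a).eval (a l)) =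
    (∏ m ∈ I, y m) * (1 - f ^ 2) *
      (∏ l ∈ cr Γ c I j s, (pol U a + Polynomial.C κ * V).eval (a l)) *
      (∏ l ∈ co Γ c I j s, (pol U b).eval (a l))

end Conic

end Pool.Agent.HUR
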