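import Mathlib

namespace Pool.Agent.HUR

/-
PROOF. n := ∑ g, b g * χ g > 0 (hb, hb0: the nonzero b g has b g * χ g ≠ 0 since χ g = ± 1).
n • ∑ g, χ g • F g = ∑ g, ∑ k, (b g * χ g * χ k) • F k. For fixed g substitute k = h * g
(Equiv.mulRight g): χ k = χ h * χ g, χ g * χ g = 1, so it is ∑ h, χ h • ∑ g, b g • F (h * g)
(Finset.sum_comm), and every inner sum is in S.
-/
theorem avg {K V : Type} [Group K] [Fintype K] [AddCommGroup V] (S : AddSubgroup V) (F : K → V)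
    (χ : K →* ℤˣ) (b : K → ℤ) (hb : ∀ g, 0 ≤ b g * ((χ g : ℤˣ) : ℤ)) (hb0 : ∃ g, b g ≠ 0)
    (hrel : ∀ h : K, ∑ g, b g • F (h * g) ∈ S) :
    ∃ n : ℤ, 0 < n ∧ n • ∑ g, ((χ g : ℤˣ) : ℤ) • F g ∈ S := by
  refine ⟨∑ g, b g * ((χ g : ℤˣ) : ℤ), ?_, ?_⟩
  · obtain ⟨g0, hg0⟩ := hb0
    apply Finset.sum_pos' (fun g _ => hb g)
    refine ⟨g0, Finset.mem_univ _, ?_⟩
    refine lt_of_le_of_ne (hb g0) (Ne.symm ?_)
    exact mul_ne_zero hg0 (Units.ne_zero _)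
  · have key : (∑ g, b g * ((χ g : ℤˣ) : ℤ)) • ∑ k, ((χ k : ℤˣ) : ℤ) • F k =
        ∑ h, ((χ h : ℤˣ) : ℤ) • ∑ g, b g • F (h * g) := by
      rw [Finset.sum_smul]
      have e1 : ∀ g : K, (b g * ((χ g : ℤˣ) : ℤ)) • ∑ k, ((χ k : ℤˣ) : ℤ) • F k =
          ∑ h, ((χ h : ℤˣ) : ℤ) • b g • F (h * g) := by
        intro g
        rw [Finset.smul_sum, ← Equiv.sum_comp (Equiv.mulRight g)]
        refine Finset.sum_congr rfl (fun h _ => ?_)
        simp only [Equiv.coe_mulRight, map_mul, Units.val_mul]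
        rw [smul_smul, smul_smul]
        congr 1
        have hχ : ((χ g : ℤˣ) : ℤ) * ((χ g : ℤˣ) : ℤ) = 1 := by
          rw [← Units.val_mul, Int.units_mul_self, Units.val_one]
        linear_combination (b g * ((χ h : ℤˣ) : ℤ)) * hχ
      rw [Finset.sum_congr rfl (fun g _ => e1 g), Finset.sum_comm]
      refine Finset.sum_congr rfl (fun h _ => ?_)
      rw [Finset.smul_sum]
    rw [key]
    exact S.sum_mem (fun h _ => S.zsmul_mem (hrel h) _)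

end Pool.Agent.HUR
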