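import Pool.Agent.HUR.A6
import Pool.Agent.HUR.E1
import Pool.Agent.HUR.Defs3

namespace Pool.Agent.HUR

open Pool.Agent.HCH Pool.Agent.HCF

variable {ι P : Type} [Fintype P] {Γ : ι → ι → Prop} {N : ι → Prop} {c : P → ι}

/-
PROOF. avg with K = MG N c U, V = PrimeSpectrum (HR Γ N c) →₀ ℤ, S = RS .. e,
F g = cl (mvA g a) (mvY g y), χ = chi I on MG N c U, a homomorphism by chi_mul and hU, b = bc. hrel:
F (h * g) = cl (mvA h (mvA g a)) (mvY h (mvY g y)) (mvA_mul, mvY_mul) and cl_mv for h. Then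
rs_of_smul removes n.
-/
theorem rel_sum (I : Finset P) (U : Set P) (hU : ∀ g ∈ MG N c U, ∀ m, g.right m ∈ I ↔ m ∈ I)
    {k : Type} [Field k] [Algebra ℂ k] (a y : P → k) (e : ℕ) (bc : MG N c U → ℤ)
    (hb : ∀ g, 0 ≤ bc g * ((chi I g.1 : ℤˣ) : ℤ)) (hb0 : ∃ g, bc g ≠ 0)
    (hrel : ∑ g, bc g • cl Γ N c (mvA g.1 a) (mvY g.1 y) ∈ RS (HR Γ N c) e) :
    ∑ g : MG N c U, ((chi I g.1 : ℤˣ) : ℤ) • cl Γ N c (mvA g.1 a) (mvY g.1 y) ∈
      RS (HR Γ N c) e := by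
  classical
  let χ : MG N c U →* ℤˣ := MonoidHom.mk' (fun g => chi I g.1)
    (fun g h => chi_mul I g.1 h.1 (hU g.1 g.2))
  have hrel' : ∀ h : MG N c U, ∑ g : MG N c U, bc g •
      (fun g : MG N c U => cl Γ N c (mvA g.1 a) (mvY g.1 y)) (h * g) ∈ RS (HR Γ N c) e := by
    intro h
    have h1 := cl_mv (Γ := Γ) h.2 Finset.univ bc (fun g : MG N c U => mvA g.1 a)
      (fun g : MG N c U => mvY g.1 y) e hrel
    refine (congrArg (· ∈ RS (HR Γ N c) e) ?_).mp h1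
    refine Finset.sum_congr rfl (fun g _ => ?_)
    have e1 : mvA ((h * g : MG N c U) : Mv P) a = mvA h.1 (mvA g.1 a) := by
      rw [Subgroup.coe_mul, mvA_mul]
    have e2 : mvY ((h * g : MG N c U) : Mv P) y = mvY h.1 (mvY g.1 y) := by
      rw [Subgroup.coe_mul, mvY_mul]
    simp only [e1, e2]
  obtain ⟨n, hn, h⟩ := avg (RS (HR Γ N c) e)
    (fun g : MG N c U => cl Γ N c (mvA g.1 a) (mvY g.1 y)) χ bc hb hb0 hrel'
  exact rs_of_smul e _ n hn.ne' h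

end Pool.Agent.HUR
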