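import Pool.Agent.HUR.A2
import Pool.Agent.HUR.A5
import Pool.Agent.HUR.Defs3

namespace Pool.Agent.HUR

open Pool.Agent.HCH Pool.Agent.HCF

variable {ι P : Type} [Fintype P] {Γ : ι → ι → Prop} {N : ι → Prop} {c : P → ι}

/-
PROOF. Write F g = cl (mvA g a) (mvY g y) for g ∈ K := MG N c Set.univ, X := ∑ g : K, chi I g • F g.
K' := MG N c U is contained in K. For k ∈ K' the map g ↦ k * g is a bijection of K, so
X = ∑ g : K, chi I (k * g) • F (k * g) = ∑ g : K, (chi I k * chi I g) • F (k * g) (chi_mul, hU). Sum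
over k ∈ K': (card K') • X = ∑ g : K, chi I g • ∑ k : K', chi I k • F (k * g) (Finset.sum_comm) and
F (k * g) = cl (mvA k (mvA g a)) (mvY k (mvY g y)) (mvA_mul, mvY_mul): every inner sum is in RS by H.
rs_of_smul with card K' ≠ 0.
-/
theorem big_sum (I : Finset P) (U : Set P) (hU : ∀ g ∈ MG N c U, ∀ m, g.right m ∈ I ↔ m ∈ I)
    {k : Type} [Field k] [Algebra ℂ k] (a y : P → k) (e : ℕ)
    (H : ∀ g ∈ MG N c (Set.univ : Set P),
      ∑ k : MG N c U, ((chi I k.1 : ℤˣ) : ℤ) •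
        cl Γ N c (mvA k.1 (mvA g a)) (mvY k.1 (mvY g y)) ∈ RS (HR Γ N c) e) :
    ∑ g : MG N c (Set.univ : Set P), ((chi I g.1 : ℤˣ) : ℤ) • cl Γ N c (mvA g.1 a) (mvY g.1 y) ∈
      RS (HR Γ N c) e := by
  classical
  have hsub : ∀ h ∈ MG N c U, h ∈ MG N c (Set.univ : Set P) :=
    fun h hh => ⟨hh.1, hh.2.1, fun m hm => absurd (Set.mem_univ m) hm⟩
  obtain ⟨F, hF⟩ : ∃ F : Mv P → (PrimeSpectrum (HR Γ N c) →₀ ℤ),
      ∀ g, F g = cl Γ N c (mvA g a) (mvY g y) := ⟨_, fun g => rfl⟩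
  obtain ⟨X, hX⟩ : ∃ X, X = ∑ g : MG N c (Set.univ : Set P), ((chi I g.1 : ℤˣ) : ℤ) • F g.1 :=
    ⟨_, rfl⟩
  have h1 : ∀ κ : MG N c U, X = ∑ g : MG N c (Set.univ : Set P),
      (((chi I κ.1 : ℤˣ) : ℤ) * ((chi I g.1 : ℤˣ) : ℤ)) • F (κ.1 * g.1) := by
    intro κ
    rw [hX, ← Equiv.sum_comp (Equiv.mulLeft (⟨κ.1, hsub κ.1 κ.2⟩ : MG N c (Set.univ : Set P)))]
    refine Finset.sum_congr rfl fun g _ => ?_
    have e1 : ((Equiv.mulLeft (⟨κ.1, hsub κ.1 κ.2⟩ : MG N c (Set.univ : Set P))) g).1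
        = κ.1 * g.1 := rfl
    rw [e1, chi_mul I κ.1 g.1 (hU κ.1 κ.2), Units.val_mul]
  have h2 : (Fintype.card (MG N c U) : ℤ) • X = ∑ g : MG N c (Set.univ : Set P),
      ((chi I g.1 : ℤˣ) : ℤ) • ∑ κ : MG N c U, ((chi I κ.1 : ℤˣ) : ℤ) • F (κ.1 * g.1) := by
    have h3 : (Fintype.card (MG N c U) : ℤ) • X = ∑ _κ : MG N c U, X := by
      rw [Finset.sum_const, Finset.card_univ, natCast_zsmul]
    rw [h3, Finset.sum_congr rfl (fun κ _ => h1 κ), Finset.sum_comm]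
    refine Finset.sum_congr rfl fun g _ => ?_
    rw [Finset.smul_sum]
    refine Finset.sum_congr rfl fun κ _ => ?_
    rw [smul_smul, mul_comm]
  have h3 : (Fintype.card (MG N c U) : ℤ) • X ∈ RS (HR Γ N c) e := by
    rw [h2]
    refine sum_mem fun g _ => AddSubgroup.zsmul_mem _ ?_ _
    have h4 := H g.1 g.2
    have h5 : ∀ κ : MG N c U, F (κ.1 * g.1)
        = cl Γ N c (mvA κ.1 (mvA g.1 a)) (mvY κ.1 (mvY g.1 y)) := by
      intro κ
      rw [hF, mvA_mul, mvY_mul]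
    simp only [h5]
    exact h4
  have h6 : (Fintype.card (MG N c U) : ℤ) ≠ 0 := by
    have : 0 < Fintype.card (MG N c U) := Fintype.card_pos
    exact_mod_cast this.ne'
  have h7 := rs_of_smul e X _ h6 h3
  rw [hX] at h7
  simp only [hF] at h7
  exact h7

end Pool.Agent.HUR
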