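import Pool.Agent.HUR.A2
import Pool.Agent.HUR.A5
import Pool.Agent.HUR.Defs3

namespace Pool.Agent.HUR

open Pool.Agent.HCH Pool.Agent.HCF

variable {ι P : Type} [Fintype P] {Γ : ι → ι → Prop} {N : ι → Prop} {c : P → ι}

/-
PROOF. T := the m with N (c m) (classical filter). Sum the elements of H over all I ⊆ T
(T.powerset): ∑ g, (∑ I ∈ T.powerset, chi I g) • F g, F g = cl (mvA g a) (mvY g y), and
∑ I ∈ T.powerset, ∏ m ∈ I, g.left m = ∏ m ∈ T, (1 + g.left m) (Finset.prod_one_add or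
Finset.prod_add_one...; as integers), which is 2 ^ T.card if g.left m = 1 for all m ∈ T, i.e.
g.left = 1 (g ∈ MG), and 0 otherwise (1 + (-1) = 0). So
2 ^ T.card • ∑ g with g.left = 1, F g ∈ RS, and rs_of_smul. The g ∈ MG N c univ with g.left = 1 are in
bijection with the σ: σ = g.right⁻¹, g = ⟨1, σ⁻¹⟩, mvA g a m = a (σ m), mvY g y m = y (σ m).
-/
theorem sum_perm {k : Type} [Field k] [Algebra ℂ k] (a y : P → k) (e : ℕ)
    [Fintype {σ : Equiv.Perm P // ∀ m, c (σ m) = c m}]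
    (H : ∀ I : Finset P, (∀ m ∈ I, N (c m)) →
      ∑ g : MG N c (Set.univ : Set P), ((chi I g.1 : ℤˣ) : ℤ) •
        cl Γ N c (mvA g.1 a) (mvY g.1 y) ∈ RS (HR Γ N c) e) :
    ∑ σ : {σ : Equiv.Perm P // ∀ m, c (σ m) = c m},
      cl Γ N c (fun m => a (σ.1 m)) (fun m => y (σ.1 m)) ∈ RS (HR Γ N c) e := by
  classical
  obtain ⟨F, hF⟩ : ∃ F : Mv P → (PrimeSpectrum (HR Γ N c) →₀ ℤ),
      ∀ g, F g = cl Γ N c (mvA g a) (mvY g y) := ⟨_, fun g => rfl⟩
  obtain ⟨T, hT⟩ : ∃ T : Finset P, ∀ m, m ∈ T ↔ N (c m) :=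
    ⟨Finset.univ.filter (fun m => N (c m)), fun m => by simp⟩
  have h1 : ∑ I ∈ T.powerset, ∑ g : MG N c (Set.univ : Set P),
      ((chi I g.1 : ℤˣ) : ℤ) • F g.1 ∈ RS (HR Γ N c) e := by
    refine sum_mem fun I hI => ?_
    have := H I (fun m hm => (hT m).1 (Finset.mem_powerset.1 hI hm))
    simp only [hF]
    exact this
  have hleft : ∀ g : MG N c (Set.univ : Set P), (∀ m ∈ T, g.1.left m = 1) → g.1.left = 1 := by
    intro g hg
    funext m
    by_cases hm : m ∈ T
    · exact hg m hm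
    · exact g.2.1 m (fun h => hm ((hT m).2 h))
  have h2 : ∀ g : MG N c (Set.univ : Set P), ∑ I ∈ T.powerset, ((chi I g.1 : ℤˣ) : ℤ)
      = if g.1.left = 1 then 2 ^ T.card else 0 := by
    intro g
    have h3 : ∀ I : Finset P, ((chi I g.1 : ℤˣ) : ℤ) = ∏ m ∈ I, ((g.1.left m : ℤˣ) : ℤ) := by
      intro I
      unfold chi
      exact Units.coe_prod _ _
    simp only [h3]
    rw [← Finset.prod_one_add]
    split_ifs with h
    · rw [h]
      simp only [Pi.one_apply, Units.val_one]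
      rw [Finset.prod_const]
      norm_num
    · have h4 : ∃ m ∈ T, g.1.left m ≠ 1 := by
        by_contra h5
        push Not at h5
        exact h (hleft g h5)
      obtain ⟨m, hm, hm1⟩ := h4
      refine Finset.prod_eq_zero hm ?_
      rcases Int.units_eq_one_or (g.1.left m) with h6 | h6
      · exact absurd h6 hm1
      · rw [h6]
        simp
  have h3 : ((2 ^ T.card : ℕ) : ℤ) • ∑ g ∈ (Finset.univ : Finset (MG N c (Set.univ : Set P))).filter
      (fun g => g.1.left = 1), F g.1 ∈ RS (HR Γ N c) e := by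
    rw [Finset.sum_comm] at h1
    have h4 : ∑ g : MG N c (Set.univ : Set P), ∑ I ∈ T.powerset, ((chi I g.1 : ℤˣ) : ℤ) • F g.1
        = ((2 ^ T.card : ℕ) : ℤ) • ∑ g ∈ (Finset.univ :
          Finset (MG N c (Set.univ : Set P))).filter (fun g => g.1.left = 1), F g.1 := by
      rw [Finset.smul_sum, Finset.sum_filter]
      refine Finset.sum_congr rfl fun g _ => ?_
      rw [← Finset.sum_smul, h2 g]
      split_ifs with h
      · push_cast
        rfl
      · rw [zero_smul]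
    rw [← h4]
    exact h1
  have h4 := rs_of_smul e _ _ (by positivity) h3
  have h5 : ∑ σ : {σ : Equiv.Perm P // ∀ m, c (σ m) = c m},
      cl Γ N c (fun m => a (σ.1 m)) (fun m => y (σ.1 m)) =
      ∑ g ∈ (Finset.univ : Finset (MG N c (Set.univ : Set P))).filter
        (fun g => g.1.left = 1), F g.1 := by
    refine Finset.sum_bij'
      (fun σ _ => (⟨⟨1, σ.1⁻¹⟩, fun m _ => rfl, fun m => ?_,
        fun m hm => absurd (Set.mem_univ m) hm⟩ : MG N c (Set.univ : Set P)))
      (fun g _ => (⟨g.1.right⁻¹, fun m => ?_⟩ : {σ : Equiv.Perm P // ∀ m, c (σ m) = c m}))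
      ?_ ?_ ?_ ?_ ?_
    · have h6 := σ.2 (σ.1⁻¹ m)
      rw [show σ.1 (σ.1⁻¹ m) = m from σ.1.apply_symm_apply m] at h6
      exact h6.symm
    · have h6 := g.2.2.1 (g.1.right⁻¹ m)
      rw [show g.1.right (g.1.right⁻¹ m) = m from g.1.right.apply_symm_apply m] at h6
      exact h6.symm
    · intro σ _
      rw [Finset.mem_filter]
      exact ⟨Finset.mem_univ _, rfl⟩
    · intro g _
      exact Finset.mem_univ _
    · intro σ _
      apply Subtype.ext
      exact inv_inv σ.1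
    · intro g hg
      apply Subtype.ext
      refine SemidirectProduct.ext ?_ ?_
      · exact (Finset.mem_filter.1 hg).2.symm
      · exact inv_inv g.1.right
    · intro σ _
      rw [hF]
      have e1 : (fun m => a (σ.1 m)) = mvA (⟨1, σ.1⁻¹⟩ : Mv P) a := by
        funext m
        show a (σ.1 m) = a ((σ.1⁻¹)⁻¹ m)
        rw [inv_inv]
      have e2 : (fun m => y (σ.1 m)) = mvY (⟨1, σ.1⁻¹⟩ : Mv P) y := by
        funext m
        show y (σ.1 m) = (((1 : P → ℤˣ) m : ℤ) : k) * y ((σ.1⁻¹)⁻¹ m)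
        rw [inv_inv]
        simp
      rw [e1, e2]
  rw [h5]
  exact h4

end Pool.Agent.HUR
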