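import Pool.Agent.HUR.Defs3

namespace Pool.Agent.HUR

variable {ι P : Type} [Fintype P] {Γ : ι → ι → Prop} {c : P → ι}

/-
PROOF. p i := number of the m ∈ I with c m = i (Finset.card of a filter), so p i ≤ n i and n i - p i is
the number of the m ∉ I with c m = i (hn). cr Γ c I j True = {l | Γ j (c l), l ∉ I} has
rr Γ (n - p) j elements and cr Γ c I j False = {l | Γ j (c l), l ∈ I} has rr Γ p j elements
(Finset.card_eq_sum_card_fiberwise over the class c l). If there are i, j with Γ i j, 0 < p i and
p j < n j, take j of hA: in the first case s := True, U := {m | c m = j, m ∈ I} (p j elements), in the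
second case s := False, U := {m | c m = j, m ∉ I} (n j - p j elements); cr is nonempty since its
cardinality is positive. Otherwise: Γ (c m) (c l) and m ∈ I give 0 < p (c m), so p (c l) = n (c l) and
l ∈ I; the converse with hs.
-/
theorem comb [Fintype ι] (hs : ∀ i j, Γ i j → Γ j i) (n : ι → ℕ)
    (hn : ∀ j, {m : P | c m = j}.ncard = n j) (hA : Adm Γ n) (I : Finset P) :
    (∀ m l, Γ (c m) (c l) → (m ∈ I ↔ l ∈ I)) ∨
      ∃ (j : ι) (s : Prop) (U : Finset P), (∀ m, m ∈ U ↔ c m = j ∧ (m ∈ I ↔ s)) ∧
        (cr Γ c I j s).Nonempty ∧ (cr Γ c I j s).card ≤ 2 * U.card := by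
  classical
  set p : ι → ℕ := fun i => (I.filter (fun m => c m = i)).card with hp
  have hcard : ∀ i, (Finset.univ.filter (fun m : P => c m = i)).card = n i := by
    intro i
    rw [← hn i, Set.ncard_eq_toFinset_card']
    congr 1
    ext m
    simp
  have hsplit : ∀ i, p i + ((Finset.univ.filter (fun m : P => c m = i)).filter
      (fun m => m ∉ I)).card = n i := by
    intro i
    rw [← hcard i]
    have h1 := Finset.card_filter_add_card_filter_not
      (s := Finset.univ.filter (fun m : P => c m = i)) (fun m => m ∈ I)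
    rw [← h1]
    have h2 : I.filter (fun m => c m = i) =
        (Finset.univ.filter (fun m : P => c m = i)).filter (fun m => m ∈ I) := by
      ext m
      simp only [Finset.mem_filter, Finset.mem_univ, true_and]
      exact and_comm
    have h3 : p i = ((Finset.univ.filter (fun m : P => c m = i)).filter (fun m => m ∈ I)).card :=
      congrArg Finset.card h2
    rw [h3]
  have hple : ∀ i, p i ≤ n i := fun i => by have := hsplit i; omega
  have hq : ∀ i, ((Finset.univ.filter (fun m : P => c m = i)).filter
      (fun m => m ∉ I)).card = n i - p i := fun i => by have := hsplit i; omega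
  have hcrT : ∀ j, (cr Γ c I j True).card = rr Γ (fun i => n i - p i) j := by
    intro j
    unfold rr
    rw [Finset.card_eq_sum_card_fiberwise (f := c)
      (t := Finset.univ.filter (fun i => Γ j i))]
    · refine Finset.sum_congr rfl fun i hi => ?_
      refine Eq.trans ?_ (hq i)
      congr 1
      ext m
      simp only [cr, Finset.mem_filter, Finset.mem_univ, true_and] at hi ⊢
      constructor
      · rintro ⟨⟨h1, h2⟩, h3⟩
        exact ⟨h3, fun h => (h2.1 h) trivial⟩
      · rintro ⟨h1, h2⟩
        exact ⟨⟨by rw [h1]; exact hi, ⟨fun h => absurd h h2, fun h => absurd trivial h⟩⟩, h1⟩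
    · intro m hm
      have hm' := Finset.mem_coe.1 hm
      simp only [cr, Finset.mem_filter, Finset.mem_univ, true_and] at hm'
      exact Finset.mem_coe.2 (Finset.mem_filter.2 ⟨Finset.mem_univ _, hm'.1⟩)
  have hcrF : ∀ j, (cr Γ c I j False).card = rr Γ p j := by
    intro j
    unfold rr
    rw [Finset.card_eq_sum_card_fiberwise (f := c)
      (t := Finset.univ.filter (fun i => Γ j i))]
    · refine Finset.sum_congr rfl fun i hi => ?_
      rw [hp]
      congr 1
      ext m
      simp only [cr, Finset.mem_filter, Finset.mem_univ, true_and] at hi ⊢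
      constructor
      · rintro ⟨⟨h1, h2⟩, h3⟩
        exact ⟨h2.2 not_false, h3⟩
      · rintro ⟨h1, h2⟩
        exact ⟨⟨by rw [h2]; exact hi, ⟨fun _ => not_false, fun _ => h1⟩⟩, h2⟩
    · intro m hm
      have hm' := Finset.mem_coe.1 hm
      simp only [cr, Finset.mem_filter, Finset.mem_univ, true_and] at hm'
      exact Finset.mem_coe.2 (Finset.mem_filter.2 ⟨Finset.mem_univ _, hm'.1⟩)
  by_cases hex : ∃ i j, Γ i j ∧ 0 < p i ∧ p j < n j
  · right
    obtain ⟨j, hj | hj⟩ := hA p hple hex
    · refine ⟨j, True, I.filter (fun m => c m = j), ?_, ?_, ?_⟩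
      · intro m
        rw [Finset.mem_filter]
        exact ⟨fun h => ⟨h.2, ⟨fun _ => trivial, fun _ => h.1⟩⟩, fun h => ⟨h.2.2 trivial, h.1⟩⟩
      · rw [← Finset.card_pos, hcrT]
        exact hj.1
      · rw [hcrT]
        exact hj.2
    · refine ⟨j, False, (Finset.univ.filter (fun m : P => c m = j)).filter (fun m => m ∉ I),
        ?_, ?_, ?_⟩
      · intro m
        simp only [Finset.mem_filter, Finset.mem_univ, true_and]
        exact ⟨fun h => ⟨h.1, ⟨fun hm => h.2 hm, fun hm => hm.elim⟩⟩, fun h => ⟨h.1, h.2.1⟩⟩
      · rw [← Finset.card_pos, hcrF]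
        exact hj.1
      · rw [hcrF, hq]
        exact hj.2
  · left
    have key : ∀ m l, Γ (c m) (c l) → m ∈ I → l ∈ I := by
      intro m l hg hm
      by_contra hl
      apply hex
      refine ⟨c m, c l, hg, Finset.card_pos.2 ⟨m, Finset.mem_filter.2 ⟨hm, rfl⟩⟩, ?_⟩
      have h1 : 0 < ((Finset.univ.filter (fun m : P => c m = c l)).filter
          (fun m => m ∉ I)).card := Finset.card_pos.2 ⟨l, by
        simp only [Finset.mem_filter, Finset.mem_univ, true_and]
        exact hl⟩
      have h2 := hsplit (c l)
      omega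
    intro m l hg
    exact ⟨key m l hg, key l m (hs _ _ hg)⟩

end Pool.Agent.HUR
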