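import Pool.Agent.HUR.C13
import Pool.Agent.HUR.D6
import Pool.Agent.HUR.E2
import Pool.Agent.HUR.E3
import Pool.Agent.HUR.G1

namespace Pool.Agent.HUR

open Pool.Agent.HCH Pool.Agent.HCF

variable {ι P : Type} [Fintype P] {Γ : ι → ι → Prop} {N : ι → Prop} {c : P → ι}

/-
PROOF. comb. First case: big_sum with U = ∅ (g ∈ MG N c ∅ has g.right m = m); for g ∈ MG N c univ the
point h.mv hg has dimension e (dm_mv), aff_rel for it gives bc and rel_sum the sum. Second case: the
same with U and conic_rel; hU: g ∈ MG N c U fixes the points outside U and maps U to itself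
(injective, fixes the complement), and m ∈ U gives (m ∈ I ↔ s), so m ∈ I ↔ g.right m ∈ I.
-/
theorem all_I [Fintype ι] (hs : ∀ i j, Γ i j → Γ j i) (hi : ∀ j, ¬ Γ j j) (n : ι → ℕ)
    (hn : ∀ j, {m : P | c m = j}.ncard = n j) (hA : Adm Γ n) {L : Type} [Field L]
    [Algebra ℂ L] [IsAlgClosed L] {a y : P → L} (h : Pnt Γ N c a y) (e : ℕ)
    (hL : Algebra.trdeg ℂ L = (e : Cardinal)) (hd : dm ℂ (kr h).asIdeal = e)
    (he : e < Fintype.card P) (I : Finset P) (hI : ∀ m ∈ I, N (c m)) :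
    ∑ g : MG N c (Set.univ : Set P), ((chi I g.1 : ℤˣ) : ℤ) • cl Γ N c (mvA g.1 a) (mvY g.1 y) ∈
      RS (HR Γ N c) e := by
  classical
  rcases comb hs n hn hA I with h1 | ⟨j, s, U, hU, hne, hcard⟩
  · have hfix : ∀ g ∈ MG N c (∅ : Set P), ∀ m, g.right m ∈ I ↔ m ∈ I := by
      intro g hg m
      rw [hg.2.2 m (Set.notMem_empty m)]
    refine big_sum I ∅ hfix a y e fun g hg => ?_
    have hd' : dm ℂ (kr (h.mv hg)).asIdeal = e := (dm_mv hg h (h.mv hg)).trans hd
    obtain ⟨bc, hb, hb0, hrel⟩ := aff_rel hs hi (h.mv hg) e hL hd' he I hI h1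
    exact rel_sum I ∅ hfix _ _ e bc hb hb0 hrel
  · have hfix : ∀ g ∈ MG N c (U : Set P), ∀ m, g.right m ∈ I ↔ m ∈ I := by
      intro g hg m
      by_cases hm : m ∈ U
      · have h2 : g.right m ∈ U := by
          by_contra h3
          have h4 : g.right (g.right m) = g.right m := hg.2.2 _ (by simpa using h3)
          rw [g.right.injective h4] at h3
          exact h3 hm
        rw [((hU m).1 hm).2, ((hU _).1 h2).2]
      · rw [hg.2.2 m (by simpa using hm)]
    refine big_sum I (U : Set P) hfix a y e fun g hg => ?_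
    have hd' : dm ℂ (kr (h.mv hg)).asIdeal = e := (dm_mv hg h (h.mv hg)).trans hd
    obtain ⟨bc, hb, hb0, hrel⟩ := conic_rel hs hi (h.mv hg) e hL hd' I U hI j s
      (fun m hm => (hU m).1 hm) hne hcard
    exact rel_sum I (U : Set P) hfix _ _ e bc hb hb0 hrel

end Pool.Agent.HUR
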