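import Pool.Agent.HUR.Defs3

namespace Pool.Agent.HUR

variable {ι : Type} [Fintype ι] {Γ : ι → ι → Prop}

open Classical in
private theorem G2_rr (q : ι → ℕ) (i : ι) :
    ((rr Γ q i : ℕ) : ℝ) = ∑ j, (if Γ i j then (q j : ℝ) else 0) := by
  unfold rr
  rw [Nat.cast_sum, Finset.sum_filter]

open Classical in
private theorem G2_le (q : ι → ℕ) {i j : ι} (h : Γ i j) : q j ≤ rr Γ q i := by
  unfold rr
  exact Finset.single_le_sum (f := q) (fun _ _ => Nat.zero_le _)
    (Finset.mem_filter.2 ⟨Finset.mem_univ j, h⟩)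

open Classical in
private theorem G2_quad (h : Spec2 Γ) (x z : ι → ℝ) :
    ∑ i, ∑ j, (if Γ i j then (x i * z j + z i * x j) else 0) ≤
      2 * (∑ i, x i ^ 2 + ∑ i, z i ^ 2) := by
  have h1 := h (fun i => x i + z i)
  have h2 := h (fun i => |x i - z i|)
  have h3 : ∑ i, ∑ j, (if Γ i j then (x i * z j + z i * x j) else 0) * 2 ≤
      ∑ i, ∑ j, (if Γ i j then (x i + z i) * (x j + z j) else 0) +
      ∑ i, ∑ j, (if Γ i j then |x i - z i| * |x j - z j| else 0) := by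
    rw [← Finset.sum_add_distrib]
    refine Finset.sum_le_sum (fun i _ => ?_)
    rw [← Finset.sum_add_distrib]
    refine Finset.sum_le_sum (fun j _ => ?_)
    split_ifs with hij
    · have h4 := neg_abs_le ((x i - z i) * (x j - z j))
      rw [abs_mul] at h4
      nlinarith
    · simp
  have h5 : ∑ i, ∑ j, (if Γ i j then (x i * z j + z i * x j) else 0) * 2 =
      (∑ i, ∑ j, (if Γ i j then (x i * z j + z i * x j) else 0)) * 2 := by
    simp only [Finset.sum_mul]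
  have h6 : ∑ i, (x i + z i) ^ 2 + ∑ i, |x i - z i| ^ 2 =
      2 * (∑ i, x i ^ 2 + ∑ i, z i ^ 2) := by
    rw [← Finset.sum_add_distrib, ← Finset.sum_add_distrib, Finset.mul_sum]
    refine Finset.sum_congr rfl (fun i _ => ?_)
    rw [sq_abs]
    ring
  rw [h5] at h3
  linarith

/-
PROOF. Suppose not: p with p ≤ n, q := n - p, i0 and j0 with Γ i0 j0, 0 < p i0, 0 < q j0, and for all j:
rr Γ q j > 0 implies rr Γ q j > 2 p j, and rr Γ p j > 0 implies rr Γ p j > 2 q j. Define real vectors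
P j := p j if rr Γ q j > 0, and 0 otherwise; Q j := q j if rr Γ p j > 0, and 0 otherwise. Let
B x z := ∑ i, ∑ j, if Γ i j then x i * z j else 0 (symmetric by hs).
(1) if Γ i j and p j * q i ≠ 0, then rr Γ q j ≥ q i > 0 and rr Γ p i ≥ p j > 0 (hs), so P j = p j and
Q i = q i; so B P Q = B p q (as real sums; terms with p j * q i = 0 vanish in both). Moreover
B P Q = ∑ j, P j * rr Γ q j: by (1) B P Q = B p q = ∑ j, p j * rr Γ q j, and the terms with
rr Γ q j = 0 vanish. Hence B P Q ≥ 2 ∑ j, P j ^ 2, because P j * rr Γ q j ≥ 2 P j ^ 2 for every j,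
and the inequality is strict for j = i0 (P i0 = p i0 > 0 as rr Γ q i0 ≥ q j0 > 0). In the same way
B P Q = ∑ j, Q j * rr Γ p j ≥ 2 ∑ j, Q j ^ 2. So 2 B P Q > 2 (∑ P j ^ 2 + ∑ Q j ^ 2).
(2) On the other hand B P Q ≤ ∑ P j ^ 2 + ∑ Q j ^ 2: by h, B (P + Q) (P + Q) ≤ 2 ∑ (P + Q) ^ 2, and
B (P - Q) (P - Q) ≥ - B |P - Q| |P - Q| ≥ - 2 ∑ (P - Q) ^ 2 (the entries of Γ are ≥ 0, h for |P - Q|).
Subtract: 4 B P Q ≤ 2 ∑ (P + Q) ^ 2 + 2 ∑ (P - Q) ^ 2 = 4 ∑ P ^ 2 + 4 ∑ Q ^ 2. Contradiction.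
-/
theorem spec_adm (hs : ∀ i j, Γ i j → Γ j i) (h : Spec2 Γ) (n : ι → ℕ) : Adm Γ n := by
  classical
  intro p hp hex
  by_contra hcon
  push Not at hcon
  obtain ⟨i0, j0, hij, hpi, hqj⟩ := hex
  set q : ι → ℕ := fun i => n i - p i with hq
  have hq1 : ∀ j, 0 < rr Γ q j → 2 * p j < rr Γ q j := fun j hj => (hcon j).1 hj
  have hq2 : ∀ j, 0 < rr Γ p j → 2 * q j < rr Γ p j := fun j hj => (hcon j).2 hj
  have hqj0 : 0 < q j0 := by simp only [hq]; omega
  let A : ι → ℝ := fun j => if 0 < rr Γ q j then (p j : ℝ) else 0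
  let B : ι → ℝ := fun j => if 0 < rr Γ p j then (q j : ℝ) else 0
  have key : ∀ i j, (if Γ i j then A i * B j else 0) =
      (if Γ i j then (p i : ℝ) * (q j : ℝ) else 0) := by
    intro i j
    split_ifs with hg
    · by_cases hp0 : p i = 0
      · simp [A, hp0]
      · by_cases hq0 : q j = 0
        · simp [B, hq0]
        · have e1 : 0 < rr Γ q i := lt_of_lt_of_le (Nat.pos_of_ne_zero hq0) (G2_le q hg)
          have e2 : 0 < rr Γ p j := lt_of_lt_of_le (Nat.pos_of_ne_zero hp0) (G2_le p (hs _ _ hg))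
          simp only [A, B, if_pos e1, if_pos e2]
    · rfl
  have sAB : ∑ i, ∑ j, (if Γ i j then A i * B j else 0) = ∑ i, (p i : ℝ) * (rr Γ q i : ℝ) := by
    refine Finset.sum_congr rfl (fun i _ => ?_)
    rw [G2_rr, Finset.mul_sum]
    refine Finset.sum_congr rfl (fun j _ => ?_)
    rw [key]
    split_ifs <;> simp
  have sAB' : ∑ i, ∑ j, (if Γ i j then A i * B j else 0) = ∑ j, (q j : ℝ) * (rr Γ p j : ℝ) := by
    rw [Finset.sum_comm]
    refine Finset.sum_congr rfl (fun j _ => ?_)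
    rw [G2_rr, Finset.mul_sum]
    refine Finset.sum_congr rfl (fun i _ => ?_)
    rw [key]
    by_cases hg : Γ i j
    · rw [if_pos hg, if_pos (hs _ _ hg)]
      ring
    · rw [if_neg hg, if_neg (fun h' => hg (hs _ _ h'))]
      ring
  have sBA : ∑ i, ∑ j, (if Γ i j then B i * A j else 0) =
      ∑ i, ∑ j, (if Γ i j then A i * B j else 0) := by
    rw [Finset.sum_comm]
    refine Finset.sum_congr rfl (fun j _ => Finset.sum_congr rfl (fun i _ => ?_))
    by_cases hg : Γ i j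
    · rw [if_pos hg, if_pos (hs _ _ hg)]
      ring
    · rw [if_neg hg, if_neg (fun h' => hg (hs _ _ h'))]
  have tA : ∀ i, 2 * A i ^ 2 ≤ (p i : ℝ) * (rr Γ q i : ℝ) := by
    intro i
    by_cases h0 : 0 < rr Γ q i
    · have e : (2 * p i : ℝ) < (rr Γ q i : ℝ) := by exact_mod_cast hq1 i h0
      simp only [A, if_pos h0]
      have : (0 : ℝ) ≤ p i := Nat.cast_nonneg _
      nlinarith
    · simp only [A, if_neg h0]
      have : (0 : ℝ) ≤ (p i : ℝ) * (rr Γ q i : ℝ) := by positivity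
      linarith
  have tB : ∀ i, 2 * B i ^ 2 ≤ (q i : ℝ) * (rr Γ p i : ℝ) := by
    intro i
    by_cases h0 : 0 < rr Γ p i
    · have e : (2 * q i : ℝ) < (rr Γ p i : ℝ) := by exact_mod_cast hq2 i h0
      simp only [B, if_pos h0]
      have : (0 : ℝ) ≤ q i := Nat.cast_nonneg _
      nlinarith
    · simp only [B, if_neg h0]
      have : (0 : ℝ) ≤ (q i : ℝ) * (rr Γ p i : ℝ) := by positivity
      linarith
  have tA0 : 2 * A i0 ^ 2 < (p i0 : ℝ) * (rr Γ q i0 : ℝ) := by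
    have h0 : 0 < rr Γ q i0 := lt_of_lt_of_le hqj0 (G2_le q hij)
    have e : (2 * p i0 : ℝ) < (rr Γ q i0 : ℝ) := by exact_mod_cast hq1 i0 h0
    simp only [A, if_pos h0]
    have : (0 : ℝ) < p i0 := Nat.cast_pos.2 hpi
    nlinarith
  have uA : ∑ i, 2 * A i ^ 2 < ∑ i, (p i : ℝ) * (rr Γ q i : ℝ) :=
    Finset.sum_lt_sum (fun i _ => tA i) ⟨i0, Finset.mem_univ _, tA0⟩
  have uB : ∑ i, 2 * B i ^ 2 ≤ ∑ i, (q i : ℝ) * (rr Γ p i : ℝ) :=
    Finset.sum_le_sum (fun i _ => tB i)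
  rw [← Finset.mul_sum] at uA uB
  have hquad := G2_quad h A B
  have hsplit : ∑ i, ∑ j, (if Γ i j then (A i * B j + B i * A j) else 0) =
      ∑ i, ∑ j, (if Γ i j then A i * B j else 0) + ∑ i, ∑ j, (if Γ i j then B i * A j else 0) := by
    rw [← Finset.sum_add_distrib]
    refine Finset.sum_congr rfl (fun i _ => ?_)
    rw [← Finset.sum_add_distrib]
    refine Finset.sum_congr rfl (fun j _ => ?_)
    split_ifs <;> simp
  rw [hsplit, sBA] at hquad
  rw [← sAB] at uA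
  rw [← sAB'] at uB
  linarith

end Pool.Agent.HUR
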