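import Pool.Agent.HUR.G3

namespace Pool.Agent.HUR

variable {G : Type} [Group G] {ι : Type}

private theorem G4_ncc (C : ι → ConjClasses G) (i j : ι) (h : ncg C i j) : ncc C i := by
  obtain ⟨a, ha, b, hb, hab⟩ := h
  refine ⟨a, ha, b * a * b⁻¹, ?_, ?_⟩
  · rw [ConjClasses.mem_carrier_iff_mk_eq] at ha ⊢
    rw [← ha]
    exact (ConjClasses.mk_eq_mk_iff_isConj.2 (isConj_iff.2 ⟨b, rfl⟩)).symm
  · intro e
    apply hab
    calc a * b = (b * a * b⁻¹) * b := by rw [← e]
      _ = b * a := by group

private theorem G4_card [Fintype ι] (hG : Nat.card G = 8) (C : ι → ConjClasses G)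
    (hC : Function.Injective C) (S : Finset ι) (hS : ∀ i ∈ S, ncc C i) : S.card ≤ 3 := by
  classical
  have : Fact (Nat.Prime 2) := ⟨Nat.prime_two⟩
  have : Finite G := Nat.finite_of_card_ne_zero (by omega)
  have : Fintype G := Fintype.ofFinite G
  obtain ⟨k, hk0, hk⟩ := IsPGroup.card_center_eq_prime_pow (G := G) (p := 2) (n := 3)
    (by rw [hG]; norm_num) (by norm_num)
  have hz : 2 ≤ (Finset.univ.filter (fun g : G => g ∈ Subgroup.center G)).card := by
    have h1 : (Finset.univ.filter (fun g : G => g ∈ Subgroup.center G)).card =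
        Nat.card (Subgroup.center G) := by
      rw [Nat.card_eq_fintype_card, Fintype.card_subtype]
    rw [h1, hk]
    calc 2 = 2 ^ 1 := by norm_num
      _ ≤ 2 ^ k := Nat.pow_le_pow_right (by norm_num) hk0
  have hT : (Finset.univ.filter (fun g : G => g ∉ Subgroup.center G)).card ≤ 6 := by
    have h1 := Finset.card_filter_add_card_filter_not
      (s := (Finset.univ : Finset G)) (fun g => g ∈ Subgroup.center G)
    rw [Finset.card_univ, ← Nat.card_eq_fintype_card, hG] at h1
    omega
  have hch : ∀ i, ∃ a b : G, ncc C i → a ∈ (C i).carrier ∧ b ∈ (C i).carrier ∧ a ≠ b := by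
    intro i
    by_cases h : ncc C i
    · obtain ⟨a, ha, b, hb, hab⟩ := h
      exact ⟨a, b, fun _ => ⟨ha, hb, hab⟩⟩
    · exact ⟨1, 1, fun h' => absurd h' h⟩
  choose a b hab using hch
  have hcen : ∀ u v : G, IsConj u v → u ≠ v → u ∉ Subgroup.center G := by
    intro u v h hne hu
    obtain ⟨g, hg⟩ := isConj_iff.1 h
    apply hne
    rw [← hg, Subgroup.mem_center_iff.1 hu g]
    group
  have hle : (S ×ˢ (Finset.univ : Finset Bool)).card ≤
      (Finset.univ.filter (fun g : G => g ∉ Subgroup.center G)).card := by
    apply Finset.card_le_card_of_injOn (fun q : ι × Bool => cond q.2 (a q.1) (b q.1))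
    · rintro ⟨i, t⟩ hq
      have hi := hS i (Finset.mem_product.1 (Finset.mem_coe.1 hq)).1
      obtain ⟨h1, h2, h3⟩ := hab i hi
      rw [ConjClasses.mem_carrier_iff_mk_eq] at h1 h2
      have hc : IsConj (a i) (b i) := ConjClasses.mk_eq_mk_iff_isConj.1 (h1.trans h2.symm)
      refine Finset.mem_coe.2 (Finset.mem_filter.2 ⟨Finset.mem_univ _, ?_⟩)
      cases t with
      | true => exact hcen _ _ hc h3
      | false => exact hcen _ _ hc.symm h3.symm
    · rintro ⟨i, t⟩ hq ⟨i', t'⟩ hq' e
      have hi := hS i (Finset.mem_product.1 (Finset.mem_coe.1 hq)).1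
      have hi' := hS i' (Finset.mem_product.1 (Finset.mem_coe.1 hq')).1
      obtain ⟨h1, h2, h3⟩ := hab i hi
      obtain ⟨h1', h2', h3'⟩ := hab i' hi'
      rw [ConjClasses.mem_carrier_iff_mk_eq] at h1 h2 h1' h2'
      have hm : ∀ t : Bool, ConjClasses.mk (cond t (a i) (b i)) = C i := by
        intro t
        cases t with
        | true => exact h1
        | false => exact h2
      have hm' : ∀ t : Bool, ConjClasses.mk (cond t (a i') (b i')) = C i' := by
        intro t
        cases t with
        | true => exact h1'
        | false => exact h2'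
      have e' : cond t (a i) (b i) = cond t' (a i') (b i') := e
      have hii : i = i' := by
        apply hC
        rw [← hm t, ← hm' t', e']
      subst hii
      cases t with
      | true =>
        cases t' with
        | true => rfl
        | false => exact absurd e' h3
      | false =>
        cases t' with
        | true => exact absurd e'.symm h3
        | false => rfl
  rw [Finset.card_product, Finset.card_univ, Fintype.card_bool] at hle
  omega

/-
PROOF. Let S be the set of i with C i a noncentral class (more than one element). If ncg C i j then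
i ≠ j (ncg_irrefl with card8_comm; or directly), i ∈ S and j ∈ S (an element of a class with one
element is central). S has at most 3 elements: C is injective, the classes are disjoint, each of the
classes C i, i ∈ S, has at least 2 elements, none of them central, and there are at most 6 noncentral
elements (the center has at least 2 elements, IsPGroup.center_nontrivial). So
∑ i, ∑ j, (if ncg C i j then x i * x j else 0) ≤ ∑ i ∈ S, ∑ j ∈ S \ {i}, (x i ^ 2 + x j ^ 2) / 2 =
(card S - 1) * ∑ i ∈ S, x i ^ 2 ≤ 2 * ∑ i, x i ^ 2. (Terms: x i * x j ≤ (x i ^ 2 + x j ^ 2) / 2 and the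
right-hand terms are nonnegative.)
-/
theorem card8_spec [Fintype ι] (hG : Nat.card G = 8) (C : ι → ConjClasses G)
    (hC : Function.Injective C) : Spec2 (ncg C) := by
  classical
  have hdeg : ∀ i, (Finset.univ.filter (fun j => ncg C i j)).card ≤ 2 := by
    intro i
    rcases (Finset.univ.filter (fun j => ncg C i j)).eq_empty_or_nonempty with h0 | ⟨j0, hj0⟩
    · rw [h0]
      simp
    · have hi : ncc C i := G4_ncc C i j0 (Finset.mem_filter.1 hj0).2
      have hnot : i ∉ Finset.univ.filter (fun j => ncg C i j) := by
        intro h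
        have : Finite G := Nat.finite_of_card_ne_zero (by omega)
        exact ncg_irrefl (card8_comm hG) C i (Finset.mem_filter.1 h).2
      have h3 := G4_card hG C hC (insert i (Finset.univ.filter (fun j => ncg C i j))) (by
        intro j hj
        rcases Finset.mem_insert.1 hj with h | h
        · rw [h]
          exact hi
        · exact G4_ncc C j i (ncg_symm C i j (Finset.mem_filter.1 h).2))
      rw [Finset.card_insert_of_notMem hnot] at h3
      omega
  intro x
  have hsym : ∑ i, ∑ j, (if ncg C i j then x j ^ 2 / 2 else 0) =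
      ∑ i, ∑ j, (if ncg C i j then x i ^ 2 / 2 else 0) := by
    rw [Finset.sum_comm]
    refine Finset.sum_congr rfl fun i _ => Finset.sum_congr rfl fun j _ => ?_
    have h1 : ncg C j i ↔ ncg C i j := ⟨ncg_symm C j i, ncg_symm C i j⟩
    simp only [h1]
  calc ∑ i, ∑ j, (if ncg C i j then x i * x j else 0)
      ≤ ∑ i, ∑ j, ((if ncg C i j then x i ^ 2 / 2 else 0) +
          (if ncg C i j then x j ^ 2 / 2 else 0)) := by
        refine Finset.sum_le_sum fun i _ => Finset.sum_le_sum fun j _ => ?_
        split_ifs
        · nlinarith [sq_nonneg (x i - x j)]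
        · simp
    _ = ∑ i, ∑ j, (if ncg C i j then x i ^ 2 / 2 else 0) +
          ∑ i, ∑ j, (if ncg C i j then x i ^ 2 / 2 else 0) := by
        simp only [Finset.sum_add_distrib]
        rw [hsym]
    _ = ∑ i, ((Finset.univ.filter (fun j => ncg C i j)).card : ℝ) * x i ^ 2 := by
        rw [← Finset.sum_add_distrib]
        refine Finset.sum_congr rfl fun i _ => ?_
        rw [← Finset.sum_filter, Finset.sum_const, nsmul_eq_mul]
        ring
    _ ≤ ∑ i, 2 * x i ^ 2 := by
        refine Finset.sum_le_sum fun i _ => ?_
        refine mul_le_mul_of_nonneg_right ?_ (sq_nonneg _)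
        exact_mod_cast hdeg i
    _ = 2 * ∑ i, x i ^ 2 := by rw [Finset.mul_sum]

end Pool.Agent.HUR
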