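import Pool.Agent.HUR.Defs3

namespace Pool.Agent.HUR

/-- a greedy search order -/
private theorem G5_order {ι : Type} [Fintype ι] (Γ : ι → ι → Prop) (hs : ∀ i j, Γ i j → Γ j i) (n : ℕ)
    (hn : n ≤ Fintype.card ι) : ∃ (S : Finset ι) (r : ι → ℕ), S.card = n ∧ (∀ j ∈ S, r j < n) ∧
      (∀ i ∈ S, ∀ j ∈ S, r i = r j → i = j) ∧
      ∀ l' ∈ S, (∃ l ∈ S, r l < r l' ∧ ∃ i, Γ l i ∧ (i ∉ S ∨ r l' ≤ r i)) →
        ∃ x ∈ S, r x < r l' ∧ Γ l' x := by
  classical
  induction n with
  | zero => exact ⟨∅, fun _ => 0, rfl, by simp, by simp, by simp⟩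
  | succ n ih =>
    obtain ⟨S, r, h1, h2, h3, h4⟩ := ih (by omega)
    obtain ⟨v, hv, hvx⟩ : ∃ v, v ∉ S ∧ ((∃ l ∈ S, ∃ i, i ∉ S ∧ Γ l i) → ∃ x ∈ S, Γ v x) := by
      by_cases h : ∃ l ∈ S, ∃ i, i ∉ S ∧ Γ l i
      · obtain ⟨l, hl, i, hi, hli⟩ := h
        exact ⟨i, hi, fun _ => ⟨l, hl, hs _ _ hli⟩⟩
      · have h5 : ∃ v, v ∉ S := by
          by_contra h6
          push Not at h6
          have h7 : S = Finset.univ := Finset.eq_univ_iff_forall.2 h6
          rw [h7, Finset.card_univ] at h1
          omega
        obtain ⟨v, hv⟩ := h5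
        exact ⟨v, hv, fun h' => absurd h' h⟩
    have hne : ∀ j ∈ S, j ≠ v := fun j hj e => hv (e ▸ hj)
    have hr : ∀ j, j ≠ v → Function.update r v n j = r j := fun j hj => Function.update_of_ne hj _ _
    have hrv : Function.update r v n v = n := Function.update_self _ _ _
    refine ⟨insert v S, Function.update r v n, ?_, ?_, ?_, ?_⟩
    · rw [Finset.card_insert_of_notMem hv, h1]
    · intro j hj
      rcases Finset.mem_insert.1 hj with rfl | hj
      · rw [hrv]; omega
      · rw [hr j (hne j hj)]
        have := h2 j hj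
        omega
    · intro i hi j hj hij
      rcases Finset.mem_insert.1 hi with hiv | hi'
      · rcases Finset.mem_insert.1 hj with hjv | hj'
        · rw [hiv, hjv]
        · rw [hiv, hrv, hr j (hne j hj')] at hij
          have := h2 j hj'
          omega
      · rcases Finset.mem_insert.1 hj with hjv | hj'
        · rw [hjv, hrv, hr i (hne i hi')] at hij
          have := h2 i hi'
          omega
        · rw [hr i (hne i hi'), hr j (hne j hj')] at hij
          exact h3 i hi' j hj' hij
    · intro l' hl' ⟨l, hl, hll, i, hli, hi⟩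
      rcases Finset.mem_insert.1 hl' with hlv | hl''
      · rw [hlv, hrv] at hll hi
        have hlS : l ∈ S := by
          rcases Finset.mem_insert.1 hl with h | h
          · rw [h, hrv] at hll
            omega
          · exact h
        have hiS : i ∉ S := by
          intro hiS
          rcases hi with hi | hi
          · exact hi (Finset.mem_insert_of_mem hiS)
          · rw [hr i (hne i hiS)] at hi
            have := h2 i hiS
            omega
        obtain ⟨x, hx, hvx'⟩ := hvx ⟨l, hlS, i, hiS, hli⟩
        refine ⟨x, Finset.mem_insert_of_mem hx, ?_, hlv ▸ hvx'⟩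
        rw [hlv, hrv, hr x (hne x hx)]
        exact h2 x hx
      · rw [hr l' (hne l' hl'')] at hll hi
        have hlS : l ∈ S := by
          rcases Finset.mem_insert.1 hl with h | h
          · rw [h, hrv] at hll
            have := h2 l' hl''
            omega
          · exact h
        rw [hr l (hne l hlS)] at hll
        have h5 : i ∉ S ∨ r l' ≤ r i := by
          by_cases hiv : i = v
          · left
            rw [hiv]
            exact hv
          · rcases hi with hi | hi
            · exact Or.inl fun h => hi (Finset.mem_insert_of_mem h)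
            · rw [hr i hiv] at hi
              exact Or.inr hi
        obtain ⟨x, hx, hx1, hx2⟩ := h4 l' hl'' ⟨l, hlS, hll, i, hli, h5⟩
        refine ⟨x, Finset.mem_insert_of_mem hx, ?_, hx2⟩
        rw [hr l' (hne l' hl''), hr x (hne x hx)]
        exact hx1

private theorem G5_bool : ∀ a s : Bool, a ≠ s → a = !s := by decide

open Classical in
private theorem G5_claim {ι : Type} [Fintype ι] (Γ : ι → ι → Prop) (hs : ∀ i j, Γ i j → Γ j i)
    (hirr : ∀ j, ¬ Γ j j) (r : ι → ℕ) (k : ℕ) (hk : Fintype.card ι = k)
    (hinj : ∀ i j, r i = r j → i = j)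
    (hstar : ∀ i l l', Γ l i → r l < r i → (∀ j, Γ l j → r i ≤ r j) → Γ l' i → r l' < r i →
      (∀ j, Γ l' j → r i ≤ r j) → l = l')
    (n : ι → ℕ) (hnpos : ∀ j, 0 < n j) (hnle : ∀ i l, r l < r i → n i * (4 * k + 4) ≤ n l)
    (x : ι → Bool → ℕ) (hsum : ∀ j s, x j s + x j (!s) = n j) (R : ι → Bool → ℕ)
    (hR : ∀ j s, R j s = ∑ i ∈ Finset.univ.filter (fun i => Γ j i), x i (!s))
    (hH : ∀ j s, 0 < R j s → 2 * x j s < R j s)
    (hRle : ∀ j i s, Γ j i → x i (!s) ≤ R j s)
    (b : ι → Bool) (hb : ∀ j, n j ≤ 2 * x j (b j)) (hbeq : ∀ j s, x j (!s) = 0 → b j = s) :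
    ∀ m i, r i = m → R i (b i) = 0 := by
  intro m
  induction m using Nat.strong_induction_on with
  | _ m ih =>
    intro i hi
    by_contra hne
    have hpos : 0 < R i (b i) := Nat.pos_of_ne_zero hne
    have hM : n i < R i (b i) := lt_of_le_of_lt (hb i) (hH i (b i) hpos)
    -- the vertices of larger rank
    set T := ∑ j ∈ Finset.univ.filter (fun j => r i < r j), n j with hT
    have hT4 : 4 * T ≤ n i := by
      have h1 : T * (4 * k + 4) ≤ k * n i := by
        rw [hT, Finset.sum_mul]
        refine (Finset.sum_le_card_nsmul _ _ (n i) fun j hj => hnle j i (Finset.mem_filter.1 hj).2).trans ?_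
        rw [smul_eq_mul]
        exact Nat.mul_le_mul_right _ ((Finset.card_le_univ _).trans hk.le)
      have h2 : T * (4 * k + 4) ≤ (k + 1) * n i := by
        calc T * (4 * k + 4) ≤ k * n i := h1
          _ ≤ (k + 1) * n i := Nat.mul_le_mul_right _ (Nat.le_succ _)
      have h3 : (k + 1) * (4 * T) ≤ (k + 1) * n i := by
        calc (k + 1) * (4 * T) = T * (4 * k + 4) := by ring
          _ ≤ _ := h2
      exact Nat.le_of_mul_le_mul_left h3 (Nat.succ_pos k)
    set A := ∑ l ∈ (Finset.univ.filter (fun l => Γ i l)).filter (fun l => r l < r i), x l (!(b i)) with hA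
    have hRA : R i (b i) ≤ A + T := by
      rw [hR, ← Finset.sum_filter_add_sum_filter_not _ (fun l => r l < r i)]
      refine Nat.add_le_add_left ?_ _
      refine (Finset.sum_le_sum (g := n) fun l _ => ?_).trans (Finset.sum_le_sum_of_subset ?_)
      · have := hsum l (!(b i))
        omega
      · intro l hl
        rw [Finset.mem_filter, Finset.mem_filter] at hl
        refine Finset.mem_filter.2 ⟨Finset.mem_univ _, ?_⟩
        have h1 : r i ≠ r l := by
          intro h2
          have h3 := hinj i l h2
          rw [← h3] at hl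
          exact hirr i hl.1.2
        omega
    -- the vertices of smaller rank
    have hl1 : ∀ l, Γ i l → r l < r i → 0 < x l (!(b i)) → b l = b i ∧ x i (!(b l)) = 0 ∧
        ∀ j, Γ l j → x j (!(b l)) = 0 ∧ r i ≤ r j := by
      intro l hil hli hx
      have h0 : R l (b l) = 0 := ih (r l) (hi ▸ hli) l rfl
      have h1 : ∀ j, Γ l j → x j (!(b l)) = 0 := fun j hj => by
        have := hRle l j (b l) hj
        omega
      have h2 : b i = b l := hbeq i (b l) (h1 i (hs _ _ hil))
      refine ⟨h2.symm, h1 i (hs _ _ hil), fun j hj => ⟨h1 j hj, ?_⟩⟩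
      by_contra h3
      have h4 : b j = b l := hbeq j (b l) (h1 j hj)
      have h5 := ih (r j) (by omega) j rfl
      have h6 := hRle j l (b j) (hs _ _ hj)
      rw [h5, h4, ← h2] at h6
      omega
    have hApos : 0 < A := by omega
    obtain ⟨l, hl, hxl⟩ : ∃ l ∈ (Finset.univ.filter (fun l => Γ i l)).filter (fun l => r l < r i),
        0 < x l (!(b i)) := by
      by_contra h
      push Not at h
      have : A = 0 := Finset.sum_eq_zero fun l hl => by
        have := h l hl
        omega
      omega
    rw [Finset.mem_filter, Finset.mem_filter] at hl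
    obtain ⟨hbl, hxi, hnb⟩ := hl1 l hl.1.2 hl.2 hxl
    have hAl : A = x l (!(b i)) := by
      refine Finset.sum_eq_single l ?_ ?_
      · intro l' hl' hne'
        rw [Finset.mem_filter, Finset.mem_filter] at hl'
        by_contra h
        obtain ⟨-, -, hnb'⟩ := hl1 l' hl'.1.2 hl'.2 (Nat.pos_of_ne_zero h)
        exact hne' (hstar i l' l (hs _ _ hl'.1.2) hl'.2 (fun j hj => (hnb' j hj).2) (hs _ _ hl.1.2) hl.2
          fun j hj => (hnb j hj).2)
      · intro h
        exact absurd (Finset.mem_filter.2 ⟨Finset.mem_filter.2 ⟨Finset.mem_univ _, hl.1.2⟩, hl.2⟩) h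
    have hR2 : R l (!(b l)) ≤ n i + T := by
      rw [hR]
      have h1 : ∑ j ∈ Finset.univ.filter (fun j => Γ l j), x j (!(!(b l))) ≤
          ∑ j ∈ insert i (Finset.univ.filter (fun j => r i < r j)), n j := by
        refine (Finset.sum_le_sum (g := n) fun j _ => ?_).trans (Finset.sum_le_sum_of_subset ?_)
        · have := hsum j (!(!(b l)))
          omega
        · intro j hj
          rw [Finset.mem_filter] at hj
          rw [Finset.mem_insert, Finset.mem_filter]
          by_cases hji : j = i
          · exact Or.inl hji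
          · right
            refine ⟨Finset.mem_univ _, ?_⟩
            have h2 := (hnb j hj.2).2
            have h3 : r i ≠ r j := fun h4 => hji (hinj i j h4).symm
            omega
      rw [Finset.sum_insert (by simp)] at h1
      exact h1
    have hR3 : 0 < R l (!(b l)) := by
      have h1 := hRle l i (!(b l)) (hs _ _ hl.1.2)
      have h2 := hsum i (!(b l))
      have h3 := hnpos i
      omega
    have hR4 := hH l (!(b l)) hR3
    rw [hbl] at hR4 hR2
    omega

/-
PROOF. A good order. Let ι be finite with card k. There is a bijection r : ι → Fin k (an injective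
rank r : ι → ℕ with values < k is enough) such that for every j which has a neighbour, but no
neighbour of smaller rank, j is the only element of its connected component with this property;
what is needed below is:
 (*) for every i there is at most one l with Γ l i, r l < r i and such that all neighbours j of l
     have r i ≤ r j.
Such an r: breadth first (or any search) order in every component: every vertex which is not the
first of its component has a neighbour of smaller rank. (Proof by induction on the number of
placed vertices: if some unplaced vertex is a neighbour of a placed one, place it next, otherwise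
place any vertex. Alternatively: SimpleGraph.dist from a chosen vertex of each component and rank by
the pair (distance, arbitrary): a vertex with positive distance has a neighbour of smaller distance.)
(*) follows: such an l has a neighbour i and no neighbour of smaller rank (all have r j ≥ r i > r l), so
l is the first vertex of the component of i, which is unique.
Put K := 4 * k + 4, n j := (N + 1) * K ^ (k - r j). So n i * K ≤ n l if r l < r i, and n j ≥ N.
Adm: let p ≤ n, q := n - p, and suppose that for all j: rr Γ q j > 0 implies rr Γ q j > 2 * p j, and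
rr Γ p j > 0 implies rr Γ p j > 2 * q j (the negation of the conclusion), and that there are i0, j0
with Γ i0 j0, 0 < p i0, 0 < q j0. Call the two sides s = 0, 1: x j 0 := p j, x j 1 := q j and
R j s := ∑ over the neighbours i of j of x i (1 - s) (so R j 0 = rr Γ q j, R j 1 = rr Γ p j); the
hypothesis reads R j s > 0 → R j s > 2 * x j s. For each j choose a side b j with
2 * x j (b j) ≥ n j (x j 0 + x j 1 = n j). Claim: R j (b j) = 0 for all j. Suppose not and let i have
the smallest rank with R i (b i) > 0. Then R i (b i) > 2 * x i (b i) ≥ n i. The neighbours of i of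
larger rank contribute at most k * n i / K ≤ n i / 4, so the neighbours l with r l < r i contribute
more than 3/4 n i. For such l with x l (1 - b i) > 0: R l (b l) = 0 by minimality; as
x i (b i) > 0 and Γ l i, this forces b l = b i (otherwise x i (b i) = x i (1 - b l) is a summand of
R l (b l)); write s l := x l (1 - b l) > 0. All neighbours j of l have x j (1 - b l) = 0 (summand of
R l (b l) = 0), so b j = b l (n j > 0), and R j (b j) ≥ s l > 0; by minimality r j ≥ r i. By (*) there
is only one such l, so s l > 3/4 n i. But R l (1 - b l) = ∑ over the neighbours j of l of x j (b l)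
= ∑ n j > 0, so it is > 2 * s l; and ∑ n j ≤ n i + k * n i / K ≤ 5/4 n i (all neighbours have rank
≥ r i). So s l < 5/8 n i, a contradiction.
Finally: R j (b j) = 0 for all j contradicts i0, j0: Γ i0 j0, x i0 0 > 0, x j0 1 > 0. R i0 0 > 0 so
b i0 = 1 and R i0 1 = 0, R j0 1 > 0 so b j0 = 0 and R j0 0 = 0; but b j0 = 0 means x j0 0 > 0, a summand
of R i0 1 = ∑ over neighbours of i0 of x j 0. Contradiction.
-/
theorem exists_adm {ι : Type} [Fintype ι] (Γ : ι → ι → Prop) (hs : ∀ i j, Γ i j → Γ j i)
    (hi : ∀ j, ¬ Γ j j) (N : ℕ) : ∃ n : ι → ℕ, (∀ j, N ≤ n j) ∧ Adm Γ n := by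
  classical
  have hirr := hi
  obtain ⟨S, r, hS, hrk, hinj, hgood⟩ := G5_order Γ hs (Fintype.card ι) le_rfl
  have hSu : S = Finset.univ := Finset.eq_univ_of_card S hS
  subst hSu
  -- the uniqueness
  have hstar : ∀ i l l', Γ l i → r l < r i → (∀ j, Γ l j → r i ≤ r j) → Γ l' i → r l' < r i →
      (∀ j, Γ l' j → r i ≤ r j) → l = l' := by
    have key : ∀ i l l', Γ l i → r l < r i → Γ l' i → r l' < r i →
        (∀ j, Γ l' j → r i ≤ r j) → ¬ r l < r l' := by
      intro i l l' h1 h2 h3 h4 h5 h6
      obtain ⟨x, -, hx1, hx2⟩ := hgood l' (Finset.mem_univ _) ⟨l, Finset.mem_univ _, h6, i, h1, Or.inr h4.le⟩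
      have := h5 x hx2
      omega
    intro i l l' h1 h2 h3 h4 h5 h6
    have k1 := key i l l' h1 h2 h4 h5 h6
    have k2 := key i l' l h4 h5 h1 h2 h3
    exact hinj l (Finset.mem_univ _) l' (Finset.mem_univ _) (by omega)
  set k := Fintype.card ι with hk
  set K := 4 * k + 4 with hK
  obtain ⟨n, hn⟩ : ∃ n : ι → ℕ, ∀ j, n j = (N + 1) * K ^ (k - r j) := ⟨_, fun _ => rfl⟩
  have hnpos : ∀ j, 0 < n j := fun j => by
    rw [hn]
    exact Nat.mul_pos (Nat.succ_pos _) (Nat.pow_pos (by omega))
  have hnle : ∀ i l, r l < r i → n i * K ≤ n l := by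
    intro i l h
    have h1 := hrk i (Finset.mem_univ _)
    rw [hn, hn, mul_assoc, ← pow_succ]
    exact Nat.mul_le_mul_left _ (Nat.pow_le_pow_right (by omega) (by omega))
  refine ⟨n, fun j => ?_, ?_⟩
  · rw [hn]
    have h1 : 1 ≤ K ^ (k - r j) := Nat.pow_pos (by omega)
    nlinarith
  intro p hp ⟨i0, j0, hij, hi0, hj0⟩
  by_contra hcon
  push Not at hcon
  -- the two sides
  obtain ⟨x, hxf, hxt⟩ : ∃ x : ι → Bool → ℕ, (∀ j, x j false = p j) ∧ ∀ j, x j true = n j - p j :=
    ⟨fun j s => if s then n j - p j else p j, fun _ => rfl, fun _ => rfl⟩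
  have hsum : ∀ j s, x j s + x j (!s) = n j := by
    intro j s
    have := hp j
    cases s
    · rw [Bool.not_false, hxf, hxt]; omega
    · rw [Bool.not_true, hxf, hxt]; omega
  obtain ⟨R, hR⟩ : ∃ R : ι → Bool → ℕ, ∀ j s, R j s = ∑ i ∈ Finset.univ.filter (fun i => Γ j i), x i (!s) :=
    ⟨_, fun _ _ => rfl⟩
  have hRf : ∀ j, R j false = rr Γ (fun i => n i - p i) j := by
    intro j
    rw [hR, rr]
    refine Finset.sum_congr rfl fun i _ => ?_
    rw [Bool.not_false, hxt]
  have hRt : ∀ j, R j true = rr Γ p j := by
    intro j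
    rw [hR, rr]
    refine Finset.sum_congr rfl fun i _ => ?_
    rw [Bool.not_true, hxf]
  have hH : ∀ j s, 0 < R j s → 2 * x j s < R j s := by
    intro j s h
    have := hcon j
    cases s
    · rw [hRf] at h ⊢
      rw [hxf]
      exact (this.1 h)
    · rw [hRt] at h ⊢
      rw [hxt]
      exact (this.2 h)
  have hRle : ∀ j i s, Γ j i → x i (!s) ≤ R j s := by
    intro j i s h
    rw [hR]
    exact Finset.single_le_sum (f := fun i => x i (!s)) (fun _ _ => Nat.zero_le _)
      (Finset.mem_filter.2 ⟨Finset.mem_univ _, h⟩)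
  obtain ⟨b, hb⟩ : ∃ b : ι → Bool, ∀ j, n j ≤ 2 * x j (b j) := by
    have h1 : ∀ j, ∃ s, n j ≤ 2 * x j s := by
      intro j
      have h2 := hsum j true
      rw [Bool.not_true] at h2
      by_cases h3 : n j ≤ 2 * x j true
      · exact ⟨true, h3⟩
      · exact ⟨false, by omega⟩
    choose b hb using h1
    exact ⟨b, hb⟩
  have hbpos : ∀ j, 0 < x j (b j) := fun j => by
    have h1 := hb j
    have h2 := hnpos j
    omega
  have hbeq : ∀ j s, x j (!s) = 0 → b j = s := by
    intro j s h
    by_contra h1
    have h2 : b j = !s := G5_bool _ _ h1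
    have h3 := hbpos j
    rw [h2, h] at h3
    exact lt_irrefl _ h3
  have hclaim := G5_claim Γ hs hirr r k hk.symm (fun i j => hinj i (Finset.mem_univ _) j (Finset.mem_univ _)) hstar n
    hnpos hnle x hsum R hR hH hRle b hb hbeq
  -- the end
  have e1 : b i0 = true := by
    by_contra h
    have h1 : b i0 = false := G5_bool _ true h
    have h2 := hclaim _ i0 rfl
    have h3 := hRle i0 j0 false hij
    rw [h1] at h2
    rw [Bool.not_false, hxt] at h3
    omega
  have e2 : b j0 = false := by
    by_contra h
    have h1 : b j0 = true := G5_bool _ false h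
    have h2 := hclaim _ j0 rfl
    have h3 := hRle j0 i0 true (hs _ _ hij)
    rw [h1] at h2
    rw [Bool.not_true, hxf] at h3
    omega
  have e3 := hclaim _ i0 rfl
  rw [e1] at e3
  have e4 := hRle i0 j0 true hij
  have e5 := hbpos j0
  rw [e2] at e5
  rw [Bool.not_true] at e4
  omega

end Pool.Agent.HUR
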