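import Pool.Agent.HUR.Defs

namespace Pool.Agent.HUR

open Pool.Agent.HCH Pool.Agent.HCF

variable {R : Type} [CommRing R] [Algebra ℂ R]

/-
PROOF. A := R ⧸ span {η}, π : R → A. Let p' be a prime of A with dm p' = e, p := comap π p', dm p = e
(dm_comap of HCH.B2). k • single p 1 ∈ Rt ℂ ⊥ e. Let ρ z := z ∘ comap π as a finitely supported
function (Finsupp.comapDomain.addMonoidHom, comap π is injective). ρ maps Rt ℂ (⊥ : Ideal R) e to
Rt ℂ (⊥ : Ideal A) e (AddSubgroup.closure_induction): for z = fdiv ℂ W.asIdeal g e, if η ∈ W then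
W = comap π W' with W' := W.map π prime, dm W' = e + 1, π g ∉ W', and ρ z = fdiv ℂ W' (π g) e:
fdiv_eq (HCF.B0), adiv, and od (W ⊔ (g)) (comap π P') = od (W' ⊔ (π g)) P' by mlt_surj (HCH.A2).
If η ∉ W then 1 - η ∈ W (η * (1 - η) = 0 ∈ W); if fdiv .. (comap π P') ≠ 0 then W ≤ comap π P'
(fdiv_supp), so 1 - η and η are in the prime comap π P', impossible: ρ z = 0.
ρ (k • single p 1) = k • single p' 1.
-/
theorem rt_idem [Algebra.FiniteType ℂ R] (e : ℕ)
    (H : ∀ p : PrimeSpectrum R, dm ℂ p.asIdeal = e →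
      ∃ k : ℕ, 0 < k ∧ (k : ℤ) • Finsupp.single p (1 : ℤ) ∈ Rt ℂ (⊥ : Ideal R) e)
    (η : R) (hη : IsIdempotentElem η) (p : PrimeSpectrum (R ⧸ Ideal.span {η}))
    (hp : dm ℂ p.asIdeal = e) :
    ∃ k : ℕ, 0 < k ∧ (k : ℤ) • Finsupp.single p (1 : ℤ) ∈
      Rt ℂ (⊥ : Ideal (R ⧸ Ideal.span {η})) e := by
  classical
  let π : R →ₐ[ℂ] (R ⧸ Ideal.span {η}) := Ideal.Quotient.mkₐ ℂ (Ideal.span {η})
  have hπ : Function.Surjective π := Ideal.Quotient.mkₐ_surjective ℂ _
  let cm : PrimeSpectrum (R ⧸ Ideal.span {η}) → PrimeSpectrum R :=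
    PrimeSpectrum.comap (π : R →+* (R ⧸ Ideal.span {η}))
  have hcm : Function.Injective cm := PrimeSpectrum.comap_injective_of_surjective _ hπ
  have hdm : ∀ P, dm ℂ (cm P).asIdeal = dm ℂ P.asIdeal := fun P => dm_comap π hπ P.asIdeal
  have hπη : π η = 0 := Ideal.Quotient.eq_zero_iff_mem.2 (Ideal.mem_span_singleton_self η)
  have hηcm : ∀ P, η ∈ (cm P).asIdeal := fun P => by
    change π η ∈ P.asIdeal
    rw [hπη]
    exact zero_mem _
  let ρ : (PrimeSpectrum R →₀ ℤ) →+ (PrimeSpectrum (R ⧸ Ideal.span {η}) →₀ ℤ) :=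
    Finsupp.comapDomain.addMonoidHom hcm
  have hρ : ∀ z P, ρ z P = z (cm P) := fun z P => rfl
  have hmem : ∀ z ∈ Rt ℂ (⊥ : Ideal R) e, ρ z ∈ Rt ℂ (⊥ : Ideal (R ⧸ Ideal.span {η})) e := by
    intro z hz
    unfold Rt at hz
    induction hz using AddSubgroup.closure_induction with
    | mem z hz =>
      obtain ⟨W, g, -, hd, hg, rfl⟩ := hz
      by_cases hW : η ∈ W.asIdeal
      · have hle : Ideal.span {η} ≤ W.asIdeal := (Ideal.span_singleton_le_iff_mem _).2 hW
        have hker : RingHom.ker (π : R →+* (R ⧸ Ideal.span {η})) = Ideal.span {η} :=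
          Ideal.mk_ker
        have hcomap : (W.asIdeal.map (π : R →+* (R ⧸ Ideal.span {η}))).comap
            (π : R →+* (R ⧸ Ideal.span {η})) = W.asIdeal := Ideal.comap_map_mk hle
        let W' : PrimeSpectrum (R ⧸ Ideal.span {η}) :=
          ⟨W.asIdeal.map (π : R →+* (R ⧸ Ideal.span {η})),
            Ideal.map_isPrime_of_surjective hπ (hker.le.trans hle)⟩
        have hWp : W'.asIdeal.IsPrime := W'.isPrime
        have hW' : dm ℂ W'.asIdeal = e + 1 := by
          rw [← hd, ← dm_comap π hπ W'.asIdeal]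
          exact congrArg (dm ℂ) hcomap
        have hg' : π g ∉ W'.asIdeal := fun h => hg (by
          rw [← hcomap]
          exact h)
        have hfd : ρ (fdiv ℂ W.asIdeal g e) = fdiv ℂ W'.asIdeal (π g) e := by
          ext P
          rw [hρ, fdiv_eq W.asIdeal g hg e hd, fdiv_eq W'.asIdeal (π g) hg' e hW']
          unfold adiv
          rw [hdm P]
          split_ifs with h
          · unfold od
            have h1 := mlt_surj (π : R →+* (R ⧸ Ideal.span {η})) hπ
              (W.asIdeal ⊔ Ideal.span {g}) (by rw [hker]; exact hle.trans le_sup_left) P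
            rw [Ideal.map_sup, Ideal.map_span, Set.image_singleton] at h1
            change ((mlt (W.asIdeal ⊔ Ideal.span {g})
              (PrimeSpectrum.comap (π : R →+* (R ⧸ Ideal.span {η})) P)).toNat : ℤ) = _
            rw [← h1]
            rfl
          · rfl
        rw [hfd]
        exact fdiv_mem_Rt _ e W' (π g) bot_le hW' hg'
      · have h1 : 1 - η ∈ W.asIdeal := by
          have h2 : η * (1 - η) ∈ W.asIdeal := by
            have : η * (1 - η) = 0 := by
              rw [mul_sub, mul_one, hη.eq, sub_self]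
            rw [this]
            exact zero_mem _
          exact (W.isPrime.mem_or_mem h2).resolve_left hW
        have hfd : ρ (fdiv ℂ W.asIdeal g e) = 0 := by
          ext P
          rw [hρ, Finsupp.zero_apply]
          by_contra hne
          have h2 := (fdiv_supp _ _ _ _ hne).2
          have h3 : 1 - η ∈ (cm P).asIdeal := h2 (Ideal.mem_sup_left h1)
          have h4 : (1 : R) ∈ (cm P).asIdeal := by
            have := add_mem h3 (hηcm P)
            rwa [sub_add_cancel] at this
          exact (cm P).isPrime.ne_top ((Ideal.eq_top_iff_one _).2 h4)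
        rw [hfd]
        exact zero_mem _
    | zero => rw [map_zero]; exact zero_mem _
    | add a b _ _ ha hb => rw [map_add]; exact add_mem ha hb
    | neg a _ ha => rw [map_neg]; exact neg_mem ha
  obtain ⟨k, hk, hk'⟩ := H (cm p) (by rw [hdm, hp])
  refine ⟨k, hk, ?_⟩
  have h1 := hmem _ hk'
  have h2 : ρ ((k : ℤ) • Finsupp.single (cm p) (1 : ℤ)) = (k : ℤ) • Finsupp.single p (1 : ℤ) := by
    rw [map_zsmul]
    congr 1
    ext P
    rw [hρ]
    simp only [Finsupp.single_apply, hcm.eq_iff]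
  rwa [h2] at h1

/-
PROOF. For z : PrimeSpectrum R →₀ ℤ let z~ : Sub R e →₀ ℚ be P ↦ (z P.1 : ℚ) (an additive map:
Finsupp.comapDomain / Finsupp.mapRange; or Finsupp.ofSupportFinite). If z ∈ Rt ℂ ⊥ e then
z~ ∈ RatEq R e (AddSubgroup.closure_induction; for a generator fdiv ℂ W.asIdeal g e use fdiv_apply:
the value at P is od (W ⊔ (g)) P). For P : Sub R e take k of H; k • single P 1 ∈ RatEq, so
single P 1 = (1 / k) • .. ∈ RatEq. The single P 1 span everything, so RatEq = ⊤ and the quotient is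
trivial (Submodule.subsingleton_quotient_iff_eq_top).
-/
theorem chow_zero [Algebra.FiniteType ℂ R] (e : ℕ)
    (H : ∀ p : PrimeSpectrum R, dm ℂ p.asIdeal = e →
      ∃ k : ℕ, 0 < k ∧ (k : ℤ) • Finsupp.single p (1 : ℤ) ∈ Rt ℂ (⊥ : Ideal R) e) :
    Subsingleton (Chow R e) := by
  classical
  let τ : (PrimeSpectrum R →₀ ℤ) →+ (Sub R e →₀ ℚ) :=
    (Finsupp.mapRange.addMonoidHom (Int.castAddHom ℚ)).comp
      (Finsupp.comapDomain.addMonoidHom
        (Subtype.val_injective : Function.Injective (fun P : Sub R e => P.1)))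
  have hτ : ∀ z P, τ z P = ((z P.1 : ℤ) : ℚ) := fun z P => rfl
  have hmem : ∀ z ∈ Rt ℂ (⊥ : Ideal R) e, τ z ∈ RatEq R e := by
    intro z hz
    unfold Rt at hz
    induction hz using AddSubgroup.closure_induction with
    | mem z hz =>
      obtain ⟨W, g, -, hd, hg, rfl⟩ := hz
      refine Submodule.subset_span ⟨⟨W, hd⟩, g, hg, fun P => ?_⟩
      rw [hτ, fdiv_apply W.asIdeal g hg e hd P.1 P.2]
    | zero => rw [map_zero]; exact zero_mem _
    | add a b _ _ ha hb => rw [map_add]; exact add_mem ha hb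
    | neg a _ ha => rw [map_neg]; exact neg_mem ha
  rw [Submodule.Quotient.subsingleton_iff, eq_top_iff]
  intro x _
  have hsingle : ∀ P : Sub R e, Finsupp.single P (1 : ℚ) ∈ RatEq R e := by
    intro P
    obtain ⟨k, hk, hk'⟩ := H P.1 P.2
    have h1 := hmem _ hk'
    have h2 : τ ((k : ℤ) • Finsupp.single P.1 (1 : ℤ)) = (k : ℚ) • Finsupp.single P (1 : ℚ) := by
      ext Q
      rw [hτ]
      simp only [Finsupp.smul_apply, Finsupp.single_apply, smul_eq_mul]
      by_cases hPQ : P = Q
      · subst hPQ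
        simp
      · rw [if_neg hPQ, if_neg (fun h => hPQ (Subtype.ext h))]
        simp
    rw [h2] at h1
    have h3 := Submodule.smul_mem (RatEq R e) ((k : ℚ)⁻¹) h1
    rwa [smul_smul, inv_mul_cancel₀ (Nat.cast_ne_zero.2 hk.ne'), one_smul] at h3
  induction x using Finsupp.induction_linear with
  | zero => exact zero_mem _
  | add a b ha hb => exact add_mem (ha trivial) (hb trivial)
  | single P q =>
    have h1 := Submodule.smul_mem (RatEq R e) q (hsingle P)
    rwa [Finsupp.smul_single, smul_eq_mul, mul_one] at h1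

end Pool.Agent.HUR
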