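import Pool.Agent.HUR.P3
import Pool.Agent.HUR.G2
import Pool.Agent.HUR.G4
import Pool.Agent.HUR.G5
import Pool.Agent.HUR.Z1

namespace Pool.Agent.HUR

open Pool.Agent.HCH Pool.Agent.HCF

/-- the assembly for a general graph -/
theorem main_adm {ι : Type} [Fintype ι] (Γ : ι → ι → Prop) (N : ι → Prop)
    (hs : ∀ i j, Γ i j → Γ j i) (hi : ∀ j, ¬ Γ j j) (n : ι → ℕ) (hA : Adm Γ n) (e : ℕ)
    (he : e < ∑ i, n i)
    (η : HF Γ N (Sigma.fst : (Σ i, Fin (n i)) → ι)) (hη : IsIdempotentElem η) :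
    Subsingleton (Chow (HF Γ N (Sigma.fst : (Σ i, Fin (n i)) → ι) ⧸ Ideal.span {η}) e) := by
  have hft := HF_ft Γ N (Sigma.fst : (Σ i, Fin (n i)) → ι)
  have hn : ∀ j, {m : (Σ i, Fin (n i)) | Sigma.fst m = j}.ncard = n j := by
    intro j
    have e1 : {m : (Σ i, Fin (n i)) | Sigma.fst m = j} =
        (fun x : Fin (n j) => (⟨j, x⟩ : Σ i, Fin (n i))) '' Set.univ := by
      ext ⟨i, x⟩
      constructor
      · rintro (rfl : i = j)
        exact ⟨x, trivial, rfl⟩
      · rintro ⟨z, -, hz⟩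
        exact (congrArg Sigma.fst hz).symm
    have e2 : Function.Injective (fun x : Fin (n j) => (⟨j, x⟩ : Σ i, Fin (n i))) :=
      fun x z h => by
        have h1 := (Sigma.mk.inj_iff.1 h).2
        exact eq_of_heq h1
    rw [e1, Set.ncard_image_of_injective _ e2, Set.ncard_univ,
      Nat.card_eq_fintype_card, Fintype.card_fin]
  have hc : e < Fintype.card (Σ i, Fin (n i)) := by
    rw [Fintype.card_sigma]
    simpa using he
  exact chow_zero e (rt_idem e (fun q hq => prime_tors hs hi n hn hA q e hq hc) η hη)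

end Pool.Agent.HUR
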