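import Pool.Agent.HUR.Defs3

namespace Pool.Agent.HUR

open scoped commutatorElement

variable {G : Type} [Group G] {ι : Type}

/- PROOF. a * b ≠ b * a is symmetric. -/
theorem ncg_symm (C : ι → ConjClasses G) (i j : ι) (h : ncg C i j) : ncg C j i := by
  obtain ⟨a, ha, b, hb, hab⟩ := h
  exact ⟨b, hb, a, ha, fun e => hab e.symm⟩

/-
PROOF. Every z ∈ G' = commutator G is central: G' is normal with at most two elements (Finite G, so
Nat.card is the number of elements), so g z g⁻¹ ∈ G', and g z g⁻¹ = z (if z = 1 clear; otherwise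
G' = {1, z} and g z g⁻¹ ≠ 1). a, b in the same class: b = g a g⁻¹ = ⁅g, a⁆ * a with ⁅g, a⁆ ∈ G'
(commutator_mem...), so b commutes with a.
-/
theorem ncg_irrefl [Finite G] (hG : Nat.card (commutator G) ≤ 2) (C : ι → ConjClasses G)
    (j : ι) : ¬ ncg C j j := by
  classical
  rintro ⟨a, ha, b, hb, hab⟩
  have hz : ∀ z ∈ commutator G, ∀ g : G, g * z * g⁻¹ = z := by
    intro z hz g
    by_contra hne
    have h1 : z ≠ 1 := fun h => hne (by rw [h]; group)
    have h2 : g * z * g⁻¹ ≠ 1 := fun h => h1 (by
      have := congrArg (fun x => g⁻¹ * x * g) h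
      simpa [mul_assoc] using this)
    have h3 : g * z * g⁻¹ ∈ commutator G :=
      (inferInstance : (commutator G).Normal).conj_mem z hz g
    have : Fintype (commutator G) := Fintype.ofFinite _
    rw [Nat.card_eq_fintype_card] at hG
    refine absurd hG (not_le.2 (Fintype.two_lt_card_iff.2
      ⟨⟨1, one_mem _⟩, ⟨z, hz⟩, ⟨_, h3⟩, ?_, ?_, ?_⟩))
    · intro e
      exact h1 (congrArg Subtype.val e).symm
    · intro e
      exact h2 (congrArg Subtype.val e).symm
    · intro e
      exact hne (congrArg Subtype.val e).symm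
  rw [ConjClasses.mem_carrier_iff_mk_eq] at ha hb
  have hconj : IsConj a b := ConjClasses.mk_eq_mk_iff_isConj.1 (ha.trans hb.symm)
  obtain ⟨g, hg⟩ := isConj_iff.1 hconj
  have hc : ⁅g, a⁆ ∈ commutator G :=
    Subgroup.commutator_mem_commutator (Subgroup.mem_top g) (Subgroup.mem_top a)
  have hb' : b = ⁅g, a⁆ * a := by
    rw [← hg, commutatorElement_def]
    group
  have h4 := hz _ hc a
  have h5 : a * ⁅g, a⁆ = ⁅g, a⁆ * a := by
    calc a * ⁅g, a⁆ = (a * ⁅g, a⁆ * a⁻¹) * a := by group
      _ = ⁅g, a⁆ * a := by rw [h4]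
  apply hab
  rw [hb', ← mul_assoc, h5]

/-
PROOF. G is a 2-group (IsPGroup.of_card, 8 = 2 ^ 3), its center Z is nontrivial
(IsPGroup.center_nontrivial), Nat.card Z divides 8 (so it is 2, 4 or 8). If Nat.card Z = 8 or 4, then
G ⧸ Z has order 1 or 2, is cyclic, and G is commutative (commutative_of_cyclic_center_quotient,
or Mathlib: Group.commutative_of_center_quotient...), so commutator G = ⊥ has one element. If
Nat.card Z = 2: G ⧸ Z has order 4 = 2 ^ 2 and is commutative (IsPGroup.commutative_of_card_eq_prime_sq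
or commGroupOfCardEqPrimeSq), so commutator G ≤ Z (commutator ≤ kernel of G → G ⧸ Z;
Abelianization.commutator_subset_ker), and Nat.card (commutator G) ≤ Nat.card Z = 2.
-/
theorem card8_comm (hG : Nat.card G = 8) : Nat.card (commutator G) ≤ 2 := by
  have : Fact (Nat.Prime 2) := ⟨Nat.prime_two⟩
  have : Finite G := Nat.finite_of_card_ne_zero (by omega)
  obtain ⟨k, hk0, hk⟩ := IsPGroup.card_center_eq_prime_pow (G := G) (p := 2) (n := 3)
    (by rw [hG]; norm_num) (by norm_num)
  have hidx := (Subgroup.center G).card_mul_index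
  rw [hk, hG] at hidx
  have hk1 : k = 1 ∨ 2 ≤ k := by omega
  rcases hk1 with hk1 | hk1
  · subst hk1
    have hi : (Subgroup.center G).index = 4 := by omega
    have hq : Nat.card (G ⧸ Subgroup.center G) = 2 ^ 2 := by
      rw [← Subgroup.index_eq_card, hi]
      norm_num
    have hcomm := IsPGroup.isMulCommutative_of_card_eq_prime_sq hq
    have hle : commutator G ≤ Subgroup.center G := by
      rw [commutator_def, Subgroup.commutator_le]
      intro g _ h _
      rw [← QuotientGroup.eq_one_iff]
      have e1 : ((g * h : G) : G ⧸ Subgroup.center G) = ((h * g : G) : G ⧸ Subgroup.center G) :=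
        hcomm.is_comm.comm (g : G ⧸ Subgroup.center G) (h : G ⧸ Subgroup.center G)
      have e2 : ⁅g, h⁆ = (g * h) * (h * g)⁻¹ := by
        rw [commutatorElement_def]
        group
      rw [e2, QuotientGroup.mk_mul, QuotientGroup.mk_inv, e1, mul_inv_cancel]
    have h1 := Subgroup.card_le_of_le hle
    rw [hk] at h1
    simpa using h1
  · have hdvd : Nat.card (G ⧸ Subgroup.center G) ∣ 2 := by
      rw [← Subgroup.index_eq_card]
      obtain ⟨d, rfl⟩ := Nat.exists_eq_add_of_le hk1
      have h1 : 2 ^ d * (Subgroup.center G).index = 2 := by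
        have h2 : 4 * (2 ^ d * (Subgroup.center G).index) = 4 * 2 := by
          rw [← mul_assoc]
          rw [pow_add] at hidx
          linarith
        exact Nat.eq_of_mul_eq_mul_left (by norm_num) h2
      exact ⟨2 ^ d, by rw [mul_comm]; exact h1.symm⟩
    have : IsCyclic (G ⧸ Subgroup.center G) := isCyclic_of_card_dvd_prime hdvd
    have hcomm := isMulCommutative_of_isCyclic_quotient_center_self G
    have hle : commutator G ≤ ⊥ := by
      rw [commutator_def, Subgroup.commutator_le]
      intro g _ h _
      rw [Subgroup.mem_bot, commutatorElement_eq_one_iff_mul_comm]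
      exact hcomm.is_comm.comm g h
    have h1 := Subgroup.card_le_of_le hle
    rw [Subgroup.card_bot] at h1
    omega

end Pool.Agent.HUR
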