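import Pool.Agent.HUR.Defs

namespace Pool.Agent.HUR

variable {G : Type} [Group G] {ι : Type}

/-- A class with at most two elements is commutative. -/
theorem ncg_irrefl_two [Finite G] (C : ι → ConjClasses G) (j : ι)
    (hC : (C j).carrier.ncard ≤ 2) : ¬ ncg C j j := by
  rintro ⟨x, hx, y, hy, hxy⟩
  have hz : x * y * x⁻¹ ∈ (C j).carrier := by
    rw [ConjClasses.mem_carrier_iff_mk_eq] at hy ⊢
    rw [← hy]
    exact (ConjClasses.mk_eq_mk_iff_isConj.2 (isConj_iff.2 ⟨x, rfl⟩)).symm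
  have h1 : x ≠ y := by
    rintro rfl
    exact hxy rfl
  have h2 : x * y * x⁻¹ ≠ y := by
    intro h
    exact hxy (mul_inv_eq_iff_eq_mul.1 h)
  have h3 : x * y * x⁻¹ ≠ x := by
    intro h
    have h4 : x * y = x * x := mul_inv_eq_iff_eq_mul.1 h
    exact h1 (mul_left_cancel h4).symm
  have h4 : ({x, y, x * y * x⁻¹} : Set G) ⊆ (C j).carrier := by
    rintro g (rfl | rfl | rfl)
    · exact hx
    · exact hy
    · exact hz
  have h5 : ({x, y, x * y * x⁻¹} : Set G).ncard = 3 := by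
    rw [Set.ncard_eq_three]
    exact ⟨x, y, x * y * x⁻¹, h1, h3.symm, h2.symm, rfl⟩
  have h6 := Set.ncard_le_ncard h4 (Set.toFinite _)
  omega

end Pool.Agent.HUR
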