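import Pool.Agent.HUR.G3
import Pool.Agent.HUR.G6

open scoped commutatorElement

namespace Pool.Agent.HUR

variable {G : Type} [Group G] {ι : Type}

/-- The conjugacy classes of a group of order eight have at most two elements. -/
theorem card8_small [Finite G] (hG : Nat.card G = 8) (C : ι → ConjClasses G) (i : ι) :
    (C i).carrier.ncard ≤ 2 := by
  refine le_trans ?_ (card8_comm hG)
  obtain ⟨x, hx⟩ := (C i).exists_rep
  have h1 : Set.MapsTo (fun y : G => y * x⁻¹) (C i).carrier (commutator G : Set G) := by
    intro y hy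
    rw [ConjClasses.mem_carrier_iff_mk_eq, ← hx] at hy
    obtain ⟨g, hg⟩ := isConj_iff.1 (ConjClasses.mk_eq_mk_iff_isConj.1 hy.symm)
    have h2 : y * x⁻¹ = ⁅g, x⁆ := by
      rw [← hg, commutatorElement_def]
    change y * x⁻¹ ∈ commutator G
    rw [h2]
    exact Subgroup.commutator_mem_commutator (Subgroup.mem_top g) (Subgroup.mem_top x)
  have h3 : Set.InjOn (fun y : G => y * x⁻¹) (C i).carrier := fun a _ b _ h =>
    mul_right_cancel h
  have h4 := Set.ncard_le_ncard_of_injOn _ h1 h3 (Set.toFinite _)
  exact h4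

end Pool.Agent.HUR
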