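import Pool.Agent.HUR.Twist

/-!
The ordered Hurwitz space is the covering of the configuration space with the tuples of elements of
the classes as fibres and the moves of Hurwitz as monodromy.
-/

namespace Pool.Agent.HUR

open Set

variable {G : Type} [Group G] {ι : Type}

/-- The model is the Hurwitz space: there is a map `Φ` which associates with a real configuration `a`
and a tuple `g` of elements of the classes a point over `a` of the variety with the ring `HR`, such
that every point over `a` comes from exactly one tuple, compatibly with permutations of the labels,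
and such that the half twist of adjacent points `a p < a q` replaces `g p` by
`(g q)⁻¹ * g p * g q`. -/
def IsHur (C : ι → ConjClasses G) {P : Type} [Fintype P] [DecidableEq P] (c : P → ι) : Prop :=
  ∃ Φ : (P → ℝ) → (P → G) → P → ℂ,
    (∀ a : P → ℝ, Function.Injective a →
      (∀ g : P → G, (∀ m, g m ∈ (C (c m)).carrier) →
        Pnt (ncg C) (ncc C) c (fun m => (a m : ℂ)) (Φ a g)) ∧
      ∀ y : P → ℂ, Pnt (ncg C) (ncc C) c (fun m => (a m : ℂ)) y →
        ∃! g : P → G, (∀ m, g m ∈ (C (c m)).carrier) ∧ Φ a g = y) ∧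
    (∀ (a : P → ℝ) (g : P → G) (σ : Equiv.Perm P), (∀ m, c (σ m) = c m) →
      Φ (fun m => a (σ m)) (fun m => g (σ m)) = fun m => Φ a g (σ m)) ∧
    ∀ (a : P → ℝ) (p q : P) (g : P → G), Function.Injective a → a p < a q →
      (∀ m, m ≠ p → m ≠ q → a m < a p ∨ a q < a m) → (∀ m, g m ∈ (C (c m)).carrier) →
      ∀ y : ℝ → P → ℂ, (∀ m, ContinuousOn (fun t => y t m) (Icc 0 1)) →
        (∀ t ∈ Icc (0 : ℝ) 1, Pnt (ncg C) (ncc C) c (Twist.rot a p q t) (y t)) →
        y 0 = Φ a g →
        y 1 = Φ (fun l => a (Equiv.swap p q l)) (Function.update g p ((g q)⁻¹ * g p * g q))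

theorem isHur [Finite G] (C : ι → ConjClasses G) (hC : ∀ i, (C i).carrier.ncard ≤ 2) {P : Type}
    [Fintype P] [DecidableEq P] (c : P → ι) : IsHur C c := by
  classical
  have h2 : Twist.Two C := by
    intro i x hx y hy z hz
    by_contra hne
    have h1 : x ≠ y := fun e => hne (Or.inl e)
    have h2 : y ≠ z := fun e => hne (Or.inr (Or.inl e))
    have h3 : x ≠ z := fun e => hne (Or.inr (Or.inr e))
    have h4 : ({x, y, z} : Set G) ⊆ (C i).carrier := by
      rintro g (rfl | rfl | rfl)
      · exact hx
      · exact hy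
      · exact hz
    have h5 : ({x, y, z} : Set G).ncard = 3 := by
      rw [Set.ncard_eq_three]
      exact ⟨x, y, z, h1, h3, h2, rfl⟩
    have h6 := Set.ncard_le_ncard h4 (Set.toFinite _)
    have h7 := hC i
    omega
  have hr : ∀ i, ∃ r, r ∈ (C i).carrier := by
    intro i
    obtain ⟨r, hr⟩ := (C i).exists_rep
    exact ⟨r, ConjClasses.mem_carrier_iff_mk_eq.2 hr⟩
  choose r hr using hr
  refine ⟨fun a g => Twist.pg C r c a g, ?_, ?_, ?_⟩
  · intro a ha
    exact ⟨fun g _ => Twist.pg_pnt C r c ha g, fun y hy => Twist.pg_exists_unique h2 hr c ha y hy⟩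
  · intro a g σ hσ
    exact Twist.pg_comp C r c a g σ hσ
  · intro a p q g ha h hadj hg y hy hp h0
    exact Twist.hurwitz_move h2 hr c ha h hadj g hg y hy hp h0

end Pool.Agent.HUR
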