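import Pool.Agent.HUR.Defs

namespace Pool.Agent.HUR

open MvPolynomial

variable {ι P : Type} [Fintype P] (Γ : ι → ι → Prop) (N : ι → Prop) (c : P → ι)

/- PROOF. A quotient of a polynomial ring in finitely many variables. -/
theorem HR_ft : Algebra.FiniteType ℂ (HR Γ N c) := by
  classical
  exact Algebra.FiniteType.of_surjective
    (Ideal.Quotient.mkₐ ℂ (Ideal.span (Set.range (rel Γ N c)))) (Ideal.Quotient.mkₐ_surjective _ _)

theorem P1_pm_mk (σ : Equiv.Perm P) (hσ : ∀ m, c (σ m) = c m) (q : MvPolynomial (Option (P ⊕ P)) ℂ) :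
    pm Γ N c σ hσ (Ideal.Quotient.mk _ q) = Ideal.Quotient.mk _ (rename (pv σ) q) := rfl

/- PROOF. On the variables: pv σ ∘ pv τ = pv (σ * τ). -/
theorem pm_mul (σ τ : Equiv.Perm P) (hσ : ∀ m, c (σ m) = c m) (hτ : ∀ m, c (τ m) = c m)
    (hστ : ∀ m, c ((σ * τ) m) = c m) (x : HR Γ N c) :
    pm Γ N c (σ * τ) hστ x = pm Γ N c σ hσ (pm Γ N c τ hτ x) := by
  obtain ⟨q, rfl⟩ := Ideal.Quotient.mk_surjective x
  rw [P1_pm_mk, P1_pm_mk, P1_pm_mk, rename_rename]
  congr 3
  funext v
  rcases v with _ | (v | v) <;> rfl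

theorem P1_pm_one (h : ∀ m, c ((1 : Equiv.Perm P) m) = c m) (x : HR Γ N c) :
    pm Γ N c 1 h x = x := by
  obtain ⟨q, rfl⟩ := Ideal.Quotient.mk_surjective x
  rw [P1_pm_mk]
  have : (pv (1 : Equiv.Perm P)) = id := by
    funext v
    rcases v with _ | (v | v) <;> rfl
  rw [this, rename_id_apply]

/-- the class-preserving permutations -/
def P1_G : Subgroup (Equiv.Perm P) where
  carrier := {σ | ∀ m, c (σ m) = c m}
  mul_mem' := by
    intro σ τ hσ hτ m
    show c (σ (τ m)) = c m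
    rw [hσ, hτ]
  one_mem' := fun m => rfl
  inv_mem' := by
    intro σ hσ m
    have h1 := hσ (σ⁻¹ m)
    have h2 : σ (σ⁻¹ m) = m := Equiv.apply_symm_apply σ m
    rw [h2] at h1
    exact h1.symm

@[instance_reducible]
noncomputable def P1_act : MulSemiringAction (P1_G c) (HR Γ N c) where
  smul g x := pm Γ N c g.1 g.2 x
  one_smul x := P1_pm_one Γ N c _ x
  mul_smul g h x := pm_mul Γ N c g.1 h.1 g.2 h.2 _ x
  smul_zero _ := map_zero _
  smul_add _ x y := map_add _ x y
  smul_one _ := map_one _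
  smul_mul _ x y := map_mul _ x y

/-
PROOF. Every x : HR is a root of ∏ σ, (T - pm σ x) over the class-preserving permutations σ; this
polynomial is invariant under the group (pm_mul), so its coefficients are in HF: x is integral over
HF. HR is generated as a ring by finitely many elements over ℂ, hence over HF, all integral:
Module.Finite (Algebra.IsIntegral.finite, Algebra.FiniteType HF HR from HR_ft, FiniteType.of_restrictScalars_finiteType).
-/
theorem HR_fin : Module.Finite (HF Γ N c) (HR Γ N c) := by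
  classical
  let _ : MulSemiringAction (P1_G c) (HR Γ N c) := P1_act Γ N c
  have hinv : Algebra.IsInvariant (HF Γ N c) (HR Γ N c) (P1_G c) := by
    refine ⟨fun b hb => ⟨⟨b, fun σ hσ => ?_⟩, rfl⟩⟩
    exact hb ⟨σ, hσ⟩
  have hint : Algebra.IsIntegral (HF Γ N c) (HR Γ N c) :=
    Algebra.IsInvariant.isIntegral (HF Γ N c) (HR Γ N c) (P1_G c)
  have hft : Algebra.FiniteType ℂ (HR Γ N c) := HR_ft Γ N c
  have hft' : Algebra.FiniteType (HF Γ N c) (HR Γ N c) :=
    Algebra.FiniteType.of_restrictScalars_finiteType ℂ (HF Γ N c) (HR Γ N c)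
  exact Algebra.IsIntegral.finite (h' := hft')

/- PROOF. Artin - Tate: fg_of_fg_of_fg (Mathlib.RingTheory.Adjoin.Tower) for ℂ → HF → HR. -/
theorem HF_ft : Algebra.FiniteType ℂ (HF Γ N c) := by
  have hft : Algebra.FiniteType ℂ (HR Γ N c) := HR_ft Γ N c
  have hfin := HR_fin Γ N c
  exact ⟨fg_of_fg_of_fg ℂ (HF Γ N c) (HR Γ N c) hft.out hfin.fg_top Subtype.val_injective⟩

end Pool.Agent.HUR
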