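import Pool.Agent.HUR.A7
import Pool.Agent.HUR.E4
import Pool.Agent.HUR.E5

namespace Pool.Agent.HUR

open Pool.Agent.HCH Pool.Agent.HCF

variable {ι P : Type} [Fintype P] {Γ : ι → ι → Prop} {N : ι → Prop} {c : P → ι}

private theorem P2_pnt {k : Type} [Field k] {a y : P → k} (h : Pnt Γ N c a y) (σ : Equiv.Perm P)
    (hσ : ∀ m, c (σ m) = c m) : Pnt Γ N c (fun m => a (σ m)) (fun m => y (σ m)) := by
  refine ⟨fun m l hml => σ.injective (h.inj hml), fun m hm => ?_, fun m hm => h.one _ (by rw [hσ]; exact hm)⟩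
  rw [nb_comp Γ c a σ hσ m]
  exact h.sq _ (by rw [hσ]; exact hm)

private theorem P2_ev {k : Type} [Field k] [Algebra ℂ k] {a y : P → k} (h : Pnt Γ N c a y) (σ : Equiv.Perm P)
    (hσ : ∀ m, c (σ m) = c m) (x : HR Γ N c) : ev (P2_pnt h σ hσ) x = ev h (pm Γ N c σ hσ x) := by
  obtain ⟨q, rfl⟩ := Ideal.Quotient.mk_surjective x
  have h1 : pm Γ N c σ hσ (Ideal.Quotient.mk _ q) = Ideal.Quotient.mk _ (MvPolynomial.rename (pv σ) q) := rfl
  rw [h1, ev_mk, ev_mk, MvPolynomial.aeval_rename]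
  congr 2
  funext v
  rcases v with _ | (m | m)
  · show (ds (fun m => a (σ m)))⁻¹ = (ds a)⁻¹
    rw [ds_comp]
  · rfl
  · rfl

private theorem P2_cl {k : Type} [Field k] [Algebra ℂ k] {a y : P → k} (h : Pnt Γ N c a y) (σ : Equiv.Perm P)
    (hσ : ∀ m, c (σ m) = c m) : cl Γ N c (fun m => a (σ m)) (fun m => y (σ m)) =
      Finsupp.single (PrimeSpectrum.comap (pm Γ N c σ hσ : HR Γ N c →+* HR Γ N c) (kr h)) (1 : ℤ) := by
  unfold cl
  rw [dif_pos (P2_pnt h σ hσ)]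
  congr 1
  apply PrimeSpectrum.ext
  ext x
  show ev (P2_pnt h σ hσ) x = 0 ↔ ev h (pm Γ N c σ hσ x) = 0
  rw [P2_ev]

/-
PROOF. exists_point (A7) gives L, a, y, h with kr h = p. all_I and sum_perm give the sum of
cl (a ∘ σ) (y ∘ σ) in RS. (a ∘ σ, y ∘ σ) is a point hσ (nb_comp) and ev hσ = (ev h).comp (pm σ) (on the
variables: ev h (mk (X (inl (σ m)))) = a (σ m); ds_comp for none), so kr hσ = comap (pm σ) (kr h) and
cl (a ∘ σ) (y ∘ σ) = single (kr hσ) 1.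
-/
theorem perm_RS [Fintype ι] (hs : ∀ i j, Γ i j → Γ j i) (hi : ∀ j, ¬ Γ j j) (n : ι → ℕ)
    (hn : ∀ j, {m : P | c m = j}.ncard = n j) (hA : Adm Γ n)
    [Fintype {σ : Equiv.Perm P // ∀ m, c (σ m) = c m}] (p : PrimeSpectrum (HR Γ N c)) (e : ℕ)
    (hd : dm ℂ p.asIdeal = e) (he : e < Fintype.card P) :
    ∑ σ : {σ : Equiv.Perm P // ∀ m, c (σ m) = c m},
      Finsupp.single (PrimeSpectrum.comap (pm Γ N c σ.1 σ.2 : HR Γ N c →+* HR Γ N c) p) (1 : ℤ) ∈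
        RS (HR Γ N c) e := by
  obtain ⟨L, _, _, _, a, y, h, hL, hkr⟩ := exists_point p e hd
  have hd' : dm ℂ (kr h).asIdeal = e := by rw [hkr]; exact hd
  have H := sum_perm a y e (fun I hI => all_I hs hi n hn hA h e hL hd' he I hI)
  have e1 : ∀ σ : {σ : Equiv.Perm P // ∀ m, c (σ m) = c m}, cl Γ N c (fun m => a (σ.1 m)) (fun m => y (σ.1 m)) =
      Finsupp.single (PrimeSpectrum.comap (pm Γ N c σ.1 σ.2 : HR Γ N c →+* HR Γ N c) p) (1 : ℤ) := by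
    intro σ
    rw [P2_cl h σ.1 σ.2, hkr]
  rw [Finset.sum_congr rfl (fun σ _ => e1 σ)] at H
  exact H

end Pool.Agent.HUR
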