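import Pool.Agent.HUR.P1
import Pool.Agent.HUR.P2
import Pool.Agent.HCF.U2b

namespace Pool.Agent.HUR

open Pool.Agent.HCH Pool.Agent.HCF

variable {ι P : Type} [Fintype P] {Γ : ι → ι → Prop} {N : ι → Prop} {c : P → ι}

/-
PROOF. HR is finite over HF (HR_fin), so there is a prime p of HR over q
(Ideal.exists_ideal_over_prime_of_isIntegral_of_isDomain or
Algebra.IsIntegral.comap_surjective / PrimeSpectrum version; HF → HR is injective), dm p = e (dm_un of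
HCF.U1). perm_RS (with classical Fintype) gives k > 0 with k • ∑ σ, single (comap (pm σ) p) 1 ∈
Rt ℂ ⊥ e. psh_Rt of HCF.U2b with I = ⊥ (Ideal.map_bot), psh_single: its image is
k • ∑ σ, rdeg (comap (pm σ) p) • single (un HF (comap (pm σ) p)) 1, and un HF (comap (pm σ) p) =
un HF p = q, because pm σ x = x for x ∈ HF. So (k * ∑ σ, rdeg ..) • single q 1 ∈ Rt, all rdeg are > 0
(rdeg_pos of HCF.U1b), and the sum is not empty (σ = 1).
-/
theorem prime_tors [Fintype ι] (hs : ∀ i j, Γ i j → Γ j i) (hi : ∀ j, ¬ Γ j j) (n : ι → ℕ)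
    (hn : ∀ j, {m : P | c m = j}.ncard = n j) (hA : Adm Γ n)
    (q : PrimeSpectrum (HF Γ N c)) (e : ℕ)
    (hd : dm ℂ q.asIdeal = e) (he : e < Fintype.card P) :
    ∃ k : ℕ, 0 < k ∧ (k : ℤ) • Finsupp.single q (1 : ℤ) ∈ Rt ℂ (⊥ : Ideal (HF Γ N c)) e := by
  classical
  have hfin : Module.Finite (HF Γ N c) (HR Γ N c) := HR_fin Γ N c
  have hft : Algebra.FiniteType ℂ (HF Γ N c) := HF_ft Γ N c
  have hft' : Algebra.FiniteType ℂ (HR Γ N c) := HR_ft Γ N c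
  have hint : Algebra.IsIntegral (HF Γ N c) (HR Γ N c) := inferInstance
  have hqp := q.isPrime
  obtain ⟨Q, -, hQp, hQ⟩ := Ideal.exists_ideal_over_prime_of_isIntegral q.asIdeal (⊥ : Ideal (HR Γ N c)) (by
    intro x hx
    have h1 : algebraMap (HF Γ N c) (HR Γ N c) x = 0 := hx
    have h2 : x = 0 := Subtype.ext h1
    rw [h2]
    exact Ideal.zero_mem _)
  set p : PrimeSpectrum (HR Γ N c) := ⟨Q, hQp⟩ with hp
  have hun : un (HF Γ N c) p = q := PrimeSpectrum.ext hQ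
  have hdp : dm ℂ p.asIdeal = e := by
    rw [← dm_un (R := HF Γ N c) p, hun]
    exact hd
  obtain ⟨k, hk0, hk⟩ := perm_RS hs hi n hn hA p e hdp he
  have h1 : psh (HF Γ N c) (HR Γ N c) _ ∈ Rt ℂ (⊥ : Ideal (HF Γ N c)) e :=
    psh_Rt (K := ℂ) (R := HF Γ N c) (R' := HR Γ N c) (⊥ : Ideal (HF Γ N c)) e _ (by
      rw [Ideal.map_bot]
      exact hk)
  have hcomap : ∀ (σ : Equiv.Perm P) (hσ : ∀ m, c (σ m) = c m),
      un (HF Γ N c) (PrimeSpectrum.comap (pm Γ N c σ hσ : HR Γ N c →+* HR Γ N c) p) = q := by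
    intro σ hσ
    rw [← hun]
    apply PrimeSpectrum.ext
    ext x
    show pm Γ N c σ hσ (x : HR Γ N c) ∈ p.asIdeal ↔ (x : HR Γ N c) ∈ p.asIdeal
    rw [x.2 σ hσ]
  rw [map_zsmul, map_sum] at h1
  have h2 : ∀ σ : {σ : Equiv.Perm P // ∀ m, c (σ m) = c m},
      psh (HF Γ N c) (HR Γ N c) (Finsupp.single (PrimeSpectrum.comap (pm Γ N c σ.1 σ.2 : HR Γ N c →+* HR Γ N c) p) (1 : ℤ)) =
        rdeg (HF Γ N c) (PrimeSpectrum.comap (pm Γ N c σ.1 σ.2 : HR Γ N c →+* HR Γ N c) p) • Finsupp.single q (1 : ℤ) := by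
    intro σ
    rw [psh_single, one_smul, hcomap, Finsupp.smul_single, smul_eq_mul, mul_one]
  rw [Finset.sum_congr rfl (fun σ _ => h2 σ), ← Finset.sum_smul, smul_smul] at h1
  have hpos : 0 < ∑ σ : {σ : Equiv.Perm P // ∀ m, c (σ m) = c m},
      rdeg (HF Γ N c) (PrimeSpectrum.comap (pm Γ N c σ.1 σ.2 : HR Γ N c →+* HR Γ N c) p) := by
    apply Finset.sum_pos
    · intro σ _
      exact rdeg_pos (K := ℂ) _
    · exact ⟨⟨1, fun m => rfl⟩, Finset.mem_univ _⟩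
  set D := ∑ σ : {σ : Equiv.Perm P // ∀ m, c (σ m) = c m},
      rdeg (HF Γ N c) (PrimeSpectrum.comap (pm Γ N c σ.1 σ.2 : HR Γ N c →+* HR Γ N c) p) with hD
  refine ⟨k * D.toNat, Nat.mul_pos hk0 (by omega), ?_⟩
  have h3 : ((k * D.toNat : ℕ) : ℤ) = (k : ℤ) * D := by
    push_cast
    rw [Int.toNat_of_nonneg hpos.le]
  rw [h3]
  exact h1

end Pool.Agent.HUR
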