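import Pool.Agent.HUR.Defs

/-!
The points of the ordered Hurwitz space over a field, and the half twist of a real configuration.
-/

namespace Pool.Agent.HUR

section Points

variable {ι P : Type} [Fintype P] (Γ : ι → ι → Prop) (N : ι → Prop) (c : P → ι)

/-- The points of the ordered Hurwitz space over a field. -/
structure Pnt {k : Type} [Field k] (a y : P → k) : Prop where
  inj : Function.Injective a
  sq : ∀ m, N (c m) → y m ^ 2 = nb Γ c a m
  one : ∀ m, ¬ N (c m) → y m = 1

end Points

namespace Twist

variable {P : Type} [DecidableEq P]

/-- The half twist: the path of configurations, `t` from `0` to `1`, which rotates the points `a p`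
and `a q` counterclockwise about their midpoint by the angle `π`. -/
noncomputable def rot (a : P → ℝ) (p q : P) (t : ℝ) : P → ℂ := fun m =>
  if m = p then (((a p + a q) / 2 : ℝ) : ℂ) -
      (((a q - a p) / 2 : ℝ) : ℂ) * Complex.exp ((Real.pi * t : ℝ) * Complex.I)
  else if m = q then (((a p + a q) / 2 : ℝ) : ℂ) +
      (((a q - a p) / 2 : ℝ) : ℂ) * Complex.exp ((Real.pi * t : ℝ) * Complex.I)
  else (a m : ℂ)

end Twist

end Pool.Agent.HUR
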