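import Pool.Agent.HUR.Defs2

/-!
The monodromy of the ordered Hurwitz space over the space of configurations: half twists of adjacent
points of a real configuration act on the fibres by the moves of Hurwitz.

For a real configuration `a` the points of the fibre are in bijection with the tuples `g` of elements
of the group with `g m` in the class `C (c m)` (`pg_exists_unique`), compatibly with permutations of
the labels (`pg_comp`). The half twist `rot a p q` of two adjacent points `a p < a q` moves the point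
of `g` to the point of `g` with `g p` replaced by `(g q)⁻¹ * g p * g q` (`hurwitz_move`).
-/

set_option linter.unusedSectionVars false

namespace Pool.Agent.HUR.Twist

open Set Pool.Agent.HUR

section Twist

variable {ι P : Type} [Fintype P] [DecidableEq P]

/-- The square root of a real number which is positive or a positive multiple of `i`. -/
noncomputable def sq (x : ℝ) : ℂ := if 0 ≤ x then ((√x : ℝ) : ℂ) else ((√(-x) : ℝ) : ℂ) * Complex.I

open Classical in
/-- The product of the square roots of the differences `a m - a l`, `l` not commuting with `m`. -/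
noncomputable def rf (Γ : ι → ι → Prop) (c : P → ι) (a : P → ℝ) (m : P) : ℂ :=
  ∏ l ∈ Finset.univ.filter (fun l => Γ (c m) (c l)), sq (a m - a l)

theorem sq_sq (x : ℝ) : sq x ^ 2 = (x : ℂ) := by
  unfold sq
  split_ifs with h
  · rw [← Complex.ofReal_pow, Real.sq_sqrt h]
  · rw [mul_pow, Complex.I_sq, ← Complex.ofReal_pow, Real.sq_sqrt (by linarith)]
    push_cast
    ring

theorem sq_ne {x : ℝ} (h : x ≠ 0) : sq x ≠ 0 := by
  intro h1
  have h2 := sq_sq x
  rw [h1] at h2
  apply h
  have h3 : (x : ℂ) = 0 := by rw [← h2]; norm_num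
  exact_mod_cast h3

theorem sq_pos {x : ℝ} (h : 0 < x) : sq x = (x : ℂ) ^ ((1 : ℂ) / 2) := by
  unfold sq
  rw [if_pos h.le, Real.sqrt_eq_rpow, Complex.ofReal_cpow h.le]
  norm_num

theorem sq_neg {x : ℝ} (h : x < 0) : sq x = (-(x : ℂ)) ^ ((1 : ℂ) / 2) * Complex.I := by
  unfold sq
  rw [if_neg (not_le.2 h), Real.sqrt_eq_rpow, Complex.ofReal_cpow (by linarith)]
  norm_num

/-- `sq (- x) = i sq x` for positive `x` -/
theorem sq_neg_pos {x : ℝ} (h : 0 < x) : sq (-x) = sq x * Complex.I := by
  unfold sq
  rw [if_neg (by linarith), if_pos h.le, neg_neg]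

omit [DecidableEq P] in
theorem rf_sq (Γ : ι → ι → Prop) (c : P → ι) (a : P → ℝ) (m : P) :
    rf Γ c a m ^ 2 = nb Γ c (fun l => (a l : ℂ)) m := by
  classical
  unfold rf nb
  rw [← Finset.prod_pow]
  refine Finset.prod_congr rfl fun l _ => ?_
  rw [sq_sq]
  push_cast
  rfl

omit [DecidableEq P] in
theorem rf_ne {Γ : ι → ι → Prop} (hi : ∀ j, ¬ Γ j j) (c : P → ι) {a : P → ℝ}
    (ha : Function.Injective a) (m : P) : rf Γ c a m ≠ 0 := by
  classical
  unfold rf
  rw [Finset.prod_ne_zero_iff]
  intro l hl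
  simp only [Finset.mem_filter, Finset.mem_univ, true_and] at hl
  apply sq_ne
  intro h
  have h1 : m = l := ha (sub_eq_zero.1 h)
  rw [h1] at hl
  exact hi _ hl

variable {a : P → ℝ} {p q : P}

omit [Fintype P] in
theorem rot_p (t : ℝ) : rot a p q t p = (((a p + a q) / 2 : ℝ) : ℂ) -
    (((a q - a p) / 2 : ℝ) : ℂ) * Complex.exp ((Real.pi * t : ℝ) * Complex.I) := by
  unfold rot
  rw [if_pos rfl]

omit [Fintype P] in
theorem rot_q (hpq : p ≠ q) (t : ℝ) : rot a p q t q = (((a p + a q) / 2 : ℝ) : ℂ) +
    (((a q - a p) / 2 : ℝ) : ℂ) * Complex.exp ((Real.pi * t : ℝ) * Complex.I) := by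
  unfold rot
  rw [if_neg hpq.symm, if_pos rfl]

omit [Fintype P] in
theorem rot_o {m : P} (h1 : m ≠ p) (h2 : m ≠ q) (t : ℝ) : rot a p q t m = (a m : ℂ) := by
  unfold rot
  rw [if_neg h1, if_neg h2]

omit [Fintype P] in
theorem rot_zero (hpq : p ≠ q) (m : P) : rot a p q 0 m = (a m : ℂ) := by
  by_cases h1 : m = p
  · rw [h1, rot_p, mul_zero, Complex.ofReal_zero, zero_mul, Complex.exp_zero]
    push_cast
    ring
  · by_cases h2 : m = q
    · rw [h2, rot_q hpq, mul_zero, Complex.ofReal_zero, zero_mul, Complex.exp_zero]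
      push_cast
      ring
    · exact rot_o h1 h2 0

omit [Fintype P] in
theorem rot_one (hpq : p ≠ q) (m : P) : rot a p q 1 m = (a (Equiv.swap p q m) : ℂ) := by
  have h0 : Complex.exp ((Real.pi * 1 : ℝ) * Complex.I) = -1 := by
    rw [mul_one, Complex.exp_pi_mul_I]
  by_cases h1 : m = p
  · rw [h1, rot_p, h0, Equiv.swap_apply_left]
    push_cast
    ring
  · by_cases h2 : m = q
    · rw [h2, rot_q hpq, h0, Equiv.swap_apply_right]
      push_cast
      ring
    · rw [rot_o h1 h2, Equiv.swap_apply_of_ne_of_ne h1 h2]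

omit [Fintype P] in
theorem rot_cont (a : P → ℝ) (p q m : P) : Continuous fun t => rot a p q t m := by
  unfold rot
  split_ifs
  · fun_prop
  · fun_prop
  · fun_prop

omit [Fintype P] in
theorem rot_re_p (h : a p < a q) (t : ℝ) : a p ≤ (rot a p q t p).re ∧ (rot a p q t p).re ≤ a q := by
  rw [rot_p, Complex.sub_re, Complex.ofReal_re, Complex.re_ofReal_mul, Complex.exp_ofReal_mul_I_re]
  have h1 := Real.neg_one_le_cos (Real.pi * t)
  have h2 := Real.cos_le_one (Real.pi * t)
  constructor <;> nlinarith

omit [Fintype P] in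
theorem rot_re_q (h : a p < a q) (t : ℝ) : a p ≤ (rot a p q t q).re ∧ (rot a p q t q).re ≤ a q := by
  have hpq : p ≠ q := fun e => by rw [e] at h; exact lt_irrefl _ h
  rw [rot_q hpq, Complex.add_re, Complex.ofReal_re, Complex.re_ofReal_mul,
    Complex.exp_ofReal_mul_I_re]
  have h1 := Real.neg_one_le_cos (Real.pi * t)
  have h2 := Real.cos_le_one (Real.pi * t)
  constructor <;> nlinarith

/-- The difference of two points, at least one of them fixed, stays in a half plane. -/
theorem rot_side (ha : Function.Injective a) (h : a p < a q)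
    (hadj : ∀ m, m ≠ p → m ≠ q → a m < a p ∨ a q < a m) {m l : P} (hml : m ≠ l)
    (h1 : ¬ (m = p ∧ l = q)) (h2 : ¬ (m = q ∧ l = p)) :
    (∀ t, 0 < (rot a p q t m - rot a p q t l).re) ∨
      ∀ t, (rot a p q t m - rot a p q t l).re < 0 := by
  have key : ∀ m, (m = p ∨ m = q) → ∀ t, a p ≤ (rot a p q t m).re ∧ (rot a p q t m).re ≤ a q := by
    rintro m (rfl | rfl) t
    · exact rot_re_p h t
    · exact rot_re_q h t
  by_cases hm : m = p ∨ m = q
  · have hl : l ≠ p ∧ l ≠ q := by
      rcases hm with rfl | rfl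
      · exact ⟨hml.symm, fun e => h1 ⟨rfl, e⟩⟩
      · exact ⟨fun e => h2 ⟨rfl, e⟩, hml.symm⟩
    rcases hadj l hl.1 hl.2 with h3 | h3
    · left
      intro t
      rw [Complex.sub_re, rot_o hl.1 hl.2, Complex.ofReal_re]
      linarith [(key m hm t).1]
    · right
      intro t
      rw [Complex.sub_re, rot_o hl.1 hl.2, Complex.ofReal_re]
      linarith [(key m hm t).2]
  · have hm' : m ≠ p ∧ m ≠ q := ⟨fun e => hm (Or.inl e), fun e => hm (Or.inr e)⟩
    by_cases hl : l = p ∨ l = q
    · rcases hadj m hm'.1 hm'.2 with h3 | h3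
      · right
        intro t
        rw [Complex.sub_re, rot_o hm'.1 hm'.2, Complex.ofReal_re]
        linarith [(key l hl t).1]
      · left
        intro t
        rw [Complex.sub_re, rot_o hm'.1 hm'.2, Complex.ofReal_re]
        linarith [(key l hl t).2]
    · have hl' : l ≠ p ∧ l ≠ q := ⟨fun e => hl (Or.inl e), fun e => hl (Or.inr e)⟩
      rcases lt_trichotomy (a m) (a l) with h3 | h3 | h3
      · right
        intro t
        rw [Complex.sub_re, rot_o hm'.1 hm'.2, rot_o hl'.1 hl'.2, Complex.ofReal_re,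
          Complex.ofReal_re]
        linarith
      · exact absurd (ha h3) hml
      · left
        intro t
        rw [Complex.sub_re, rot_o hm'.1 hm'.2, rot_o hl'.1 hl'.2, Complex.ofReal_re,
          Complex.ofReal_re]
        linarith

/-- A continuous square root of the difference of two points along the half twist. -/
theorem exists_root (ha : Function.Injective a) (h : a p < a q)
    (hadj : ∀ m, m ≠ p → m ≠ q → a m < a p ∨ a q < a m) {m l : P} (hml : m ≠ l) :
    ∃ f : ℝ → ℂ, Continuous f ∧ (∀ t, f t ^ 2 = rot a p q t m - rot a p q t l) ∧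
      f 0 = sq (a m - a l) ∧
      f 1 = (if m = p ∧ l = q then -1 else 1) *
        sq (a (Equiv.swap p q m) - a (Equiv.swap p q l)) := by
  have hpq : p ≠ q := fun e => by rw [e] at h; exact lt_irrefl _ h
  have hexp : ∀ t : ℝ, Complex.exp ((Real.pi * t / 2 : ℝ) * Complex.I) ^ 2 =
      Complex.exp ((Real.pi * t : ℝ) * Complex.I) := by
    intro t
    rw [← Complex.exp_nat_mul]
    congr 1
    push_cast
    ring
  have hexp0 : Complex.exp ((Real.pi * 0 / 2 : ℝ) * Complex.I) = 1 := by
    rw [mul_zero, zero_div, Complex.ofReal_zero, zero_mul, Complex.exp_zero]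
  have hexp1 : Complex.exp ((Real.pi * 1 / 2 : ℝ) * Complex.I) = Complex.I := by
    rw [mul_one]
    push_cast
    exact Complex.exp_pi_div_two_mul_I
  have hd : 0 < a q - a p := by linarith
  by_cases h1 : m = p ∧ l = q
  · obtain ⟨rfl, rfl⟩ := h1
    refine ⟨fun t => sq (a m - a l) * Complex.exp ((Real.pi * t / 2 : ℝ) * Complex.I),
      by fun_prop, fun t => ?_, ?_, ?_⟩
    · show (sq (a m - a l) * Complex.exp ((Real.pi * t / 2 : ℝ) * Complex.I)) ^ 2 = _
      rw [mul_pow, sq_sq, hexp, rot_p, rot_q hpq]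
      push_cast
      ring
    · show sq (a m - a l) * Complex.exp ((Real.pi * 0 / 2 : ℝ) * Complex.I) = _
      rw [hexp0, mul_one]
    · show sq (a m - a l) * Complex.exp ((Real.pi * 1 / 2 : ℝ) * Complex.I) = _
      rw [hexp1, if_pos ⟨rfl, rfl⟩, Equiv.swap_apply_left, Equiv.swap_apply_right]
      have e : a m - a l = -(a l - a m) := by ring
      rw [e, sq_neg_pos hd, mul_assoc, Complex.I_mul_I]
      ring
  · by_cases h2 : m = q ∧ l = p
    · obtain ⟨rfl, rfl⟩ := h2
      refine ⟨fun t => sq (a m - a l) * Complex.exp ((Real.pi * t / 2 : ℝ) * Complex.I),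
        by fun_prop, fun t => ?_, ?_, ?_⟩
      · show (sq (a m - a l) * Complex.exp ((Real.pi * t / 2 : ℝ) * Complex.I)) ^ 2 = _
        rw [mul_pow, sq_sq, hexp, rot_p, rot_q hpq]
        push_cast
        ring
      · show sq (a m - a l) * Complex.exp ((Real.pi * 0 / 2 : ℝ) * Complex.I) = _
        rw [hexp0, mul_one]
      · show sq (a m - a l) * Complex.exp ((Real.pi * 1 / 2 : ℝ) * Complex.I) = _
        rw [hexp1, if_neg h1, Equiv.swap_apply_left, Equiv.swap_apply_right, one_mul]
        have e : a l - a m = -(a m - a l) := by ring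
        rw [e, sq_neg_pos hd]
    · have e0 : ((a m - a l : ℝ) : ℂ) = rot a p q 0 m - rot a p q 0 l := by
        rw [rot_zero hpq, rot_zero hpq]
        push_cast
        rfl
      have e1 : ((a (Equiv.swap p q m) - a (Equiv.swap p q l) : ℝ) : ℂ) =
          rot a p q 1 m - rot a p q 1 l := by
        rw [rot_one hpq, rot_one hpq]
        push_cast
        rfl
      rcases rot_side ha h hadj hml h1 h2 with h3 | h3
      · refine ⟨fun t => (rot a p q t m - rot a p q t l) ^ ((1 : ℂ) / 2), ?_, fun t => ?_, ?_, ?_⟩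
        · refine Continuous.cpow ((rot_cont a p q m).sub (rot_cont a p q l)) continuous_const ?_
          intro t
          exact Or.inl (h3 t)
        · show ((rot a p q t m - rot a p q t l) ^ ((1 : ℂ) / 2)) ^ 2 = _
          rw [← Complex.cpow_nat_mul]
          norm_num
        · have h4 := h3 0
          rw [← e0, Complex.ofReal_re] at h4
          show (rot a p q 0 m - rot a p q 0 l) ^ ((1 : ℂ) / 2) = _
          rw [sq_pos h4, e0]
        · have h4 := h3 1
          rw [← e1, Complex.ofReal_re] at h4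
          show (rot a p q 1 m - rot a p q 1 l) ^ ((1 : ℂ) / 2) = _
          rw [sq_pos h4, e1, if_neg h1, one_mul]
      · refine ⟨fun t => (-(rot a p q t m - rot a p q t l)) ^ ((1 : ℂ) / 2) * Complex.I, ?_,
          fun t => ?_, ?_, ?_⟩
        · refine Continuous.mul ?_ continuous_const
          refine Continuous.cpow ((rot_cont a p q m).sub (rot_cont a p q l)).neg continuous_const ?_
          intro t
          left
          rw [Complex.neg_re]
          linarith [h3 t]
        · show ((-(rot a p q t m - rot a p q t l)) ^ ((1 : ℂ) / 2) * Complex.I) ^ 2 = _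
          rw [mul_pow, ← Complex.cpow_nat_mul, Complex.I_sq]
          norm_num
        · have h4 := h3 0
          rw [← e0, Complex.ofReal_re] at h4
          show (-(rot a p q 0 m - rot a p q 0 l)) ^ ((1 : ℂ) / 2) * Complex.I = _
          rw [sq_neg h4, e0]
        · have h4 := h3 1
          rw [← e1, Complex.ofReal_re] at h4
          show (-(rot a p q 1 m - rot a p q 1 l)) ^ ((1 : ℂ) / 2) * Complex.I = _
          rw [sq_neg h4, e1, if_neg h1, one_mul]

/-- The points stay different along the half twist. -/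
theorem rot_inj (ha : Function.Injective a) (h : a p < a q)
    (hadj : ∀ m, m ≠ p → m ≠ q → a m < a p ∨ a q < a m) (t : ℝ) :
    Function.Injective (rot a p q t) := by
  have hpq : p ≠ q := fun e => by rw [e] at h; exact lt_irrefl _ h
  intro m l hml
  by_contra hne
  have hd : ((a q - a p : ℝ) : ℂ) ≠ 0 := by
    rw [Complex.ofReal_ne_zero]
    linarith
  have he := Complex.exp_ne_zero ((Real.pi * t : ℝ) * Complex.I)
  by_cases h1 : m = p ∧ l = q
  · obtain ⟨rfl, rfl⟩ := h1
    rw [rot_p, rot_q hpq] at hml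
    apply mul_ne_zero hd he
    push_cast at hml ⊢
    linear_combination -hml
  · by_cases h2 : m = q ∧ l = p
    · obtain ⟨rfl, rfl⟩ := h2
      rw [rot_p, rot_q hpq] at hml
      apply mul_ne_zero hd he
      push_cast at hml ⊢
      linear_combination hml
    · rcases rot_side ha h hadj hne h1 h2 with h3 | h3
      · have h4 := h3 t
        rw [hml, sub_self, Complex.zero_re] at h4
        exact lt_irrefl _ h4
      · have h4 := h3 t
        rw [hml, sub_self, Complex.zero_re] at h4
        exact lt_irrefl _ h4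

open Classical in
/-- The signs along the half twist of `a p < a q`: the sign of `p` changes iff the classes of `p`
and `q` do not commute, the other signs do not change. -/
theorem half_twist {Γ : ι → ι → Prop} (hi : ∀ j, ¬ Γ j j) (c : P → ι)
    (ha : Function.Injective a) (h : a p < a q)
    (hadj : ∀ m, m ≠ p → m ≠ q → a m < a p ∨ a q < a m) (m : P) (y : ℝ → ℂ)
    (hy : ContinuousOn y (Icc 0 1))
    (hy2 : ∀ t ∈ Icc (0 : ℝ) 1, y t ^ 2 = nb Γ c (rot a p q t) m) (s : ℤˣ)
    (h0 : y 0 = ((s : ℤ) : ℂ) * rf Γ c a m) :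
    y 1 = (((if m = p ∧ Γ (c p) (c q) then -s else s : ℤˣ) : ℤ) : ℂ) *
      rf Γ c (fun l => a (Equiv.swap p q l)) m := by
  have hne : ∀ l, Γ (c m) (c l) → m ≠ l := by
    rintro l hl rfl
    exact hi _ hl
  have hex : ∀ l, Γ (c m) (c l) → ∃ f : ℝ → ℂ, Continuous f ∧
      (∀ t, f t ^ 2 = rot a p q t m - rot a p q t l) ∧ f 0 = sq (a m - a l) ∧
      f 1 = (if m = p ∧ l = q then -1 else 1) *
        sq (a (Equiv.swap p q m) - a (Equiv.swap p q l)) :=
    fun l hl => exists_root ha h hadj (hne l hl)
  choose! f hf1 hf2 hf3 hf4 using hex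
  have hz : ∀ t, (((s : ℤ) : ℂ) *
      ∏ l ∈ Finset.univ.filter (fun l => Γ (c m) (c l)), f l t) ^ 2 =
        nb Γ c (rot a p q t) m := by
    intro t
    have hs : (((s : ℤ) : ℂ)) ^ 2 = 1 := by
      rcases Int.units_eq_one_or s with e | e <;> rw [e] <;> norm_num
    rw [mul_pow, hs, one_mul, ← Finset.prod_pow]
    unfold nb
    refine Finset.prod_congr rfl fun l hl => ?_
    simp only [Finset.mem_filter, Finset.mem_univ, true_and] at hl
    exact hf2 l hl t
  have hne0 : ∀ t, nb Γ c (rot a p q t) m ≠ 0 := by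
    intro t
    unfold nb
    rw [Finset.prod_ne_zero_iff]
    intro l hl
    simp only [Finset.mem_filter, Finset.mem_univ, true_and] at hl
    rw [sub_ne_zero]
    exact fun e => hne l hl (rot_inj ha h hadj t e)
  have hc : Continuous fun t => ((s : ℤ) : ℂ) *
      ∏ l ∈ Finset.univ.filter (fun l => Γ (c m) (c l)), f l t := by
    refine continuous_const.mul (continuous_finsetProd _ fun l hl => ?_)
    simp only [Finset.mem_filter, Finset.mem_univ, true_and] at hl
    exact hf1 l hl
  have key := IsPreconnected.eq_of_sq_eq (isPreconnected_Icc (a := (0 : ℝ)) (b := 1)) hy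
    hc.continuousOn (fun t ht => by
      show y t ^ 2 = (((s : ℤ) : ℂ) *
        ∏ l ∈ Finset.univ.filter (fun l => Γ (c m) (c l)), f l t) ^ 2
      rw [hz t, hy2 t ht])
    (fun {t} _ e => hne0 t (by rw [← hz t]; show _ = (0 : ℂ); rw [e]; norm_num))
    (y := 0) (left_mem_Icc.2 zero_le_one) (by
      show y 0 = ((s : ℤ) : ℂ) * ∏ l ∈ Finset.univ.filter (fun l => Γ (c m) (c l)), f l 0
      rw [h0]
      congr 1
      unfold rf
      refine Finset.prod_congr rfl fun l hl => ?_
      simp only [Finset.mem_filter, Finset.mem_univ, true_and] at hl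
      exact (hf3 l hl).symm)
  have h1 := key (right_mem_Icc.2 (zero_le_one : (0 : ℝ) ≤ 1))
  have h2 : y 1 = ((s : ℤ) : ℂ) * ∏ l ∈ Finset.univ.filter (fun l => Γ (c m) (c l)), f l 1 := h1
  have h3 : ∏ l ∈ Finset.univ.filter (fun l => Γ (c m) (c l)), f l 1 =
      (if m = p ∧ Γ (c p) (c q) then -1 else 1) * rf Γ c (fun l => a (Equiv.swap p q l)) m := by
    unfold rf
    have h4 : ∀ l ∈ Finset.univ.filter (fun l => Γ (c m) (c l)), f l 1 =
        (if m = p ∧ l = q then -1 else 1) *
          sq (a (Equiv.swap p q m) - a (Equiv.swap p q l)) := by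
      intro l hl
      simp only [Finset.mem_filter, Finset.mem_univ, true_and] at hl
      exact hf4 l hl
    rw [Finset.prod_congr rfl h4, Finset.prod_mul_distrib]
    congr 1
    by_cases hm : m = p
    · subst hm
      simp only [true_and]
      rw [Finset.prod_ite_eq']
      simp only [Finset.mem_filter, Finset.mem_univ, true_and]
    · simp only [hm, false_and, if_false, Finset.prod_const_one]
  rw [h2, h3]
  split_ifs
  · push_cast
    ring
  · rw [one_mul]

end Twist

section Move

variable {ι P G : Type} [Fintype P] [Group G]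

/-- Every class has at most two elements. -/
def Two (C : ι → ConjClasses G) : Prop :=
  ∀ i, ∀ x ∈ (C i).carrier, ∀ y ∈ (C i).carrier, ∀ z ∈ (C i).carrier, x = y ∨ y = z ∨ x = z

open Classical in
/-- The sign of an element of a class with the representative `r`. -/
noncomputable def sg (r x : G) : ℤˣ := if x = r then 1 else -1

open Classical in
/-- The point of the fibre over the real configuration `a` which belongs to the tuple `g`; the
elements `r i` of the classes `C i` are fixed. -/
noncomputable def pg (C : ι → ConjClasses G) (r : ι → G) (c : P → ι) (a : P → ℝ) (g : P → G) :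
    P → ℂ := fun m =>
  if ncc C (c m) then ((sg (r (c m)) (g m) : ℤ) : ℂ) * rf (ncg C) c a m else 1

theorem tw_conj {C : ι → ConjClasses G} {i : ι} {x : G} (hx : x ∈ (C i).carrier) (b : G) :
    b * x * b⁻¹ ∈ (C i).carrier := by
  rw [ConjClasses.mem_carrier_iff_mk_eq] at hx ⊢
  rw [← hx, ConjClasses.mk_eq_mk_iff_isConj]
  exact (isConj_iff.2 ⟨b, rfl⟩).symm

theorem tw_irrefl {C : ι → ConjClasses G} (h : Two C) (j : ι) : ¬ ncg C j j := by
  rintro ⟨x, hx, y, hy, hne⟩
  rcases h j x hx y hy _ (tw_conj hy x) with e | e | e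
  · exact hne (by rw [e])
  · apply hne
    have e1 : x * y = y * x := by
      calc x * y = x * y * x⁻¹ * x := by rw [inv_mul_cancel_right]
        _ = y * x := by rw [← e]
    exact e1
  · apply hne
    have e1 : x * y = x * x := by
      calc x * y = x * y * x⁻¹ * x := by rw [inv_mul_cancel_right]
        _ = x * x := by rw [← e]
    have e2 : y = x := mul_left_cancel e1
    rw [e2]

/-- Elements of classes which do not commute do not commute. -/
theorem tw_ne {C : ι → ConjClasses G} (h : Two C) {i j : ι} (hij : ncg C i j) {x b : G}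
    (hx : x ∈ (C i).carrier) (hb : b ∈ (C j).carrier) : b⁻¹ * x * b ≠ x := by
  intro hxb
  obtain ⟨a, ha, b', hb', hne⟩ := hij
  have hcomm : x * b = b * x := by
    calc x * b = b * (b⁻¹ * x * b) := by group
      _ = b * x := by rw [hxb]
  rw [ConjClasses.mem_carrier_iff_mk_eq] at hb hb'
  rw [← hb, ConjClasses.mk_eq_mk_iff_isConj] at hb'
  obtain ⟨k, hk⟩ := isConj_iff.1 hb'
  -- `b = k b' k⁻¹`
  have ha1 : k * a * k⁻¹ ∈ (C i).carrier := tw_conj ha k
  have ha2 : b⁻¹ * (k * a * k⁻¹) * b ∈ (C i).carrier := by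
    have := tw_conj ha1 b⁻¹
    rwa [inv_inv] at this
  have hnc : (k * a * k⁻¹) * b ≠ b * (k * a * k⁻¹) := by
    rw [← hk]
    intro e
    apply hne
    have e1 : k * (a * b') * k⁻¹ = k * (b' * a) * k⁻¹ := by
      calc k * (a * b') * k⁻¹ = k * a * k⁻¹ * (k * b' * k⁻¹) := by group
        _ = k * b' * k⁻¹ * (k * a * k⁻¹) := e
        _ = k * (b' * a) * k⁻¹ := by group
    exact mul_left_cancel (mul_right_cancel e1)
  rcases h i x hx _ ha1 _ ha2 with e | e | e
  · rw [← e] at hnc
    exact hnc hcomm
  · apply hnc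
    calc (k * a * k⁻¹) * b = b * (b⁻¹ * (k * a * k⁻¹) * b) := by group
      _ = b * (k * a * k⁻¹) := by rw [← e]
  · apply hnc
    have e1 : k * a * k⁻¹ = x := by
      calc k * a * k⁻¹ = b * (b⁻¹ * (k * a * k⁻¹) * b) * b⁻¹ := by group
        _ = b * x * b⁻¹ := by rw [← e]
        _ = x * b * b⁻¹ := by rw [hcomm]
        _ = x := by group
    rw [e1]
    exact hcomm

theorem tw_eq {C : ι → ConjClasses G} {i j : ι} (hij : ¬ ncg C i j) {x b : G}
    (hx : x ∈ (C i).carrier) (hb : b ∈ (C j).carrier) : b⁻¹ * x * b = x := by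
  by_contra hne
  refine hij ⟨x, hx, b, hb, fun e => hne ?_⟩
  rw [mul_assoc, e]
  group

theorem sg_flip {C : ι → ConjClasses G} (h : Two C) {i : ι} {r x y : G} (hr : r ∈ (C i).carrier)
    (hx : x ∈ (C i).carrier) (hy : y ∈ (C i).carrier) (hxy : y ≠ x) : sg r y = -sg r x := by
  unfold sg
  by_cases h1 : x = r
  · rw [if_pos h1, if_neg (fun e => hxy (e.trans h1.symm))]
  · have h2 : y = r := by
      rcases h i x hx y hy r hr with e | e | e
      · exact absurd e.symm hxy
      · exact e
      · exact absurd e h1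
    rw [if_neg h1, if_pos h2, neg_neg]

/-- The points `pg` are points of the ordered Hurwitz space. -/
theorem pg_pnt (C : ι → ConjClasses G) (r : ι → G) (c : P → ι) {a : P → ℝ}
    (ha : Function.Injective a) (g : P → G) :
    Pnt (ncg C) (ncc C) c (fun m => (a m : ℂ)) (pg C r c a g) := by
  refine ⟨fun m l e => ha (Complex.ofReal_injective e), fun m hm => ?_, fun m hm => ?_⟩
  · unfold pg
    rw [if_pos hm, mul_pow, rf_sq]
    have hs : (((sg (r (c m)) (g m) : ℤ) : ℂ)) ^ 2 = 1 := by
      rcases Int.units_eq_one_or (sg (r (c m)) (g m)) with e | e <;> rw [e] <;> norm_num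
    rw [hs, one_mul]
  · unfold pg
    rw [if_neg hm]

/-- The fibre over a real configuration: its points are the points `pg` of the tuples `g` of
elements of the classes, and different tuples give different points. -/
theorem pg_exists_unique {C : ι → ConjClasses G} (h : Two C) {r : ι → G}
    (hr : ∀ i, r i ∈ (C i).carrier) (c : P → ι) {a : P → ℝ} (ha : Function.Injective a)
    (y : P → ℂ) (hy : Pnt (ncg C) (ncc C) c (fun m => (a m : ℂ)) y) :
    ∃! g : P → G, (∀ m, g m ∈ (C (c m)).carrier) ∧ pg C r c a g = y := by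
  classical
  have hrf : ∀ m, rf (ncg C) c a m ≠ 0 := rf_ne (tw_irrefl h) c ha
  have hex : ∀ m, ∃ x ∈ (C (c m)).carrier,
      y m = if ncc C (c m) then ((sg (r (c m)) x : ℤ) : ℂ) * rf (ncg C) c a m else 1 := by
    intro m
    by_cases hm : ncc C (c m)
    · have h1 := hy.sq m hm
      rw [← rf_sq] at h1
      rcases sq_eq_sq_iff_eq_or_eq_neg.1 h1 with h2 | h2
      · refine ⟨r (c m), hr _, ?_⟩
        rw [if_pos hm, h2]
        unfold sg
        rw [if_pos rfl]
        norm_num
      · obtain ⟨u, hu, v, hv, huv⟩ := hm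
        have hm' : ncc C (c m) := ⟨u, hu, v, hv, huv⟩
        obtain ⟨x, hx, hxr⟩ : ∃ x ∈ (C (c m)).carrier, x ≠ r (c m) := by
          by_cases hur : u = r (c m)
          · exact ⟨v, hv, fun e => huv (hur.trans e.symm)⟩
          · exact ⟨u, hu, hur⟩
        refine ⟨x, hx, ?_⟩
        rw [if_pos hm', h2]
        unfold sg
        rw [if_neg hxr]
        norm_num
    · exact ⟨r (c m), hr _, by rw [if_neg hm, hy.one m hm]⟩
  choose g hg1 hg2 using hex
  refine ⟨g, ⟨hg1, funext fun m => (hg2 m).symm⟩, ?_⟩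
  rintro g' ⟨hg1', hg2'⟩
  funext m
  have h1 : pg C r c a g' m = y m := by rw [hg2']
  rw [hg2 m] at h1
  unfold pg at h1
  by_cases hm : ncc C (c m)
  · rw [if_pos hm, if_pos hm] at h1
    have h2 := mul_right_cancel₀ (hrf m) h1
    by_contra hne
    have h3 := sg_flip h (hr (c m)) (hg1 m) (hg1' m) hne
    rw [h3] at h2
    rcases Int.units_eq_one_or (sg (r (c m)) (g m)) with e | e <;> rw [e] at h2 <;>
      norm_num at h2
  · by_contra hne
    exact hm ⟨g' m, hg1' m, g m, hg1 m, hne⟩

/-- Permutations of the labels. -/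
theorem pg_comp (C : ι → ConjClasses G) (r : ι → G) (c : P → ι) (a : P → ℝ) (g : P → G)
    (σ : Equiv.Perm P) (hσ : ∀ m, c (σ m) = c m) :
    pg C r c (fun m => a (σ m)) (fun m => g (σ m)) = fun m => pg C r c a g (σ m) := by
  classical
  funext m
  have h1 : rf (ncg C) c (fun m => a (σ m)) m = rf (ncg C) c a (σ m) := by
    unfold rf
    refine Finset.prod_bij' (fun l _ => σ l) (fun l _ => σ.symm l) ?_ ?_ ?_ ?_ ?_
    · intro l hl
      simp only [Finset.mem_filter, Finset.mem_univ, true_and] at hl ⊢
      rw [hσ, hσ]; exact hl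
    · intro l hl
      simp only [Finset.mem_filter, Finset.mem_univ, true_and] at hl ⊢
      rw [hσ] at hl
      have := hσ (σ.symm l)
      rw [Equiv.apply_symm_apply] at this
      rw [← this]; exact hl
    · intro l _; simp
    · intro l _; simp
    · intro l _; rfl
  unfold pg
  rw [h1, hσ]

/-- The monodromy of the half twist of `a p < a q` is the move of Hurwitz: the element `g p` is
replaced by `(g q)⁻¹ * g p * g q`, and the labels `p` and `q` change their places. -/
theorem hurwitz_move [DecidableEq P] {C : ι → ConjClasses G} (h2 : Two C) {r : ι → G}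
    (hr : ∀ i, r i ∈ (C i).carrier) (c : P → ι) {a : P → ℝ} (ha : Function.Injective a) {p q : P}
    (h : a p < a q) (hadj : ∀ m, m ≠ p → m ≠ q → a m < a p ∨ a q < a m) (g : P → G)
    (hg : ∀ m, g m ∈ (C (c m)).carrier) (y : ℝ → P → ℂ)
    (hy : ∀ m, ContinuousOn (fun t => y t m) (Icc 0 1))
    (hp : ∀ t ∈ Icc (0 : ℝ) 1, Pnt (ncg C) (ncc C) c (rot a p q t) (y t))
    (h0 : y 0 = pg C r c a g) :
    y 1 = pg C r c (fun l => a (Equiv.swap p q l))
      (Function.update g p ((g q)⁻¹ * g p * g q)) := by
  classical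
  have hi := tw_irrefl h2
  funext m
  by_cases hm : ncc C (c m)
  · have h3 := half_twist hi c ha h hadj m (fun t => y t m) (hy m)
      (fun t ht => (hp t ht).sq m hm) (sg (r (c m)) (g m)) (by
        show y 0 m = _
        rw [h0]
        unfold pg
        rw [if_pos hm])
    show y 1 m = _
    unfold pg
    rw [if_pos hm]
    refine h3.trans ?_
    congr 3
    by_cases hmp : m = p
    · subst hmp
      rw [Function.update_self]
      by_cases hc : ncg C (c m) (c q)
      · rw [if_pos ⟨rfl, hc⟩]
        have h4 : (g q)⁻¹ * g m * g q ∈ (C (c m)).carrier := by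
          have := tw_conj (hg m) (g q)⁻¹
          rwa [inv_inv] at this
        exact (sg_flip h2 (hr _) (hg m) h4 (tw_ne h2 hc (hg m) (hg q))).symm
      · rw [if_neg (fun e => hc e.2), tw_eq hc (hg m) (hg q)]
    · rw [if_neg (fun e => hmp e.1), Function.update_of_ne hmp]
  · unfold pg
    rw [if_neg hm]
    exact (hp 1 (right_mem_Icc.2 zero_le_one)).one m hm

end Move

end Pool.Agent.HUR.Twist
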